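import Pool.Agent.H15.VO.Fac

/-!
# BlkH : size of the entire factor `H` of a block

At most one of the `2 K` centres `± k g` is at distance `< g / 2` of `s.im`; the other factors are
`1 + O (8 exp (2 R) / g)` by `Ph_far` with `a = 1`, and `2 K` of them multiply to at most `exp (16 K exp (2 R) / g)`.
-/

set_option autoImplicit false

open Complex MeasureTheory Set Filter Topology

namespace VO

namespace Blk

variable (P : Blk)

theorem H_diff : Differentiable ℂ P.H := by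
  have h : P.H = fun s => ∏ k ∈ Finset.Icc 1 P.K, (P.Ph k (s - 1 - Complex.I * (k * P.g) + P.lam * (k : ℂ) ^ 2) *
      P.Ph k (s - 1 + Complex.I * (k * P.g) + P.lam * (k : ℂ) ^ 2)) := by
    funext s
    rfl
  rw [h]
  refine Differentiable.fun_finsetProd fun k _ => ?_
  refine Differentiable.mul ?_ ?_
  · exact (P.Ph_diff k).comp (((differentiable_id.sub_const _).sub_const _).add_const _)
  · exact (P.Ph_diff k).comp (((differentiable_id.sub_const _).add_const _).add_const _)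

private theorem one_le_K : 2 ≤ P.K := by
  have h1 : (2 : ℝ) ≤ P.K := by
    have := P.hK
    have := P.hbR
    nlinarith
  exact_mod_cast h1

theorem H_zero : P.H (1 - P.lam + Complex.I * P.g) = 0 := by
  unfold H
  refine Finset.prod_eq_zero (i := 1) (Finset.mem_Icc.2 ⟨le_rfl, by have := P.one_le_K; omega⟩) ?_
  have h1 : (1 - (P.lam : ℂ) + Complex.I * P.g) - 1 - Complex.I * (((1 : ℕ) : ℂ) * P.g) + P.lam * ((1 : ℕ) : ℂ) ^ 2 = 0 := by
    push_cast
    ring
  rw [h1, P.Ph_zero (by decide), zero_mul]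

/-- the index set of the factors -/
private def idx : Finset (ℕ × Bool) := Finset.Icc 1 P.K ×ˢ Finset.univ

/-- the multiple of the ordinate -/
private def nn (p : ℕ × Bool) : ℤ := if p.2 then (p.1 : ℤ) else -(p.1 : ℤ)

private theorem nn_inj {p q : ℕ × Bool} (hp : 1 ≤ p.1) (hq : 1 ≤ q.1) (h : nn p = nn q) : p = q := by
  obtain ⟨a, b⟩ := p
  obtain ⟨c, d⟩ := q
  unfold nn at h
  simp only at hp hq h
  cases b <;> cases d <;> simp at h ⊢ <;> omega

/-- a factor -/
private noncomputable def fac (s : ℂ) (p : ℕ × Bool) : ℂ :=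
  P.Ph p.1 (s - 1 - Complex.I * (nn p * P.g) + P.lam * (p.1 : ℂ) ^ 2)

private theorem H_eq (s : ℂ) : P.H s = ∏ p ∈ P.idx, P.fac s p := by
  unfold idx
  rw [Finset.prod_product]
  unfold H
  refine Finset.prod_congr rfl fun k _ => ?_
  rw [Fintype.prod_bool]
  unfold fac nn
  simp only [if_true, Bool.false_eq_true, if_false]
  push_cast
  congr 2
  ring

private theorem card_idx : P.idx.card = 2 * P.K := by
  unfold idx
  rw [Finset.card_product, Nat.card_Icc, Finset.card_univ, Fintype.card_bool]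
  omega

private theorem lam_pos : 0 ≤ P.lam := by
  unfold lam
  have := P.hR
  positivity

private theorem fac_re {s : ℂ} {a : ℝ} (has : 1 - a ≤ s.re) (p : ℕ × Bool) :
    -a ≤ (s - 1 - Complex.I * (nn p * P.g) + P.lam * (p.1 : ℂ) ^ 2).re := by
  have h1 : (s - 1 - Complex.I * (nn p * P.g) + P.lam * (p.1 : ℂ) ^ 2).re = s.re - 1 + P.lam * (p.1 : ℝ) ^ 2 := by
    have h2 : (P.lam * (p.1 : ℂ) ^ 2 : ℂ) = ((P.lam * (p.1 : ℝ) ^ 2 : ℝ) : ℂ) := by push_cast; ring
    have h3 : (Complex.I * (nn p * P.g) : ℂ) = Complex.I * ((nn p * P.g : ℝ) : ℂ) := by push_cast; ring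
    rw [h2, h3, Complex.add_re, Complex.sub_re, Complex.sub_re, Complex.one_re, Complex.I_mul_re, Complex.ofReal_im,
      Complex.ofReal_re]
    ring
  rw [h1]
  have h4 : 0 ≤ P.lam * (p.1 : ℝ) ^ 2 := mul_nonneg P.lam_pos (sq_nonneg _)
  linarith

private theorem fac_im (s : ℂ) (p : ℕ × Bool) :
    (s - 1 - Complex.I * (nn p * P.g) + P.lam * (p.1 : ℂ) ^ 2).im = s.im - nn p * P.g := by
  have h2 : (P.lam * (p.1 : ℂ) ^ 2 : ℂ) = ((P.lam * (p.1 : ℝ) ^ 2 : ℝ) : ℂ) := by push_cast; ring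
  have h3 : (Complex.I * (nn p * P.g) : ℂ) = Complex.I * ((nn p * P.g : ℝ) : ℂ) := by push_cast; ring
  rw [h2, h3, Complex.add_im, Complex.sub_im, Complex.sub_im, Complex.one_im, Complex.I_mul_im, Complex.ofReal_im,
    Complex.ofReal_re]
  ring

private theorem g_pos : 0 < P.g := by
  have h1 := P.hg
  have h2 : (2 : ℝ) ≤ P.K := by exact_mod_cast P.one_le_K
  have h3 := Real.exp_pos (2 * P.R)
  have h4 : 0 < 1024 * (P.K : ℝ) * Real.exp (2 * P.R) := by positivity
  linarith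

/-- the distance of a factor to `1` if its centre is far away -/
private noncomputable def eta : ℝ := 8 * Real.exp (2 * P.R) / P.g

private theorem eta_nonneg : 0 ≤ P.eta := by
  unfold eta
  have := P.g_pos
  positivity

private theorem eta_le : 2 * P.K * P.eta ≤ 1 / 64 := by
  unfold eta
  have hg := P.g_pos
  have h : 2 * (P.K : ℝ) * (8 * Real.exp (2 * P.R) / P.g) = (16 * (P.K : ℝ) * Real.exp (2 * P.R)) / P.g := by ring
  rw [h, div_le_iff₀ hg]
  linarith [P.hg]

private theorem fac_far {s : ℂ} (hs : 0 ≤ s.re) (p : ℕ × Bool) (h : P.g / 2 ≤ |s.im - nn p * P.g|) :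
    ‖P.fac s p - 1‖ ≤ P.eta := by
  have h1 := P.Ph_far p.1 zero_le_one (P.fac_re (a := 1) (by linarith) p)
  rw [P.fac_im] at h1
  have hg := P.g_pos
  change ‖P.fac s p - 1‖ * |s.im - nn p * P.g| ≤ _ at h1
  unfold eta
  rw [le_div_iff₀ hg]
  have h2 : ‖P.fac s p - 1‖ * (P.g / 2) ≤ ‖P.fac s p - 1‖ * |s.im - nn p * P.g| :=
    mul_le_mul_of_nonneg_left h (norm_nonneg _)
  rw [mul_one] at h1
  linarith

private theorem norm_prod_sub_one {ι : Type} (t : Finset ι) (f : ι → ℂ) {η : ℝ} (hη : 0 ≤ η) (h : ∀ i ∈ t, ‖f i - 1‖ ≤ η) :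
    ‖∏ i ∈ t, f i - 1‖ ≤ (1 + η) ^ t.card - 1 := by
  classical
  induction t using Finset.induction_on with
  | empty => simp
  | insert i t hi ih =>
    have h1 := ih fun j hj => h j (Finset.mem_insert_of_mem hj)
    have h2 := h i (Finset.mem_insert_self i t)
    rw [Finset.prod_insert hi, Finset.card_insert_of_notMem hi]
    have h3 : f i * ∏ j ∈ t, f j - 1 = (f i - 1) * (∏ j ∈ t, f j - 1) + (f i - 1) + (∏ j ∈ t, f j - 1) := by ring
    rw [h3]
    have h4 : (1 : ℝ) ≤ (1 + η) ^ t.card := one_le_pow₀ (by linarith)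
    calc ‖(f i - 1) * (∏ j ∈ t, f j - 1) + (f i - 1) + (∏ j ∈ t, f j - 1)‖
        ≤ ‖f i - 1‖ * ‖∏ j ∈ t, f j - 1‖ + ‖f i - 1‖ + ‖∏ j ∈ t, f j - 1‖ := by
          refine (norm_add_le _ _).trans (add_le_add ((norm_add_le _ _).trans (add_le_add (norm_mul_le _ _) le_rfl)) le_rfl)
      _ ≤ η * ((1 + η) ^ t.card - 1) + η + ((1 + η) ^ t.card - 1) :=
          add_le_add (add_le_add (mul_le_mul h2 h1 (norm_nonneg _) hη) h2) h1
      _ = (1 + η) ^ (t.card + 1) - 1 := by ring

private theorem norm_prod_le {ι : Type} (t : Finset ι) (f : ι → ℂ) {η : ℝ} (_hη : 0 ≤ η) (h : ∀ i ∈ t, ‖f i - 1‖ ≤ η) :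
    ‖∏ i ∈ t, f i‖ ≤ (1 + η) ^ t.card := by
  rw [norm_prod]
  refine (Finset.prod_le_prod (fun _ _ => norm_nonneg _) (g := fun _ => 1 + η) fun i hi => ?_).trans ?_
  · have h1 : ‖f i‖ = ‖(f i - 1) + 1‖ := by rw [sub_add_cancel]
    rw [h1]
    refine (norm_add_le _ _).trans ?_
    rw [norm_one]
    linarith [h i hi]
  · rw [Finset.prod_const]

private theorem pow_le (n : ℕ) (hn : n ≤ 2 * P.K) : (1 + P.eta) ^ n ≤ 1 + 2 * (2 * P.K * P.eta) := by
  have h0 := P.eta_nonneg
  have h1 : (1 + P.eta) ^ n ≤ (1 + P.eta) ^ (2 * P.K) := pow_le_pow_right₀ (by linarith) hn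
  have h2 : 1 + P.eta ≤ Real.exp P.eta := by linarith [Real.add_one_le_exp P.eta]
  have h3 : (1 + P.eta) ^ (2 * P.K) ≤ Real.exp (2 * P.K * P.eta) := by
    calc (1 + P.eta) ^ (2 * P.K) ≤ (Real.exp P.eta) ^ (2 * P.K) := pow_le_pow_left₀ (by linarith) h2 _
      _ = Real.exp (2 * P.K * P.eta) := by
          rw [← Real.exp_nat_mul]
          congr 1
          push_cast
          ring
  have h4 : 0 ≤ 2 * (P.K : ℝ) * P.eta := by positivity
  have h5 := P.eta_le
  have h6 : Real.exp (2 * P.K * P.eta) ≤ 1 + 2 * (2 * P.K * P.eta) := by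
    have h7 := Real.abs_exp_sub_one_le (x := 2 * P.K * P.eta) (by rw [abs_of_nonneg h4]; linarith)
    rw [abs_of_nonneg h4] at h7
    have h8 := le_abs_self (Real.exp (2 * P.K * P.eta) - 1)
    linarith
  linarith

theorem H_far {s : ℂ} (hs : 0 ≤ s.re) (ht : |s.im| ≤ P.g / 2 ∨ 2 * (P.K : ℝ) * P.g ≤ |s.im|) :
    ‖P.H s - 1‖ ≤ 64 * P.K * Real.exp (2 * P.R) / P.g := by
  have hg := P.g_pos
  have hK : (2 : ℝ) ≤ P.K := by exact_mod_cast P.one_le_K
  rw [H_eq]
  have hfar : ∀ p ∈ P.idx, ‖P.fac s p - 1‖ ≤ P.eta := by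
    intro p hp
    refine P.fac_far hs p ?_
    unfold idx at hp
    have hp1 := Finset.mem_Icc.1 (Finset.mem_product.1 hp).1
    have h1 : (1 : ℝ) ≤ p.1 := by exact_mod_cast hp1.1
    have h2 : (p.1 : ℝ) ≤ P.K := by exact_mod_cast hp1.2
    have h3 : |((nn p : ℤ) : ℝ) * P.g| = p.1 * P.g := by
      rw [abs_mul, abs_of_pos hg]
      congr 1
      unfold nn
      by_cases h : p.2 = true
      · rw [if_pos h]
        push_cast
        exact abs_of_nonneg (by linarith)
      · rw [if_neg h]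
        push_cast
        rw [abs_neg]
        exact abs_of_nonneg (by linarith)
    have h5 : p.1 * P.g ≤ P.K * P.g := mul_le_mul_of_nonneg_right h2 hg.le
    have h6 : 1 * P.g ≤ p.1 * P.g := mul_le_mul_of_nonneg_right h1 hg.le
    have h7 : 2 * P.g ≤ P.K * P.g := mul_le_mul_of_nonneg_right hK hg.le
    rcases ht with ht | ht
    · have h4 := abs_sub_abs_le_abs_sub (((nn p : ℤ) : ℝ) * P.g) s.im
      rw [abs_sub_comm, h3] at h4
      linarith
    · have h4 := abs_sub_abs_le_abs_sub s.im (((nn p : ℤ) : ℝ) * P.g)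
      rw [h3] at h4
      have h8 : 2 * (P.K : ℝ) * P.g = 2 * (P.K * P.g) := by ring
      linarith
  refine (norm_prod_sub_one _ _ P.eta_nonneg hfar).trans ?_
  rw [card_idx]
  have h1 := P.pow_le (2 * P.K) le_rfl
  have h2 : 2 * (2 * (P.K : ℝ) * P.eta) = 32 * (P.K : ℝ) * Real.exp (2 * P.R) / P.g := by
    unfold eta
    ring
  have h3 : 64 * (P.K : ℝ) * Real.exp (2 * P.R) / P.g = 2 * (32 * (P.K : ℝ) * Real.exp (2 * P.R) / P.g) := by ring
  have h4 : 0 ≤ 32 * (P.K : ℝ) * Real.exp (2 * P.R) / P.g := by positivity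
  rw [h3]
  linarith

theorem H_near {s : ℂ} (hs : 0 ≤ s.re) {a : ℝ} (ha : 0 ≤ a) (has : 1 - a ≤ s.re) :
    ‖P.H s‖ ≤ 8 * (P.b * P.R) * Real.exp (2 * P.R * a) := by
  classical
  have hg := P.g_pos
  have hR0 : (0 : ℝ) ≤ P.R := by linarith [P.hR]
  have hexp : (1 : ℝ) ≤ Real.exp (2 * P.R * a) := Real.one_le_exp (by positivity)
  have hpos : 1 ≤ P.b * P.R * Real.exp (2 * P.R * a) := one_le_mul_of_one_le_of_one_le P.hbR hexp
  rw [H_eq]
  by_cases hex : ∃ p₀ ∈ P.idx, |s.im - nn p₀ * P.g| < P.g / 2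
  · obtain ⟨p₀, hp₀, hd⟩ := hex
    rw [← Finset.mul_prod_erase _ _ hp₀, norm_mul]
    have h1 : ‖P.fac s p₀‖ ≤ 4 * (P.b * P.R) * Real.exp (2 * P.R * a) := P.Ph_near p₀.1 ha (P.fac_re has p₀)
    have h2 : ‖∏ p ∈ P.idx.erase p₀, P.fac s p‖ ≤ 2 := by
      refine (norm_prod_le _ _ P.eta_nonneg fun p hp => P.fac_far hs p ?_).trans ?_
      · by_contra hlt
        push Not at hlt
        have hp' := Finset.mem_of_mem_erase hp
        have hne := Finset.ne_of_mem_erase hp
        unfold idx at hp₀ hp'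
        have ha1 := (Finset.mem_Icc.1 (Finset.mem_product.1 hp₀).1).1
        have ha2 := (Finset.mem_Icc.1 (Finset.mem_product.1 hp').1).1
        apply hne
        refine nn_inj ha2 ha1 ?_
        have h3 : |((nn p - nn p₀ : ℤ) : ℝ)| * P.g < 1 * P.g := by
          have h4 : |((nn p - nn p₀ : ℤ) : ℝ)| * P.g = |(s.im - nn p₀ * P.g) - (s.im - nn p * P.g)| := by
            rw [← abs_of_pos hg, ← abs_mul, abs_of_pos hg]
            congr 1
            push_cast
            ring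
          rw [h4]
          have h5 := abs_sub (s.im - nn p₀ * P.g) (s.im - nn p * P.g)
          linarith
        have h6 : |((nn p - nn p₀ : ℤ) : ℝ)| < 1 := lt_of_mul_lt_mul_right h3 hg.le
        have h7 : |nn p - nn p₀| < 1 := by exact_mod_cast h6
        have h8 := Int.abs_lt_one_iff.1 h7
        omega
      · have h3 := P.pow_le (P.idx.erase p₀).card (by
          rw [Finset.card_erase_of_mem hp₀, card_idx]
          omega)
        have h4 := P.eta_le
        linarith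
    calc ‖P.fac s p₀‖ * ‖∏ p ∈ P.idx.erase p₀, P.fac s p‖
        ≤ 4 * (P.b * P.R) * Real.exp (2 * P.R * a) * 2 :=
          mul_le_mul h1 h2 (norm_nonneg _) (by nlinarith)
      _ = 8 * (P.b * P.R) * Real.exp (2 * P.R * a) := by ring
  · push Not at hex
    have h2 : ‖∏ p ∈ P.idx, P.fac s p‖ ≤ 2 := by
      refine (norm_prod_le _ _ P.eta_nonneg fun p hp => P.fac_far hs p (hex p hp)).trans ?_
      have h3 := P.pow_le P.idx.card (by rw [card_idx])
      have h4 := P.eta_le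
      linarith
    nlinarith

end Blk

end VO
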