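import Pool.Agent.H15.VO.FacL

/-!
# BlkL : the factor `H` is the exponential of the Laplace transform of the density `m`

`z = s - 1 - i k g + lam k²` gives `exp (- z y) = exp (- (s - 1) y) exp (i k g y) exp (- lam k² y)`; add the conjugate
centre and sum over `k`.
-/

set_option autoImplicit false

open Complex MeasureTheory Set Filter Topology

namespace VO

namespace Blk

variable (P : Blk)

theorem m_meas : Measurable P.m := by
  have : P.m = fun y => ∑ k ∈ Finset.Icc 1 P.K,
      2 * Real.cos (k * P.g * y) * Real.exp (-P.lam * (k : ℝ) ^ 2 * y) * P.ck k y := by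
    funext y
    rfl
  rw [this]
  refine Finset.measurable_sum _ fun k _ => ?_
  refine Measurable.mul ?_ (P.ck_meas k)
  exact Continuous.measurable (by fun_prop)

theorem H_log {s : ℂ} (hs : 1 < s.re) :
    IntegrableOn (fun y : ℝ => (P.m y : ℂ) * Complex.exp (-(s - 1) * y)) (Ioi 0) ∧
    P.H s = Complex.exp (∫ y in Ioi (0 : ℝ), (P.m y : ℂ) * Complex.exp (-(s - 1) * y)) := by
  have hR : 0 < P.R := lt_of_lt_of_le one_pos P.hR
  have hlam : 0 < P.lam := by
    unfold lam
    positivity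
  set zm : ℕ → ℂ := fun k => s - 1 - Complex.I * (k * P.g) + P.lam * (k : ℂ) ^ 2 with hzm
  set zp : ℕ → ℂ := fun k => s - 1 + Complex.I * (k * P.g) + P.lam * (k : ℂ) ^ 2 with hzp
  have hre : ∀ k : ℕ, 0 < (zm k).re ∧ 0 < (zp k).re := by
    intro k
    have h1 : ((P.lam : ℂ) * (k : ℂ) ^ 2).re = P.lam * (k : ℝ) ^ 2 := by
      have : (P.lam : ℂ) * (k : ℂ) ^ 2 = ((P.lam * (k : ℝ) ^ 2 : ℝ) : ℂ) := by push_cast; ring
      rw [this, Complex.ofReal_re]
    have h2 : (Complex.I * ((k : ℂ) * (P.g : ℂ))).re = 0 := by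
      have : Complex.I * ((k : ℂ) * (P.g : ℂ)) = ((k * P.g : ℝ) : ℂ) * Complex.I := by
        push_cast; ring
      rw [this, Complex.re_ofReal_mul, Complex.I_re, mul_zero]
    have h3 : 0 ≤ P.lam * (k : ℝ) ^ 2 := by positivity
    constructor
    · simp only [hzm, Complex.add_re, Complex.sub_re, Complex.one_re, h1, h2]
      linarith
    · simp only [hzp, Complex.add_re, Complex.sub_re, Complex.one_re, h1, h2]
      linarith
  have hM : ∀ k : ℕ, IntegrableOn (fun y : ℝ => (P.ck k y : ℂ) * Complex.exp (-(zm k) * y)) (Ioi 0) :=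
    fun k => (P.Ph_log k (hre k).1).1
  have hP : ∀ k : ℕ, IntegrableOn (fun y : ℝ => (P.ck k y : ℂ) * Complex.exp (-(zp k) * y)) (Ioi 0) :=
    fun k => (P.Ph_log k (hre k).2).1
  have hpt : ∀ y : ℝ, (P.m y : ℂ) * Complex.exp (-(s - 1) * y) =
      ∑ k ∈ Finset.Icc 1 P.K, ((P.ck k y : ℂ) * Complex.exp (-(zm k) * y) +
        (P.ck k y : ℂ) * Complex.exp (-(zp k) * y)) := by
    intro y
    have hm : (P.m y : ℂ) = ∑ k ∈ Finset.Icc 1 P.K,
        2 * Complex.cos (k * P.g * y) * Complex.exp (-P.lam * (k : ℂ) ^ 2 * y) * (P.ck k y : ℂ) := by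
      unfold m
      push_cast
      rfl
    rw [hm, Finset.sum_mul]
    refine Finset.sum_congr rfl fun k _ => ?_
    have e1 : Complex.exp (-(zm k) * y) = Complex.exp (((k : ℂ) * P.g * y) * Complex.I) *
        Complex.exp (-P.lam * (k : ℂ) ^ 2 * y) * Complex.exp (-(s - 1) * y) := by
      rw [← Complex.exp_add, ← Complex.exp_add]
      congr 1
      simp only [hzm]
      ring
    have e2 : Complex.exp (-(zp k) * y) = Complex.exp (-((k : ℂ) * P.g * y) * Complex.I) *
        Complex.exp (-P.lam * (k : ℂ) ^ 2 * y) * Complex.exp (-(s - 1) * y) := by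
      rw [← Complex.exp_add, ← Complex.exp_add]
      congr 1
      simp only [hzp]
      ring
    have e3 : 2 * Complex.cos ((k : ℂ) * P.g * y) = Complex.exp (((k : ℂ) * P.g * y) * Complex.I) +
        Complex.exp (-((k : ℂ) * P.g * y) * Complex.I) := by
      rw [Complex.two_cos]
    rw [e1, e2, e3]
    ring
  have hfun : (fun y : ℝ => (P.m y : ℂ) * Complex.exp (-(s - 1) * y)) = fun y : ℝ =>
      ∑ k ∈ Finset.Icc 1 P.K, ((P.ck k y : ℂ) * Complex.exp (-(zm k) * y) +
        (P.ck k y : ℂ) * Complex.exp (-(zp k) * y)) := funext hpt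
  have hMP : ∀ k ∈ Finset.Icc 1 P.K, Integrable (fun y : ℝ => (P.ck k y : ℂ) * Complex.exp (-(zm k) * y) +
      (P.ck k y : ℂ) * Complex.exp (-(zp k) * y)) (volume.restrict (Ioi 0)) :=
    fun k _ => (hM k).add (hP k)
  constructor
  · rw [hfun]
    exact integrable_finsetSum _ hMP
  · rw [hfun, integral_finsetSum _ hMP, Complex.exp_sum]
    unfold H
    refine Finset.prod_congr rfl fun k _ => ?_
    rw [integral_add (hM k) (hP k), Complex.exp_add, ← (P.Ph_log k (hre k).1).2,
      ← (P.Ph_log k (hre k).2).2]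

end Blk

end VO
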