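import Mathlib

/-!
# PerC : moving a line of integration across a simple pole at `1`

`F s - ρ / (s - 1)` extends analytically to `1` (removable singularity); Cauchy's theorem for the rectangles with
vertices `σ0 ± i Y`, `σ1 ± i Y` (`Complex.integral_boundary_rect_eq_zero_of_differentiableOn`), `Y → ∞`; the integrals of `1 / (s - 1)`
over the vertical lines `[σ ± i Y]` tend to `± π`.
-/

set_option autoImplicit false

open Complex MeasureTheory Set Filter Topology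

namespace VO

private theorem int_line (a : ℝ) (ha : a ≠ 0) (Y : ℝ) :
    ∫ y in (-Y)..Y, 1 / ((a : ℂ) + y * I) = ((2 * Real.arctan (Y / a) : ℝ) : ℂ) := by
  have hpos : ∀ y : ℝ, 0 < a ^ 2 + y ^ 2 := fun y => by positivity
  have hne : ∀ y : ℝ, (a : ℂ) + y * I ≠ 0 := by
    intro y h
    have := congrArg Complex.re h
    simp at this
    exact ha this
  have hd : ∀ y ∈ uIcc (-Y) Y, HasDerivAt
      (fun y : ℝ => ((Real.arctan (y / a) : ℝ) : ℂ) - I * ((Real.log (a ^ 2 + y ^ 2) / 2 : ℝ) : ℂ))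
      (1 / ((a : ℂ) + y * I)) y := by
    intro y _
    have h1 : HasDerivAt (fun y : ℝ => Real.arctan (y / a)) (1 / (1 + (y / a) ^ 2) * (1 / a)) y := by
      have := ((hasDerivAt_id y).div_const a).arctan
      simpa using this
    have h2 : HasDerivAt (fun y : ℝ => Real.log (a ^ 2 + y ^ 2) / 2) ((2 * y / (a ^ 2 + y ^ 2)) / 2) y := by
      have h3 : HasDerivAt (fun y : ℝ => a ^ 2 + y ^ 2) (2 * y) y := by
        have := ((hasDerivAt_id y).pow 2).const_add (a ^ 2)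
        simpa using this
      exact (h3.log (hpos y).ne').div_const 2
    have h4 := (h1.ofReal_comp).sub ((h2.ofReal_comp).const_mul I)
    have e : ((1 / (1 + (y / a) ^ 2) * (1 / a) : ℝ) : ℂ) - I * (((2 * y / (a ^ 2 + y ^ 2)) / 2 : ℝ) : ℂ) =
        1 / ((a : ℂ) + y * I) := by
      have e1 : (1 / (1 + (y / a) ^ 2) * (1 / a) : ℝ) = a / (a ^ 2 + y ^ 2) := by
        have := (hpos y).ne'
        field_simp
      have e2 : ((2 * y / (a ^ 2 + y ^ 2)) / 2 : ℝ) = y / (a ^ 2 + y ^ 2) := by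
        ring
      rw [e1, e2]
      have h5 : ((a : ℂ) ^ 2 + (y : ℂ) ^ 2) ≠ 0 := by exact_mod_cast (hpos y).ne'
      rw [eq_div_iff (hne y)]
      push_cast
      field_simp
      have hI : I ^ 2 = -1 := I_sq
      linear_combination (-(y : ℂ) ^ 2) * hI
    rw [e] at h4
    exact h4
  rw [intervalIntegral.integral_eq_sub_of_hasDerivAt hd]
  · have e1 : Real.arctan (-Y / a) = -Real.arctan (Y / a) := by
      rw [neg_div, Real.arctan_neg]
    rw [e1]
    push_cast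
    have e2 : ((-(Y : ℂ)) ^ 2) = (Y : ℂ) ^ 2 := by ring
    simp only [neg_sq]
    ring
  · apply Continuous.intervalIntegrable
    refine continuous_const.div (by fun_prop) hne

private theorem line_integrable {f : ℝ → ℂ} (hf : Continuous f) {A : ℝ}
    (hA : ∀ y : ℝ, 3 ≤ |y| → ‖f y‖ ≤ A * |y| ^ (-(3 / 2) : ℝ)) : Integrable f := by
  obtain ⟨B, hB⟩ := (isCompact_Icc (a := (-3 : ℝ)) (b := 3)).exists_bound_of_continuousOn hf.continuousOn
  have hB0 : 0 ≤ B := (norm_nonneg _).trans (hB 0 ⟨by norm_num, by norm_num⟩)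
  have hA0 : 0 ≤ A := by
    have h1 := hA 3 (by norm_num)
    by_contra hc
    push Not at hc
    have h2 : (0 : ℝ) < |(3 : ℝ)| ^ (-(3 / 2) : ℝ) := by positivity
    nlinarith [norm_nonneg (f 3)]
  have hint : Integrable (fun y : ℝ => (1 + ‖y‖) ^ (-(3 / 2) : ℝ)) :=
    integrable_one_add_norm (E := ℝ) (μ := volume) (r := 3 / 2) (by simp; norm_num)
  refine (hint.const_mul (A * 2 ^ (3 / 2 : ℝ) + B * 4 ^ (3 / 2 : ℝ))).mono' hf.aestronglyMeasurable ?_
  refine Filter.Eventually.of_forall fun y => ?_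
  have hq : (0 : ℝ) < (1 + ‖y‖) ^ (-(3 / 2) : ℝ) := by positivity
  have hc2 : (0 : ℝ) < (2 : ℝ) ^ (3 / 2 : ℝ) := by positivity
  have hc4 : (0 : ℝ) < (4 : ℝ) ^ (3 / 2 : ℝ) := by positivity
  rcases le_total 3 |y| with h | h
  · have h1 := hA y h
    have h2 : |y| ^ (-(3 / 2) : ℝ) ≤ 2 ^ (3 / 2 : ℝ) * (1 + ‖y‖) ^ (-(3 / 2) : ℝ) := by
      have h3 : (1 + ‖y‖) / 2 ≤ |y| := by
        rw [Real.norm_eq_abs]
        linarith
      have h4 : |y| ^ (-(3 / 2) : ℝ) ≤ ((1 + ‖y‖) / 2) ^ (-(3 / 2) : ℝ) :=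
        Real.rpow_le_rpow_of_nonpos (by positivity) h3 (by norm_num)
      refine h4.trans (le_of_eq ?_)
      rw [Real.div_rpow (by positivity) (by norm_num), Real.rpow_neg (by norm_num : (0 : ℝ) ≤ 2)]
      rw [div_inv_eq_mul, mul_comm]
    calc ‖f y‖ ≤ A * |y| ^ (-(3 / 2) : ℝ) := h1
      _ ≤ A * (2 ^ (3 / 2 : ℝ) * (1 + ‖y‖) ^ (-(3 / 2) : ℝ)) := mul_le_mul_of_nonneg_left h2 hA0
      _ ≤ (A * 2 ^ (3 / 2 : ℝ) + B * 4 ^ (3 / 2 : ℝ)) * (1 + ‖y‖) ^ (-(3 / 2) : ℝ) := by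
          have := mul_nonneg (mul_nonneg hB0 hc4.le) hq.le
          nlinarith
  · have h1 := hB y (abs_le.1 h)
    have h2 : 1 ≤ 4 ^ (3 / 2 : ℝ) * (1 + ‖y‖) ^ (-(3 / 2) : ℝ) := by
      have h3 : (1 + ‖y‖) ≤ 4 := by
        rw [Real.norm_eq_abs]
        linarith
      have h4 : (4 : ℝ) ^ (-(3 / 2) : ℝ) ≤ (1 + ‖y‖) ^ (-(3 / 2) : ℝ) :=
        Real.rpow_le_rpow_of_nonpos (by positivity) h3 (by norm_num)
      calc (1 : ℝ) = 4 ^ (3 / 2 : ℝ) * (4 : ℝ) ^ (-(3 / 2) : ℝ) := by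
            rw [← Real.rpow_add (by norm_num)]
            norm_num
        _ ≤ _ := mul_le_mul_of_nonneg_left h4 hc4.le
    calc ‖f y‖ ≤ B := h1
      _ = B * 1 := (mul_one _).symm
      _ ≤ B * (4 ^ (3 / 2 : ℝ) * (1 + ‖y‖) ^ (-(3 / 2) : ℝ)) := mul_le_mul_of_nonneg_left h2 hB0
      _ ≤ (A * 2 ^ (3 / 2 : ℝ) + B * 4 ^ (3 / 2 : ℝ)) * (1 + ‖y‖) ^ (-(3 / 2) : ℝ) := by
          have := mul_nonneg (mul_nonneg hA0 hc2.le) hq.le
          nlinarith

theorem shift_line {σ' σ0 σ1 : ℝ} (h' : σ' < σ0) (h0 : σ0 < 1) (h1 : 1 < σ1) {F : ℂ → ℂ} {ρ : ℂ}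
    (hF : DifferentiableOn ℂ F {s : ℂ | σ' < s.re ∧ s ≠ 1})
    (hres : Tendsto (fun s => (s - 1) * F s) (𝓝[≠] 1) (𝓝 ρ)) {A : ℝ}
    (hA : ∀ s : ℂ, σ0 ≤ s.re → s.re ≤ σ1 → 3 ≤ |s.im| → ‖F s‖ ≤ A * |s.im| ^ (-(3 / 2) : ℝ)) :
    Integrable (fun y : ℝ => F ((σ0 : ℂ) + y * I)) ∧ Integrable (fun y : ℝ => F ((σ1 : ℂ) + y * I)) ∧
    (∫ y : ℝ, F ((σ1 : ℂ) + y * I)) - (∫ y : ℝ, F ((σ0 : ℂ) + y * I)) = 2 * Real.pi * ρ := by
  set U : Set ℂ := {s : ℂ | σ' < s.re} with hUdef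
  have hU : IsOpen U := isOpen_lt continuous_const Complex.continuous_re
  have h1U : (1 : ℂ) ∈ U := by
    simp only [hUdef, mem_ofPred_eq, Complex.one_re]
    linarith
  have hV : IsOpen {s : ℂ | σ' < s.re ∧ s ≠ 1} := hU.inter isOpen_ne
  have hFat : ∀ s : ℂ, s ∈ U → s ≠ 1 → DifferentiableAt ℂ F s := fun s hs h =>
    (hF s ⟨hs, h⟩).differentiableAt (hV.mem_nhds ⟨hs, h⟩)
  -- the removable singularity
  set H : ℂ → ℂ := Function.update (fun s => (s - 1) * F s) 1 ρ with hHdef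
  have hHne : ∀ s : ℂ, s ≠ 1 → H s = (s - 1) * F s := fun s hs => Function.update_of_ne hs _ _
  have hH1 : H 1 = ρ := Function.update_self _ _ _
  have hHat : ∀ s : ℂ, s ∈ U → s ≠ 1 → DifferentiableAt ℂ H s := by
    intro s hs h
    have h2 : DifferentiableAt ℂ (fun s => (s - 1) * F s) s :=
      ((differentiableAt_id.sub_const 1)).mul (hFat s hs h)
    refine h2.congr_of_eventuallyEq ?_
    filter_upwards [isOpen_ne.mem_nhds h] with z hz
    exact hHne z hz
  have hHd : DifferentiableOn ℂ H U := by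
    intro s hs
    by_cases h : s = 1
    · subst h
      have hc : ContinuousAt H 1 := continuousAt_update_same.2 hres
      have hd : ∀ᶠ z in 𝓝[≠] (1 : ℂ), DifferentiableAt ℂ H z := by
        rw [eventually_nhdsWithin_iff]
        filter_upwards [hU.mem_nhds hs] with z hz hz1
        exact hHat z hz hz1
      exact (Complex.analyticAt_of_differentiable_on_punctured_nhds_of_continuousAt hd hc).differentiableAt.differentiableWithinAt
    · exact (hHat s hs h).differentiableWithinAt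
  set G : ℂ → ℂ := dslope H 1 with hGdef
  have hGd : DifferentiableOn ℂ G U := (Complex.differentiableOn_dslope (hU.mem_nhds h1U)).2 hHd
  have hGe : ∀ s : ℂ, s ≠ 1 → G s = F s - ρ / (s - 1) := by
    intro s hs
    have hs1 : s - 1 ≠ 0 := sub_ne_zero.2 hs
    rw [hGdef, dslope_of_ne _ hs, slope_def_field, hH1, hHne s hs]
    field_simp
  -- the two vertical lines
  have hline : ∀ σ : ℝ, σ' < σ → σ ≠ 1 → σ0 ≤ σ → σ ≤ σ1 →
      Continuous (fun y : ℝ => F ((σ : ℂ) + y * I)) ∧ Integrable (fun y : ℝ => F ((σ : ℂ) + y * I)) := by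
    intro σ hσ hσ1 ha hb
    have hcont : Continuous (fun y : ℝ => F ((σ : ℂ) + y * I)) := by
      rw [continuous_iff_continuousAt]
      intro y
      have h2 : ContinuousAt F ((σ : ℂ) + y * I) := by
        refine (hFat _ ?_ ?_).continuousAt
        · simp only [hUdef, mem_ofPred_eq]
          simpa using hσ
        · intro h
          have := congrArg Complex.re h
          simp at this
          exact hσ1 this
      exact ContinuousAt.comp (f := fun y : ℝ => (σ : ℂ) + y * I) h2 (by fun_prop)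
    refine ⟨hcont, line_integrable (A := A) hcont fun y hy => ?_⟩
    have := hA ((σ : ℂ) + y * I) (by simpa using ha) (by simpa using hb) (by simpa using hy)
    simpa using this
  obtain ⟨hc0, hi0⟩ := hline σ0 h' h0.ne le_rfl (h0.le.trans h1.le)
  obtain ⟨hc1, hi1⟩ := hline σ1 (by linarith) h1.ne' (h0.le.trans h1.le) le_rfl
  refine ⟨hi0, hi1, ?_⟩
  -- integrals of `G` over the vertical segments
  have hvert : ∀ σ : ℝ, σ ≠ 1 → Continuous (fun y : ℝ => F ((σ : ℂ) + y * I)) → ∀ Y : ℝ,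
      ∫ y in (-Y)..Y, G ((σ : ℂ) + y * I) =
        (∫ y in (-Y)..Y, F ((σ : ℂ) + y * I)) - ρ * ((2 * Real.arctan (Y / (σ - 1)) : ℝ) : ℂ) := by
    intro σ hσ hc Y
    have hσ' : σ - 1 ≠ 0 := sub_ne_zero.2 hσ
    have hne : ∀ y : ℝ, (σ : ℂ) + y * I ≠ 1 := by
      intro y h
      have := congrArg Complex.re h
      simp at this
      exact hσ this
    have e1 : (fun y : ℝ => G ((σ : ℂ) + y * I)) = fun y : ℝ =>
        F ((σ : ℂ) + y * I) - ρ * (1 / (((σ - 1 : ℝ) : ℂ) + y * I)) := by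
      funext y
      rw [hGe _ (hne y)]
      have e2 : (σ : ℂ) + y * I - 1 = ((σ - 1 : ℝ) : ℂ) + y * I := by
        push_cast
        ring
      rw [e2]
      ring
    have hcc : Continuous fun y : ℝ => ρ * (1 / (((σ - 1 : ℝ) : ℂ) + y * I)) := by
      refine continuous_const.mul (continuous_const.div (by fun_prop) ?_)
      intro y h
      have := congrArg Complex.re h
      simp at this
      exact hσ' this
    rw [e1, intervalIntegral.integral_sub (hc.intervalIntegrable _ _) (hcc.intervalIntegrable _ _),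
      intervalIntegral.integral_const_mul, int_line _ hσ']
  -- the horizontal segments
  have hhor : ∀ ε : ℝ, |ε| = 1 → Tendsto (fun Y : ℝ => ∫ x in σ0..σ1, G ((x : ℂ) + ((ε * Y : ℝ) : ℂ) * I))
      atTop (𝓝 0) := by
    intro ε hε
    have hb : Tendsto (fun Y : ℝ => (A * Y ^ (-(3 / 2) : ℝ) + ‖ρ‖ / Y) * |σ1 - σ0|) atTop (𝓝 0) := by
      have t1 : Tendsto (fun Y : ℝ => Y ^ (-(3 / 2) : ℝ)) atTop (𝓝 0) :=
        tendsto_rpow_neg_atTop (by norm_num)
      have t2 : Tendsto (fun Y : ℝ => ‖ρ‖ / Y) atTop (𝓝 0) := tendsto_const_nhds.div_atTop tendsto_id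
      have := ((t1.const_mul A).add t2).mul_const |σ1 - σ0|
      simpa using this
    refine squeeze_zero_norm' ?_ hb
    filter_upwards [eventually_ge_atTop (3 : ℝ)] with Y hY
    apply intervalIntegral.norm_integral_le_of_norm_le_const
    intro x hx
    rw [uIoc_of_le (h0.le.trans h1.le)] at hx
    have hYp : 0 < Y := by linarith
    have habs : |ε * Y| = Y := by
      rw [abs_mul, hε, one_mul, abs_of_pos hYp]
    have him : ((x : ℂ) + ((ε * Y : ℝ) : ℂ) * I).im = ε * Y := by simp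
    have hre : ((x : ℂ) + ((ε * Y : ℝ) : ℂ) * I).re = x := by simp
    have hne : (x : ℂ) + ((ε * Y : ℝ) : ℂ) * I ≠ 1 := by
      intro h
      have h2 := congrArg Complex.im h
      rw [him, Complex.one_im] at h2
      rw [h2, abs_zero] at habs
      linarith
    rw [hGe _ hne]
    refine (norm_sub_le _ _).trans (add_le_add ?_ ?_)
    · have := hA _ (by rw [hre]; exact hx.1.le) (by rw [hre]; exact hx.2) (by rw [him, habs]; exact hY)
      rwa [him, habs] at this
    · rw [norm_div]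
      apply div_le_div_of_nonneg_left (norm_nonneg _) hYp
      have h3 := Complex.abs_im_le_norm ((x : ℂ) + ((ε * Y : ℝ) : ℂ) * I - 1)
      rw [Complex.sub_im, him, Complex.one_im, sub_zero, habs] at h3
      exact h3
  -- Cauchy
  have hC : ∀ Y : ℝ, 0 < Y →
      (∫ x in σ0..σ1, G ((x : ℂ) + ((-1 * Y : ℝ) : ℂ) * I)) - (∫ x in σ0..σ1, G ((x : ℂ) + ((1 * Y : ℝ) : ℂ) * I)) +
        I • (∫ y in (-Y)..Y, G ((σ1 : ℂ) + y * I)) - I • (∫ y in (-Y)..Y, G ((σ0 : ℂ) + y * I)) = 0 := by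
    intro Y hY
    have := Complex.integral_boundary_rect_eq_zero_of_differentiableOn G ⟨σ0, -Y⟩ ⟨σ1, Y⟩ ?_
    · simp only [neg_mul, one_mul] at this ⊢
      exact this
    · refine hGd.mono ?_
      rintro s ⟨hs, _⟩
      simp only [mem_preimage] at hs
      rw [uIcc_of_le (h0.le.trans h1.le)] at hs
      simp only [hUdef, mem_ofPred_eq]
      linarith [hs.1]
  -- limits
  have hL : ∀ σ : ℝ, Integrable (fun y : ℝ => F ((σ : ℂ) + y * I)) →
      Tendsto (fun Y : ℝ => ∫ y in (-Y)..Y, F ((σ : ℂ) + y * I)) atTop (𝓝 (∫ y : ℝ, F ((σ : ℂ) + y * I))) :=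
    fun σ hi => intervalIntegral_tendsto_integral hi tendsto_neg_atTop_atBot tendsto_id
  have ha1 : Tendsto (fun Y : ℝ => ((2 * Real.arctan (Y / (σ1 - 1)) : ℝ) : ℂ)) atTop
      (𝓝 ((2 * (Real.pi / 2) : ℝ) : ℂ)) := by
    refine (Complex.continuous_ofReal.tendsto _).comp (Tendsto.const_mul 2 ?_)
    have t1 : Tendsto (fun Y : ℝ => Y / (σ1 - 1)) atTop atTop :=
      tendsto_id.atTop_div_const (by linarith)
    exact (tendsto_nhds_of_tendsto_nhdsWithin Real.tendsto_arctan_atTop).comp t1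
  have ha0 : Tendsto (fun Y : ℝ => ((2 * Real.arctan (Y / (σ0 - 1)) : ℝ) : ℂ)) atTop
      (𝓝 ((2 * (-(Real.pi / 2)) : ℝ) : ℂ)) := by
    refine (Complex.continuous_ofReal.tendsto _).comp (Tendsto.const_mul 2 ?_)
    have t1 : Tendsto (fun Y : ℝ => Y / (σ0 - 1)) atTop atBot :=
      tendsto_id.atTop_div_const_of_neg (by linarith)
    exact (tendsto_nhds_of_tendsto_nhdsWithin Real.tendsto_arctan_atBot).comp t1
  have lim1 := (((hhor (-1) (by norm_num)).sub (hhor 1 (by norm_num))).add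
    (((hL σ1 hi1).sub (ha1.const_mul ρ)).const_smul I)).sub
    (((hL σ0 hi0).sub (ha0.const_mul ρ)).const_smul I)
  have lim2 : Tendsto (fun _ : ℝ => (0 : ℂ)) atTop (𝓝 0) := tendsto_const_nhds
  have heq := tendsto_nhds_unique_of_eventuallyEq lim1 lim2 (by
    filter_upwards [eventually_gt_atTop (0 : ℝ)] with Y hY
    have h5 := hC Y hY
    rw [hvert σ1 h1.ne' hc1 Y, hvert σ0 h0.ne hc0 Y] at h5
    exact h5)
  simp only [smul_eq_mul] at heq
  push_cast at heq
  have hI : I ≠ 0 := Complex.I_ne_zero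
  have : I * ((∫ y : ℝ, F ((σ1 : ℂ) + y * I)) - (∫ y : ℝ, F ((σ0 : ℂ) + y * I)) - 2 * Real.pi * ρ) = 0 := by
    linear_combination heq
  rcases mul_eq_zero.1 this with h | h
  · exact absurd h hI
  · linear_combination h

end VO
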