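import Pool.Agent.H15.VO.PerB
import Pool.Agent.H15.VO.PerC

/-!
# Cnt : counting generalized integers

`N1 x = ∑' max (x - a i) 0`. By `perron_sum` (`c = 2`) and `shift_line` (`F s = Z s x^(s+1) / (s (s+1))`, `ρ = κ x² / 2`,
`σ0 = (1/2 + θ) / 2`) `N1 x = κ x² / 2 + G x`, `G x = (1/2π) ∫ Z s x^(s+1) / (s (s+1))` over `re s = σ0`. For `h = x^θ ≤ x`:
`(N1 x - N1 (x - h)) / h ≤ N x ≤ (N1 (x + h) - N1 x) / h` and `|G (x + h) - G x| / h ≤ C h^(-δ) x^(σ0 + δ) ≤ C x^θ` by `ker_diff`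
with `δ = (θ - 1/2) / 2` and the growth bound with `ε = δ / 2` (near the real axis `Z` is bounded on the compact part of the line).
For `N x ≥` use `h ≤ x / 2`, or the inequality at the point `x - h`.
-/

set_option autoImplicit false

open Complex MeasureTheory Set Filter Topology

namespace VO

/-- the kernel is differentiable on the half plane -/
theorem cnt_kd {x : ℝ} (hx : 0 < x) :
    DifferentiableOn ℂ (fun s : ℂ => (x : ℂ) ^ (s + 1) / (s * (s + 1))) {s : ℂ | 1 / 2 < s.re ∧ s ≠ 1} := by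
  have hxc : (x : ℂ) ≠ 0 := by exact_mod_cast hx.ne'
  apply DifferentiableOn.div
  · exact DifferentiableOn.const_cpow (differentiableOn_id.add_const 1) (Or.inl hxc)
  · exact differentiableOn_id.mul (differentiableOn_id.add_const 1)
  · intro s hs
    have h1 : s ≠ 0 := by
      intro h
      have := hs.1
      rw [h] at this
      norm_num at this
    have h2 : s + 1 ≠ 0 := by
      intro h
      have h3 : (s + 1).re = 0 := by rw [h]; rfl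
      have := hs.1
      simp at h3
      linarith
    exact mul_ne_zero h1 h2

/-- norm of the kernel -/
theorem cnt_kn {x : ℝ} (hx : 0 < x) {s : ℂ} (h0 : 0 ≤ s.re) (h2 : s.re ≤ 2) (h3 : 3 ≤ |s.im|) :
    ‖(x : ℂ) ^ (s + 1) / (s * (s + 1))‖ ≤ (max x 1) ^ (3 : ℝ) * |s.im| ^ (-2 : ℝ) := by
  have hi : 0 < |s.im| := by linarith
  rw [norm_div, norm_mul, Complex.norm_cpow_eq_rpow_re_of_pos hx, Real.rpow_neg hi.le, ← div_eq_mul_inv]
  have e1 : |s.im| ≤ ‖s‖ := Complex.abs_im_le_norm s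
  have e2 : |s.im| ≤ ‖s + 1‖ := by
    have := Complex.abs_im_le_norm (s + 1)
    simpa using this
  have e3 : |s.im| ^ (2 : ℝ) ≤ ‖s‖ * ‖s + 1‖ := by
    have : |s.im| ^ (2 : ℝ) = |s.im| * |s.im| := by
      rw [Real.rpow_two, sq]
    rw [this]
    exact mul_le_mul e1 e2 hi.le (norm_nonneg _)
  have e4 : x ^ (s + 1).re ≤ (max x 1) ^ (3 : ℝ) := by
    have a1 : x ^ (s + 1).re ≤ (max x 1) ^ (s + 1).re := by
      apply Real.rpow_le_rpow hx.le (le_max_left _ _)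
      simp
      linarith
    apply a1.trans
    apply Real.rpow_le_rpow_of_exponent_le (le_max_right _ _)
    simp
    linarith
  have e5 : (0 : ℝ) < |s.im| ^ (2 : ℝ) := Real.rpow_pos_of_pos hi _
  exact div_le_div₀ (by positivity) e4 e5 e3

/-- main term and remainder of the smoothed count -/
theorem cnt_N1 {ι : Type} [Countable ι] {a : ι → ℝ} (ha : ∀ i, 1 ≤ a i)
    (hs : ∀ c : ℝ, 1 < c → Summable fun i => a i ^ (-c)) {Z : ℂ → ℂ}
    (hZ : ∀ s : ℂ, 1 < s.re → HasSum (fun i => (a i : ℂ) ^ (-s)) (Z s))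
    (hd : DifferentiableOn ℂ Z {s : ℂ | 1 / 2 < s.re ∧ s ≠ 1}) {κ : ℝ}
    (hres : Tendsto (fun s => (s - 1) * Z s) (𝓝[≠] 1) (𝓝 (κ : ℂ)))
    (hgr : ∀ θ ε : ℝ, 1 / 2 < θ → 0 < ε → ∃ A : ℝ, ∀ s : ℂ, θ ≤ s.re → s.re ≤ 2 → 3 ≤ |s.im| →
      ‖Z s‖ ≤ A * |s.im| ^ ε) {σ0 : ℝ} (h1 : 1 / 2 < σ0) (h2 : σ0 < 1) {x : ℝ} (hx : 0 < x) :
    (Summable fun i => max (x - a i) 0) ∧
    Integrable (fun y : ℝ => Z ((σ0 : ℂ) + y * I) * ((x : ℂ) ^ ((σ0 : ℂ) + y * I + 1) /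
        (((σ0 : ℂ) + y * I) * ((σ0 : ℂ) + y * I + 1)))) ∧
    ((∑' i, max (x - a i) 0 : ℝ) : ℂ) = (κ * x ^ 2 / 2 : ℝ) + (1 / (2 * Real.pi) : ℂ) *
      ∫ y : ℝ, Z ((σ0 : ℂ) + y * I) * ((x : ℂ) ^ ((σ0 : ℂ) + y * I + 1) /
        (((σ0 : ℂ) + y * I) * ((σ0 : ℂ) + y * I + 1))) := by
  obtain ⟨hsum, hper⟩ := perron_sum ha (c := 2) (by norm_num) (hs 2 (by norm_num)) hZ hx
  set F : ℂ → ℂ := fun s => Z s * ((x : ℂ) ^ (s + 1) / (s * (s + 1))) with hF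
  obtain ⟨A, hA⟩ := hgr σ0 (1 / 2) h1 (by norm_num)
  have hxc : (x : ℂ) ≠ 0 := by exact_mod_cast hx.ne'
  have hρ : Tendsto (fun s => (s - 1) * F s) (𝓝[≠] 1) (𝓝 ((κ * x ^ 2 / 2 : ℝ) : ℂ)) := by
    have e1 : ContinuousAt (fun s : ℂ => (x : ℂ) ^ (s + 1) / (s * (s + 1))) 1 := by
      apply ContinuousAt.div
      · exact (continuousAt_const_cpow hxc).comp (f := fun s : ℂ => s + 1) (by fun_prop)
      · fun_prop
      · norm_num
    have e2 : Tendsto (fun s : ℂ => (x : ℂ) ^ (s + 1) / (s * (s + 1))) (𝓝[≠] 1)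
        (𝓝 ((x : ℂ) ^ ((1 : ℂ) + 1) / (1 * (1 + 1)))) := e1.tendsto.mono_left nhdsWithin_le_nhds
    have e3 := hres.mul e2
    have e4 : (κ : ℂ) * ((x : ℂ) ^ ((1 : ℂ) + 1) / (1 * (1 + 1))) = ((κ * x ^ 2 / 2 : ℝ) : ℂ) := by
      have : (x : ℂ) ^ ((1 : ℂ) + 1) = (x : ℂ) ^ 2 := by
        have h : (1 : ℂ) + 1 = ((2 : ℕ) : ℂ) := by norm_num
        rw [h, Complex.cpow_natCast]
      rw [this]
      push_cast
      ring
    rw [e4] at e3
    refine e3.congr fun s => ?_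
    simp only [hF]
    ring
  have hFA : ∀ s : ℂ, σ0 ≤ s.re → s.re ≤ 2 → 3 ≤ |s.im| →
      ‖F s‖ ≤ (|A| * (max x 1) ^ (3 : ℝ)) * |s.im| ^ (-(3 / 2) : ℝ) := by
    intro s a1 a2 a3
    have hi : 0 < |s.im| := by linarith
    have b1 := hA s a1 a2 a3
    have b2 := cnt_kn hx (by linarith : 0 ≤ s.re) a2 a3
    have b3 : ‖Z s‖ ≤ |A| * |s.im| ^ (1 / 2 : ℝ) :=
      b1.trans (mul_le_mul_of_nonneg_right (le_abs_self A) (Real.rpow_nonneg hi.le _))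
    simp only [hF]
    rw [norm_mul]
    calc ‖Z s‖ * ‖(x : ℂ) ^ (s + 1) / (s * (s + 1))‖
        ≤ (|A| * |s.im| ^ (1 / 2 : ℝ)) * ((max x 1) ^ (3 : ℝ) * |s.im| ^ (-2 : ℝ)) :=
          mul_le_mul b3 b2 (norm_nonneg _) (mul_nonneg (abs_nonneg _) (Real.rpow_nonneg hi.le _))
      _ = (|A| * (max x 1) ^ (3 : ℝ)) * (|s.im| ^ (1 / 2 : ℝ) * |s.im| ^ (-2 : ℝ)) := by ring
      _ = (|A| * (max x 1) ^ (3 : ℝ)) * |s.im| ^ (-(3 / 2) : ℝ) := by
          rw [← Real.rpow_add hi]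
          norm_num
  have hFd : DifferentiableOn ℂ F {s : ℂ | 1 / 2 < s.re ∧ s ≠ 1} := hd.mul (cnt_kd hx)
  obtain ⟨i1, i2, i3⟩ := shift_line h1 h2 (by norm_num : (1 : ℝ) < 2) hFd hρ hFA
  refine ⟨hsum, i1, ?_⟩
  have hpi : (Real.pi : ℂ) ≠ 0 := by exact_mod_cast Real.pi_ne_zero
  have h5 : (∫ y : ℝ, F (((2 : ℝ) : ℂ) + y * I)) =
      2 * Real.pi * ((κ * x ^ 2 / 2 : ℝ) : ℂ) + ∫ y : ℝ, F ((σ0 : ℂ) + y * I) := by
    rw [← i3]
    ring
  rw [hper]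
  change (1 / (2 * Real.pi) : ℂ) * (∫ y : ℝ, F (((2 : ℝ) : ℂ) + y * I)) =
    ((κ * x ^ 2 / 2 : ℝ) : ℂ) + (1 / (2 * Real.pi) : ℂ) * ∫ y : ℝ, F ((σ0 : ℂ) + y * I)
  rw [h5, mul_add]
  congr 1
  field_simp

/-- bound of the remainder increments -/
theorem cnt_G {Z : ℂ → ℂ}
    (hd : DifferentiableOn ℂ Z {s : ℂ | 1 / 2 < s.re ∧ s ≠ 1})
    {σ0 δ : ℝ} (h1 : 1 / 2 < σ0) (h2 : σ0 < 1) (hδ : 0 < δ) (hδ1 : δ < 1)
    (hgr : ∃ A : ℝ, ∀ s : ℂ, σ0 ≤ s.re → s.re ≤ 2 → 3 ≤ |s.im| →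
      ‖Z s‖ ≤ A * |s.im| ^ (δ / 2)) :
    ∃ C : ℝ, 0 ≤ C ∧ ∀ x h : ℝ, 1 ≤ x → 0 < h → h ≤ x →
      Integrable (fun y : ℝ => Z ((σ0 : ℂ) + y * I) * ((x : ℂ) ^ ((σ0 : ℂ) + y * I + 1) /
        (((σ0 : ℂ) + y * I) * ((σ0 : ℂ) + y * I + 1)))) →
      Integrable (fun y : ℝ => Z ((σ0 : ℂ) + y * I) * (((x + h : ℝ) : ℂ) ^ ((σ0 : ℂ) + y * I + 1) /
        (((σ0 : ℂ) + y * I) * ((σ0 : ℂ) + y * I + 1)))) →
      ‖(∫ y : ℝ, Z ((σ0 : ℂ) + y * I) * (((x + h : ℝ) : ℂ) ^ ((σ0 : ℂ) + y * I + 1) /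
        (((σ0 : ℂ) + y * I) * ((σ0 : ℂ) + y * I + 1)))) -
        (∫ y : ℝ, Z ((σ0 : ℂ) + y * I) * ((x : ℂ) ^ ((σ0 : ℂ) + y * I + 1) /
        (((σ0 : ℂ) + y * I) * ((σ0 : ℂ) + y * I + 1))))‖ ≤ C * (h ^ (1 - δ) * x ^ (σ0 + δ)) := by
  obtain ⟨A, hA⟩ := hgr
  have hre : ∀ y : ℝ, ((σ0 : ℂ) + y * I).re = σ0 := fun y => by simp
  have him : ∀ y : ℝ, ((σ0 : ℂ) + y * I).im = y := fun y => by simp
  -- continuity on the line
  have hcont : Continuous fun y : ℝ => Z ((σ0 : ℂ) + y * I) := by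
    have hc : ContinuousOn Z {s : ℂ | 1 / 2 < s.re ∧ s ≠ 1} := hd.continuousOn
    apply hc.comp_continuous (f := fun y : ℝ => (σ0 : ℂ) + y * I) (by fun_prop)
    intro y
    refine ⟨?_, ?_⟩
    · rw [hre]
      exact h1
    · intro h
      have := congrArg Complex.re h
      rw [hre] at this
      simp at this
      linarith
  obtain ⟨B, hB⟩ := (isCompact_Icc (a := (-3 : ℝ)) (b := 3)).exists_bound_of_continuousOn hcont.continuousOn
  set M : ℝ := |A| + 2 * |B| with hM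
  have hM0 : 0 ≤ M := by positivity
  have hn1 : ∀ y : ℝ, 1 / 2 ≤ ‖(σ0 : ℂ) + y * I‖ := by
    intro y
    have := Complex.abs_re_le_norm ((σ0 : ℂ) + y * I)
    rw [hre] at this
    have h3 := le_abs_self σ0
    linarith
  have hn2 : ∀ y : ℝ, |y| ≤ ‖(σ0 : ℂ) + y * I‖ := by
    intro y
    have := Complex.abs_im_le_norm ((σ0 : ℂ) + y * I)
    rwa [him] at this
  have hbd : ∀ y : ℝ, ‖Z ((σ0 : ℂ) + y * I)‖ ≤ M * ‖(σ0 : ℂ) + y * I‖ ^ (δ / 2) := by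
    intro y
    have hp : 0 ≤ ‖(σ0 : ℂ) + y * I‖ ^ (δ / 2) := Real.rpow_nonneg (norm_nonneg _) _
    rcases le_total 3 |y| with hy | hy
    · have b1 := hA ((σ0 : ℂ) + y * I) (by rw [hre]) (by rw [hre]; linarith) (by rw [him]; exact hy)
      rw [him] at b1
      have b2 : |y| ^ (δ / 2) ≤ ‖(σ0 : ℂ) + y * I‖ ^ (δ / 2) :=
        Real.rpow_le_rpow (abs_nonneg _) (hn2 y) (by linarith)
      have b3 : A * |y| ^ (δ / 2) ≤ |A| * ‖(σ0 : ℂ) + y * I‖ ^ (δ / 2) :=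
        mul_le_mul (le_abs_self A) b2 (Real.rpow_nonneg (abs_nonneg _) _) (abs_nonneg _)
      have b4 : |A| * ‖(σ0 : ℂ) + y * I‖ ^ (δ / 2) ≤ M * ‖(σ0 : ℂ) + y * I‖ ^ (δ / 2) := by
        apply mul_le_mul_of_nonneg_right _ hp
        rw [hM]
        have := abs_nonneg B
        linarith
      linarith
    · have b1 := hB y (abs_le.1 hy)
      have b2 : (1 / 2 : ℝ) ≤ ‖(σ0 : ℂ) + y * I‖ ^ (δ / 2) := by
        have c1 : (1 / 2 : ℝ) ^ (δ / 2) ≤ ‖(σ0 : ℂ) + y * I‖ ^ (δ / 2) :=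
          Real.rpow_le_rpow (by norm_num) (hn1 y) (by linarith)
        have c2 : (1 / 2 : ℝ) ^ (1 : ℝ) ≤ (1 / 2 : ℝ) ^ (δ / 2) :=
          Real.rpow_le_rpow_of_exponent_ge (by norm_num) (by norm_num) (by linarith)
        rw [Real.rpow_one] at c2
        linarith
      have b3 : B ≤ 2 * |B| * ‖(σ0 : ℂ) + y * I‖ ^ (δ / 2) := by
        have c1 := le_abs_self B
        have c2 := abs_nonneg B
        nlinarith
      have b4 : 0 ≤ |A| * ‖(σ0 : ℂ) + y * I‖ ^ (δ / 2) := mul_nonneg (abs_nonneg _) hp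
      rw [hM, add_mul]
      linarith
  set r : ℝ := 1 + δ / 2 with hr
  have hint : Integrable fun y : ℝ => (1 + ‖y‖) ^ (-r) := by
    apply integrable_one_add_norm
    simp
    linarith
  set J : ℝ := ∫ y : ℝ, (1 + ‖y‖) ^ (-r) with hJ
  have hJ0 : 0 ≤ J := integral_nonneg fun y => Real.rpow_nonneg (by positivity) _
  refine ⟨8 * M * 3 ^ r * J, by positivity, ?_⟩
  intro x h hx hh hhx g1 g2
  rw [← integral_sub g2 g1]
  have hx0 : 0 < x := by linarith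
  set T : ℝ := h ^ (1 - δ) * x ^ (σ0 + δ) with hT
  have hT0 : 0 ≤ T := by positivity
  have key : ∀ y : ℝ, ‖Z ((σ0 : ℂ) + y * I) * (((x + h : ℝ) : ℂ) ^ ((σ0 : ℂ) + y * I + 1) /
        (((σ0 : ℂ) + y * I) * ((σ0 : ℂ) + y * I + 1))) -
        Z ((σ0 : ℂ) + y * I) * ((x : ℂ) ^ ((σ0 : ℂ) + y * I + 1) /
        (((σ0 : ℂ) + y * I) * ((σ0 : ℂ) + y * I + 1)))‖ ≤ (8 * M * 3 ^ r * T) * (1 + ‖y‖) ^ (-r) := by
    intro y
    set s : ℂ := (σ0 : ℂ) + y * I with hs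
    have k1 := ker_diff hδ hδ1 hx hh hhx (s := s) (by rw [hs, hre]; linarith) (by rw [hs, hre]; linarith)
    have e1 : Z s * (((x + h : ℝ) : ℂ) ^ (s + 1) / (s * (s + 1))) - Z s * ((x : ℂ) ^ (s + 1) / (s * (s + 1))) =
        Z s * ((((x + h : ℝ) : ℂ) ^ (s + 1) - (x : ℂ) ^ (s + 1)) / (s * (s + 1))) := by
      rw [sub_div]
      ring
    rw [e1, norm_mul, norm_div]
    have hsr : s.re = σ0 := by rw [hs, hre]
    rw [hsr] at k1
    have hsp : 0 < ‖s‖ := by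
      have := hn1 y
      rw [← hs] at this
      linarith
    have k2 : ‖Z s‖ * (‖((x + h : ℝ) : ℂ) ^ (s + 1) - (x : ℂ) ^ (s + 1)‖ / ‖s * (s + 1)‖) ≤
        (M * ‖s‖ ^ (δ / 2)) * (8 * h ^ (1 - δ) * x ^ (σ0 + δ) / ‖s‖ ^ (1 + δ)) := by
      apply mul_le_mul (hbd y) k1 (by positivity) (by positivity)
    have k3 : (M * ‖s‖ ^ (δ / 2)) * (8 * h ^ (1 - δ) * x ^ (σ0 + δ) / ‖s‖ ^ (1 + δ)) =
        (8 * M * T) * ‖s‖ ^ (-r) := by
      have f1 : ‖s‖ ^ (-r) = ‖s‖ ^ (δ / 2) / ‖s‖ ^ (1 + δ) := by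
        rw [← Real.rpow_sub hsp]
        congr 1
        rw [hr]
        ring
      rw [f1, hT]
      ring
    have k4 : ‖s‖ ^ (-r) ≤ 3 ^ r * (1 + ‖y‖) ^ (-r) := by
      have hy0 : 0 < 1 + ‖y‖ := by positivity
      have f1 : (1 + ‖y‖) / 3 ≤ ‖s‖ := by
        have g1 := hn1 y
        have g2 := hn2 y
        rw [← hs] at g1 g2
        rw [Real.norm_eq_abs]
        linarith
      have f2 : ‖s‖ ^ (-r) ≤ ((1 + ‖y‖) / 3) ^ (-r) :=
        Real.rpow_le_rpow_of_nonpos (by positivity) f1 (by rw [hr]; linarith)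
      have f3 : ((1 + ‖y‖) / 3) ^ (-r) = 3 ^ r * (1 + ‖y‖) ^ (-r) := by
        rw [Real.div_rpow hy0.le (by norm_num), Real.rpow_neg (by norm_num : (0 : ℝ) ≤ 3)]
        field_simp
      rw [← f3]
      exact f2
    calc ‖Z s‖ * (‖((x + h : ℝ) : ℂ) ^ (s + 1) - (x : ℂ) ^ (s + 1)‖ / ‖s * (s + 1)‖)
        ≤ (8 * M * T) * ‖s‖ ^ (-r) := by rw [← k3]; exact k2
      _ ≤ (8 * M * T) * (3 ^ r * (1 + ‖y‖) ^ (-r)) := mul_le_mul_of_nonneg_left k4 (by positivity)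
      _ = (8 * M * 3 ^ r * T) * (1 + ‖y‖) ^ (-r) := by ring
  have fin := norm_integral_le_of_norm_le (hint.const_mul (8 * M * 3 ^ r * T)) (Eventually.of_forall key)
  rw [integral_const_mul] at fin
  refine fin.trans (le_of_eq ?_)
  rw [← hJ]
  ring

/-- only finitely many below `x` -/
theorem cnt_fin {ι : Type} [Countable ι] {a : ι → ℝ} (ha : ∀ i, 1 ≤ a i)
    (hs : Summable fun i => a i ^ (-(2 : ℝ))) {x : ℝ} (hx : 0 < x) : {i | a i ≤ x}.Finite := by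
  have h1 := hs.tendsto_cofinite_zero
  have h2 : ∀ᶠ i in cofinite, a i ^ (-(2 : ℝ)) < x ^ (-(2 : ℝ)) :=
    h1.eventually (gt_mem_nhds (Real.rpow_pos_of_pos hx _))
  rw [Filter.eventually_cofinite] at h2
  refine h2.subset fun i hi => ?_
  have hi' : a i ≤ x := hi
  exact not_lt.2 (Real.rpow_le_rpow_of_nonpos (by linarith [ha i]) hi' (by norm_num))

/-- sandwich, upper -/
theorem cnt_up {ι : Type} {a : ι → ℝ} {x h : ℝ} (hh : 0 < h) (hf : {i | a i ≤ x}.Finite)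
    (s1 : Summable fun i => max (x - a i) 0) (s2 : Summable fun i => max (x + h - a i) 0) :
    (Set.ncard {i | a i ≤ x} : ℝ) * h ≤ (∑' i, max (x + h - a i) 0) - ∑' i, max (x - a i) 0 := by
  rw [← s2.tsum_sub s1, Set.ncard_eq_toFinset_card _ hf]
  have h1 : ((hf.toFinset.card : ℕ) : ℝ) * h =
      ∑ i ∈ hf.toFinset, (max (x + h - a i) 0 - max (x - a i) 0) := by
    rw [Finset.sum_congr rfl (g := fun _ => h), Finset.sum_const, nsmul_eq_mul]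
    intro i hi
    rw [Set.Finite.mem_toFinset] at hi
    have hi' : a i ≤ x := hi
    rw [max_eq_left (by linarith), max_eq_left (by linarith)]
    ring
  rw [h1]
  apply Summable.sum_le_tsum _ _ (s2.sub s1)
  intro i _
  have : max (x - a i) 0 ≤ max (x + h - a i) 0 := max_le_max (by linarith) le_rfl
  linarith

/-- sandwich, lower -/
theorem cnt_lo {ι : Type} {a : ι → ℝ} {x h : ℝ} (hh : 0 < h) (hf : {i | a i ≤ x + h}.Finite)
    (s1 : Summable fun i => max (x - a i) 0) (s2 : Summable fun i => max (x + h - a i) 0) :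
    (∑' i, max (x + h - a i) 0) - ∑' i, max (x - a i) 0 ≤ (Set.ncard {i | a i ≤ x + h} : ℝ) * h := by
  rw [← s2.tsum_sub s1, Set.ncard_eq_toFinset_card _ hf, tsum_eq_sum (s := hf.toFinset)]
  · rw [← nsmul_eq_mul]
    apply Finset.sum_le_card_nsmul
    intro i _
    have : max (x + h - a i) 0 ≤ max (x - a i) 0 + h := by
      apply max_le
      · have := le_max_left (x - a i) 0
        linarith
      · have := le_max_right (x - a i) 0
        linarith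
    linarith
  · intro i hi
    rw [Set.Finite.mem_toFinset] at hi
    have hi' : x + h < a i := not_le.1 hi
    rw [max_eq_right (by linarith), max_eq_right (by linarith)]
    ring

theorem count_asymp {ι : Type} [Countable ι] {a : ι → ℝ} (ha : ∀ i, 1 ≤ a i)
    (hs : ∀ c : ℝ, 1 < c → Summable fun i => a i ^ (-c)) {Z : ℂ → ℂ}
    (hZ : ∀ s : ℂ, 1 < s.re → HasSum (fun i => (a i : ℂ) ^ (-s)) (Z s))
    (hd : DifferentiableOn ℂ Z {s : ℂ | 1 / 2 < s.re ∧ s ≠ 1}) {κ : ℝ}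
    (hres : Tendsto (fun s => (s - 1) * Z s) (𝓝[≠] 1) (𝓝 (κ : ℂ)))
    (hgr : ∀ θ ε : ℝ, 1 / 2 < θ → 0 < ε → ∃ A : ℝ, ∀ s : ℂ, θ ≤ s.re → s.re ≤ 2 → 3 ≤ |s.im| →
      ‖Z s‖ ≤ A * |s.im| ^ ε) {θ : ℝ} (hθ : 1 / 2 < θ) (hθ1 : θ < 1) :
    ∃ A : ℝ, ∀ x : ℝ, 1 ≤ x → |(Set.ncard {i | a i ≤ x} : ℝ) - κ * x| ≤ A * x ^ θ := by
  set σ0 : ℝ := (1 / 2 + θ) / 2 with hσ
  set δ : ℝ := (θ - 1 / 2) / 2 with hδ
  have h1 : 1 / 2 < σ0 := by rw [hσ]; linarith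
  have h2 : σ0 < 1 := by rw [hσ]; linarith
  have hδ0 : 0 < δ := by rw [hδ]; linarith
  have hδ1 : δ < 1 := by rw [hδ]; linarith
  have hsd : σ0 + δ = θ := by rw [hσ, hδ]; ring
  obtain ⟨C, hC0, hC⟩ := cnt_G hd h1 h2 hδ0 hδ1 (hgr σ0 (δ / 2) h1 (by linarith))
  have hN := fun x hx => cnt_N1 ha hs hZ hd hres hgr h1 h2 (x := x) hx
  set N1 : ℝ → ℝ := fun x => ∑' i, max (x - a i) 0 with hN1
  have hpi : 0 < Real.pi := Real.pi_pos
  -- increments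
  have hinc : ∀ x h : ℝ, 1 ≤ x → 0 < h → h ≤ x →
      |N1 (x + h) - N1 x - (κ * (x + h) ^ 2 / 2 - κ * x ^ 2 / 2)| ≤ C * (h ^ (1 - δ) * x ^ θ) := by
    intro x h hx hh hhx
    obtain ⟨s1, g1, e1⟩ := hN x (by linarith)
    obtain ⟨s2, g2, e2⟩ := hN (x + h) (by linarith)
    have hc := hC x h hx hh hhx g1 g2
    rw [hsd] at hc
    have e3 : ((N1 (x + h) - N1 x - (κ * (x + h) ^ 2 / 2 - κ * x ^ 2 / 2) : ℝ) : ℂ) =
        (1 / (2 * Real.pi) : ℂ) * ((∫ y : ℝ, Z ((σ0 : ℂ) + y * I) * (((x + h : ℝ) : ℂ) ^ ((σ0 : ℂ) + y * I + 1) /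
        (((σ0 : ℂ) + y * I) * ((σ0 : ℂ) + y * I + 1)))) -
        (∫ y : ℝ, Z ((σ0 : ℂ) + y * I) * ((x : ℂ) ^ ((σ0 : ℂ) + y * I + 1) /
        (((σ0 : ℂ) + y * I) * ((σ0 : ℂ) + y * I + 1))))) := by
      have e4 : ((N1 (x + h) : ℝ) : ℂ) = ((∑' i, max (x + h - a i) 0 : ℝ) : ℂ) := rfl
      have e5 : ((N1 x : ℝ) : ℂ) = ((∑' i, max (x - a i) 0 : ℝ) : ℂ) := rfl
      rw [Complex.ofReal_sub, Complex.ofReal_sub, Complex.ofReal_sub, e4, e5, e1, e2]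
      ring
    rw [← Real.norm_eq_abs, ← Complex.norm_real, e3, norm_mul]
    have e6 : ‖(1 / (2 * Real.pi) : ℂ)‖ ≤ 1 := by
      rw [norm_div, norm_mul, Complex.norm_real, Real.norm_eq_abs, abs_of_pos hpi]
      have h3 := Real.pi_gt_three
      have h4 : ‖(2 : ℂ)‖ = 2 := by simp
      rw [h4, norm_one, div_le_one (by positivity)]
      linarith
    calc _ ≤ 1 * (C * (h ^ (1 - δ) * x ^ θ)) := mul_le_mul e6 hc (norm_nonneg _) zero_le_one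
      _ = _ := one_mul _
  -- sandwich
  refine ⟨2 * |κ| + 2 * C, ?_⟩
  intro x hx
  have hx0 : 0 < x := by linarith
  set h : ℝ := x ^ θ / 2 with hh
  have hxt : 1 ≤ x ^ θ := Real.one_le_rpow hx (by linarith)
  have hxt2 : x ^ θ ≤ x := by
    calc x ^ θ ≤ x ^ (1 : ℝ) := Real.rpow_le_rpow_of_exponent_le hx hθ1.le
      _ = x := Real.rpow_one x
  have hh0 : 0 < h := by rw [hh]; linarith
  have hhx : h ≤ x / 2 := by rw [hh]; linarith
  have hh2 : x ^ θ = 2 * h := by rw [hh]; ring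
  have hhδ : h ^ (1 - δ) ≤ 2 * h := by
    rw [Real.rpow_sub hh0, Real.rpow_one, div_le_iff₀ (Real.rpow_pos_of_pos hh0 _)]
    have a1 : (1 / 2 : ℝ) ≤ h := by rw [hh]; linarith
    have a2 : (1 / 2 : ℝ) ≤ h ^ δ := by
      calc (1 / 2 : ℝ) = (1 / 2 : ℝ) ^ (1 : ℝ) := (Real.rpow_one _).symm
        _ ≤ (1 / 2 : ℝ) ^ δ := Real.rpow_le_rpow_of_exponent_ge (by norm_num) (by norm_num) hδ1.le
        _ ≤ h ^ δ := Real.rpow_le_rpow (by norm_num) a1 hδ0.le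
    nlinarith
  have habs : |κ| * h ≥ 0 := by positivity
  have hfin : ∀ t : ℝ, 0 < t → {i | a i ≤ t}.Finite := fun t ht => cnt_fin ha (hs 2 (by norm_num)) ht
  rw [abs_le]
  constructor
  · -- lower bound
    rcases lt_or_ge x 2 with hx2 | hx2
    · have a1 : (0 : ℝ) ≤ (Set.ncard {i | a i ≤ x} : ℝ) := Nat.cast_nonneg _
      have a2 : κ * x ≤ |κ| * 2 := by
        have := le_abs_self κ
        have := abs_nonneg κ
        nlinarith
      have a3 : |κ| * 2 ≤ 2 * |κ| * x ^ θ := by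
        have := abs_nonneg κ
        nlinarith
      have a4 : 0 ≤ 2 * C * x ^ θ := by positivity
      rw [add_mul]
      linarith
    · have b1 : 1 ≤ x - h := by linarith
      have b2 : h ≤ x - h := by linarith
      have b3 := hinc (x - h) h b1 hh0 b2
      have b4 := cnt_lo (x := x - h) hh0 (by rw [sub_add_cancel]; exact hfin x hx0)
        (hN (x - h) (by linarith)).1 (hN (x - h + h) (by linarith)).1
      have b5 : (N1 (x - h + h)) - N1 (x - h) ≤ (Set.ncard {i | a i ≤ x - h + h} : ℝ) * h := b4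
      rw [sub_add_cancel] at b3 b5
      have b6 := (abs_le.1 b3).1
      have b7 : (x - h) ^ θ ≤ x ^ θ := Real.rpow_le_rpow (by linarith) (by linarith) (by linarith)
      have b8 : C * (h ^ (1 - δ) * (x - h) ^ θ) ≤ C * (2 * h * x ^ θ) := by
        apply mul_le_mul_of_nonneg_left _ hC0
        exact mul_le_mul hhδ b7 (Real.rpow_nonneg (by linarith) _) (by linarith)
      have b9 : h * (κ * x - κ * h / 2 - 2 * C * x ^ θ) ≤ h * (Set.ncard {i | a i ≤ x} : ℝ) := by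
        have d1 : h * (κ * x - κ * h / 2 - 2 * C * x ^ θ) =
            (κ * x ^ 2 / 2 - κ * (x - h) ^ 2 / 2) - C * (2 * h * x ^ θ) := by ring
        rw [d1, mul_comm h]
        linarith
      have b10 := le_of_mul_le_mul_left b9 hh0
      have b11 : κ * h / 2 ≤ |κ| * x ^ θ := by
        have c1 := le_abs_self κ
        have c2 := abs_nonneg κ
        rw [hh2]
        nlinarith
      have b12 : 0 ≤ |κ| * x ^ θ := by positivity
      rw [add_mul]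
      linarith
  · -- upper bound
    have b3 := hinc x h hx hh0 (by linarith)
    have b4 := cnt_up (x := x) hh0 (hfin x hx0) (hN x hx0).1 (hN (x + h) (by linarith)).1
    have b5 : (Set.ncard {i | a i ≤ x} : ℝ) * h ≤ N1 (x + h) - N1 x := b4
    have b6 := (abs_le.1 b3).2
    have b8 : C * (h ^ (1 - δ) * x ^ θ) ≤ C * (2 * h * x ^ θ) := by
      apply mul_le_mul_of_nonneg_left _ hC0
      exact mul_le_mul_of_nonneg_right hhδ (by linarith)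
    have b9 : h * (Set.ncard {i | a i ≤ x} : ℝ) ≤ h * (κ * x + κ * h / 2 + 2 * C * x ^ θ) := by
      have d1 : h * (κ * x + κ * h / 2 + 2 * C * x ^ θ) =
          (κ * (x + h) ^ 2 / 2 - κ * x ^ 2 / 2) + C * (2 * h * x ^ θ) := by ring
      rw [d1, mul_comm h]
      linarith
    have b10 := le_of_mul_le_mul_left b9 hh0
    have b11 : κ * h / 2 ≤ |κ| * x ^ θ := by
      have c1 := le_abs_self κ
      have c2 := abs_nonneg κ
      rw [hh2]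
      nlinarith
    have b12 : 0 ≤ |κ| * x ^ θ := by positivity
    rw [add_mul]
    linarith

end VO
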