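import Mathlib

/-!
# Diri : the Dirichlet series of the generalized integers is the Euler product

For finitely many factors (`m` supported in `Finset.range n`) by induction on `n` and the geometric series, then the limit;
absolute convergence: the same for `‖z j‖`, whose partial products are at most `∏' (1 - ‖z j‖)⁻¹`.
-/

set_option autoImplicit false

open Complex MeasureTheory Set Filter Topology

namespace VO

private theorem mult_aux {z : ℕ → ℂ} (hz : ∀ j, ‖z j‖ < 1) (hs : Summable fun j => ‖z j‖) :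
    Multipliable fun j => (1 - z j)⁻¹ := by
  have hne : ∀ j, (1 : ℂ) - z j ≠ 0 := by
    intro j h
    have h1 : z j = 1 := by linear_combination -h
    have h2 := hz j
    rw [h1] at h2
    simp at h2
  have h1 : (fun j => (1 - z j)⁻¹) = fun j => 1 + z j * (1 - z j)⁻¹ := by
    funext j
    have := hne j
    field_simp
    ring
  rw [h1]
  apply multipliable_one_add_of_summable
  have ht : Tendsto (fun j => ‖z j‖) atTop (𝓝 0) := hs.tendsto_atTop_zero
  have hev : ∀ᶠ j in atTop, ‖z j‖ < 1 / 2 := ht.eventually (gt_mem_nhds (by norm_num))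
  refine Summable.of_norm_bounded_eventually_nat (g := fun j => 2 * ‖z j‖) (hs.mul_left 2) ?_
  filter_upwards [hev] with j hj
  rw [norm_norm, norm_mul, norm_inv]
  have h3 : 1 / 2 ≤ ‖1 - z j‖ := by
    have := norm_sub_norm_le (1 : ℂ) (z j)
    rw [norm_one] at this
    linarith
  have h4 : ‖1 - z j‖⁻¹ ≤ 2 := by
    rw [inv_le_comm₀ (by linarith) (by norm_num)]
    linarith
  nlinarith [norm_nonneg (z j)]

/-- the finitely supported sequences with support below `n` -/
private def An (n : ℕ) : Set (ℕ →₀ ℕ) := {m | ∀ j, n ≤ j → m j = 0}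

private noncomputable def ev (n : ℕ) : (An n × ℕ) ≃ An (n + 1) where
  toFun p := ⟨p.1.1 + Finsupp.single n p.2, by
    intro j hj
    have h1 : p.1.1 j = 0 := p.1.2 j (by omega)
    have h2 : n ≠ j := by omega
    simp [h1, h2]⟩
  invFun m := (⟨m.1.erase n, by
    intro j hj
    rcases Nat.eq_or_lt_of_le hj with h | h
    · subst h; simp
    · rw [Finsupp.erase_ne (by omega)]
      exact m.2 j (by omega)⟩, m.1 n)
  left_inv p := by
    have h0 : p.1.1 n = 0 := p.1.2 n le_rfl
    ext j
    · by_cases h : j = n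
      · subst h; simp [h0]
      · simp [Finsupp.erase_ne h, Ne.symm h]
    · simp [h0]
  right_inv m := by
    ext j
    by_cases h : j = n
    · subst h; simp
    · simp [Finsupp.erase_ne h, Ne.symm h]

private theorem ev_prod (z : ℕ → ℂ) (n : ℕ) (p : An n × ℕ) :
    ((ev n p).1.prod fun j e => z j ^ e) = (p.1.1.prod fun j e => z j ^ e) * z n ^ p.2 := by
  show ((p.1.1 + Finsupp.single n p.2).prod fun j e => z j ^ e) = _
  rw [Finsupp.prod_add_index' (fun _ => pow_zero _) (fun _ _ _ => pow_add _ _ _)]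
  congr 1
  exact Finsupp.prod_single_index (pow_zero _)

private theorem fin_sum {z : ℕ → ℂ} (hz : ∀ j, ‖z j‖ < 1) (n : ℕ) :
    (Summable fun m : An n => ‖m.1.prod fun j e => z j ^ e‖) ∧
    HasSum (fun m : An n => m.1.prod fun j e => z j ^ e) (∏ j ∈ Finset.range n, (1 - z j)⁻¹) := by
  induction n with
  | zero =>
    have hsub : ∀ m : An 0, m = ⟨0, fun _ _ => rfl⟩ := by
      intro m
      ext j
      exact m.2 j (Nat.zero_le j)
    have : Unique (An 0) := ⟨⟨⟨0, fun _ _ => rfl⟩⟩, hsub⟩
    have : Finite (An 0) := inferInstance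
    refine ⟨Summable.of_finite, ?_⟩
    have h := hasSum_unique (fun m : An 0 => m.1.prod fun j e => z j ^ e)
    have h2 : ((default : An 0).1.prod fun j e => z j ^ e) = 1 := by
      rw [hsub default]
      simp
    rw [h2] at h
    simpa using h
  | succ n ih =>
    obtain ⟨ih1, ih2⟩ := ih
    have hg1 : Summable fun k : ℕ => ‖z n ^ k‖ := by
      simp_rw [norm_pow]
      exact summable_geometric_of_lt_one (norm_nonneg _) (hz n)
    have hg2 : HasSum (fun k : ℕ => z n ^ k) (1 - z n)⁻¹ := hasSum_geometric_of_norm_lt_one (hz n)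
    have hS : Summable fun p : An n × ℕ => ‖(p.1.1.prod fun j e => z j ^ e) * z n ^ p.2‖ := by
      have := Summable.mul_of_nonneg ih1 hg1 (fun _ => norm_nonneg _) (fun _ => norm_nonneg _)
      refine this.congr ?_
      intro p
      rw [norm_mul]
    have hH : HasSum (fun p : An n × ℕ => (p.1.1.prod fun j e => z j ^ e) * z n ^ p.2)
        ((∏ j ∈ Finset.range n, (1 - z j)⁻¹) * (1 - z n)⁻¹) :=
      ih2.mul hg2 hS.of_norm
    constructor
    · rw [← (ev n).summable_iff]
      refine hS.congr ?_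
      intro p
      show _ = ‖(ev n p).1.prod fun j e => z j ^ e‖
      rw [ev_prod]
    · rw [Finset.prod_range_succ, ← (ev n).hasSum_iff]
      convert hH using 1
      funext p
      show ((ev n p).1.prod fun j e => z j ^ e) = _
      rw [ev_prod]

theorem hasSum_finsupp {z : ℕ → ℂ} (hz : ∀ j, ‖z j‖ < 1) (hs : Summable fun j => ‖z j‖) :
    (Summable fun m : ℕ →₀ ℕ => ‖m.prod fun j e => z j ^ e‖) ∧
    HasSum (fun m : ℕ →₀ ℕ => m.prod fun j e => z j ^ e) (∏' j, (1 - z j)⁻¹) := by
  -- the real partial products are bounded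
  set a : ℕ → ℂ := fun j => ((‖z j‖ : ℝ) : ℂ) with ha
  have hna : ∀ j, ‖a j‖ = ‖z j‖ := by intro j; simp [ha]
  have haz : ∀ j, ‖a j‖ < 1 := fun j => by rw [hna]; exact hz j
  have has : Summable fun j => ‖a j‖ := by simpa [hna] using hs
  have hmul := (mult_aux haz has).hasProd.tendsto_prod_nat
  obtain ⟨C, hC⟩ := (hmul.norm).bddAbove_range
  have hb : ∀ n, ∑' m : An n, ‖m.1.prod fun j e => z j ^ e‖ ≤ C := by
    intro n
    have h1 := (fin_sum haz n).2
    have h2 : (fun m : An n => m.1.prod fun j e => a j ^ e) =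
        fun m : An n => ((‖m.1.prod fun j e => z j ^ e‖ : ℝ) : ℂ) := by
      funext m
      simp only [Finsupp.prod, norm_prod, norm_pow, Complex.ofReal_prod, Complex.ofReal_pow, ha]
    rw [h2] at h1
    have h3 : HasSum (fun m : An n => ‖m.1.prod fun j e => z j ^ e‖)
        (∏ j ∈ Finset.range n, (1 - ‖z j‖)⁻¹) := by
      rw [← Complex.hasSum_ofReal]
      convert h1 using 1
      push_cast
      rfl
    rw [h3.tsum_eq]
    have h4 := hC ⟨n, rfl⟩
    refine le_trans (le_of_eq ?_) h4
    show _ = ‖∏ j ∈ Finset.range n, (1 - a j)⁻¹‖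
    rw [norm_prod]
    refine Finset.prod_congr rfl ?_
    intro j _
    rw [norm_inv]
    congr 1
    have h5 : (1 : ℂ) - a j = ((1 - ‖z j‖ : ℝ) : ℂ) := by simp [ha]
    rw [h5, Complex.norm_real, Real.norm_of_nonneg (by linarith [hz j])]
  have hcover : ∀ s : Finset (ℕ →₀ ℕ), ∃ n, ∀ m ∈ s, m ∈ An n := by
    intro s
    refine ⟨(s.sup fun m => m.support.sup id) + 1, ?_⟩
    intro m hm j hj
    by_contra hne
    have h1 : j ∈ m.support := Finsupp.mem_support_iff.mpr hne
    have h2 : j ≤ m.support.sup id := Finset.le_sup (f := id) h1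
    have h3 : m.support.sup id ≤ s.sup fun m => m.support.sup id :=
      Finset.le_sup (f := fun m : ℕ →₀ ℕ => m.support.sup id) hm
    omega
  have hsum : Summable fun m : ℕ →₀ ℕ => ‖m.prod fun j e => z j ^ e‖ := by
    refine summable_of_sum_le (c := C) (fun _ => norm_nonneg _) ?_
    intro s
    obtain ⟨n, hn⟩ := hcover s
    have h1 : ∑ m ∈ s, ‖m.prod fun j e => z j ^ e‖ =
        ∑ m ∈ s.attach, ‖(⟨m.1, hn m.1 m.2⟩ : An n).1.prod fun j e => z j ^ e‖ :=
      (Finset.sum_attach s (fun m => ‖m.prod fun j e => z j ^ e‖)).symm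
    rw [h1]
    have hinj : Function.Injective fun m : {x // x ∈ s} => (⟨m.1, hn m.1 m.2⟩ : An n) := by
      intro x y hxy
      apply Subtype.ext
      exact congrArg (fun w : An n => w.1) hxy
    have h2 : ∑ m ∈ s.attach, ‖(⟨m.1, hn m.1 m.2⟩ : An n).1.prod fun j e => z j ^ e‖ =
        ∑ m ∈ s.attach.map ⟨_, hinj⟩, ‖m.1.prod fun j e => z j ^ e‖ := by
      rw [Finset.sum_map]
      rfl
    rw [h2]
    exact le_trans ((fin_sum hz n).1.sum_le_tsum _ (fun _ _ => norm_nonneg _)) (hb n)
  refine ⟨hsum, ?_⟩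
  have hS : Summable fun m : ℕ →₀ ℕ => m.prod fun j e => z j ^ e := hsum.of_norm
  have hlim1 : Tendsto (fun n => ∑' m : ℕ →₀ ℕ, (An n).indicator (fun m => m.prod fun j e => z j ^ e) m)
      atTop (𝓝 (∑' m : ℕ →₀ ℕ, m.prod fun j e => z j ^ e)) := by
    refine tendsto_tsum_of_dominated_convergence hsum ?_ ?_
    · intro m
      obtain ⟨n0, hn0⟩ := hcover {m}
      refine tendsto_const_nhds.congr' ?_
      filter_upwards [eventually_ge_atTop n0] with n hn
      rw [Set.indicator_of_mem]
      intro j hj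
      exact hn0 m (Finset.mem_singleton_self m) j (le_trans hn hj)
    · filter_upwards with n m
      by_cases h : m ∈ An n
      · rw [Set.indicator_of_mem h]
      · rw [Set.indicator_of_notMem h, norm_zero]
        exact norm_nonneg _
  have hlim2 : Tendsto (fun n => ∑' m : ℕ →₀ ℕ, (An n).indicator (fun m => m.prod fun j e => z j ^ e) m)
      atTop (𝓝 (∏' j, (1 - z j)⁻¹)) := by
    have h := (mult_aux hz hs).hasProd.tendsto_prod_nat
    refine h.congr ?_
    intro n
    rw [← tsum_subtype, (fin_sum hz n).2.tsum_eq]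
  have heq := tendsto_nhds_unique hlim1 hlim2
  rw [← heq]
  exact hS.hasSum

end VO
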