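import Pool.Agent.H15.VO.Mb

/-!
# Dsum : the density `dn` of the system

For `y > 0` let `N` be the first index with `y < (P N).R`. The blocks `n < N` contribute
`y |m n y| ≤ 1/100 exp (- y / R n)` (`m_large`), in total at most `1/50 exp (- y / R (N-1)) ≤ 1/50 exp (- b N y)`
(`Sparse.R`, `Sparse.b`). The blocks `n > N` contribute at most `y ∑ 2 K n b n ≤ R N (g N)^(-4) / 8` (`m_small`,
`Sparse.eps`), which is much smaller than `exp (- b N R N)`. The block `N`: `m_lower`. Together
`y dn y ≥ exp (- b N y) - exp (- y) - (1/8 + 1/50) exp (- b N y) - tiny`. For small `y` use `m_small` for all blocks: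
`dn y ≥ (1 - exp (- y)) / y - 1/4`.
-/

set_option autoImplicit false

open Complex MeasureTheory Set Filter Topology

namespace VO

variable {P : ℕ → Blk}

theorem R_ge (hP : Sparse P) (n : ℕ) : (24 : ℝ) ^ n ≤ (P n).R := by
  induction n with
  | zero => simpa using (P 0).hR
  | succ n ih =>
    have := hP.R n
    rw [pow_succ]
    linarith

private theorem R_pos (n : ℕ) : 0 < (P n).R := lt_of_lt_of_le one_pos (P n).hR

private theorem R_chain (hP : Sparse P) (n j : ℕ) : (24 : ℝ) ^ j * (P n).R ≤ (P (n + j)).R := by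
  induction j with
  | zero => simp
  | succ j ih =>
    have := hP.R (n + j)
    rw [pow_succ, ← Nat.add_assoc]
    linarith

private theorem R_mono (hP : Sparse P) (n j : ℕ) : (P n).R ≤ (P (n + j)).R := by
  refine le_trans ?_ (R_chain hP n j)
  have h1 : (1 : ℝ) ≤ 24 ^ j := one_le_pow₀ (by norm_num)
  have h2 := R_pos (P := P) n
  nlinarith

/-- the first case: `y` is below the range of the block -/
private theorem abs_m_lt (hP : Sparse P) {y : ℝ} (hy : 0 < y) {n : ℕ} (h : y < (P n).R) :
    |(P n).m y| ≤ 1 / 8 * (1 / 2) ^ n := by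
  refine ((P n).m_small hy h).trans ((hP.eps0 n).trans (le_of_eq ?_))
  rw [pow_add]
  norm_num
  ring

private theorem abs_m_ge {y : ℝ} (hy : 0 < y) {n : ℕ} (h : (P n).R ≤ y) :
    |(P n).m y| ≤ 1 / 100 / y := by
  have h1 := (P n).m_large h
  have h2 : Real.exp (-(y / (P n).R)) ≤ 1 := by
    rw [Real.exp_le_one_iff]
    have := div_pos hy (R_pos (P := P) n)
    linarith
  rw [le_div_iff₀ hy]
  linarith

private theorem abs_m (hP : Sparse P) {y : ℝ} (hy : 0 < y) (n : ℕ) :
    |(P n).m y| ≤ 1 / 8 * (1 / 2) ^ n := by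
  rcases lt_or_ge y (P n).R with h | h
  · exact abs_m_lt hP hy h
  · refine (abs_m_ge hy h).trans ?_
    have h3 : (24 : ℝ) ^ n ≤ y := (R_ge hP n).trans h
    have h4 : (2 : ℝ) ^ n ≤ y := (pow_le_pow_left₀ (by norm_num) (by norm_num) n).trans h3
    have h5 : (0 : ℝ) < 2 ^ n := by positivity
    rw [one_div_pow, ← mul_one_div (1 / 100 : ℝ) y]
    have h6 : 1 / y ≤ 1 / 2 ^ n := one_div_le_one_div_of_le h5 h4
    have h7 : 0 < 1 / y := by positivity
    linarith

theorem m_summable (hP : Sparse P) {y : ℝ} (hy : 0 < y) : Summable fun n => (P n).m y := by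
  refine Summable.of_norm_bounded (g := fun n : ℕ => 1 / 8 * (1 / 2 : ℝ) ^ n)
    (summable_geometric_two.mul_left _) fun n => ?_
  rw [Real.norm_eq_abs]
  exact abs_m hP hy n

private theorem tail_le (hP : Sparse P) {y : ℝ} (hy : 0 < y) (k : ℕ) :
    |∑' n, (P (n + k)).m y| ≤ 1 / 4 * (1 / 2) ^ k := by
  have hs : HasSum (fun n : ℕ => 1 / 8 * (1 / 2 : ℝ) ^ k * (1 / 2) ^ n) (1 / 8 * (1 / 2 : ℝ) ^ k * 2) :=
    hasSum_geometric_two.mul_left _
  have := tsum_of_norm_bounded hs (f := fun n => (P (n + k)).m y) fun n => by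
    rw [Real.norm_eq_abs]
    refine (abs_m hP hy (n + k)).trans (le_of_eq ?_)
    rw [pow_add]
    ring
  rw [Real.norm_eq_abs] at this
  refine this.trans (le_of_eq ?_)
  ring

private theorem sum_le (hP : Sparse P) {y : ℝ} (hy : 0 < y) : |∑' n, (P n).m y| ≤ 1 / 4 := by
  have := tail_le hP hy 0
  simpa using this

private theorem ck_meas_aux (P : Blk) (k : ℕ) : Measurable (P.ck k) := by
  have h1 : Measurable fun y : ℝ => (1 - Real.exp (-P.b * y)) / y :=
    (measurable_const.sub (Real.measurable_exp.comp (measurable_const.mul measurable_id))).div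
      measurable_id
  have h2 : Measurable fun y : ℝ => r1 (y / P.R) / P.R :=
    (r1_meas.comp (measurable_id.div_const _)).div_const _
  have h3 : Measurable fun y : ℝ => Real.exp (-P.b * y) :=
    Real.measurable_exp.comp (measurable_const.mul measurable_id)
  by_cases hk : Even k
  · have : P.ck k = fun y => (1 - Real.exp (-P.b * y)) / y - r1 (y / P.R) / P.R := by
      funext y
      simp only [Blk.ck, if_pos hk]
    rw [this]
    exact h1.sub h2
  · have : P.ck k = fun y => -((1 - Real.exp (-P.b * y)) / y) -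
        Real.exp (-P.b * y) * (r1 (y / P.R) / P.R) := by
      funext y
      simp only [Blk.ck, if_neg hk]
    rw [this]
    exact h1.neg.sub (h3.mul h2)

private theorem m_meas_aux (P : Blk) : Measurable P.m := by
  have : P.m = fun y => ∑ k ∈ Finset.Icc 1 P.K,
      2 * Real.cos (k * P.g * y) * Real.exp (-P.lam * (k : ℝ) ^ 2 * y) * P.ck k y := by
    funext y
    rfl
  rw [this]
  refine Finset.measurable_sum _ fun k _ => ?_
  refine Measurable.mul ?_ (ck_meas_aux P k)
  exact Continuous.measurable (by fun_prop)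

theorem dn_meas (hP : Sparse P) : Measurable fun y : ℝ => if 0 < y then dn P y else 0 := by
  have hF : ∀ N : ℕ, Measurable fun y : ℝ =>
      if 0 < y then (1 - Real.exp (-y)) / y + ∑ n ∈ Finset.range N, (P n).m y else 0 := by
    intro N
    refine Measurable.ite measurableSet_Ioi ?_ measurable_const
    refine Measurable.add ?_ (Finset.measurable_sum _ fun n _ => m_meas_aux (P n))
    exact (measurable_const.sub (Real.measurable_exp.comp measurable_neg)).div measurable_id
  refine measurable_of_tendsto_metrizable hF ?_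
  rw [tendsto_pi_nhds]
  intro y
  by_cases hy : 0 < y
  · simp only [if_pos hy]
    exact (m_summable hP hy).hasSum.tendsto_sum_nat.const_add _
  · simp only [if_neg hy]
    exact tendsto_const_nhds

private theorem main_le {y : ℝ} (hy : 0 < y) : (1 - Real.exp (-y)) / y ≤ 1 := by
  rw [div_le_one hy]
  have := Real.add_one_le_exp (-y)
  linarith

private theorem main_ge {y : ℝ} (hy : 0 < y) (hy1 : y ≤ 1) : 1 / 2 ≤ (1 - Real.exp (-y)) / y := by
  rw [le_div_iff₀ hy, Real.exp_neg]
  have h1 := Real.add_one_le_exp y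
  have h2 : (Real.exp y)⁻¹ ≤ (y + 1)⁻¹ := inv_anti₀ (by linarith) h1
  have h3 : (y + 1)⁻¹ ≤ 1 - 1 / 2 * y := by
    rw [inv_le_iff_one_le_mul₀ (by linarith)]
    nlinarith
  linarith

/-- the blocks before the current one -/
private theorem before_le (hP : Sparse P) {y : ℝ} (hy : 0 < y) (n j : ℕ)
    (h : (P (n + j)).R ≤ y) :
    y * |(P n).m y| ≤ 1 / 100 * Real.exp (-(P (n + j + 1)).b * y) * (1 / 2) ^ j := by
  have hRn := R_pos (P := P) n
  have hRj := R_pos (P := P) (n + j)
  have h1 := (P n).m_large ((R_mono hP n j).trans h)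
  refine h1.trans ?_
  rw [mul_assoc]
  refine mul_le_mul_of_nonneg_left ?_ (by norm_num)
  have ht1 : 1 ≤ y / (P (n + j)).R := by rwa [one_le_div hRj]
  have htb : (P (n + j + 1)).b * y ≤ y / (P (n + j)).R := by
    rw [le_div_iff₀ hRj]
    have := hP.b (n + j)
    nlinarith
  have hc := R_chain hP n j
  have h24 : (1 : ℝ) + j ≤ 24 ^ j := by
    have := one_add_mul_le_pow (a := (23 : ℝ)) (by norm_num) j
    have hj : (0 : ℝ) ≤ j := Nat.cast_nonneg j
    norm_num at this
    linarith
  have hfr : (24 : ℝ) ^ j * (y / (P (n + j)).R) ≤ y / (P n).R := by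
    rw [le_div_iff₀ hRn]
    calc (24 : ℝ) ^ j * (y / (P (n + j)).R) * (P n).R
        = (24 ^ j * (P n).R) * (y / (P (n + j)).R) := by ring
      _ ≤ (P (n + j)).R * (y / (P (n + j)).R) :=
          mul_le_mul_of_nonneg_right hc (by positivity)
      _ = y := by field_simp
  have hkey : (P (n + j + 1)).b * y + j ≤ y / (P n).R := by
    refine le_trans ?_ hfr
    have hj : (0 : ℝ) ≤ j := Nat.cast_nonneg j
    nlinarith
  have he : Real.exp (-1) ≤ 1 / 2 := by
    have := Real.exp_one_gt_d9
    rw [Real.exp_neg, inv_le_comm₀ (Real.exp_pos 1) (by norm_num)]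
    norm_num
    linarith
  calc Real.exp (-(y / (P n).R)) ≤ Real.exp (-(P (n + j + 1)).b * y + (j : ℝ) * (-1)) := by
        rw [Real.exp_le_exp]
        linarith
    _ = Real.exp (-(P (n + j + 1)).b * y) * Real.exp (-1) ^ j := by
        rw [Real.exp_add, Real.exp_nat_mul]
    _ ≤ Real.exp (-(P (n + j + 1)).b * y) * (1 / 2) ^ j := by
        refine mul_le_mul_of_nonneg_left ?_ (Real.exp_pos _).le
        exact pow_le_pow_left₀ (Real.exp_pos _).le he j

/-- the blocks after the current one -/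
private theorem after_le (hP : Sparse P) {y : ℝ} (hy : 0 < y) (N : ℕ) (h : y < (P N).R) :
    y * |∑' n, (P (n + (N + 1))).m y| ≤ 1 / 1000 * Real.exp (-(P N).b * y) := by
  have hR := R_pos (P := P) N
  have hK : (1 : ℝ) ≤ (P N).K := by nlinarith [(P N).hK, (P N).hbR]
  have hg := (P N).hg
  have hexp : 0 < Real.exp (2 * (P N).R) := Real.exp_pos _
  have hg1 : 1024 * Real.exp (2 * (P N).R) ≤ (P N).g := by nlinarith
  have hexp1 : 1 ≤ Real.exp (2 * (P N).R) := Real.one_le_exp (by positivity)
  have hgg : (1 : ℝ) ≤ (P N).g := by linarith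
  have hg4 : (P N).g ≤ (P N).g ^ 4 := le_self_pow₀ hgg (by norm_num)
  have hg4pos : 0 < (P N).g ^ 4 := by positivity
  have hterm : ∀ n : ℕ, |(P (n + (N + 1))).m y| ≤ 1 / 16 / (P N).g ^ 4 * (1 / 2) ^ n := by
    intro n
    have hlt : y < (P (n + (N + 1))).R := by
      have := R_mono hP N (n + 1)
      rw [show N + (n + 1) = n + (N + 1) by ring] at this
      linarith
    refine ((P (n + (N + 1))).m_small hy hlt).trans ?_
    have h1 := hP.eps N (n + (N + 1)) (by omega)
    have h2 : (1 / 2 : ℝ) ^ (n + (N + 1) + 3) ≤ 1 / 16 * (1 / 2) ^ n := by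
      have : (1 / 2 : ℝ) ^ (n + (N + 1) + 3) = (1 / 16 * (1 / 2) ^ n) * (1 / 2) ^ N := by
        rw [show n + (N + 1) + 3 = 4 + n + N by ring, pow_add, pow_add]
        norm_num
      rw [this]
      have h3 : (1 / 2 : ℝ) ^ N ≤ 1 := pow_le_one₀ (by norm_num) (by norm_num)
      have h4 : (0 : ℝ) ≤ 1 / 16 * (1 / 2) ^ n := by positivity
      nlinarith
    rw [div_mul_eq_mul_div, le_div_iff₀ hg4pos]
    linarith
  have hs : HasSum (fun n : ℕ => 1 / 16 / (P N).g ^ 4 * (1 / 2 : ℝ) ^ n) (1 / 16 / (P N).g ^ 4 * 2) :=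
    hasSum_geometric_two.mul_left _
  have hb := tsum_of_norm_bounded hs (f := fun n => (P (n + (N + 1))).m y) fun n => by
    rw [Real.norm_eq_abs]
    exact hterm n
  rw [Real.norm_eq_abs] at hb
  have hRe : (P N).R ≤ Real.exp (P N).R := by
    have := Real.add_one_le_exp (P N).R
    linarith
  have hby : Real.exp (-(P N).R) ≤ Real.exp (-(P N).b * y) := by
    rw [Real.exp_le_exp]
    have := (P N).hb
    have := (P N).hb1
    nlinarith
  have h5 : (P N).R ≤ Real.exp (2 * (P N).R) * Real.exp (-(P N).b * y) := by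
    calc (P N).R ≤ Real.exp (P N).R := hRe
      _ = Real.exp (2 * (P N).R) * Real.exp (-(P N).R) := by
          rw [← Real.exp_add]
          congr 1
          ring
      _ ≤ _ := mul_le_mul_of_nonneg_left hby (Real.exp_pos _).le
  calc y * |∑' n, (P (n + (N + 1))).m y| ≤ (P N).R * (1 / 16 / (P N).g ^ 4 * 2) := by
        gcongr
    _ = (P N).R / (8 * (P N).g ^ 4) := by
        field_simp
        norm_num
    _ ≤ 1 / 1000 * Real.exp (-(P N).b * y) := by
        rw [div_le_iff₀ (by positivity)]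
        have hE := Real.exp_pos (-(P N).b * y)
        have h6 : Real.exp (2 * (P N).R) * 1024 ≤ (P N).g ^ 4 := by linarith
        have h7 : Real.exp (-(P N).b * y) * (Real.exp (2 * (P N).R) * 1024) ≤
            Real.exp (-(P N).b * y) * (P N).g ^ 4 := mul_le_mul_of_nonneg_left h6 hE.le
        nlinarith

private theorem refl_sum (N : ℕ) : ∑ n ∈ Finset.range N, (1 / 2 : ℝ) ^ (N - 1 - n) ≤ 2 := by
  rw [Finset.sum_range_reflect (fun j => (1 / 2 : ℝ) ^ j) N]
  exact summable_geometric_two.sum_le_tsum _ (fun i _ => by positivity) |>.trans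
    (le_of_eq tsum_geometric_two)

private theorem y_dn (hP : Sparse P) {y : ℝ} (hy : 0 < y) :
    ∃ N : ℕ, 17 / 20 * Real.exp (-(P N).b * y) - Real.exp (-y) ≤ y * dn P y := by
  have hex : ∃ N : ℕ, y < (P N).R := by
    obtain ⟨N, hN⟩ := pow_unbounded_of_one_lt y (by norm_num : (1 : ℝ) < 24)
    exact ⟨N, hN.trans_le (R_ge hP N)⟩
  classical
  obtain ⟨N, hN, hmin⟩ : ∃ N : ℕ, y < (P N).R ∧ ∀ n < N, (P n).R ≤ y :=
    ⟨Nat.find hex, Nat.find_spec hex, fun n hn => not_lt.mp (Nat.find_min hex hn)⟩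
  refine ⟨N, ?_⟩
  set E := Real.exp (-(P N).b * y) with hE
  have hEpos : 0 < E := Real.exp_pos _
  have hsplit := (m_summable hP hy).sum_add_tsum_nat_add (N + 1)
  rw [Finset.sum_range_succ] at hsplit
  have hbef : |∑ n ∈ Finset.range N, y * (P n).m y| ≤ 1 / 50 * E := by
    refine (Finset.abs_sum_le_sum_abs _ _).trans ?_
    have h1 : ∀ n ∈ Finset.range N, |y * (P n).m y| ≤ 1 / 100 * E * (1 / 2) ^ (N - 1 - n) := by
      intro n hn
      have hn' := Finset.mem_range.mp hn
      rw [abs_mul, abs_of_pos hy]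
      have hj : n + (N - 1 - n) + 1 = N := by omega
      have := before_le hP hy n (N - 1 - n) (hmin _ (by omega))
      rwa [hj] at this
    refine (Finset.sum_le_sum h1).trans ?_
    rw [← Finset.mul_sum]
    have := refl_sum N
    nlinarith
  have hbef' := (abs_le.mp hbef).1
  have haft := after_le hP hy N hN
  rw [← hE] at haft
  have haft' : -(1 / 1000 * E) ≤ y * ∑' n, (P (n + (N + 1))).m y := by
    have h1 := neg_abs_le (∑' n, (P (n + (N + 1))).m y)
    nlinarith
  have hcur := (P N).m_lower hy hN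
  rw [← hE] at hcur
  have hdn : y * dn P y = 1 - Real.exp (-y) + ∑ n ∈ Finset.range N, y * (P n).m y + y * (P N).m y +
      y * ∑' n, (P (n + (N + 1))).m y := by
    unfold dn
    rw [← hsplit, ← Finset.mul_sum]
    field_simp
    ring
  rw [hdn]
  linarith

private theorem dn_low_aux (hP : Sparse P) {y : ℝ} (hy : Real.log 2 ≤ y) :
    1 / 10 ≤ Real.exp y * dn P y := by
  have hl := Real.log_two_gt_d9
  have hy0 : 0 < y := by linarith
  obtain ⟨N, hN⟩ := y_dn hP hy0
  have hb1 := (P N).hb1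
  have h1 : 17 / 20 * Real.exp (y - (P N).b * y) - 1 ≤ Real.exp y * (y * dn P y) := by
    have h2 := mul_le_mul_of_nonneg_left hN (Real.exp_pos y).le
    refine le_trans (le_of_eq ?_) h2
    have e1 : Real.exp (y - (P N).b * y) = Real.exp y * Real.exp (-(P N).b * y) := by
      rw [← Real.exp_add]
      congr 1
      ring
    have e2 : Real.exp y * Real.exp (-y) = 1 := by
      rw [← Real.exp_add, add_neg_cancel, Real.exp_zero]
    rw [e1, mul_sub, e2]
    ring
  have h3 := Real.add_one_le_exp (y - (P N).b * y)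
  have h4 : (P N).b * y ≤ 1 / 100 * y := mul_le_mul_of_nonneg_right hb1 hy0.le
  have h5 : 1 / 10 * y ≤ Real.exp y * dn P y * y := by
    have : Real.exp y * dn P y * y = Real.exp y * (y * dn P y) := by ring
    rw [this]
    linarith
  exact le_of_mul_le_mul_right h5 hy0

theorem dn_nonneg (hP : Sparse P) {y : ℝ} (hy : 0 < y) : 0 ≤ dn P y := by
  rcases le_or_gt y 1 with h | h
  · have h1 := main_ge hy h
    have h2 := (abs_le.mp (sum_le hP hy)).1
    unfold dn
    linarith
  · have hl := Real.log_two_lt_d9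
    have h1 := dn_low_aux hP (y := y) (by linarith)
    have h2 := Real.exp_pos y
    by_contra hc
    push Not at hc
    nlinarith

theorem dn_le (hP : Sparse P) {y : ℝ} (hy : 0 < y) : dn P y ≤ 3 := by
  have h1 := main_le hy
  have h2 := (abs_le.mp (sum_le hP hy)).2
  unfold dn
  linarith

theorem dn_low (hP : Sparse P) {y : ℝ} (hy : Real.log 2 ≤ y) : 1 / 10 ≤ Real.exp y * dn P y :=
  dn_low_aux hP hy

private theorem abs_m_div {y : ℝ} (hy : 0 < y) (n : ℕ) :
    |(P n).m y| ≤ (2 * (P n).K * (P n).b * (P n).R + 1 / 100) / y := by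
  have hb := (P n).hb
  have hR := R_pos (P := P) n
  have hK : (0 : ℝ) ≤ (P n).K := Nat.cast_nonneg _
  have h0 : 0 ≤ 2 * ((P n).K : ℝ) * (P n).b := by positivity
  rcases lt_or_ge y (P n).R with h | h
  · refine ((P n).m_small hy h).trans ?_
    rw [le_div_iff₀ hy]
    nlinarith
  · refine (abs_m_ge hy h).trans ?_
    refine div_le_div_of_nonneg_right ?_ hy.le
    have : 0 ≤ 2 * ((P n).K : ℝ) * (P n).b * (P n).R := by positivity
    linarith

/-- `∑_{n ≥ n0} 2^(-n-3) ≤ ε`; the blocks `n < n0` contribute at most `2 K b R / y + 1 / (100 y)` each -/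
theorem dn_eps (hP : Sparse P) {ε : ℝ} (hε : 0 < ε) :
    ∃ C : ℝ, 0 ≤ C ∧ ∀ y : ℝ, 1 / 2 ≤ y → dn P y ≤ ε + C / y := by
  obtain ⟨n0, hn0⟩ := exists_pow_lt_of_lt_one hε (by norm_num : (1 / 2 : ℝ) < 1)
  refine ⟨1 + ∑ n ∈ Finset.range n0, (2 * (P n).K * (P n).b * (P n).R + 1 / 100), ?_, ?_⟩
  · refine add_nonneg zero_le_one (Finset.sum_nonneg fun n _ => ?_)
    have hb := (P n).hb
    have hR := R_pos (P := P) n
    positivity
  · intro y hy
    have hy0 : 0 < y := by linarith
    have hsplit := (m_summable hP hy0).sum_add_tsum_nat_add n0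
    have h1 : (1 - Real.exp (-y)) / y ≤ 1 / y := by
      refine div_le_div_of_nonneg_right ?_ hy0.le
      have := Real.exp_pos (-y)
      linarith
    have h2 : ∑ n ∈ Finset.range n0, (P n).m y ≤
        (∑ n ∈ Finset.range n0, (2 * (P n).K * (P n).b * (P n).R + 1 / 100)) / y := by
      rw [Finset.sum_div]
      exact Finset.sum_le_sum fun n _ => (le_abs_self _).trans (abs_m_div hy0 n)
    have h3 := (abs_le.mp (tail_le hP hy0 n0)).2
    have h4 : (0 : ℝ) ≤ (1 / 2) ^ n0 := by positivity
    unfold dn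
    rw [← hsplit, add_div]
    linarith

end VO
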