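import Mathlib

/-!
# RealInt : the integral of `exp (- σ x) min (ε exp x + C1, C2 sqrt (exp x (x + T)))`

Split at `X = log T`: on `[log 2, X]` use the first bound, `∫ ε exp ((1 - σ) x) dx ≤ ε log T T^(max 0 (1 - σ))`; on `[X, ∞)` the
second one with `sqrt (x + T) ≤ sqrt x + sqrt T`, `sqrt T ∫_X^∞ exp (- (σ - 1/2) x) dx = T^(1 - σ) / (σ - 1/2)`.
-/

set_option autoImplicit false

open MeasureTheory Set Filter Topology

namespace VO

theorem real_int {θ ε C1 C2 : ℝ} (hθ : 1 / 2 < θ) (hε : 0 < ε) (h1 : 0 ≤ C1) (h2 : 0 ≤ C2) :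
    ∃ C : ℝ, 0 ≤ C ∧ ∀ σ : ℝ, θ ≤ σ → σ ≤ 2 → ∀ T : ℝ, 1 ≤ T → ∀ F : ℝ → ℝ, Measurable F →
      (∀ x, 0 ≤ F x) → (∀ x, Real.log 2 ≤ x → F x ≤ ε * Real.exp x + C1) →
      (∀ x, Real.log 2 ≤ x → F x ≤ C2 * Real.sqrt (Real.exp x * (x + T))) →
      IntegrableOn (fun x => Real.exp (-σ * x) * F x) (Ioi (Real.log 2)) ∧
      ∫ x in Ioi (Real.log 2), Real.exp (-σ * x) * F x ≤ T ^ max 0 (1 - σ) * (ε * Real.log T + C) := by
  have hδ0 : 0 < θ - 1 / 2 := by linarith
  generalize hδ : θ - 1 / 2 = δ at hδ0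
  refine ⟨2 * C1 + C2 * Real.sqrt (1 / δ) * (2 / δ) + C2 / δ, by positivity, ?_⟩
  intro σ hσ _ T hT F hF hF0 hFa hFb
  generalize hm : max 0 (1 - σ) = m
  have hm0 : 0 ≤ m := by rw [← hm]; exact le_max_left _ _
  have hm1 : 1 - σ ≤ m := by rw [← hm]; exact le_max_right _ _
  have hT0 : 0 < T := by linarith
  have hL : 0 ≤ Real.log T := Real.log_nonneg hT
  have hTm : 1 ≤ T ^ m := Real.one_le_rpow hT hm0
  have hTm0 : 0 < T ^ m := by linarith
  have hTe : T ^ m = Real.exp (m * Real.log T) := by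
    rw [Real.rpow_def_of_pos hT0, mul_comm]
  have hl2 : 0 < Real.log 2 := Real.log_pos (by norm_num)
  have hσ1 : δ ≤ σ - 1 / 2 := by rw [← hδ]; linarith
  have hσ0 : 0 < σ - 1 / 2 := by linarith
  let g1 : ℝ → ℝ := (Ioc (Real.log 2) (Real.log T)).indicator (fun _ => ε * T ^ m)
  let g2 : ℝ → ℝ := fun x => C1 * Real.exp (-(1 / 2) * x)
  let g3 : ℝ → ℝ := fun x => C2 * Real.sqrt (1 / δ) * Real.exp (-(δ / 2) * x)
  let g4 : ℝ → ℝ := (Ioi (Real.log T)).indicator (fun x => C2 * Real.sqrt T * Real.exp (-(σ - 1 / 2) * x))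
  have g1n : ∀ x, 0 ≤ g1 x := fun x => Set.indicator_nonneg (fun _ _ => by positivity) x
  have g4n : ∀ x, 0 ≤ g4 x := fun x => Set.indicator_nonneg (fun _ _ => by positivity) x
  have g2n : ∀ x, 0 ≤ g2 x := fun x => by positivity
  have g3n : ∀ x, 0 ≤ g3 x := fun x => by positivity
  have i1 : Integrable g1 := by
    refine (integrable_indicator_iff measurableSet_Ioc).2 ?_
    exact integrableOn_const (by simp)
  have i2 : IntegrableOn g2 (Ioi (Real.log 2)) :=
    (integrableOn_exp_mul_Ioi (a := -(1 / 2)) (by norm_num) _).const_mul _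
  have i3 : IntegrableOn g3 (Ioi (Real.log 2)) :=
    (integrableOn_exp_mul_Ioi (a := -(δ / 2)) (by linarith) _).const_mul _
  have i4' : IntegrableOn (fun x => C2 * Real.sqrt T * Real.exp (-(σ - 1 / 2) * x)) (Ioi (Real.log T)) :=
    (integrableOn_exp_mul_Ioi (a := -(σ - 1 / 2)) (by linarith) _).const_mul _
  have i4 : Integrable g4 := (integrable_indicator_iff measurableSet_Ioi).2 i4'
  have iG : IntegrableOn (fun x => g1 x + g2 x + g3 x + g4 x) (Ioi (Real.log 2)) :=
    ((i1.integrableOn.add i2).add i3).add i4.integrableOn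
  have key : ∀ x ∈ Ioi (Real.log 2), Real.exp (-σ * x) * F x ≤ g1 x + g2 x + g3 x + g4 x := by
    intro x hx
    have hx2 : Real.log 2 < x := hx
    have hx0 : 0 < x := hl2.trans hx2
    by_cases hxT : x ≤ Real.log T
    · have e1 : g1 x = ε * T ^ m := Set.indicator_of_mem (show x ∈ Ioc _ _ from ⟨hx2, hxT⟩) _
      have b1 : Real.exp (-σ * x) * F x ≤ Real.exp (-σ * x) * (ε * Real.exp x + C1) :=
        mul_le_mul_of_nonneg_left (hFa x hx2.le) (Real.exp_pos _).le
      have b2 : Real.exp (-σ * x) * Real.exp x ≤ T ^ m := by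
        rw [← Real.exp_add, hTe]
        apply Real.exp_le_exp.2
        calc -σ * x + x = (1 - σ) * x := by ring
          _ ≤ m * x := mul_le_mul_of_nonneg_right hm1 hx0.le
          _ ≤ m * Real.log T := mul_le_mul_of_nonneg_left hxT hm0
      have b3 : Real.exp (-σ * x) ≤ Real.exp (-(1 / 2) * x) := by
        apply Real.exp_le_exp.2
        nlinarith
      have b4 : Real.exp (-σ * x) * (ε * Real.exp x + C1) ≤ ε * T ^ m + C1 * Real.exp (-(1 / 2) * x) := by
        have h3 := mul_le_mul_of_nonneg_left b2 hε.le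
        have h4 := mul_le_mul_of_nonneg_left b3 h1
        nlinarith
      have h3 := g3n x
      have h4 := g4n x
      have : g2 x = C1 * Real.exp (-(1 / 2) * x) := rfl
      linarith
    · have hxT' : Real.log T < x := lt_of_not_ge hxT
      have e4 : g4 x = C2 * Real.sqrt T * Real.exp (-(σ - 1 / 2) * x) := Set.indicator_of_mem (show x ∈ Ioi _ from hxT') _
      have b1 : Real.exp (-σ * x) * F x ≤ Real.exp (-σ * x) * (C2 * Real.sqrt (Real.exp x * (x + T))) :=
        mul_le_mul_of_nonneg_left (hFb x hx2.le) (Real.exp_pos _).le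
      have b2 : Real.sqrt (Real.exp x * (x + T)) ≤ Real.exp (x / 2) * (Real.sqrt (1 / δ) * Real.exp (δ / 2 * x) + Real.sqrt T) := by
        have s1 : Real.sqrt (Real.exp x) = Real.exp (x / 2) := by
          rw [Real.exp_half]
        rw [Real.sqrt_mul (Real.exp_pos _).le, s1]
        refine mul_le_mul_of_nonneg_left ?_ (Real.exp_pos _).le
        have s2 : Real.sqrt (x + T) ≤ Real.sqrt x + Real.sqrt T := by
          rw [Real.sqrt_le_left (by positivity)]
          nlinarith [Real.sq_sqrt hx0.le, Real.sq_sqrt hT0.le, Real.sqrt_nonneg x, Real.sqrt_nonneg T,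
            mul_nonneg (Real.sqrt_nonneg x) (Real.sqrt_nonneg T)]
        have s3 : Real.sqrt x ≤ Real.sqrt (1 / δ) * Real.exp (δ / 2 * x) := by
          have : Real.exp (δ / 2 * x) = Real.sqrt (Real.exp (δ * x)) := by
            rw [← Real.exp_half]
            congr 1
            ring
          rw [this, ← Real.sqrt_mul (by positivity)]
          apply Real.sqrt_le_sqrt
          have h5 : δ * x + 1 ≤ Real.exp (δ * x) := Real.add_one_le_exp _
          rw [div_mul_eq_mul_div, le_div_iff₀ hδ0]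
          linarith
        linarith
      have b3 : Real.exp (-σ * x) * (C2 * Real.sqrt (Real.exp x * (x + T))) ≤
          C2 * Real.sqrt (1 / δ) * Real.exp (-(δ / 2) * x) + C2 * Real.sqrt T * Real.exp (-(σ - 1 / 2) * x) := by
        have c1 : Real.exp (-σ * x) * (C2 * Real.sqrt (Real.exp x * (x + T))) ≤
            Real.exp (-σ * x) * (C2 * (Real.exp (x / 2) * (Real.sqrt (1 / δ) * Real.exp (δ / 2 * x) + Real.sqrt T))) :=
          mul_le_mul_of_nonneg_left (mul_le_mul_of_nonneg_left b2 h2) (Real.exp_pos _).le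
        have c2 : Real.exp (-σ * x) * Real.exp (x / 2) = Real.exp (-(σ - 1 / 2) * x) := by
          rw [← Real.exp_add]
          congr 1
          ring
        have c3 : Real.exp (-(σ - 1 / 2) * x) * Real.exp (δ / 2 * x) ≤ Real.exp (-(δ / 2) * x) := by
          rw [← Real.exp_add]
          apply Real.exp_le_exp.2
          nlinarith
        have c4 : Real.exp (-σ * x) * (C2 * (Real.exp (x / 2) * (Real.sqrt (1 / δ) * Real.exp (δ / 2 * x) + Real.sqrt T))) =
            C2 * Real.sqrt (1 / δ) * (Real.exp (-(σ - 1 / 2) * x) * Real.exp (δ / 2 * x)) +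
            C2 * Real.sqrt T * Real.exp (-(σ - 1 / 2) * x) := by
          rw [← c2]
          ring
        rw [c4] at c1
        have c5 : C2 * Real.sqrt (1 / δ) * (Real.exp (-(σ - 1 / 2) * x) * Real.exp (δ / 2 * x)) ≤
            C2 * Real.sqrt (1 / δ) * Real.exp (-(δ / 2) * x) :=
          mul_le_mul_of_nonneg_left c3 (by positivity)
        linarith
      have h3 := g1n x
      have h4 := g2n x
      have : g3 x = C2 * Real.sqrt (1 / δ) * Real.exp (-(δ / 2) * x) := rfl
      linarith
  have hn : ∀ x, 0 ≤ Real.exp (-σ * x) * F x := fun x => mul_nonneg (Real.exp_pos _).le (hF0 x)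
  have hmeas : Measurable (fun x => Real.exp (-σ * x) * F x) := by
    have : Measurable (fun x : ℝ => Real.exp (-σ * x)) := by fun_prop
    exact this.mul hF
  have iF : IntegrableOn (fun x => Real.exp (-σ * x) * F x) (Ioi (Real.log 2)) := by
    refine Integrable.mono' iG hmeas.aestronglyMeasurable ?_
    refine (ae_restrict_iff' measurableSet_Ioi).2 (Filter.Eventually.of_forall fun x hx => ?_)
    rw [Real.norm_of_nonneg (hn x)]
    exact key x hx
  refine ⟨iF, ?_⟩
  have k1 : ∫ x in Ioi (Real.log 2), g1 x ≤ T ^ m * (ε * Real.log T) := by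
    calc ∫ x in Ioi (Real.log 2), g1 x ≤ ∫ x, g1 x :=
          setIntegral_le_integral i1 (Filter.Eventually.of_forall g1n)
      _ = (max (Real.log T - Real.log 2) 0) * (ε * T ^ m) := by
          rw [integral_indicator measurableSet_Ioc, setIntegral_const]
          simp [Measure.real, Real.volume_Ioc, ENNReal.toReal_ofReal', smul_eq_mul]
      _ ≤ Real.log T * (ε * T ^ m) := by
          refine mul_le_mul_of_nonneg_right ?_ (by positivity)
          exact max_le (by linarith) hL
      _ = T ^ m * (ε * Real.log T) := by ring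
  have k2 : ∫ x in Ioi (Real.log 2), g2 x ≤ T ^ m * (2 * C1) := by
    have : ∫ x in Ioi (Real.log 2), g2 x = C1 * (- Real.exp (-(1 / 2) * Real.log 2) / (-(1 / 2))) := by
      rw [show (∫ x in Ioi (Real.log 2), g2 x) = ∫ x in Ioi (Real.log 2), C1 * Real.exp (-(1 / 2) * x) from rfl,
        integral_const_mul, integral_exp_mul_Ioi (by norm_num)]
    rw [this]
    have h5 : Real.exp (-(1 / 2) * Real.log 2) ≤ 1 := Real.exp_le_one_iff.2 (by nlinarith)
    have h6 : C1 * (- Real.exp (-(1 / 2) * Real.log 2) / (-(1 / 2))) = 2 * C1 * Real.exp (-(1 / 2) * Real.log 2) := by ring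
    rw [h6]
    nlinarith [mul_le_mul_of_nonneg_left h5 (by positivity : 0 ≤ 2 * C1),
      mul_le_mul_of_nonneg_right hTm (by positivity : 0 ≤ 2 * C1)]
  have k3 : ∫ x in Ioi (Real.log 2), g3 x ≤ T ^ m * (C2 * Real.sqrt (1 / δ) * (2 / δ)) := by
    have : ∫ x in Ioi (Real.log 2), g3 x = C2 * Real.sqrt (1 / δ) * (- Real.exp (-(δ / 2) * Real.log 2) / (-(δ / 2))) := by
      rw [show (∫ x in Ioi (Real.log 2), g3 x) = ∫ x in Ioi (Real.log 2), C2 * Real.sqrt (1 / δ) * Real.exp (-(δ / 2) * x) from rfl,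
        integral_const_mul, integral_exp_mul_Ioi (by linarith)]
    rw [this]
    have h5 : Real.exp (-(δ / 2) * Real.log 2) ≤ 1 := Real.exp_le_one_iff.2 (by nlinarith)
    have h6 : C2 * Real.sqrt (1 / δ) * (- Real.exp (-(δ / 2) * Real.log 2) / (-(δ / 2))) =
        C2 * Real.sqrt (1 / δ) * (2 / δ) * Real.exp (-(δ / 2) * Real.log 2) := by
      field_simp
    rw [h6]
    have h7 : 0 ≤ C2 * Real.sqrt (1 / δ) * (2 / δ) := by positivity
    nlinarith [mul_le_mul_of_nonneg_left h5 h7, mul_le_mul_of_nonneg_right hTm h7]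
  have k4 : ∫ x in Ioi (Real.log 2), g4 x ≤ T ^ m * (C2 / δ) := by
    calc ∫ x in Ioi (Real.log 2), g4 x ≤ ∫ x, g4 x :=
          setIntegral_le_integral i4 (Filter.Eventually.of_forall g4n)
      _ = C2 * Real.sqrt T * (- Real.exp (-(σ - 1 / 2) * Real.log T) / (-(σ - 1 / 2))) := by
          rw [integral_indicator measurableSet_Ioi, integral_const_mul, integral_exp_mul_Ioi (by linarith)]
      _ = C2 / (σ - 1 / 2) * (Real.sqrt T * Real.exp (-(σ - 1 / 2) * Real.log T)) := by
          have : σ - 1 / 2 ≠ 0 := hσ0.ne'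
          rw [neg_div_neg_eq]
          ring
      _ ≤ C2 / δ * T ^ m := by
          have h8 : Real.sqrt T = Real.exp (Real.log T / 2) := by
            rw [Real.exp_half, Real.exp_log hT0]
          have h9 : Real.sqrt T * Real.exp (-(σ - 1 / 2) * Real.log T) ≤ T ^ m := by
            rw [h8, ← Real.exp_add, hTe]
            apply Real.exp_le_exp.2
            have : Real.log T / 2 + -(σ - 1 / 2) * Real.log T = (1 - σ) * Real.log T := by ring
            rw [this]
            exact mul_le_mul_of_nonneg_right hm1 hL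
          have h10 : C2 / (σ - 1 / 2) ≤ C2 / δ := div_le_div_of_nonneg_left h2 hδ0 hσ1
          exact mul_le_mul h10 h9 (by positivity) (by positivity)
      _ = T ^ m * (C2 / δ) := by ring
  calc ∫ x in Ioi (Real.log 2), Real.exp (-σ * x) * F x
      ≤ ∫ x in Ioi (Real.log 2), (g1 x + g2 x + g3 x + g4 x) :=
        setIntegral_mono_on iF iG measurableSet_Ioi key
    _ = (∫ x in Ioi (Real.log 2), g1 x) + (∫ x in Ioi (Real.log 2), g2 x) +
        (∫ x in Ioi (Real.log 2), g3 x) + (∫ x in Ioi (Real.log 2), g4 x) := by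
        have j12 : IntegrableOn (fun x => g1 x + g2 x) (Ioi (Real.log 2)) := i1.integrableOn.add i2
        have j123 : IntegrableOn (fun x => g1 x + g2 x + g3 x) (Ioi (Real.log 2)) := j12.add i3
        rw [integral_add (f := fun x => g1 x + g2 x + g3 x) (g := g4) j123 i4.integrableOn,
          integral_add (f := fun x => g1 x + g2 x) (g := g3) j12 i3, integral_add i1.integrableOn i2]
    _ ≤ T ^ m * (ε * Real.log T) + T ^ m * (2 * C1) + T ^ m * (C2 * Real.sqrt (1 / δ) * (2 / δ)) + T ^ m * (C2 / δ) := by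
        linarith
    _ = T ^ m * (ε * Real.log T + (2 * C1 + C2 * Real.sqrt (1 / δ) * (2 / δ) + C2 / δ)) := by ring

end VO
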