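import Pool.Agent.H15.VO.EsA
import Pool.Agent.H15.VO.RealInt

/-!
# EsB : the bound of `Es` near the line `re s = 1`

`Es_abel` and `real_int` with `T = log (|t| + 3)` and
`F x = min (2 (ε' exp x + C1 + 1)) (C sqrt ((3 exp x + 1) (x + 2 + T)))`: for `x ≥ η N` we have `N ≤ ε' exp x + C1`
(`IsPart.count_eps`), `N ≤ 3 exp x` (`IsPart.count`), `‖Vs N t‖ ≤ 2 N` trivially, and `IsSel.bound`.
-/

set_option autoImplicit false

open Complex MeasureTheory Set Filter Topology

namespace VO

variable {f : ℝ → ℝ} {η u : ℕ → ℝ}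

private theorem Vs_triv (hf : Dens f) (hη : IsPart f η) (N : ℕ) (t : ℝ) :
    ‖Vs f η u N t‖ ≤ 2 * N := by
  unfold Vs
  have hterm : ∀ j ∈ Finset.range N, ‖Complex.exp (-(Complex.I * t * u j)) -
      ∫ v in (η j)..(η (j + 1)), ((Real.exp v * f v : ℝ) : ℂ) *
        Complex.exp (-(Complex.I * t * v))‖ ≤ 2 := by
    intro j _
    have h1 : ‖Complex.exp (-(Complex.I * t * u j))‖ = 1 := by
      rw [Complex.norm_exp]
      simp
    have h2 : ‖∫ v in (η j)..(η (j + 1)), ((Real.exp v * f v : ℝ) : ℂ) *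
        Complex.exp (-(Complex.I * t * v))‖ ≤ 1 := by
      have hle : η j ≤ η (j + 1) := (hη.mono (Nat.lt_succ_self j)).le
      calc ‖∫ v in (η j)..(η (j + 1)), ((Real.exp v * f v : ℝ) : ℂ) *
            Complex.exp (-(Complex.I * t * v))‖
          ≤ ∫ v in (η j)..(η (j + 1)), ‖((Real.exp v * f v : ℝ) : ℂ) *
            Complex.exp (-(Complex.I * t * v))‖ :=
            intervalIntegral.norm_integral_le_integral_norm hle
        _ = ∫ v in (η j)..(η (j + 1)), Real.exp v * f v := by
            congr 1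
            funext v
            have h3 : ‖Complex.exp (-(Complex.I * t * v))‖ = 1 := by
              rw [Complex.norm_exp]
              simp
            rw [norm_mul, h3, mul_one, Complex.norm_real, Real.norm_of_nonneg]
            exact mul_nonneg (Real.exp_pos v).le (hf.nonneg v)
        _ = 1 := hη.mass j
        _ ≤ 1 := le_refl _
    calc _ ≤ ‖Complex.exp (-(Complex.I * t * u j))‖ + ‖∫ v in (η j)..(η (j + 1)),
          ((Real.exp v * f v : ℝ) : ℂ) * Complex.exp (-(Complex.I * t * v))‖ := norm_sub_le _ _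
      _ ≤ 2 := by rw [h1]; linarith
  calc _ ≤ ∑ j ∈ Finset.range N, ‖Complex.exp (-(Complex.I * t * u j)) -
      ∫ v in (η j)..(η (j + 1)), ((Real.exp v * f v : ℝ) : ℂ) *
        Complex.exp (-(Complex.I * t * v))‖ := norm_sum_le _ _
    _ ≤ ∑ j ∈ Finset.range N, (2 : ℝ) := Finset.sum_le_sum hterm
    _ = 2 * N := by simp [mul_comm]

theorem Es_bound (hf : Dens f) (hη : IsPart f η) (hu : IsSel f η u) {θ ε : ℝ} (hθ : 1 / 2 < θ)
    (hε : 0 < ε) :
    ∃ C : ℝ, 0 ≤ C ∧ ∀ s : ℂ, θ ≤ s.re → s.re ≤ 2 →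
      ‖Es f η u s‖ ≤ Real.log (|s.im| + 3) ^ max 0 (1 - s.re) *
        (ε * Real.log (Real.log (|s.im| + 3)) + C) := by
  obtain ⟨C0, hC0, hcount⟩ := hη.count_eps (ε / 4) (by positivity)
  obtain ⟨C, hC, hbd⟩ := hu.bound
  obtain ⟨C', hC', hint⟩ := real_int (C1 := 2 * (C0 + 1)) (C2 := 4 * C) hθ
    (show 0 < 2 * (ε / 4) by positivity) (by positivity) (by positivity)
  refine ⟨2 * C' + 2, by positivity, ?_⟩
  intro s hs1 hs2
  have hT1 : 1 ≤ Real.log (|s.im| + 3) := by
    rw [Real.le_log_iff_exp_le (by positivity)]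
    have := Real.exp_one_lt_d9
    have h0 := abs_nonneg s.im
    linarith
  set T : ℝ := Real.log (|s.im| + 3) with hT
  set F : ℝ → ℝ := fun x => min (2 * (ε / 4 * Real.exp x + C0 + 1))
    (C * Real.sqrt ((3 * Real.exp x + 1) * (x + 2 + T))) with hF
  have hFm : Measurable F := by
    rw [hF]
    apply Measurable.min <;> fun_prop
  have hF0 : ∀ x, 0 ≤ F x := by
    intro x
    rw [hF]
    have := Real.exp_pos x
    exact le_min (by positivity) (mul_nonneg hC (Real.sqrt_nonneg _))
  have hFV : ∀ (N : ℕ) (x : ℝ), η N ≤ x → ‖Vs f η u (N + 1) s.im‖ ≤ F x := by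
    intro N x hx
    have hx2 : Real.log 2 ≤ x := (hη.ge N).trans hx
    have hex : 2 ≤ Real.exp x := by
      rw [← Real.log_le_iff_le_exp (by norm_num)]
      exact hx2
    have hmono : Real.exp (η N) ≤ Real.exp x := Real.exp_le_exp.mpr hx
    rw [hF]
    refine le_min ?_ ?_
    · have h1 := Vs_triv (u := u) hf hη (N + 1) s.im
      have h2 := hcount N
      push_cast at h1
      have h3 : ε / 4 * Real.exp (η N) ≤ ε / 4 * Real.exp x := by gcongr
      linarith
    · have h1 := hbd (N + 1) s.im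
      have h2 := hη.count N
      refine h1.trans (mul_le_mul_of_nonneg_left (Real.sqrt_le_sqrt ?_) hC)
      push_cast
      have hN : (N : ℝ) + 1 ≤ 3 * Real.exp x + 1 := by linarith
      have hlog : Real.log ((N : ℝ) + 1 + 2) ≤ x + 2 := by
        rw [Real.log_le_iff_le_exp (by positivity)]
        have h4 : Real.exp (x + 2) = Real.exp x * Real.exp 2 := Real.exp_add _ _
        have h5 : (5 : ℝ) ≤ Real.exp 2 := by
          have h6 : Real.exp 2 = Real.exp 1 ^ 2 := by
            rw [← Real.exp_nat_mul]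
            norm_num
          have h7 := Real.exp_one_gt_d9
          rw [h6]
          nlinarith
        rw [h4]
        nlinarith
      have hlog0 : 0 ≤ Real.log ((N : ℝ) + 1 + 2) := Real.log_nonneg (by
        have : (0 : ℝ) ≤ N := Nat.cast_nonneg N
        linarith)
      apply mul_le_mul hN _ (by linarith) (by positivity)
      linarith
  have hF1 : ∀ x, Real.log 2 ≤ x → F x ≤ 2 * (ε / 4) * Real.exp x + 2 * (C0 + 1) := by
    intro x _
    rw [hF]
    refine (min_le_left _ _).trans ?_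
    linarith
  have hF2 : ∀ x, Real.log 2 ≤ x → F x ≤ 4 * C * Real.sqrt (Real.exp x * (x + T)) := by
    intro x hx
    rw [hF]
    refine (min_le_right _ _).trans ?_
    have hx0 : 0 ≤ x := (Real.log_nonneg (by norm_num)).trans hx
    have hex : 1 ≤ Real.exp x := Real.one_le_exp hx0
    have h1 : (3 * Real.exp x + 1) * (x + 2 + T) ≤ 4 ^ 2 * (Real.exp x * (x + T)) := by
      have h2 : 3 * Real.exp x + 1 ≤ 4 * Real.exp x := by linarith
      have h3 : x + 2 + T ≤ 3 * (x + T) := by linarith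
      calc (3 * Real.exp x + 1) * (x + 2 + T) ≤ (4 * Real.exp x) * (3 * (x + T)) :=
            mul_le_mul h2 h3 (by linarith) (by positivity)
        _ ≤ 4 ^ 2 * (Real.exp x * (x + T)) := by
            have h4 : 0 ≤ Real.exp x * (x + T) := mul_nonneg (Real.exp_pos x).le (by linarith)
            nlinarith
    calc C * Real.sqrt ((3 * Real.exp x + 1) * (x + 2 + T))
        ≤ C * Real.sqrt (4 ^ 2 * (Real.exp x * (x + T))) :=
          mul_le_mul_of_nonneg_left (Real.sqrt_le_sqrt h1) hC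
      _ = 4 * C * Real.sqrt (Real.exp x * (x + T)) := by
          rw [Real.sqrt_mul (by norm_num), Real.sqrt_sq (by norm_num)]
          ring
  obtain ⟨hi, hI⟩ := hint s.re hs1 hs2 T hT1 F hFm hF0 hF1 hF2
  have hmain := Es_abel hf hη hu (s := s) (by linarith) hF0 hFV hi
  have hlogT : 0 ≤ Real.log T := Real.log_nonneg hT1
  have hpow : 1 ≤ T ^ max 0 (1 - s.re) := Real.one_le_rpow hT1 (le_max_left _ _)
  have hB : 0 ≤ T ^ max 0 (1 - s.re) * (2 * (ε / 4) * Real.log T + C') := by positivity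
  have hsI : s.re * ∫ x in Ioi (Real.log 2), Real.exp (-s.re * x) * F x ≤
      2 * (T ^ max 0 (1 - s.re) * (2 * (ε / 4) * Real.log T + C')) := by
    have hs0 : 0 ≤ s.re := by linarith
    calc s.re * ∫ x in Ioi (Real.log 2), Real.exp (-s.re * x) * F x
        ≤ s.re * (T ^ max 0 (1 - s.re) * (2 * (ε / 4) * Real.log T + C')) :=
          mul_le_mul_of_nonneg_left hI hs0
      _ ≤ 2 * (T ^ max 0 (1 - s.re) * (2 * (ε / 4) * Real.log T + C')) :=
          mul_le_mul_of_nonneg_right hs2 hB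
  calc ‖Es f η u s‖ ≤ 2 + s.re * ∫ x in Ioi (Real.log 2), Real.exp (-s.re * x) * F x := hmain
    _ ≤ 2 * T ^ max 0 (1 - s.re) +
        2 * (T ^ max 0 (1 - s.re) * (2 * (ε / 4) * Real.log T + C')) := by linarith
    _ = T ^ max 0 (1 - s.re) * (ε * Real.log T + (2 * C' + 2)) := by ring

end VO
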