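import Pool.Agent.H15.VO.Part

/-!
# PartB : the number of intervals if `f y ≤ C / y`

`n = ∫_{log 2}^{η n} exp u f u du ≤ C ∫_{log 2}^{η n} exp u / u du ≤ C' exp (η n) / η n`.
-/

set_option autoImplicit false

open MeasureTheory Set Filter Topology

namespace VO

/-- integrability of the density -/
theorem partB_ii {f : ℝ → ℝ} (hf : Dens f) (a b : ℝ) :
    IntervalIntegrable (fun u => Real.exp u * f u) volume a b := by
  have h1 : IntervalIntegrable (fun u => 3 * Real.exp u) volume a b :=
    (continuous_const.mul Real.continuous_exp).intervalIntegrable a b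
  refine h1.mono_fun ((Real.measurable_exp.mul hf.meas).aestronglyMeasurable) ?_
  refine Eventually.of_forall fun u => ?_
  have h2 := hf.nonneg u
  have h3 := hf.le u
  have h4 := Real.exp_pos u
  show ‖Real.exp u * f u‖ ≤ ‖3 * Real.exp u‖
  rw [Real.norm_of_nonneg (by positivity), Real.norm_of_nonneg (by positivity)]
  nlinarith

/-- the mass up to `b` is at most `3 exp b` -/
theorem partB_small {f : ℝ → ℝ} (hf : Dens f) {a b : ℝ} (hab : a ≤ b) :
    ∫ u in a..b, Real.exp u * f u ≤ 3 * Real.exp b := by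
  have h1 : ∫ u in a..b, 3 * Real.exp u = 3 * (Real.exp b - Real.exp a) := by
    rw [intervalIntegral.integral_const_mul, integral_exp]
  have h2 : ∫ u in a..b, Real.exp u * f u ≤ ∫ u in a..b, 3 * Real.exp u := by
    refine intervalIntegral.integral_mono_on hab (partB_ii hf a b)
      ((continuous_const.mul Real.continuous_exp).intervalIntegrable a b) fun u _ => ?_
    have h3 := hf.le u
    have h4 := Real.exp_pos u
    nlinarith
  have h5 := Real.exp_pos a
  linarith

/-- the mass on `[2, b]` -/
theorem partB_big {f : ℝ → ℝ} (hf : Dens f) {C : ℝ} (hC0 : 0 ≤ C) (hC : ∀ y, 0 < y → f y ≤ C / y)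
    {b : ℝ} (hb : 2 ≤ b) :
    ∫ u in (2 : ℝ)..b, Real.exp u * f u ≤ 2 * C * (Real.exp b / b) := by
  have hder : ∀ u ∈ Set.uIcc (2 : ℝ) b, HasDerivAt (fun u => 2 * C * (Real.exp u / u))
      (2 * C * ((Real.exp u * u - Real.exp u * 1) / u ^ 2)) u := by
    intro u hu
    rw [Set.uIcc_of_le hb] at hu
    have hu0 : u ≠ 0 := by
      have := hu.1
      intro h
      rw [h] at this
      norm_num at this
    exact ((Real.hasDerivAt_exp u).div (hasDerivAt_id u) hu0).const_mul (2 * C)
  have hcont : ContinuousOn (fun u : ℝ => 2 * C * ((Real.exp u * u - Real.exp u * 1) / u ^ 2))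
      (Set.uIcc (2 : ℝ) b) := by
    rw [Set.uIcc_of_le hb]
    apply ContinuousOn.mul continuousOn_const
    apply ContinuousOn.div
    · fun_prop
    · fun_prop
    · intro u hu
      have := hu.1
      positivity
  have hii : IntervalIntegrable (fun u : ℝ => 2 * C * ((Real.exp u * u - Real.exp u * 1) / u ^ 2))
      volume 2 b := hcont.intervalIntegrable
  have h1 := intervalIntegral.integral_eq_sub_of_hasDerivAt hder hii
  have h2 : ∫ u in (2 : ℝ)..b, Real.exp u * f u ≤
      ∫ u in (2 : ℝ)..b, 2 * C * ((Real.exp u * u - Real.exp u * 1) / u ^ 2) := by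
    refine intervalIntegral.integral_mono_on hb (partB_ii hf 2 b) hii fun u hu => ?_
    have hu2 : 2 ≤ u := hu.1
    have hu0 : 0 < u := by linarith
    have h3 := hC u hu0
    have h4 := Real.exp_pos u
    have h5 : Real.exp u * f u ≤ Real.exp u * (C / u) := mul_le_mul_of_nonneg_left h3 h4.le
    refine h5.trans ?_
    have h6 : 2 * C * ((Real.exp u * u - Real.exp u * 1) / u ^ 2) - Real.exp u * (C / u) =
        Real.exp u * C * (u - 2) / u ^ 2 := by
      field_simp
      ring
    have h7 : 0 ≤ Real.exp u * C * (u - 2) / u ^ 2 := by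
      have : 0 ≤ u - 2 := by linarith
      positivity
    linarith
  rw [h1] at h2
  have h8 : 0 ≤ 2 * C * (Real.exp 2 / 2) := by positivity
  linarith

theorem IsPart.count_div {f : ℝ → ℝ} {η : ℕ → ℝ} (hf : Dens f) (hη : IsPart f η) {C : ℝ}
    (hC : ∀ y, 0 < y → f y ≤ C / y) :
    ∃ C' : ℝ, 0 ≤ C' ∧ ∀ n : ℕ, (n : ℝ) * η n ≤ C' * Real.exp (η n) := by
  have hC0 : 0 ≤ C := by
    have h1 := hC 1 one_pos
    have h2 := hf.nonneg 1
    linarith [div_one C ▸ h1]
  have hl2 : 0 < Real.log 2 := Real.log_pos (by norm_num)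
  have hl2' : Real.log 2 < 1 := by
    have := Real.log_two_lt_d9
    linarith
  have hlow : ∀ n, Real.log 2 ≤ η n := fun n => by
    rw [← hη.zero]
    exact hη.mono.monotone (Nat.zero_le n)
  have hint : ∀ n : ℕ, ∫ u in (Real.log 2)..(η n), Real.exp u * f u = n := by
    intro n
    induction n with
    | zero => rw [hη.zero]; simp
    | succ n ih =>
      rw [← intervalIntegral.integral_add_adjacent_intervals (partB_ii hf _ (η n)) (partB_ii hf _ _), ih, hη.mass]
      push_cast
      ring
  refine ⟨6 + 2 * C, by positivity, fun n => ?_⟩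
  have hη0 : 0 < η n := lt_of_lt_of_le hl2 (hlow n)
  rcases le_total (η n) 2 with h | h
  · have h1 := partB_small hf (hlow n)
    rw [hint n] at h1
    have h2 : (n : ℝ) * η n ≤ (3 * Real.exp (η n)) * 2 :=
      mul_le_mul h1 h hη0.le (by positivity)
    have h3 : 0 ≤ 2 * C * Real.exp (η n) := by positivity
    nlinarith
  · have h1 := partB_small hf (a := Real.log 2) (b := 2) (by linarith)
    have h2 := partB_big hf hC0 hC h
    have h3 : (n : ℝ) ≤ 3 * Real.exp 2 + 2 * C * (Real.exp (η n) / η n) := by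
      rw [← hint n, ← intervalIntegral.integral_add_adjacent_intervals (partB_ii hf _ 2) (partB_ii hf _ _)]
      linarith
    have h4 : (n : ℝ) * η n ≤ (3 * Real.exp 2 + 2 * C * (Real.exp (η n) / η n)) * η n :=
      mul_le_mul_of_nonneg_right h3 hη0.le
    have h5 : (3 * Real.exp 2 + 2 * C * (Real.exp (η n) / η n)) * η n =
        3 * (Real.exp 2 * η n) + 2 * C * Real.exp (η n) := by
      field_simp
    have h6 : Real.exp 2 * η n ≤ 2 * Real.exp (η n) := by
      have e1 : Real.exp (η n) = Real.exp 2 * Real.exp (η n - 2) := by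
        rw [← Real.exp_add]
        ring_nf
      have e2 : η n - 2 + 1 ≤ Real.exp (η n - 2) := Real.add_one_le_exp _
      have e3 : η n ≤ 2 * Real.exp (η n - 2) := by linarith
      have e4 := Real.exp_pos 2
      rw [e1]
      nlinarith
    rw [h5] at h4
    linarith

end VO
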