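import Pool.Agent.H15.VO.Fn

/-!
# Fac : size of the factors `Ph`

Even `k`: `Ph k z = (z + b) R J1 (R z)`, so `Ph k z = (1 - D1 (R z)) + b R J1 (R z)`.
Odd `k`: `Ph k z = z R J1 (R (z + b)) = (1 - D1 (R (z + b))) - b R J1 (R (z + b))`.
-/

set_option autoImplicit false

open Complex MeasureTheory Set Filter Topology

namespace VO

namespace Blk

variable (P : Blk)

private theorem Ph_even {k : ℕ} (hk : Even k) (z : ℂ) :
    P.Ph k z = 1 - D1 (P.R * z) + P.b * P.R * J1 (P.R * z) := by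
  unfold Ph
  rw [if_pos hk]
  have h := mul_J1 (P.R * z)
  linear_combination h

private theorem Ph_odd {k : ℕ} (hk : ¬ Even k) (z : ℂ) :
    P.Ph k z = 1 - D1 (P.R * (z + P.b)) - P.b * P.R * J1 (P.R * (z + P.b)) := by
  unfold Ph
  rw [if_neg hk]
  have h := mul_J1 (P.R * (z + P.b))
  linear_combination h

private theorem re_mul {a : ℝ} {z : ℂ} (hz : -a ≤ z.re) : -(P.R * a) ≤ ((P.R : ℂ) * z).re := by
  have h1 : ((P.R : ℂ) * z).re = P.R * z.re := by simp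
  rw [h1]
  have h2 := mul_le_mul_of_nonneg_left hz (by linarith [P.hR] : (0 : ℝ) ≤ P.R)
  linarith

private theorem re_add {a : ℝ} {z : ℂ} (hz : -a ≤ z.re) : -a ≤ (z + (P.b : ℂ)).re := by
  have h1 : (z + (P.b : ℂ)).re = z.re + P.b := by simp
  rw [h1]
  linarith [P.hb]

theorem Ph_diff (k : ℕ) : Differentiable ℂ (P.Ph k) := by
  by_cases hk : Even k
  · have h : P.Ph k = fun z => (z + P.b) * (P.R * J1 (P.R * z)) := by
      funext z
      unfold Ph
      rw [if_pos hk]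
    rw [h]
    exact (differentiable_id.add_const _).mul ((J1_diff.comp (differentiable_id.const_mul _)).const_mul _)
  · have h : P.Ph k = fun z => z * (P.R * J1 (P.R * (z + P.b))) := by
      funext z
      unfold Ph
      rw [if_neg hk]
    rw [h]
    exact differentiable_id.mul
      ((J1_diff.comp ((differentiable_id.add_const _).const_mul _)).const_mul _)

theorem Ph_zero {k : ℕ} (hk : ¬ Even k) : P.Ph k 0 = 0 := by
  unfold Ph
  rw [if_neg hk, zero_mul]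

/-- the value of a factor through `D1` and `J1` -/
private theorem Ph_form (k : ℕ) {a : ℝ} {z : ℂ} (hz : -a ≤ z.re) :
    ∃ w : ℂ, -a ≤ w.re ∧ w.im = z.im ∧
      (P.Ph k z = 1 - D1 (P.R * w) + P.b * P.R * J1 (P.R * w) ∨
        P.Ph k z = 1 - D1 (P.R * w) - P.b * P.R * J1 (P.R * w)) := by
  by_cases hk : Even k
  · exact ⟨z, hz, rfl, Or.inl (P.Ph_even hk z)⟩
  · exact ⟨z + P.b, P.re_add hz, by simp, Or.inr (P.Ph_odd hk z)⟩

theorem Ph_near (k : ℕ) {a : ℝ} (ha : 0 ≤ a) {z : ℂ} (hz : -a ≤ z.re) :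
    ‖P.Ph k z‖ ≤ 4 * (P.b * P.R) * Real.exp (2 * P.R * a) := by
  obtain ⟨w, hw, -, hform⟩ := P.Ph_form k hz
  have hR0 : (0 : ℝ) ≤ P.R := by linarith [P.hR]
  have hRa : 0 ≤ P.R * a := mul_nonneg hR0 ha
  have h1 := norm_D1_le hRa (P.re_mul hw)
  have h2 := norm_J1_le hRa (P.re_mul hw)
  have he : 2 * (P.R * a) = 2 * P.R * a := by ring
  rw [he] at h1 h2
  have h3 : (1 : ℝ) ≤ Real.exp (2 * P.R * a) := Real.one_le_exp (by rw [← he]; positivity)
  have hbR : ‖((P.b : ℂ) * P.R)‖ = P.b * P.R := by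
    rw [norm_mul, Complex.norm_real, Complex.norm_real, Real.norm_of_nonneg P.hb.le, Real.norm_of_nonneg hR0]
  have h4 : ‖(P.b : ℂ) * P.R * J1 (P.R * w)‖ ≤ P.b * P.R * (3 / 2 * Real.exp (2 * P.R * a)) := by
    rw [norm_mul, hbR]
    exact mul_le_mul_of_nonneg_left h2 (by linarith [P.hbR])
  have h5 : ‖P.Ph k z‖ ≤ 1 + Real.exp (2 * P.R * a) + P.b * P.R * (3 / 2 * Real.exp (2 * P.R * a)) := by
    rcases hform with h | h
    · rw [h]
      refine (norm_add_le _ _).trans (add_le_add ((norm_sub_le _ _).trans ?_) h4)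
      rw [norm_one]
      linarith
    · rw [h]
      refine (norm_sub_le _ _).trans (add_le_add ((norm_sub_le _ _).trans ?_) h4)
      rw [norm_one]
      linarith
  refine h5.trans ?_
  have h6 : Real.exp (2 * P.R * a) ≤ P.b * P.R * Real.exp (2 * P.R * a) :=
    le_mul_of_one_le_left (Real.exp_pos _).le P.hbR
  nlinarith [h6, h3]

theorem Ph_far (k : ℕ) {a : ℝ} (ha : 0 ≤ a) {z : ℂ} (hz : -a ≤ z.re) :
    ‖P.Ph k z - 1‖ * |z.im| ≤ 4 * Real.exp (2 * P.R * a) := by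
  obtain ⟨w, hw, him, hform⟩ := P.Ph_form k hz
  have hR0 : (0 : ℝ) ≤ P.R := by linarith [P.hR]
  have hRa : 0 ≤ P.R * a := mul_nonneg hR0 ha
  have h1 := norm_D1_le hRa (P.re_mul hw)
  have h2 := norm_mul_D1_le hRa (P.re_mul hw)
  have he : 2 * (P.R * a) = 2 * P.R * a := by ring
  rw [he] at h1 h2
  have h3 : (1 : ℝ) ≤ Real.exp (2 * P.R * a) := Real.one_le_exp (by rw [← he]; positivity)
  have hRw : ‖(P.R : ℂ) * w‖ = P.R * ‖w‖ := by
    rw [norm_mul, Complex.norm_real, Real.norm_of_nonneg hR0]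
  rw [hRw] at h2
  -- the two terms
  have h4 : ‖w‖ * ‖D1 (P.R * w)‖ ≤ 2 * Real.exp (2 * P.R * a) := by
    refine le_trans ?_ h2
    have h5 : 0 ≤ ‖w‖ * ‖D1 (P.R * w)‖ := by positivity
    have h6 : P.R * ‖w‖ * ‖D1 (P.R * w)‖ = P.R * (‖w‖ * ‖D1 (P.R * w)‖) := by ring
    rw [h6]
    exact le_mul_of_one_le_left h5 P.hR
  have h7 : ‖w‖ * ‖(P.b : ℂ) * P.R * J1 (P.R * w)‖ ≤ P.b * (2 * Real.exp (2 * P.R * a)) := by
    have h8 : ‖w‖ * ‖(P.b : ℂ) * P.R * J1 (P.R * w)‖ = P.b * ‖(P.R : ℂ) * w * J1 (P.R * w)‖ := by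
      rw [norm_mul, norm_mul, norm_mul, norm_mul, Complex.norm_real, Complex.norm_real,
        Real.norm_of_nonneg P.hb.le, Real.norm_of_nonneg hR0]
      ring
    rw [h8, mul_J1]
    refine mul_le_mul_of_nonneg_left ((norm_sub_le _ _).trans ?_) P.hb.le
    rw [norm_one]
    linarith
  have h9 : ‖P.Ph k z - 1‖ ≤ ‖D1 (P.R * w)‖ + ‖(P.b : ℂ) * P.R * J1 (P.R * w)‖ := by
    rcases hform with h | h
    · have h10 : P.Ph k z - 1 = -D1 (P.R * w) + (P.b : ℂ) * P.R * J1 (P.R * w) := by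
        rw [h]
        ring
      rw [h10]
      refine (norm_add_le _ _).trans ?_
      rw [norm_neg]
    · have h10 : P.Ph k z - 1 = -D1 (P.R * w) - (P.b : ℂ) * P.R * J1 (P.R * w) := by
        rw [h]
        ring
      rw [h10]
      refine (norm_sub_le _ _).trans ?_
      rw [norm_neg]
  have h11 : |z.im| ≤ ‖w‖ := by
    rw [← him]
    exact Complex.abs_im_le_norm w
  calc ‖P.Ph k z - 1‖ * |z.im| ≤ (‖D1 (P.R * w)‖ + ‖(P.b : ℂ) * P.R * J1 (P.R * w)‖) * ‖w‖ :=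
        mul_le_mul h9 h11 (abs_nonneg _) (by positivity)
    _ = ‖w‖ * ‖D1 (P.R * w)‖ + ‖w‖ * ‖(P.b : ℂ) * P.R * J1 (P.R * w)‖ := by ring
    _ ≤ 2 * Real.exp (2 * P.R * a) + P.b * (2 * Real.exp (2 * P.R * a)) := add_le_add h4 h7
    _ ≤ 4 * Real.exp (2 * P.R * a) := by nlinarith [P.hb1, Real.exp_pos (2 * P.R * a)]

end Blk

end VO
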