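import Mathlib

/-!
# Fru : the Frullani integral `(z + b) / z = exp ∫ (1 - exp (- b y)) / y exp (- z y) dy`

Proof: both sides are differentiable in `b ≥ 0` (or in `z`), with the same logarithmic derivative.
-/

set_option autoImplicit false

open Complex MeasureTheory Set Filter Topology

namespace VO

private theorem fru_inner {z : ℂ} {b y : ℝ} (hy : 0 < y) :
    ∫ t in (0 : ℝ)..b, Complex.exp (-(z + t) * y) =
      (((1 - Real.exp (-b * y)) / y : ℝ) : ℂ) * Complex.exp (-z * y) := by
  have hy' : (y : ℂ) ≠ 0 := by exact_mod_cast hy.ne'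
  have hd : ∀ t ∈ Set.uIcc (0 : ℝ) b, HasDerivAt (fun t : ℝ => -Complex.exp (-(z + t) * y) / y)
      (Complex.exp (-(z + t) * y)) t := by
    intro t _
    have h1 : HasDerivAt (fun t : ℝ => -(z + (t : ℂ)) * (y : ℂ)) (-1 * (y : ℂ)) t := by
      have := ((hasDerivAt_id t).ofReal_comp.const_add z).neg.mul_const (y : ℂ)
      simpa using this
    have h2 := (h1.cexp.neg).div_const (y : ℂ)
    have e : -(Complex.exp (-(z + (t : ℂ)) * (y : ℂ)) * (-1 * (y : ℂ))) / (y : ℂ) =
        Complex.exp (-(z + (t : ℂ)) * (y : ℂ)) := by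
      rw [div_eq_iff hy']
      ring
    rw [e] at h2
    exact h2
  rw [intervalIntegral.integral_eq_sub_of_hasDerivAt hd]
  · push_cast
    have e1 : Complex.exp (-(z + b) * y) = Complex.exp (-b * y) * Complex.exp (-z * y) := by
      rw [← Complex.exp_add]; congr 1; ring
    have e2 : -(z + (0 : ℂ)) * (y : ℂ) = -z * y := by ring
    rw [e1, e2]
    field_simp
    ring
  · apply Continuous.intervalIntegrable
    fun_prop

private theorem fru_log {z : ℂ} (hz : 0 < z.re) {b : ℝ} (hb : 0 ≤ b) :
    ∫ t in (0 : ℝ)..b, 1 / (z + t) = Complex.log (z + b) - Complex.log z := by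
  have hs : ∀ t : ℝ, 0 ≤ t → z + (t : ℂ) ∈ Complex.slitPlane := by
    intro t ht
    left
    simp only [Complex.add_re, Complex.ofReal_re]
    linarith
  have hd : ∀ t ∈ Set.uIcc (0 : ℝ) b, HasDerivAt (fun t : ℝ => Complex.log (z + t)) (1 / (z + t)) t := by
    intro t ht
    rw [Set.uIcc_of_le hb] at ht
    have h1 : HasDerivAt (fun t : ℝ => z + (t : ℂ)) 1 t := by
      have := (hasDerivAt_id t).ofReal_comp.const_add z
      simpa using this
    have := h1.clog_real (hs t ht.1)
    simpa using this
  rw [intervalIntegral.integral_eq_sub_of_hasDerivAt hd]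
  · simp
  · apply ContinuousOn.intervalIntegrable
    rw [Set.uIcc_of_le hb]
    apply ContinuousOn.div continuousOn_const (by fun_prop)
    intro t ht h
    have := hs t ht.1
    rw [h] at this
    simp at this

private theorem fru_int {z : ℂ} (hz : 0 < z.re) {b : ℝ} :
    Integrable (Function.uncurry (fun (y t : ℝ) => Complex.exp (-(z + t) * y)))
      ((volume.restrict (Ioi (0 : ℝ))).prod (volume.restrict (Ioc (0 : ℝ) b))) := by
  have h1 : Integrable (fun y : ℝ => Complex.exp (-(z.re : ℂ) * y)) (volume.restrict (Ioi (0 : ℝ))) :=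
    integrableOn_exp_mul_complex_Ioi (by simpa using hz) 0
  have h2 : Integrable (fun _ : ℝ => (1 : ℂ)) (volume.restrict (Ioc (0 : ℝ) b)) := by
    apply integrable_const
  have h3 := h1.mul_prod h2
  refine h3.mono ?_ ?_
  · apply Continuous.aestronglyMeasurable
    unfold Function.uncurry
    fun_prop
  · rw [Measure.prod_restrict]
    refine (ae_restrict_iff' (measurableSet_Ioi.prod measurableSet_Ioc)).2 (Filter.Eventually.of_forall ?_)
    rintro ⟨y, t⟩ ⟨hy, ht⟩
    simp only [Function.uncurry, mul_one, Complex.norm_exp]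
    simp only [mem_Ioi, mem_Ioc] at hy ht
    apply Real.exp_le_exp.2
    simp
    nlinarith [mul_pos ht.1 hy]

theorem frullani {z : ℂ} (hz : 0 < z.re) {b : ℝ} (hb : 0 ≤ b) :
    IntegrableOn (fun y : ℝ => (((1 - Real.exp (-b * y)) / y : ℝ) : ℂ) * Complex.exp (-z * y)) (Ioi 0) ∧
    (z + b) / z =
      Complex.exp (∫ y in Ioi (0 : ℝ), (((1 - Real.exp (-b * y)) / y : ℝ) : ℂ) * Complex.exp (-z * y)) := by
  have hI := fru_int (b := b) hz
  have hEq : ∀ y ∈ Ioi (0 : ℝ), ∫ t in Ioc (0 : ℝ) b, Complex.exp (-(z + t) * y) =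
      (((1 - Real.exp (-b * y)) / y : ℝ) : ℂ) * Complex.exp (-z * y) := by
    intro y hy
    rw [← intervalIntegral.integral_of_le hb]
    exact fru_inner hy
  constructor
  · have h1 := hI.integral_prod_left
    refine (integrableOn_congr_fun (g := fun y : ℝ => ∫ t in Ioc (0 : ℝ) b, Complex.exp (-(z + t) * y))
      (fun y hy => (hEq y hy).symm) measurableSet_Ioi).2 ?_
    exact h1
  · have h2 : ∫ y in Ioi (0 : ℝ), (((1 - Real.exp (-b * y)) / y : ℝ) : ℂ) * Complex.exp (-z * y) =
        Complex.log (z + b) - Complex.log z := by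
      rw [← setIntegral_congr_fun measurableSet_Ioi hEq]
      rw [integral_integral_swap hI]
      rw [← fru_log hz hb, intervalIntegral.integral_of_le hb]
      apply setIntegral_congr_fun measurableSet_Ioc
      intro t ht
      simp only
      have hre : (-(z + (t : ℂ))).re < 0 := by
        simp only [Complex.neg_re, Complex.add_re, Complex.ofReal_re]
        have := ht.1
        linarith
      rw [integral_exp_mul_complex_Ioi hre]
      simp only [Complex.ofReal_zero, mul_zero, Complex.exp_zero]
      rw [neg_div_neg_eq]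
    rw [h2, Complex.exp_sub, Complex.exp_log, Complex.exp_log]
    · intro h; rw [h] at hz; simp at hz
    · intro h
      have := congrArg Complex.re h
      simp at this
      linarith

end VO
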