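import Pool.Agent.H15.VO.RenL
import Pool.Agent.H15.VO.Fru

/-!
# FacL : the factors `Ph` as exponentials of Laplace transforms

From `frullani`, `r1_laplace` (with `R z`, respectively `R (z + b)`, change of variables `y = R v`) and `mul_J1`.
-/

set_option autoImplicit false

open Complex MeasureTheory Set Filter Topology

namespace VO

private theorem r1_scaled {R : ℝ} (hR : 0 < R) {w : ℂ} (hw : 0 < w.re) :
    IntegrableOn (fun y : ℝ => ((r1 (y / R) / R : ℝ) : ℂ) * Complex.exp (-w * y)) (Ioi 0) ∧
    Complex.exp (-∫ y in Ioi (0 : ℝ), ((r1 (y / R) / R : ℝ) : ℂ) * Complex.exp (-w * y)) =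
      w * (R * J1 (R * w)) := by
  have hRc : (R : ℂ) ≠ 0 := by exact_mod_cast hR.ne'
  have hRw : 0 < ((R : ℂ) * w).re := by
    simp only [Complex.mul_re, Complex.ofReal_re, Complex.ofReal_im, zero_mul, sub_zero]
    positivity
  obtain ⟨hI, hE⟩ := r1_laplace hRw
  set g : ℝ → ℂ := fun v => (r1 v : ℂ) * Complex.exp (-((R : ℂ) * w) * v) with hg
  have hfun : (fun y : ℝ => ((r1 (y / R) / R : ℝ) : ℂ) * Complex.exp (-w * y)) =
      fun y : ℝ => (R : ℂ)⁻¹ * g (R⁻¹ * y) := by
    funext y
    simp only [hg]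
    have e1 : -((R : ℂ) * w) * ((R⁻¹ * y : ℝ) : ℂ) = -w * y := by
      push_cast
      field_simp
    have e2 : R⁻¹ * y = y / R := by rw [div_eq_inv_mul]
    rw [e1, e2]
    push_cast
    field_simp
  have hRi : 0 < R⁻¹ := inv_pos.2 hR
  have hIs : IntegrableOn (fun y : ℝ => g (R⁻¹ * y)) (Ioi 0) := by
    have := (integrableOn_Ioi_comp_mul_left_iff g 0 hRi).2 (by simpa using hI)
    exact this
  constructor
  · rw [hfun]
    exact hIs.const_mul _
  · rw [hfun, integral_const_mul, integral_comp_mul_left_Ioi g 0 hRi, mul_zero, inv_inv]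
    have e3 : (R : ℂ)⁻¹ * (R • ∫ x in Ioi (0 : ℝ), g x) = ∫ x in Ioi (0 : ℝ), g x := by
      rw [Complex.real_smul, ← mul_assoc, inv_mul_cancel₀ hRc, one_mul]
    rw [e3, ← hE, ← mul_J1]
    ring

namespace Blk

variable (P : Blk)

theorem ck_meas (k : ℕ) : Measurable (P.ck k) := by
  have h1 : Measurable fun y : ℝ => (1 - Real.exp (-P.b * y)) / y :=
    (measurable_const.sub (Real.measurable_exp.comp (measurable_const.mul measurable_id))).div
      measurable_id
  have h2 : Measurable fun y : ℝ => r1 (y / P.R) / P.R :=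
    (r1_meas.comp (measurable_id.div_const _)).div_const _
  have h3 : Measurable fun y : ℝ => Real.exp (-P.b * y) :=
    Real.measurable_exp.comp (measurable_const.mul measurable_id)
  by_cases hk : Even k
  · have : P.ck k = fun y => (1 - Real.exp (-P.b * y)) / y - r1 (y / P.R) / P.R := by
      funext y
      simp only [ck, if_pos hk]
    rw [this]
    exact h1.sub h2
  · have : P.ck k = fun y => -((1 - Real.exp (-P.b * y)) / y) -
        Real.exp (-P.b * y) * (r1 (y / P.R) / P.R) := by
      funext y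
      simp only [ck, if_neg hk]
    rw [this]
    exact h1.neg.sub (h3.mul h2)

theorem Ph_log (k : ℕ) {z : ℂ} (hz : 0 < z.re) :
    IntegrableOn (fun y : ℝ => (P.ck k y : ℂ) * Complex.exp (-z * y)) (Ioi 0) ∧
    P.Ph k z = Complex.exp (∫ y in Ioi (0 : ℝ), (P.ck k y : ℂ) * Complex.exp (-z * y)) := by
  have hR : 0 < P.R := lt_of_lt_of_le one_pos P.hR
  obtain ⟨hF, hFe⟩ := frullani hz P.hb.le
  have hzb : 0 < (z + P.b).re := by
    simp only [Complex.add_re, Complex.ofReal_re]
    linarith [P.hb]
  have hz0 : z ≠ 0 := by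
    intro h
    rw [h] at hz
    simp at hz
  have hzb0 : z + P.b ≠ 0 := by
    intro h
    rw [h] at hzb
    simp at hzb
  by_cases hk : Even k
  · obtain ⟨hI, hE⟩ := r1_scaled hR hz
    have hfun : (fun y : ℝ => (P.ck k y : ℂ) * Complex.exp (-z * y)) = fun y : ℝ =>
        (((1 - Real.exp (-P.b * y)) / y : ℝ) : ℂ) * Complex.exp (-z * y) -
        ((r1 (y / P.R) / P.R : ℝ) : ℂ) * Complex.exp (-z * y) := by
      funext y
      simp only [ck, if_pos hk]
      push_cast
      ring
    constructor
    · rw [hfun]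
      exact hF.sub hI
    · rw [hfun, integral_sub hF hI, sub_eq_add_neg, Complex.exp_add, ← hFe, hE]
      simp only [Ph, if_pos hk]
      field_simp
  · obtain ⟨hI, hE⟩ := r1_scaled hR hzb
    have hfun : (fun y : ℝ => (P.ck k y : ℂ) * Complex.exp (-z * y)) = fun y : ℝ =>
        -((((1 - Real.exp (-P.b * y)) / y : ℝ) : ℂ) * Complex.exp (-z * y)) -
        ((r1 (y / P.R) / P.R : ℝ) : ℂ) * Complex.exp (-(z + P.b) * y) := by
      funext y
      simp only [ck, if_neg hk]
      have e1 : Complex.exp (-(z + P.b) * y) = Complex.exp (-P.b * y) * Complex.exp (-z * y) := by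
        rw [← Complex.exp_add]
        congr 1
        ring
      rw [e1]
      push_cast
      ring
    constructor
    · rw [hfun]
      exact hF.neg.sub hI
    · have hFn : IntegrableOn (fun y : ℝ =>
          -((((1 - Real.exp (-P.b * y)) / y : ℝ) : ℂ) * Complex.exp (-z * y))) (Ioi 0) := hF.neg
      rw [hfun, integral_sub hFn hI, integral_neg, sub_eq_add_neg, Complex.exp_add,
        Complex.exp_neg, ← hFe, hE]
      simp only [Ph, if_neg hk]
      field_simp

end Blk

end VO
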