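import Pool.Agent.H15.VO.Par

/-!
# Gro : the growth inequalities

`cB B = (1/2) (3 B / 4)^(2/3)`, so that `2 R a ≤ (B/2) a^(3/2) ℓ + L / 3` for `R = cB B L^(1/3) ℓ^(2/3)` (Young's inequality
with exponents `3/2` and `3`: `(2 c0 a ℓ^(2/3)) L^(1/3) ≤ (2/3) (2 c0 a)^(3/2) ℓ + L / 3`).
-/

set_option autoImplicit false

open Complex MeasureTheory Set Filter Topology

namespace VO

/-- the constant in the range `R` of a block -/
noncomputable def cB (B : ℝ) : ℝ := 1 / 2 * (3 * B / 4) ^ (2 / 3 : ℝ)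

private theorem gro_g (P : Blk) : 0 < P.g := by
  have h1 : (2 : ℝ) ≤ P.K := by
    have h2 := P.hK
    have h3 := P.hbR
    nlinarith
  have h2 : 0 < 1024 * (P.K : ℝ) * Real.exp (2 * P.R) := by positivity
  exact h2.trans_le P.hg

private theorem gro_L {x : ℝ} (hx : 100 ≤ x) : 1 ≤ Real.log x := by
  have h1 : Real.exp 1 ≤ x := by
    have h2 := Real.exp_one_lt_d9
    linarith
  calc (1 : ℝ) = Real.log (Real.exp 1) := (Real.log_exp 1).symm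
    _ ≤ Real.log x := Real.log_le_log (Real.exp_pos 1) h1

private theorem gro_L13 {x : ℝ} (hx : 100 ≤ x) : Real.log x ^ (1 / 3 : ℝ) ≤ 2 * x ^ (1 / 12 : ℝ) := by
  have hx0 : 0 < x := by linarith
  have h1 : Real.log x ≤ x ^ (1 / 4 : ℝ) / (1 / 4) := Real.log_le_rpow_div hx0.le (by norm_num)
  have h2 : (2 * x ^ (1 / 12 : ℝ)) ^ 3 = 8 * x ^ (1 / 4 : ℝ) := by
    rw [mul_pow, ← Real.rpow_natCast (x ^ (1 / 12 : ℝ)) 3, ← Real.rpow_mul hx0.le]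
    norm_num
  have h3 : Real.log x ≤ (2 * x ^ (1 / 12 : ℝ)) ^ 3 := by
    rw [h2]
    have h4 : 0 ≤ x ^ (1 / 4 : ℝ) := Real.rpow_nonneg hx0.le _
    linarith
  have h4 : 0 ≤ 2 * x ^ (1 / 12 : ℝ) := by positivity
  calc Real.log x ^ (1 / 3 : ℝ) ≤ ((2 * x ^ (1 / 12 : ℝ)) ^ 3) ^ (1 / 3 : ℝ) :=
        Real.rpow_le_rpow (by linarith [gro_L hx]) h3 (by norm_num)
    _ = 2 * x ^ (1 / 12 : ℝ) := by
      rw [← Real.rpow_natCast (2 * x ^ (1 / 12 : ℝ)) 3, ← Real.rpow_mul h4]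
      norm_num

private theorem gro_cB {B : ℝ} (hB : 0 < B) : 0 < cB B := by
  unfold cB
  positivity

/-- Young's inequality -/
private theorem gro_young {B l L a : ℝ} (hB : 0 < B) (hl : 0 ≤ l) (hL : 0 ≤ L) (ha : 0 ≤ a) :
    2 * (cB B * L ^ (1 / 3 : ℝ) * l ^ (2 / 3 : ℝ)) * a ≤ B / 2 * a ^ (3 / 2 : ℝ) * l + L / 3 := by
  set u : ℝ := (3 * B / 4) ^ (1 / 3 : ℝ) * l ^ (1 / 3 : ℝ) * a ^ (1 / 2 : ℝ) with hu
  set v : ℝ := L ^ (1 / 3 : ℝ) with hv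
  have hu0 : 0 ≤ u := by positivity
  have hv0 : 0 ≤ v := by positivity
  have hB4 : 0 ≤ 3 * B / 4 := by positivity
  have e1 : u ^ 2 = (3 * B / 4) ^ (2 / 3 : ℝ) * l ^ (2 / 3 : ℝ) * a := by
    rw [hu, mul_pow, mul_pow, ← Real.rpow_natCast ((3 * B / 4) ^ (1 / 3 : ℝ)) 2, ← Real.rpow_mul hB4,
      ← Real.rpow_natCast (l ^ (1 / 3 : ℝ)) 2, ← Real.rpow_mul hl, ← Real.rpow_natCast (a ^ (1 / 2 : ℝ)) 2, ← Real.rpow_mul ha]
    norm_num
  have e2 : u ^ 3 = 3 * B / 4 * l * a ^ (3 / 2 : ℝ) := by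
    rw [hu, mul_pow, mul_pow, ← Real.rpow_natCast ((3 * B / 4) ^ (1 / 3 : ℝ)) 3, ← Real.rpow_mul hB4,
      ← Real.rpow_natCast (l ^ (1 / 3 : ℝ)) 3, ← Real.rpow_mul hl, ← Real.rpow_natCast (a ^ (1 / 2 : ℝ)) 3, ← Real.rpow_mul ha]
    norm_num
  have e3 : v ^ 3 = L := by
    rw [hv, ← Real.rpow_natCast (L ^ (1 / 3 : ℝ)) 3, ← Real.rpow_mul hL]
    norm_num
  have h1 : u ^ 2 * v ≤ 2 / 3 * u ^ 3 + v ^ 3 / 3 := by
    nlinarith [mul_nonneg (sq_nonneg (u - v)) (by positivity : (0 : ℝ) ≤ 2 * u + v)]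
  have h2 : 2 * (cB B * v * l ^ (2 / 3 : ℝ)) * a = u ^ 2 * v := by
    rw [e1]
    unfold cB
    ring
  rw [h2]
  refine h1.trans (le_of_eq ?_)
  rw [e2, e3]
  ring

/-- `16 b R exp (2 R a) ≤ 16 c0 L^(1/3) ℓ^(1/2) g^((B/2) a^(3/2))`, `g ≤ 2 t`, `L^(1/3) ≤ C ℓ^(1/12)` -/
theorem growth_blk {B : ℝ} (hB : 0 < B) :
    ∃ A : ℝ, 0 < A ∧ ∀ P : Blk, Par (cB B) 100 P → ∀ t : ℝ, P.g / 2 ≤ t → ∀ a : ℝ, 0 ≤ a → a ≤ 1 →
      16 * (P.b * P.R) * Real.exp (2 * P.R * a) ≤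
        A * t ^ (B / 2 * a ^ (3 / 2 : ℝ)) * Real.log t ^ (7 / 12 : ℝ) := by
  have hc := gro_cB hB
  refine ⟨64 * cB B * 2 ^ (B / 2), by positivity, ?_⟩
  intro P hP t ht a ha ha1
  have hg := gro_g P
  set l := Real.log P.g with hl
  have hl100 : 100 ≤ l := hP.big
  have hl0 : 0 < l := by linarith
  set L := Real.log l with hL
  have hL1 : 1 ≤ L := gro_L hl100
  have hR : P.R = cB B * L ^ (1 / 3 : ℝ) * l ^ (2 / 3 : ℝ) := hP.R
  have hb : P.b = l ^ (-(1 / 2) : ℝ) := hP.b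
  set e := B / 2 * a ^ (3 / 2 : ℝ) with he
  have he0 : 0 ≤ e := by positivity
  have he1 : e ≤ B / 2 := by
    have h1 : a ^ (3 / 2 : ℝ) ≤ 1 := Real.rpow_le_one ha ha1 (by norm_num)
    calc e ≤ B / 2 * 1 := mul_le_mul_of_nonneg_left h1 (by positivity)
      _ = B / 2 := mul_one _
  have hY : 2 * P.R * a ≤ e * l + L / 3 := by
    rw [hR]
    exact gro_young hB hl0.le (by linarith) ha
  have hexp : Real.exp (2 * P.R * a) ≤ P.g ^ e * l ^ (1 / 3 : ℝ) := by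
    rw [Real.rpow_def_of_pos hg, Real.rpow_def_of_pos hl0, ← Real.exp_add]
    apply Real.exp_le_exp.2
    refine hY.trans (le_of_eq ?_)
    rw [← hl, ← hL]
    ring
  have hbR : P.b * P.R = cB B * L ^ (1 / 3 : ℝ) * l ^ (1 / 6 : ℝ) := by
    rw [hb, hR]
    have h1 : l ^ (1 / 6 : ℝ) = l ^ (-(1 / 2) : ℝ) * l ^ (2 / 3 : ℝ) := by
      rw [← Real.rpow_add hl0]
      norm_num
    rw [h1]
    ring
  have h13 := gro_L13 hl100
  rw [← hL] at h13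
  have hsum : l ^ (1 / 12 : ℝ) * l ^ (1 / 6 : ℝ) * l ^ (1 / 3 : ℝ) = l ^ (7 / 12 : ℝ) := by
    rw [← Real.rpow_add hl0, ← Real.rpow_add hl0]
    norm_num
  have ht0 : 0 < t := by linarith
  have hgt : P.g ≤ 2 * t := by linarith
  have hge : P.g ^ e ≤ 2 ^ (B / 2) * t ^ e := by
    calc P.g ^ e ≤ (2 * t) ^ e := Real.rpow_le_rpow hg.le hgt he0
      _ = 2 ^ e * t ^ e := Real.mul_rpow (by norm_num) ht0.le
      _ ≤ 2 ^ (B / 2) * t ^ e :=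
        mul_le_mul_of_nonneg_right (Real.rpow_le_rpow_of_exponent_le (by norm_num) he1) (Real.rpow_nonneg ht0.le _)
  have hlt : l ≤ 2 * Real.log t := by
    have h1 : l ≤ Real.log (2 * t) := Real.log_le_log hg hgt
    rw [Real.log_mul (by norm_num) ht0.ne'] at h1
    have h2 : Real.log 2 ≤ 1 := by linarith [Real.log_two_lt_d9]
    linarith
  have hlogt : 0 ≤ Real.log t := by linarith
  have hl7 : l ^ (7 / 12 : ℝ) ≤ 2 * Real.log t ^ (7 / 12 : ℝ) := by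
    calc l ^ (7 / 12 : ℝ) ≤ (2 * Real.log t) ^ (7 / 12 : ℝ) := Real.rpow_le_rpow hl0.le hlt (by norm_num)
      _ = 2 ^ (7 / 12 : ℝ) * Real.log t ^ (7 / 12 : ℝ) := Real.mul_rpow (by norm_num) hlogt
      _ ≤ 2 * Real.log t ^ (7 / 12 : ℝ) := by
        refine mul_le_mul_of_nonneg_right ?_ (Real.rpow_nonneg hlogt _)
        calc (2 : ℝ) ^ (7 / 12 : ℝ) ≤ 2 ^ (1 : ℝ) := Real.rpow_le_rpow_of_exponent_le (by norm_num) (by norm_num)
          _ = 2 := Real.rpow_one 2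
  calc 16 * (P.b * P.R) * Real.exp (2 * P.R * a)
      ≤ 16 * (P.b * P.R) * (P.g ^ e * l ^ (1 / 3 : ℝ)) := by
        refine mul_le_mul_of_nonneg_left hexp ?_
        rw [hbR]
        positivity
    _ = 16 * cB B * (L ^ (1 / 3 : ℝ)) * (l ^ (1 / 6 : ℝ) * l ^ (1 / 3 : ℝ) * P.g ^ e) := by
        rw [hbR]
        ring
    _ ≤ 16 * cB B * (2 * l ^ (1 / 12 : ℝ)) * (l ^ (1 / 6 : ℝ) * l ^ (1 / 3 : ℝ) * P.g ^ e) := by
        gcongr
    _ = 32 * cB B * (l ^ (1 / 12 : ℝ) * l ^ (1 / 6 : ℝ) * l ^ (1 / 3 : ℝ)) * P.g ^ e := by ring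
    _ = 32 * cB B * l ^ (7 / 12 : ℝ) * P.g ^ e := by rw [hsum]
    _ ≤ 32 * cB B * (2 * Real.log t ^ (7 / 12 : ℝ)) * (2 ^ (B / 2) * t ^ e) := by
        gcongr
    _ = 64 * cB B * 2 ^ (B / 2) * t ^ e * Real.log t ^ (7 / 12 : ℝ) := by ring

/-- `log (16 b R) + 2 R ≤ ε ℓ + C` -/
theorem growth_blk_eps {c0 ε : ℝ} (hc : 0 < c0) (hε : 0 < ε) :
    ∃ A : ℝ, 0 < A ∧ ∀ P : Blk, Par c0 100 P → ∀ t : ℝ, P.g / 2 ≤ t →
      16 * (P.b * P.R) * Real.exp (2 * P.R) ≤ A * t ^ ε := by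
  refine ⟨16 * Real.exp (6 * c0 * (6 * c0 / ε) ^ 3) * 2 ^ ε, by positivity, ?_⟩
  intro P hP t ht
  have hg := gro_g P
  set l := Real.log P.g with hl
  have hl100 : 100 ≤ l := hP.big
  have hl0 : 0 < l := by linarith
  set L := Real.log l with hL
  have hL1 : 1 ≤ L := gro_L hl100
  have hR : P.R = c0 * L ^ (1 / 3 : ℝ) * l ^ (2 / 3 : ℝ) := hP.R
  have h13 := gro_L13 hl100
  rw [← hL] at h13
  have hR34 : P.R ≤ 2 * c0 * l ^ (3 / 4 : ℝ) := by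
    have h1 : l ^ (3 / 4 : ℝ) = l ^ (1 / 12 : ℝ) * l ^ (2 / 3 : ℝ) := by
      rw [← Real.rpow_add hl0]
      norm_num
    rw [hR, h1]
    calc c0 * L ^ (1 / 3 : ℝ) * l ^ (2 / 3 : ℝ) ≤ c0 * (2 * l ^ (1 / 12 : ℝ)) * l ^ (2 / 3 : ℝ) := by gcongr
      _ = 2 * c0 * (l ^ (1 / 12 : ℝ) * l ^ (2 / 3 : ℝ)) := by ring
  have hx : 6 * c0 * l ^ (3 / 4 : ℝ) ≤ ε * l + 6 * c0 * (6 * c0 / ε) ^ 3 := by
    set x := l ^ (1 / 4 : ℝ) with hx
    have hx0 : 0 ≤ x := by positivity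
    have e3 : l ^ (3 / 4 : ℝ) = x ^ 3 := by
      rw [hx, ← Real.rpow_natCast (l ^ (1 / 4 : ℝ)) 3, ← Real.rpow_mul hl0.le]
      norm_num
    have e4 : l = x ^ 4 := by
      rw [hx, ← Real.rpow_natCast (l ^ (1 / 4 : ℝ)) 4, ← Real.rpow_mul hl0.le]
      norm_num
    rw [e3, e4]
    rcases le_total (6 * c0 / ε) x with h | h
    · have h1 : 6 * c0 ≤ ε * x := by
        rw [div_le_iff₀ hε] at h
        linarith
      have h2 : 6 * c0 * x ^ 3 ≤ ε * x * x ^ 3 := mul_le_mul_of_nonneg_right h1 (by positivity)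
      have h3 : 0 ≤ 6 * c0 * (6 * c0 / ε) ^ 3 := by positivity
      nlinarith
    · have h1 : x ^ 3 ≤ (6 * c0 / ε) ^ 3 := pow_le_pow_left₀ hx0 h 3
      have h2 : 6 * c0 * x ^ 3 ≤ 6 * c0 * (6 * c0 / ε) ^ 3 := mul_le_mul_of_nonneg_left h1 (by positivity)
      have h3 : 0 ≤ ε * x ^ 4 := by positivity
      linarith
  have hR1 := P.hR
  have hb0 := P.hb
  have hb1 := P.hb1
  have ht0 : 0 < t := by linarith
  have hgt : P.g ≤ 2 * t := by linarith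
  have h3R : 3 * P.R ≤ ε * l + 6 * c0 * (6 * c0 / ε) ^ 3 := by linarith
  calc 16 * (P.b * P.R) * Real.exp (2 * P.R) ≤ 16 * (1 * Real.exp P.R) * Real.exp (2 * P.R) := by
        have h1 : P.R ≤ Real.exp P.R := by linarith [Real.add_one_le_exp P.R]
        gcongr
        linarith
    _ = 16 * Real.exp (3 * P.R) := by
        rw [one_mul, mul_assoc, ← Real.exp_add]
        congr 2
        ring
    _ ≤ 16 * Real.exp (ε * l + 6 * c0 * (6 * c0 / ε) ^ 3) := by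
        gcongr
    _ = 16 * Real.exp (6 * c0 * (6 * c0 / ε) ^ 3) * P.g ^ ε := by
        rw [Real.exp_add, Real.rpow_def_of_pos hg, ← hl, mul_comm l ε]
        ring
    _ ≤ 16 * Real.exp (6 * c0 * (6 * c0 / ε) ^ 3) * (2 ^ ε * t ^ ε) := by
        refine mul_le_mul_of_nonneg_left ?_ (by positivity)
        calc P.g ^ ε ≤ (2 * t) ^ ε := Real.rpow_le_rpow hg.le hgt hε.le
          _ = 2 ^ ε * t ^ ε := Real.mul_rpow (by norm_num) ht0.le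
    _ = 16 * Real.exp (6 * c0 * (6 * c0 / ε) ^ 3) * 2 ^ ε * t ^ ε := by ring

/-- polynomial against exponential -/
private theorem gro_lim {δ c C : ℝ} (hδ : 0 < δ) (hc : 0 < c) (k : ℝ) :
    ∃ X0 : ℝ, 0 ≤ X0 ∧ ∀ X : ℝ, X0 ≤ X → (1 / 40 * X + C) * X ^ k * Real.exp (-δ * X) ≤ c := by
  have h1 := tendsto_rpow_mul_exp_neg_mul_atTop_nhds_zero (k + 1) δ hδ
  have h2 := tendsto_rpow_mul_exp_neg_mul_atTop_nhds_zero k δ hδ
  have h3 : Tendsto (fun X : ℝ => 1 / 40 * (X ^ (k + 1) * Real.exp (-δ * X)) + C * (X ^ k * Real.exp (-δ * X))) atTop (𝓝 0) := by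
    have h4 := (h1.const_mul (1 / 40)).add (h2.const_mul C)
    simpa using h4
  have h5 := (h3.eventually (gt_mem_nhds hc)).and (eventually_gt_atTop (0 : ℝ))
  obtain ⟨X0, hX0⟩ := eventually_atTop.1 h5
  refine ⟨max X0 0, le_max_right _ _, ?_⟩
  intro X hX
  obtain ⟨h6, h7⟩ := hX0 X ((le_max_left _ _).trans hX)
  have e : (1 / 40 * X + C) * X ^ k * Real.exp (-δ * X) =
      1 / 40 * (X ^ (k + 1) * Real.exp (-δ * X)) + C * (X ^ k * Real.exp (-δ * X)) := by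
    rw [Real.rpow_add h7, Real.rpow_one]
    ring
  rw [e]
  exact h6.le

/-- If `a log T ≤ 1` then `T^a ≤ e` and `e / 40 ≤ 1 / 12`. If `a log T > 1` the left side is at most
`T^a0 (log T + C)`, which is smaller than `(B/2) T (log T)^(-3/2)` for large `T`. -/
theorem growth_E {B C a0 : ℝ} (hB : 0 < B) (ha0 : a0 < 1) :
    ∃ A : ℝ, ∀ T : ℝ, 1 ≤ T → ∀ a : ℝ, 0 ≤ a → a ≤ a0 →
      T ^ a * (1 / 40 * Real.log T + C) ≤ B / 2 * a ^ (3 / 2 : ℝ) * T + 1 / 12 * Real.log T + A := by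
  obtain ⟨X0, hX00, hX0⟩ := gro_lim (δ := 1 - a0) (c := B / 2) (C := |C|) (by linarith) (by positivity) (3 / 2)
  refine ⟨3 * |C| + Real.exp X0 * (1 / 40 * X0 + |C|), ?_⟩
  intro T hT a ha haa
  have hT0 : 0 < T := by linarith
  set X := Real.log T with hX
  have hX0' : 0 ≤ X := Real.log_nonneg hT
  have hTX : T = Real.exp X := (Real.exp_log hT0).symm
  have hTa : T ^ a = Real.exp (a * X) := by
    rw [Real.rpow_def_of_pos hT0, mul_comm]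
  have hC := le_abs_self C
  have hC0 := abs_nonneg C
  have h1 : T ^ a * (1 / 40 * X + C) ≤ T ^ a * (1 / 40 * X + |C|) :=
    mul_le_mul_of_nonneg_left (by linarith) (Real.rpow_nonneg hT0.le _)
  refine h1.trans ?_
  have hpos : 0 ≤ B / 2 * a ^ (3 / 2 : ℝ) * T := by positivity
  rcases le_or_gt (a * X) 1 with h | h
  · have h2 : T ^ a ≤ 3 := by
      rw [hTa]
      calc Real.exp (a * X) ≤ Real.exp 1 := Real.exp_le_exp.2 h
        _ ≤ 3 := by linarith [Real.exp_one_lt_d9]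
    have h3 : T ^ a * (1 / 40 * X + |C|) ≤ 3 * (1 / 40 * X + |C|) := mul_le_mul_of_nonneg_right h2 (by positivity)
    have h4 : 0 ≤ Real.exp X0 * (1 / 40 * X0 + |C|) := by positivity
    linarith
  · rcases le_total X0 X with h5 | h5
    · have h6 := hX0 X h5
      have hXp : 0 < X := by
        rcases hX0'.eq_or_lt with h7 | h7
        · rw [← h7, mul_zero] at h
          linarith
        · exact h7
      have h7 : 1 ≤ a ^ (3 / 2 : ℝ) * X ^ (3 / 2 : ℝ) := by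
        rw [← Real.mul_rpow ha hX0']
        exact Real.one_le_rpow h.le (by norm_num)
      have h8 : T ^ a ≤ Real.exp (a0 * X) := by
        rw [hTa]
        exact Real.exp_le_exp.2 (mul_le_mul_of_nonneg_right haa hX0')
      have h9 : Real.exp (a0 * X) = T * Real.exp (-(1 - a0) * X) := by
        rw [hTX, ← Real.exp_add]
        congr 1
        ring
      have h10 : T ^ a * (1 / 40 * X + |C|) ≤ B / 2 * a ^ (3 / 2 : ℝ) * T := by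
        calc T ^ a * (1 / 40 * X + |C|) ≤ Real.exp (a0 * X) * (1 / 40 * X + |C|) :=
              mul_le_mul_of_nonneg_right h8 (by positivity)
          _ = T * Real.exp (-(1 - a0) * X) * (1 / 40 * X + |C|) * 1 := by rw [h9, mul_one]
          _ ≤ T * Real.exp (-(1 - a0) * X) * (1 / 40 * X + |C|) * (a ^ (3 / 2 : ℝ) * X ^ (3 / 2 : ℝ)) :=
              mul_le_mul_of_nonneg_left h7 (by positivity)
          _ = ((1 / 40 * X + |C|) * X ^ (3 / 2 : ℝ) * Real.exp (-(1 - a0) * X)) * (a ^ (3 / 2 : ℝ) * T) := by ring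
          _ ≤ B / 2 * (a ^ (3 / 2 : ℝ) * T) := mul_le_mul_of_nonneg_right h6 (by positivity)
          _ = B / 2 * a ^ (3 / 2 : ℝ) * T := by ring
      have h11 : 0 ≤ Real.exp X0 * (1 / 40 * X0 + |C|) := by positivity
      linarith
    · have h6 : T ^ a ≤ Real.exp X0 := by
        rw [hTa]
        apply Real.exp_le_exp.2
        calc a * X ≤ 1 * X := mul_le_mul_of_nonneg_right (by linarith) hX0'
          _ = X := one_mul X
          _ ≤ X0 := h5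
      have h7 : T ^ a * (1 / 40 * X + |C|) ≤ Real.exp X0 * (1 / 40 * X0 + |C|) := by
        gcongr
      linarith

theorem growth_E_eps {ε C a0 : ℝ} (hε : 0 < ε) (ha0 : a0 < 1) :
    ∃ A : ℝ, ∀ T : ℝ, 1 ≤ T → ∀ a : ℝ, 0 ≤ a → a ≤ a0 →
      T ^ a * (1 / 40 * Real.log T + C) ≤ ε * T + A := by
  obtain ⟨X0, hX00, hX0⟩ := gro_lim (δ := 1 - a0) (c := ε) (C := |C|) (by linarith) hε 0
  refine ⟨Real.exp X0 * (1 / 40 * X0 + |C|), ?_⟩
  intro T hT a ha haa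
  have hT0 : 0 < T := by linarith
  set X := Real.log T with hX
  have hX0' : 0 ≤ X := Real.log_nonneg hT
  have hTX : T = Real.exp X := (Real.exp_log hT0).symm
  have hTa : T ^ a = Real.exp (a * X) := by
    rw [Real.rpow_def_of_pos hT0, mul_comm]
  have hC := le_abs_self C
  have hC0 := abs_nonneg C
  have h1 : T ^ a * (1 / 40 * X + C) ≤ T ^ a * (1 / 40 * X + |C|) :=
    mul_le_mul_of_nonneg_left (by linarith) (Real.rpow_nonneg hT0.le _)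
  refine h1.trans ?_
  rcases le_total X0 X with h5 | h5
  · have h6 := hX0 X h5
    rw [Real.rpow_zero, mul_one] at h6
    have h8 : T ^ a ≤ Real.exp (a0 * X) := by
      rw [hTa]
      exact Real.exp_le_exp.2 (mul_le_mul_of_nonneg_right haa hX0')
    have h9 : Real.exp (a0 * X) = T * Real.exp (-(1 - a0) * X) := by
      rw [hTX, ← Real.exp_add]
      congr 1
      ring
    have h10 : T ^ a * (1 / 40 * X + |C|) ≤ ε * T := by
      calc T ^ a * (1 / 40 * X + |C|) ≤ Real.exp (a0 * X) * (1 / 40 * X + |C|) :=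
            mul_le_mul_of_nonneg_right h8 (by positivity)
        _ = ((1 / 40 * X + |C|) * Real.exp (-(1 - a0) * X)) * T := by
            rw [h9]
            ring
        _ ≤ ε * T := mul_le_mul_of_nonneg_right h6 hT0.le
    have h11 : 0 ≤ Real.exp X0 * (1 / 40 * X0 + |C|) := by positivity
    linarith
  · have h6 : T ^ a ≤ Real.exp X0 := by
      rw [hTa]
      apply Real.exp_le_exp.2
      calc a * X ≤ 1 * X := mul_le_mul_of_nonneg_right (by linarith) hX0'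
        _ = X := one_mul X
        _ ≤ X0 := h5
    have h7 : T ^ a * (1 / 40 * X + |C|) ≤ Real.exp X0 * (1 / 40 * X0 + |C|) := by
      gcongr
    have h8 : 0 ≤ ε * T := by positivity
    linarith

/-- `8 / cB B = 16 (4/3)^(2/3) B^(-2/3)` and `16 (4/3)^(2/3) < 20` -/
theorem lam_le {B : ℝ} (hB : 0 < B) {P : Blk} (hP : Par (cB B) 100 P) :
    P.lam ≤ 20 * B ^ (-(2 / 3) : ℝ) /
      (Real.log P.g ^ (2 / 3 : ℝ) * Real.log (Real.log P.g) ^ (1 / 3 : ℝ)) := by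
  have hc := gro_cB hB
  set l := Real.log P.g with hl
  have hl100 : 100 ≤ l := hP.big
  have hl0 : 0 < l := by linarith
  set L := Real.log l with hL
  have hL1 : 1 ≤ L := gro_L hl100
  have hL0 : 0 < L := by linarith
  have hR : P.R = cB B * L ^ (1 / 3 : ℝ) * l ^ (2 / 3 : ℝ) := hP.R
  have hy : 0 < l ^ (2 / 3 : ℝ) * L ^ (1 / 3 : ℝ) := by positivity
  have h34 : (4 / 5 : ℝ) ≤ (3 / 4 : ℝ) ^ (2 / 3 : ℝ) := by
    have h1 : (4 / 5 : ℝ) = ((4 / 5 : ℝ) ^ 3) ^ (1 / 3 : ℝ) := by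
      rw [← Real.rpow_natCast (4 / 5 : ℝ) 3, ← Real.rpow_mul (by norm_num)]
      norm_num
    have h2 : (3 / 4 : ℝ) ^ (2 / 3 : ℝ) = ((3 / 4 : ℝ) ^ 2) ^ (1 / 3 : ℝ) := by
      rw [← Real.rpow_natCast (3 / 4 : ℝ) 2, ← Real.rpow_mul (by norm_num)]
      norm_num
    rw [h1, h2]
    exact Real.rpow_le_rpow (by norm_num) (by norm_num) (by norm_num)
  have hcB : 8 ≤ 20 * B ^ (-(2 / 3) : ℝ) * cB B := by
    unfold cB
    have h1 : (3 * B / 4) ^ (2 / 3 : ℝ) = (3 / 4 : ℝ) ^ (2 / 3 : ℝ) * B ^ (2 / 3 : ℝ) := by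
      rw [← Real.mul_rpow (by norm_num) hB.le]
      congr 1
      ring
    have h2 : B ^ (-(2 / 3) : ℝ) * B ^ (2 / 3 : ℝ) = 1 := by
      rw [← Real.rpow_add hB]
      norm_num
    calc (8 : ℝ) = 10 * (4 / 5) := by norm_num
      _ ≤ 10 * (3 / 4 : ℝ) ^ (2 / 3 : ℝ) := by linarith
      _ = 10 * (3 / 4 : ℝ) ^ (2 / 3 : ℝ) * (B ^ (-(2 / 3) : ℝ) * B ^ (2 / 3 : ℝ)) := by rw [h2, mul_one]
      _ = 20 * B ^ (-(2 / 3) : ℝ) * (1 / 2 * (3 * B / 4) ^ (2 / 3 : ℝ)) := by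
        rw [h1]
        ring
  unfold Blk.lam
  rw [hR, div_le_div_iff₀ (by positivity) hy]
  calc 8 * (l ^ (2 / 3 : ℝ) * L ^ (1 / 3 : ℝ)) ≤
        (20 * B ^ (-(2 / 3) : ℝ) * cB B) * (l ^ (2 / 3 : ℝ) * L ^ (1 / 3 : ℝ)) :=
        mul_le_mul_of_nonneg_right hcB hy.le
    _ = 20 * B ^ (-(2 / 3) : ℝ) * (cB B * L ^ (1 / 3 : ℝ) * l ^ (2 / 3 : ℝ)) := by ring

/-- `y^(3/5) ≥ (cB B / 8)^(3/5) L^(1/5) ℓ`, `log y ≤ 2 L` for large `ℓ`, and
`14 (1/16)^(3/5) (3/4)^(2/5) 2^(-1/5) > 2.05` -/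
theorem psi_scale {B : ℝ} (hB : 0 < B) :
    ∃ X0 : ℝ, ∀ P : Blk, Par (cB B) X0 P → ∀ y : ℝ, Real.log P.g * P.R / 8 ≤ y →
      y ≤ Real.log P.g * P.R / 8 + 1 →
      2 * Real.log P.g + 1 ≤ 14 * B ^ (-(2 / 5) : ℝ) * y ^ (3 / 5 : ℝ) * Real.log y ^ (-(1 / 5) : ℝ) := by
  have hc := gro_cB hB
  refine ⟨max 100 ((cB B / 4 + 1) ^ 4), ?_⟩
  intro P hP y hy1 hy2
  set l := Real.log P.g with hl
  have hbig : max 100 ((cB B / 4 + 1) ^ 4) ≤ l := hP.big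
  have hl100 : 100 ≤ l := (le_max_left _ _).trans hbig
  have hl4 : (cB B / 4 + 1) ^ 4 ≤ l := (le_max_right _ _).trans hbig
  have hl0 : 0 < l := by linarith
  set L := Real.log l with hL
  have hL1 : 1 ≤ L := gro_L hl100
  have hL0 : 0 < L := by linarith
  have hR : P.R = cB B * L ^ (1 / 3 : ℝ) * l ^ (2 / 3 : ℝ) := hP.R
  have h13 := gro_L13 hl100
  rw [← hL] at h13
  have hlR : l * P.R / 8 = cB B / 8 * L ^ (1 / 3 : ℝ) * l ^ (5 / 3 : ℝ) := by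
    have h1 : l ^ (5 / 3 : ℝ) = l * l ^ (2 / 3 : ℝ) := by
      rw [← Real.rpow_one_add' hl0.le (by norm_num)]
      norm_num
    rw [hR, h1]
    ring
  have hy0 : 1 < y := by
    have h1 := P.hR
    nlinarith
  have hyp : 0 < y := by linarith
  have hly : 0 < Real.log y := Real.log_pos hy0
  have hl14 : cB B / 4 + 1 ≤ l ^ (1 / 4 : ℝ) := by
    have h1 : ((cB B / 4 + 1) ^ 4) ^ (1 / 4 : ℝ) = cB B / 4 + 1 := by
      rw [← Real.rpow_natCast (cB B / 4 + 1) 4, ← Real.rpow_mul (by positivity)]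
      norm_num
    rw [← h1]
    exact Real.rpow_le_rpow (by positivity) hl4 (by norm_num)
  have hyl : y ≤ l ^ 2 := by
    have h1 : l * P.R / 8 ≤ cB B / 4 * l ^ (7 / 4 : ℝ) := by
      rw [hlR]
      have h2 : l ^ (7 / 4 : ℝ) = l ^ (1 / 12 : ℝ) * l ^ (5 / 3 : ℝ) := by
        rw [← Real.rpow_add hl0]
        norm_num
      rw [h2]
      calc cB B / 8 * L ^ (1 / 3 : ℝ) * l ^ (5 / 3 : ℝ) ≤ cB B / 8 * (2 * l ^ (1 / 12 : ℝ)) * l ^ (5 / 3 : ℝ) := by gcongr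
        _ = cB B / 4 * (l ^ (1 / 12 : ℝ) * l ^ (5 / 3 : ℝ)) := by ring
    have h2 : 1 ≤ l ^ (7 / 4 : ℝ) := Real.one_le_rpow (by linarith) (by norm_num)
    have h3 : l ^ 2 = l ^ (1 / 4 : ℝ) * l ^ (7 / 4 : ℝ) := by
      rw [← Real.rpow_add hl0, ← Real.rpow_natCast l 2]
      norm_num
    calc y ≤ cB B / 4 * l ^ (7 / 4 : ℝ) + 1 := by linarith
      _ ≤ cB B / 4 * l ^ (7 / 4 : ℝ) + l ^ (7 / 4 : ℝ) := by linarith
      _ = (cB B / 4 + 1) * l ^ (7 / 4 : ℝ) := by ring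
      _ ≤ l ^ (1 / 4 : ℝ) * l ^ (7 / 4 : ℝ) := mul_le_mul_of_nonneg_right hl14 (by linarith)
      _ = l ^ 2 := h3.symm
  have hlogy : Real.log y ≤ 2 * L := by
    calc Real.log y ≤ Real.log (l ^ 2) := Real.log_le_log hyp hyl
      _ = 2 * L := by
        rw [Real.log_pow, ← hL]
        norm_num
  have h1 : (cB B / 8) ^ (3 / 5 : ℝ) * L ^ (1 / 5 : ℝ) * l ≤ y ^ (3 / 5 : ℝ) := by
    have h2 : (l * P.R / 8) ^ (3 / 5 : ℝ) = (cB B / 8) ^ (3 / 5 : ℝ) * L ^ (1 / 5 : ℝ) * l := by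
      rw [hlR, Real.mul_rpow (by positivity) (by positivity), Real.mul_rpow (by positivity) (by positivity),
        ← Real.rpow_mul hL0.le, ← Real.rpow_mul hl0.le]
      norm_num
    rw [← h2]
    exact Real.rpow_le_rpow (by rw [hlR]; positivity) hy1 (by norm_num)
  have h2 : (2 * L) ^ (-(1 / 5) : ℝ) ≤ Real.log y ^ (-(1 / 5) : ℝ) :=
    Real.rpow_le_rpow_of_nonpos hly hlogy (by norm_num)
  have h3 : (2 * L) ^ (-(1 / 5) : ℝ) = 2 ^ (-(1 / 5) : ℝ) * L ^ (-(1 / 5) : ℝ) := Real.mul_rpow (by norm_num) hL0.le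
  have hκ : (41 / 20 : ℝ) ≤ 14 * B ^ (-(2 / 5) : ℝ) * (cB B / 8) ^ (3 / 5 : ℝ) * 2 ^ (-(1 / 5) : ℝ) := by
    have h4 : (cB B / 8) ^ (3 / 5 : ℝ) = (1 / 16 : ℝ) ^ (3 / 5 : ℝ) * ((3 / 4 : ℝ) ^ (2 / 5 : ℝ) * B ^ (2 / 5 : ℝ)) := by
      have h5 : cB B / 8 = 1 / 16 * (3 * B / 4) ^ (2 / 3 : ℝ) := by
        unfold cB
        ring
      rw [h5, Real.mul_rpow (by norm_num) (by positivity), ← Real.rpow_mul (by positivity)]
      congr 1
      rw [← Real.mul_rpow (by norm_num) hB.le]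
      congr 1
      · ring
      · norm_num
    have h6 : B ^ (-(2 / 5) : ℝ) * B ^ (2 / 5 : ℝ) = 1 := by
      rw [← Real.rpow_add hB]
      norm_num
    have h7 : 14 * B ^ (-(2 / 5) : ℝ) * (cB B / 8) ^ (3 / 5 : ℝ) * 2 ^ (-(1 / 5) : ℝ) =
        14 * (1 / 16 : ℝ) ^ (3 / 5 : ℝ) * (3 / 4 : ℝ) ^ (2 / 5 : ℝ) * 2 ^ (-(1 / 5) : ℝ) := by
      rw [h4]
      calc 14 * B ^ (-(2 / 5) : ℝ) * ((1 / 16 : ℝ) ^ (3 / 5 : ℝ) * ((3 / 4 : ℝ) ^ (2 / 5 : ℝ) * B ^ (2 / 5 : ℝ))) * 2 ^ (-(1 / 5) : ℝ)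
          = 14 * (1 / 16 : ℝ) ^ (3 / 5 : ℝ) * (3 / 4 : ℝ) ^ (2 / 5 : ℝ) * 2 ^ (-(1 / 5) : ℝ) *
            (B ^ (-(2 / 5) : ℝ) * B ^ (2 / 5 : ℝ)) := by ring
        _ = _ := by rw [h6, mul_one]
    rw [h7]
    have e14 : (14 : ℝ) = ((14 : ℝ) ^ 5) ^ (1 / 5 : ℝ) := by
      rw [← Real.rpow_natCast (14 : ℝ) 5, ← Real.rpow_mul (by norm_num)]
      norm_num
    have e16 : (1 / 16 : ℝ) ^ (3 / 5 : ℝ) = ((1 / 16 : ℝ) ^ 3) ^ (1 / 5 : ℝ) := by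
      rw [← Real.rpow_natCast (1 / 16 : ℝ) 3, ← Real.rpow_mul (by norm_num)]
      norm_num
    have e34 : (3 / 4 : ℝ) ^ (2 / 5 : ℝ) = ((3 / 4 : ℝ) ^ 2) ^ (1 / 5 : ℝ) := by
      rw [← Real.rpow_natCast (3 / 4 : ℝ) 2, ← Real.rpow_mul (by norm_num)]
      norm_num
    have e2 : (2 : ℝ) ^ (-(1 / 5) : ℝ) = ((1 / 2 : ℝ)) ^ (1 / 5 : ℝ) := by
      rw [Real.rpow_neg (by norm_num), ← Real.inv_rpow (by norm_num)]
      norm_num
    have e41 : (41 / 20 : ℝ) = ((41 / 20 : ℝ) ^ 5) ^ (1 / 5 : ℝ) := by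
      rw [← Real.rpow_natCast (41 / 20 : ℝ) 5, ← Real.rpow_mul (by norm_num)]
      norm_num
    have e : 14 * (1 / 16 : ℝ) ^ (3 / 5 : ℝ) * (3 / 4 : ℝ) ^ (2 / 5 : ℝ) * 2 ^ (-(1 / 5) : ℝ) =
        ((14 : ℝ) ^ 5 * (1 / 16) ^ 3 * (3 / 4) ^ 2 * (1 / 2)) ^ (1 / 5 : ℝ) := by
      rw [e16, e34, e2, Real.mul_rpow (by positivity) (by positivity), Real.mul_rpow (by positivity) (by positivity),
        Real.mul_rpow (by positivity) (by positivity), ← e14]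
    rw [e, e41]
    exact Real.rpow_le_rpow (by norm_num) (by norm_num) (by norm_num)
  have hLL : L ^ (1 / 5 : ℝ) * L ^ (-(1 / 5) : ℝ) = 1 := by
    rw [← Real.rpow_add hL0]
    norm_num
  calc 2 * l + 1 ≤ 41 / 20 * l := by linarith
    _ ≤ (14 * B ^ (-(2 / 5) : ℝ) * (cB B / 8) ^ (3 / 5 : ℝ) * 2 ^ (-(1 / 5) : ℝ)) * l := mul_le_mul_of_nonneg_right hκ hl0.le
    _ = 14 * B ^ (-(2 / 5) : ℝ) * ((cB B / 8) ^ (3 / 5 : ℝ) * L ^ (1 / 5 : ℝ) * l) * (2 ^ (-(1 / 5) : ℝ) * L ^ (-(1 / 5) : ℝ)) := by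
      calc (14 * B ^ (-(2 / 5) : ℝ) * (cB B / 8) ^ (3 / 5 : ℝ) * 2 ^ (-(1 / 5) : ℝ)) * l
          = (14 * B ^ (-(2 / 5) : ℝ) * (cB B / 8) ^ (3 / 5 : ℝ) * 2 ^ (-(1 / 5) : ℝ)) * l *
            (L ^ (1 / 5 : ℝ) * L ^ (-(1 / 5) : ℝ)) := by rw [hLL, mul_one]
        _ = _ := by ring
    _ ≤ 14 * B ^ (-(2 / 5) : ℝ) * y ^ (3 / 5 : ℝ) * Real.log y ^ (-(1 / 5) : ℝ) := by
      rw [← h3]
      gcongr

end VO
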