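import Pool.Agent.H15.VO.Part

/-!
# Sm : the part of the Laplace transform on `[0, log 2]`
-/

set_option autoImplicit false

open Complex MeasureTheory Set Filter Topology

namespace VO

/-- the integral over `[0, log 2]` -/
noncomputable def Ss (f : ℝ → ℝ) (s : ℂ) : ℂ :=
  ∫ v in (0 : ℝ)..(Real.log 2), (f v : ℂ) * Complex.exp (-(s - 1) * v)

private theorem sm_meas {f : ℝ → ℝ} (hf : Dens f) (s : ℂ) (μ : Measure ℝ) :
    AEStronglyMeasurable (fun v : ℝ => (f v : ℂ) * Complex.exp (-(s - 1) * v)) μ := by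
  refine AEStronglyMeasurable.mul ?_ ?_
  · exact (Complex.measurable_ofReal.comp hf.meas).aestronglyMeasurable
  · exact (by fun_prop : Continuous fun v : ℝ => Complex.exp (-(s - 1) * v)).aestronglyMeasurable

private theorem sm_norm {f : ℝ → ℝ} (hf : Dens f) (s : ℂ) (v : ℝ) :
    ‖(f v : ℂ) * Complex.exp (-(s - 1) * v)‖ ≤ 3 * Real.exp (-(s.re - 1) * v) := by
  rw [norm_mul, Complex.norm_exp, Complex.norm_real, Real.norm_of_nonneg (hf.nonneg v)]
  have h1 : (-(s - 1) * (v : ℂ)).re = -(s.re - 1) * v := by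
    simp [Complex.mul_re]
  rw [h1]
  exact mul_le_mul_of_nonneg_right (hf.le v) (Real.exp_pos _).le

private theorem sm_ii {f : ℝ → ℝ} (hf : Dens f) (s : ℂ) (a b : ℝ) :
    IntervalIntegrable (fun v : ℝ => (f v : ℂ) * Complex.exp (-(s - 1) * v)) volume a b := by
  have h1 : IntervalIntegrable (fun v : ℝ => 3 * Real.exp (-(s.re - 1) * v)) volume a b :=
    (by fun_prop : Continuous fun v : ℝ => 3 * Real.exp (-(s.re - 1) * v)).intervalIntegrable a b
  refine h1.mono_fun (sm_meas hf s _) (Eventually.of_forall fun v => ?_)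
  refine (sm_norm hf s v).trans ?_
  show _ ≤ ‖3 * Real.exp (-(s.re - 1) * v)‖
  rw [Real.norm_of_nonneg (by positivity)]

theorem Ss_diff {f : ℝ → ℝ} (hf : Dens f) : Differentiable ℂ (Ss f) := by
  intro s
  have hl2 : 0 ≤ Real.log 2 := Real.log_nonneg (by norm_num)
  have key := intervalIntegral.hasDerivAt_integral_of_dominated_loc_of_deriv_le (𝕜 := ℂ) (E := ℂ)
    (μ := volume) (a := (0 : ℝ)) (b := Real.log 2)
    (F := fun (z : ℂ) (v : ℝ) => (f v : ℂ) * Complex.exp (-(z - 1) * v))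
    (F' := fun (z : ℂ) (v : ℝ) => (f v : ℂ) * (Complex.exp (-(z - 1) * v) * (-(v : ℂ))))
    (x₀ := s) (s := Metric.ball s 1) (bound := fun v : ℝ => 3 * (Real.exp (-(s.re - 2) * v) * v))
    (Metric.ball_mem_nhds s one_pos) ?_ ?_ ?_ ?_ ?_ ?_
  · exact key.2.differentiableAt
  · exact Eventually.of_forall fun z => sm_meas hf z _
  · exact sm_ii hf s _ _
  · refine AEStronglyMeasurable.mul ?_ ?_
    · exact (Complex.measurable_ofReal.comp hf.meas).aestronglyMeasurable
    · exact (by fun_prop : Continuous fun v : ℝ =>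
        (Complex.exp (-(s - 1) * v) * (-(v : ℂ)))).aestronglyMeasurable
  · refine Eventually.of_forall fun v hv z hz => ?_
    rw [uIoc_of_le hl2] at hv
    have hv0 : 0 < v := hv.1
    rw [norm_mul, norm_mul, Complex.norm_exp, Complex.norm_real, Real.norm_of_nonneg (hf.nonneg v),
      norm_neg, Complex.norm_real, Real.norm_of_nonneg hv0.le]
    have h1 : (-(z - 1) * (v : ℂ)).re = -(z.re - 1) * v := by
      simp [Complex.mul_re]
    rw [h1]
    have h2 : -(z.re - 1) * v ≤ -(s.re - 2) * v := by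
      refine mul_le_mul_of_nonneg_right ?_ hv0.le
      have h3 : |(z - s).re| ≤ ‖z - s‖ := Complex.abs_re_le_norm _
      have h4 : ‖z - s‖ < 1 := by rw [← dist_eq_norm]; exact hz
      have h5 := (abs_lt.mp (h3.trans_lt h4)).1
      rw [Complex.sub_re] at h5
      linarith
    have h3 := Real.exp_le_exp.mpr h2
    exact mul_le_mul (hf.le v) (mul_le_mul_of_nonneg_right h3 hv0.le) (by positivity) (by norm_num)
  · exact (by fun_prop : Continuous fun v : ℝ => 3 * (Real.exp (-(s.re - 2) * v) * v)).intervalIntegrable _ _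
  · refine Eventually.of_forall fun v _ z _ => ?_
    have h1 : HasDerivAt (fun z : ℂ => -(z - 1) * (v : ℂ)) (-(v : ℂ)) z := by
      have h2 := (((hasDerivAt_id z).sub_const 1).neg).mul_const (v : ℂ)
      simpa using h2
    exact (h1.cexp).const_mul _

theorem Ss_bound {f : ℝ → ℝ} (hf : Dens f) {s : ℂ} (hs : 0 ≤ s.re) : ‖Ss f s‖ ≤ 6 := by
  have hl2 : 0 ≤ Real.log 2 := Real.log_nonneg (by norm_num)
  have hl3 : Real.log 2 ≤ 1 := by
    have := Real.log_two_lt_d9; linarith
  have h1 : ∀ v ∈ uIoc (0 : ℝ) (Real.log 2), ‖(f v : ℂ) * Complex.exp (-(s - 1) * v)‖ ≤ 6 := by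
    intro v hv
    rw [uIoc_of_le hl2] at hv
    refine (sm_norm hf s v).trans ?_
    have h2 : -(s.re - 1) * v ≤ Real.log 2 := by
      have h3 : 0 ≤ s.re * v := mul_nonneg hs hv.1.le
      nlinarith [hv.2]
    have h3 := Real.exp_le_exp.mpr h2
    rw [Real.exp_log (by norm_num)] at h3
    linarith
  refine (intervalIntegral.norm_integral_le_of_norm_le_const h1).trans ?_
  rw [sub_zero, abs_of_nonneg hl2]
  linarith

/-- for `1 < re s` -/
theorem Ss_add {f : ℝ → ℝ} (hf : Dens f) {s : ℂ} (hs : 1 < s.re) :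
    Ss f s + ∫ v in Ioi (Real.log 2), (f v : ℂ) * Complex.exp (-(s - 1) * v) =
      ∫ v in Ioi (0 : ℝ), (f v : ℂ) * Complex.exp (-(s - 1) * v) := by
  have hl2 : 0 ≤ Real.log 2 := Real.log_nonneg (by norm_num)
  have h1 : IntegrableOn (fun v : ℝ => (f v : ℂ) * Complex.exp (-(s - 1) * v)) (Ioi 0) := by
    have h2 : IntegrableOn (fun v : ℝ => 3 * Real.exp (-(s.re - 1) * v)) (Ioi 0) :=
      (integrableOn_exp_mul_Ioi (a := -(s.re - 1)) (by linarith) _).const_mul _
    exact Integrable.mono' h2 (sm_meas hf s _) (Eventually.of_forall fun v => sm_norm hf s v)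
  unfold Ss
  rw [intervalIntegral.integral_of_le hl2, ← Ioc_union_Ioi_eq_Ioi hl2,
    setIntegral_union (Ioc_disjoint_Ioi le_rfl) measurableSet_Ioi
      (h1.mono_set Ioc_subset_Ioi_self) (h1.mono_set (Ioi_subset_Ioi hl2))]

end VO
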