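import Pool.Agent.H15.VO.FprodL
import Pool.Agent.H15.VO.Fprod
import Pool.Agent.H15.VO.EsB
import Pool.Agent.H15.VO.Qs
import Pool.Agent.H15.VO.Sm
import Pool.Agent.H15.VO.Gro

/-!
# Zs : the zeta function of the system

`Zt s = s / (s - 1) * FF s * exp (Es s - Ss s + Qs s)`.
-/

set_option autoImplicit false

open Complex MeasureTheory Set Filter Topology

namespace VO

/-- the density on the positive half line, extended by zero -/
noncomputable def fP (P : ℕ → Blk) (y : ℝ) : ℝ := if 0 < y then dn P y else 0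

theorem fP_dens {P : ℕ → Blk} (hP : Sparse P) : Dens (fP P) where
  meas := dn_meas hP
  nonneg y := by
    unfold fP
    split_ifs with h
    · exact dn_nonneg hP h
    · exact le_refl _
  le y := by
    unfold fP
    split_ifs with h
    · exact dn_le hP h
    · norm_num
  low y hy := by
    have h0 : 0 < y := lt_of_lt_of_le (Real.log_pos (by norm_num)) hy
    have := dn_low hP hy
    simpa [fP, h0] using this
  eps ε hε := by
    obtain ⟨C, hC, h⟩ := dn_eps hP hε
    refine ⟨C, hC, fun y hy => ?_⟩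
    have h0 : 0 < y := by linarith
    simpa [fP, h0] using h y hy

/-- the zeta function of the system -/
noncomputable def Zt (P : ℕ → Blk) (η u : ℕ → ℝ) (s : ℂ) : ℂ :=
  s / (s - 1) * FF P s * Complex.exp (Es (fP P) η u s - Ss (fP P) s + Qs u s)

variable {P : ℕ → Blk} {η u : ℕ → ℝ}

theorem u_ge (hη : IsPart (fP P) η) (hu : IsSel (fP P) η u) (j : ℕ) : Real.log 2 ≤ u j :=
  (hη.ge j).trans (hu.ge j)

theorem u_sum (hη : IsPart (fP P) η) (hu : IsSel (fP P) η u) (σ : ℝ) (hσ : 1 < σ) :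
    Summable fun j => Real.exp (-σ * u j) := hη.summable hu.ge hσ

theorem Zt_diff (hP : Sparse P) (hη : IsPart (fP P) η) (hu : IsSel (fP P) η u) :
    DifferentiableOn ℂ (Zt P η u) {s : ℂ | 1 / 2 < s.re ∧ s ≠ 1} := by
  have hf := fP_dens hP
  have hsub : {s : ℂ | 1 / 2 < s.re ∧ s ≠ 1} ⊆ {s : ℂ | 0 < s.re} := fun s hs => by
    have := hs.1; simp only [mem_setOf_eq]; linarith
  have h1 : DifferentiableOn ℂ (fun s : ℂ => s / (s - 1)) {s : ℂ | 1 / 2 < s.re ∧ s ≠ 1} := by
    refine DifferentiableOn.div differentiableOn_id (differentiableOn_id.sub_const _) fun s hs => ?_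
    simpa [sub_eq_zero] using hs.2
  have h2 := (FF_diff hP).mono hsub
  have h3 := (Es_diff hf hη hu).mono hsub
  have h4 := (Ss_diff hf).differentiableOn (s := {s : ℂ | 1 / 2 < s.re ∧ s ≠ 1})
  have h5 : DifferentiableOn ℂ (Qs u) {s : ℂ | 1 / 2 < s.re ∧ s ≠ 1} :=
    (Qs_diff (u_ge hη hu) (u_sum hη hu)).mono fun s hs => hs.1
  exact (h1.mul h2).mul ((h3.sub h4).add h5).cexp

theorem Zt_exp (hP : Sparse P) (hη : IsPart (fP P) η) (hu : IsSel (fP P) η u) {s : ℂ} (hs : 1 < s.re) :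
    Zt P η u s = Complex.exp (∑' j, Complex.exp (-(s * u j)) + Qs u s) := by
  have hf := fP_dens hP
  have h2 := Es_eq hf hη hu hs
  have h3 := Ss_add hf hs
  have h4 := (FF_log hP hs).2
  have h5 : ∫ v in Ioi (0 : ℝ), (fP P v : ℂ) * Complex.exp (-(s - 1) * v) =
      ∫ y in Ioi (0 : ℝ), (dn P y : ℂ) * Complex.exp (-(s - 1) * y) := by
    refine setIntegral_congr_fun measurableSet_Ioi fun v hv => ?_
    have hv' : 0 < v := hv
    simp [fP, hv']
  unfold Zt
  rw [h4, ← Complex.exp_add, h2, ← h5, ← h3]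
  congr 1
  ring

theorem Zt_prod (hP : Sparse P) (hη : IsPart (fP P) η) (hu : IsSel (fP P) η u) {s : ℂ} (hs : 1 < s.re) :
    HasProd (fun j => (1 - Complex.exp (-(s * u j)))⁻¹) (Zt P η u s) := by
  rw [Zt_exp hP hη hu hs]
  exact prod_eq (u_ge hη hu) (u_sum hη hu) hs

theorem Zt_ne_zero (hP : Sparse P) (hη : IsPart (fP P) η) (hu : IsSel (fP P) η u) {s : ℂ} (hs : 1 < s.re) :
    Zt P η u s ≠ 0 := by
  rw [Zt_exp hP hη hu hs]
  exact Complex.exp_ne_zero _

theorem Zt_zero_FF {s : ℂ} (h0 : s ≠ 0) (h1 : s ≠ 1) (h : Zt P η u s = 0) : FF P s = 0 := by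
  unfold Zt at h
  rcases mul_eq_zero.1 h with h | h
  · rcases mul_eq_zero.1 h with h | h
    · rcases div_eq_zero_iff.1 h with h | h
      · exact absurd h h0
      · exact absurd (sub_eq_zero.1 h) h1
    · exact h
  · exact absurd h (Complex.exp_ne_zero _)

theorem Zt_zero (hP : Sparse P) (n : ℕ) (hn : 16 ≤ (P n).R) :
    Zt P η u (1 - (P n).lam + Complex.I * (P n).g) = 0 := by
  unfold Zt
  rw [FF_zero hP n hn]
  ring

end VO
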