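import Pool.Agent.H15.VO.ZwM
import Pool.Agent.H15.VO.Zs

/-!
# ZwC : number of zeros of the zeta function of the system

The orders of `Zt` and of `FF` agree at `ρ ≠ 1`, `re ρ > 1 / 2`: the other factors are analytic and not zero there
(`analyticOrderAt_mul`, `FF_diff`, `Es_diff`, `Ss_diff`, `Qs_diff`); `Zt_zero_FF`, `FF_count`.
-/

set_option autoImplicit false

open Complex MeasureTheory Set Filter Topology

namespace VO

variable {P : ℕ → Blk} {η u : ℕ → ℝ} {ω : ℝ → ℝ}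

private theorem ne_zero_of_re {ρ : ℂ} (h1 : 1 / 2 < ρ.re) : ρ ≠ 0 := by
  rintro rfl
  rw [Complex.zero_re] at h1
  linarith

theorem Zt_order (hP : Sparse P) (hη : IsPart (fP P) η) (hu : IsSel (fP P) η u) {ρ : ℂ}
    (h1 : 1 / 2 < ρ.re) (h2 : ρ ≠ 1) :
    analyticOrderNatAt (Zt P η u) ρ = analyticOrderNatAt (FF P) ρ := by
  have hf := fP_dens hP
  have hF : AnalyticAt ℂ (FF P) ρ :=
    (FF_diff hP).analyticAt ((isOpen_lt continuous_const Complex.continuous_re).mem_nhds (show 0 < ρ.re by linarith))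
  have hE : AnalyticAt ℂ (Es (fP P) η u) ρ :=
    (Es_diff hf hη hu).analyticAt
      ((isOpen_lt continuous_const Complex.continuous_re).mem_nhds (show 0 < ρ.re by linarith))
  have hS : AnalyticAt ℂ (Ss (fP P)) ρ := (Ss_diff hf).analyticAt ρ
  have hQ : AnalyticAt ℂ (Qs u) ρ :=
    (Qs_diff (u_ge hη hu) (u_sum hη hu)).analyticAt
      ((isOpen_lt continuous_const Complex.continuous_re).mem_nhds h1)
  have hG : AnalyticAt ℂ (fun s : ℂ => s / (s - 1)) ρ :=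
    analyticAt_id.div (analyticAt_id.sub analyticAt_const) (sub_ne_zero.2 h2)
  have hX : AnalyticAt ℂ (fun s : ℂ => Complex.exp (Es (fP P) η u s - Ss (fP P) s + Qs u s)) ρ :=
    ((hE.sub hS).add hQ).cexp
  have e : Zt P η u = (fun s : ℂ => s / (s - 1)) * FF P *
      fun s : ℂ => Complex.exp (Es (fP P) η u s - Ss (fP P) s + Qs u s) := by
    funext s
    rfl
  have o1 : analyticOrderAt (fun s : ℂ => s / (s - 1)) ρ = 0 :=
    hG.analyticOrderAt_eq_zero.2 (div_ne_zero (ne_zero_of_re h1) (sub_ne_zero.2 h2))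
  have o2 : analyticOrderAt (fun s : ℂ => Complex.exp (Es (fP P) η u s - Ss (fP P) s + Qs u s)) ρ = 0 :=
    hX.analyticOrderAt_eq_zero.2 (Complex.exp_ne_zero _)
  unfold analyticOrderNatAt
  rw [e, analyticOrderAt_mul (hG.mul hF) hX, analyticOrderAt_mul hG hF, o1, o2, zero_add, add_zero]

theorem Zt_count (hm : MonotoneOn ω (Ici 3)) (hP : Sparse P) (hc : ∀ n, ParW ω (P n))
    (hη : IsPart (fP P) η) (hu : IsSel (fP P) η u) {θ : ℝ} (hθ : 1 / 2 < θ) :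
    ∃ A : ℝ, 0 ≤ A ∧ ∀ T : ℝ, 3 ≤ T → ∀ S : Finset ℂ,
      (∀ ρ ∈ S, Zt P η u ρ = 0 ∧ ρ ≠ 1 ∧ θ ≤ ρ.re ∧ |ρ.im| ≤ T) →
      ∑ ρ ∈ S, (analyticOrderNatAt (Zt P η u) ρ : ℝ) ≤ A * Real.exp (ω T) := by
  obtain ⟨A, hA, h⟩ := FF_count hm hP hc hθ
  refine ⟨A, hA, fun T hT S hS => ?_⟩
  have h1 : ∑ ρ ∈ S, (analyticOrderNatAt (Zt P η u) ρ : ℝ) = ∑ ρ ∈ S, (analyticOrderNatAt (FF P) ρ : ℝ) := by
    refine Finset.sum_congr rfl fun ρ hρ => ?_
    obtain ⟨-, h2, h3, -⟩ := hS ρ hρ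
    rw [Zt_order hP hη hu (by linarith) h2]
  rw [h1]
  refine h T hT S fun ρ hρ => ?_
  obtain ⟨h0, h2, h3, h4⟩ := hS ρ hρ
  refine ⟨?_, h3, h4⟩
  unfold Zt at h0
  rcases mul_eq_zero.1 h0 with h5 | h5
  · rcases mul_eq_zero.1 h5 with h6 | h6
    · exact absurd h6 (div_ne_zero (ne_zero_of_re (by linarith)) (sub_ne_zero.2 h2))
    · exact h6
  · exact absurd h5 (Complex.exp_ne_zero _)

end VO
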