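import Pool.Agent.H15.VO.Defs

/-!
# ParW : choice of the parameters for a given growth function `ω`

`R = ω (g / 2) / 2`, `b = 32 / R`, `K = 64`. All conditions of `Blk` and of `exists_blkW` hold for every large `g`, because `ω` tends to
infinity and `ω t / log t` to `0`. `exists_sparseW`: recursion on `n` with `M` larger than `g ^ 4`, `24 R`, `8 K g` of the previous block.
-/

set_option autoImplicit false

open Complex MeasureTheory Set Filter Topology

namespace VO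

/-- the relation between the parameters of a block -/
structure ParW (ω : ℝ → ℝ) (P : Blk) : Prop where
  R : P.R = ω (P.g / 2) / 2
  bR : P.b * P.R = 32
  K : P.K = 64
  big : 100 ≤ Real.log P.g
  Rl : P.R ≤ Real.log P.g
  R64 : 64 ≤ P.R

theorem exists_blkW {ω : ℝ → ℝ} (ht : Tendsto ω atTop atTop)
    (ho : Tendsto (fun t => ω t / Real.log t) atTop (𝓝 0)) (n : ℕ) (M : ℝ) :
    ∃ P : Blk, ParW ω P ∧ 2 * (P.K : ℝ) * P.b ≤ (1 / 2) ^ (n + 3) ∧
      2 * (P.K : ℝ) * P.b * M ≤ (1 / 2) ^ (n + 3) ∧ M ≤ P.R ∧ P.b * M ≤ 1 ∧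
      M ≤ P.g ∧ 1024 * (P.K : ℝ) * Real.exp (2 * P.R) * 2 ^ n ≤ P.g := by
  -- a bound for `M` from above, at least one
  obtain ⟨M', hM', hMM⟩ : ∃ M' : ℝ, 1 ≤ M' ∧ M ≤ M' := ⟨max 1 M, le_max_left _ _, le_max_right _ _⟩
  have hM0 : 0 < M' := by linarith
  have hhalf : Tendsto (fun g : ℝ => g / 2) atTop atTop := tendsto_id.atTop_div_const (by norm_num)
  have hq : (1 : ℝ) ≤ 2 ^ (n + 3) := one_le_pow₀ (by norm_num)
  have hqq : ((1 : ℝ) / 2) ^ (n + 3) * 2 ^ (n + 3) = 1 := by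
    rw [← mul_pow]; norm_num
  -- `R` is large
  have e1 : ∀ᶠ g : ℝ in atTop, 2 * (20480 * 2 ^ (n + 3) * M') ≤ ω (g / 2) :=
    (ht.comp hhalf).eventually_ge_atTop _
  -- `R` is small against `log g`
  have e2 : ∀ᶠ g : ℝ in atTop, ω (g / 2) / Real.log (g / 2) < 1 / 4 :=
    (ho.comp hhalf).eventually_lt_const (by norm_num)
  have e3 : ∀ᶠ g : ℝ in atTop, 100 ≤ Real.log g := Real.tendsto_log_atTop.eventually_ge_atTop _
  have e4 : ∀ᶠ g : ℝ in atTop, 1 ≤ Real.log (g / 2) :=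
    (Real.tendsto_log_atTop.comp hhalf).eventually_ge_atTop _
  have e5 : ∀ᶠ g : ℝ in atTop, Real.log (1024 * 64 * 2 ^ n) ≤ Real.log g / 2 :=
    (Real.tendsto_log_atTop.atTop_div_const (by norm_num)).eventually_ge_atTop _
  obtain ⟨g, h1, h2, h3, h4, h5, h6, h7⟩ := (e1.and (e2.and (e3.and (e4.and (e5.and
    ((eventually_ge_atTop M).and (eventually_gt_atTop (0 : ℝ)))))))).exists
  obtain ⟨R, hR⟩ : ∃ R : ℝ, R = ω (g / 2) / 2 := ⟨_, rfl⟩
  have hRbig : 20480 * 2 ^ (n + 3) * M' ≤ R := by rw [hR]; linarith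
  have hR1 : 20480 * M' ≤ R := by
    have : 20480 * 1 * M' ≤ 20480 * 2 ^ (n + 3) * M' := by gcongr
    linarith
  have hR0 : 20480 ≤ R := by linarith
  have hRp : 0 < R := by linarith
  have hlg : Real.log (g / 2) ≤ Real.log g := Real.log_le_log (by linarith) (by linarith)
  have hRl : R ≤ Real.log g / 8 := by
    have h8 : ω (g / 2) < 1 / 4 * Real.log (g / 2) := by
      rwa [div_lt_iff₀ (by linarith)] at h2
    rw [hR]; linarith
  have hlp : 0 < Real.log g := by linarith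
  have hexp : 1024 * 64 * Real.exp (2 * R) * 2 ^ n ≤ g := by
    have h8 : (1024 * 64 * 2 ^ n : ℝ) ≤ Real.exp (Real.log g / 2) := by
      rw [← Real.exp_log (show (0 : ℝ) < 1024 * 64 * 2 ^ n by positivity)]
      exact Real.exp_le_exp.mpr h5
    have h9 : Real.exp (2 * R) ≤ Real.exp (Real.log g / 2) := Real.exp_le_exp.mpr (by linarith)
    calc 1024 * 64 * Real.exp (2 * R) * 2 ^ n = (1024 * 64 * 2 ^ n) * Real.exp (2 * R) := by ring
      _ ≤ Real.exp (Real.log g / 2) * Real.exp (Real.log g / 2) :=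
          mul_le_mul h8 h9 (Real.exp_pos _).le (Real.exp_pos _).le
      _ = g := by rw [← Real.exp_add, add_halves, Real.exp_log h7]
  have hbR : 32 / R * R = 32 := div_mul_cancel₀ _ hRp.ne'
  have hbp : 0 < 32 / R := by positivity
  -- `2 * 64 * b * M' ≤ (1 / 2) ^ (n + 3)`
  have hb2 : 2 * 64 * (32 / R) * M' ≤ (1 / 2) ^ (n + 3) := by
    have h8 : 4096 * M' ≤ (1 / 2) ^ (n + 3) * R := by
      have h9 : (1 / 2 : ℝ) ^ (n + 3) * (20480 * 2 ^ (n + 3) * M') ≤ (1 / 2) ^ (n + 3) * R :=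
        mul_le_mul_of_nonneg_left hRbig (by positivity)
      have h10 : (1 / 2 : ℝ) ^ (n + 3) * (20480 * 2 ^ (n + 3) * M') = 20480 * M' := by
        calc (1 / 2 : ℝ) ^ (n + 3) * (20480 * 2 ^ (n + 3) * M')
            = 20480 * M' * ((1 / 2) ^ (n + 3) * 2 ^ (n + 3)) := by ring
          _ = 20480 * M' := by rw [hqq, mul_one]
      linarith
    have h11 : 2 * 64 * (32 / R) * M' = 4096 * M' / R := by ring
    rw [h11, div_le_iff₀ hRp]
    exact h8
  refine ⟨⟨g, R, 32 / R, 64, by linarith, hbp, ?_, by linarith, ?_, ?_, ?_, ?_⟩,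
    ⟨hR, hbR, rfl, h3, ?_, ?_⟩, ?_, ?_, ?_, ?_, h6, ?_⟩
  · rw [div_le_iff₀ hRp]; linarith
  · push_cast; linarith
  · push_cast
    rw [mul_div_assoc', div_le_iff₀ hRp]; linarith
  · have h8 : R * (32 / R) ^ 2 = 32 * (32 / R) := by
      calc R * (32 / R) ^ 2 = (32 / R * R) * (32 / R) := by ring
        _ = 32 * (32 / R) := by rw [hbR]
    rw [h8, mul_div_assoc', div_le_iff₀ hRp]; linarith
  · push_cast
    refine le_trans ?_ hexp
    have h9 : (1 : ℝ) ≤ 2 ^ n := one_le_pow₀ (by norm_num)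
    have h10 : 0 ≤ 1024 * 64 * Real.exp (2 * R) := by positivity
    nlinarith
  · show R ≤ Real.log g
    linarith
  · show 64 ≤ R
    linarith
  · show 2 * ((64 : ℕ) : ℝ) * (32 / R) ≤ (1 / 2) ^ (n + 3)
    push_cast
    refine le_trans ?_ hb2
    nlinarith
  · show 2 * ((64 : ℕ) : ℝ) * (32 / R) * M ≤ (1 / 2) ^ (n + 3)
    push_cast
    refine le_trans ?_ hb2
    exact mul_le_mul_of_nonneg_left hMM (by positivity)
  · show M ≤ R
    linarith
  · show 32 / R * M ≤ 1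
    have h8 : 32 / R * M ≤ 32 / R * M' := mul_le_mul_of_nonneg_left hMM hbp.le
    have h9 : 32 / R * M' = 32 * M' / R := by ring
    have h10 : 32 * M' / R ≤ 1 := by
      rw [div_le_iff₀ hRp]; linarith
    linarith
  · show 1024 * ((64 : ℕ) : ℝ) * Real.exp (2 * R) * 2 ^ n ≤ g
    push_cast
    exact hexp

theorem exists_sparseW {ω : ℝ → ℝ} (ht : Tendsto ω atTop atTop)
    (ho : Tendsto (fun t => ω t / Real.log t) atTop (𝓝 0)) :
    ∃ P : ℕ → Blk, Sparse P ∧ ∀ n, ParW ω (P n) := by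
  choose f hf using fun (n : ℕ) (M : ℝ) => exists_blkW ht ho n M
  let mm : Blk → ℝ := fun B => B.g ^ 4 + 24 * B.R + 8 * (B.K : ℝ) * B.g
  let P : ℕ → Blk := fun n => Nat.rec (f 0 0) (fun k B => f (k + 1) (mm B)) n
  have hP0 : P 0 = f 0 0 := rfl
  have hPs : ∀ n, P (n + 1) = f (n + 1) (mm (P n)) := fun n => rfl
  have key : ∀ n, ∃ M, P n = f n M := by
    intro n
    cases n with
    | zero => exact ⟨0, hP0⟩
    | succ k => exact ⟨_, hPs k⟩
  have hK2 : ∀ B : Blk, (1 : ℝ) ≤ B.K := by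
    intro B
    have h1 := B.hK
    have h2 := B.hbR
    nlinarith
  have hg1 : ∀ B : Blk, (1 : ℝ) ≤ B.g := by
    intro B
    have h1 := B.hg
    have h2 := hK2 B
    have h3 : (1 : ℝ) ≤ Real.exp (2 * B.R) := Real.one_le_exp (by linarith [B.hR])
    have h4 : (1 : ℝ) ≤ (B.K : ℝ) * Real.exp (2 * B.R) := by nlinarith
    nlinarith
  have hmm1 : ∀ B : Blk, B.g ^ 4 ≤ mm B ∧ 24 * B.R ≤ mm B ∧ 8 * (B.K : ℝ) * B.g ≤ mm B ∧
      B.R ≤ mm B ∧ B.g ≤ mm B := by
    intro B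
    have h1 := hK2 B
    have h2 := hg1 B
    have h3 := B.hR
    have h4 : 0 ≤ B.g ^ 4 := by positivity
    have h5 : B.g ≤ 8 * (B.K : ℝ) * B.g := by nlinarith
    refine ⟨?_, ?_, ?_, ?_, ?_⟩ <;> show _ ≤ B.g ^ 4 + 24 * B.R + 8 * (B.K : ℝ) * B.g <;> linarith
  have hgs : ∀ n, (P n).g ≤ (P (n + 1)).g := by
    intro n
    rw [hPs n]
    exact le_trans (hmm1 (P n)).2.2.2.2 (hf (n + 1) (mm (P n))).2.2.2.2.2.1
  have hgm : Monotone fun n => (P n).g := monotone_nat_of_le_succ hgs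
  refine ⟨P, ⟨?_, ?_, ?_, ?_, ?_, ?_⟩, ?_⟩
  · intro n
    obtain ⟨M, hM⟩ := key n
    rw [hM]
    exact (hf n M).2.1
  · intro j n hjn
    obtain ⟨k, rfl⟩ : ∃ k, n = k + 1 := ⟨n - 1, by omega⟩
    have h1 : (P j).g ^ 4 ≤ mm (P k) := by
      refine le_trans ?_ (hmm1 (P k)).1
      exact pow_le_pow_left₀ (by linarith [hg1 (P j)]) (hgm (show j ≤ k by omega)) 4
    have h2 := (hf (k + 1) (mm (P k))).2.2.1
    rw [← hPs k] at h2
    refine le_trans (mul_le_mul_of_nonneg_left h1 ?_) h2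
    have := (P (k + 1)).hb
    positivity
  · intro n
    refine le_trans (hmm1 (P n)).2.1 ?_
    rw [hPs n]
    exact (hf (n + 1) (mm (P n))).2.2.2.1
  · intro n
    have h2 := (hf (n + 1) (mm (P n))).2.2.2.2.1
    rw [← hPs n] at h2
    refine le_trans (mul_le_mul_of_nonneg_left (hmm1 (P n)).2.2.2.1 ?_) h2
    exact (P (n + 1)).hb.le
  · intro n
    refine le_trans (hmm1 (P n)).2.2.1 ?_
    rw [hPs n]
    exact (hf (n + 1) (mm (P n))).2.2.2.2.2.1
  · intro n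
    obtain ⟨M, hM⟩ := key n
    rw [hM]
    exact (hf n M).2.2.2.2.2.2
  · intro n
    obtain ⟨M, hM⟩ := key n
    rw [hM]
    exact (hf n M).1

end VO
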