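import Pool.Agent.H15.VO.ZsR
import Pool.Agent.H15.VO.ZwG
import Pool.Agent.H15.VO.ZwC
import Pool.Agent.H15.VO.ZwO
import Pool.Agent.H15.VO.Vk
import Pool.Agent.H15.VO.Gint
import Pool.Agent.H15.VO.Cnt

/-!
# Fin : the systems of generalized primes
-/

set_option autoImplicit false

open Complex MeasureTheory Set Filter Topology

namespace VO

/-- `p` is a sequence of generalized primes, `Z` the continuation of its zeta function to `re s > 1/2` with residue `κ` at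
`1`; the number of generalized integers `≤ x` is `κ x + O(x^θ)` for every `θ > 1/2`, and `Z` satisfies the Lindelöf bound and the
strongest zero density bound to the right of `re s = 1/2` -/
structure IsSystem (p : ℕ → ℝ) (κ : ℝ) (Z : ℂ → ℂ) : Prop where
  one_lt : 1 < p 0
  mono : Monotone p
  tendsto : Tendsto p atTop atTop
  pos : 0 < κ
  euler : ∀ s : ℂ, 1 < s.re → HasProd (fun j => (1 - (p j : ℂ) ^ (-s))⁻¹) (Z s)
  diff : DifferentiableOn ℂ Z {s : ℂ | 1 / 2 < s.re ∧ s ≠ 1}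
  residue : Tendsto (fun s => (s - 1) * Z s) (𝓝[≠] 1) (𝓝 (κ : ℂ))
  count : ∀ θ : ℝ, 1 / 2 < θ → ∃ A : ℝ, ∀ x : ℝ, 1 ≤ x → |(gN p x : ℝ) - κ * x| ≤ A * x ^ θ
  lindelof : ∀ θ ε : ℝ, 1 / 2 < θ → 0 < ε → ∃ A : ℝ, ∀ σ t : ℝ, θ ≤ σ → 3 ≤ |t| →
    ‖Z (σ + t * I)‖ ≤ A * |t| ^ ε
  density : ∀ θ ε : ℝ, 1 / 2 < θ → 0 < ε → ∃ A : ℝ, ∀ T : ℝ, 3 ≤ T → ∀ S : Finset ℂ,
    (∀ ρ ∈ S, Z ρ = 0 ∧ ρ ≠ 1 ∧ θ ≤ ρ.re ∧ |ρ.im| ≤ T) →
    ∑ ρ ∈ S, (analyticOrderNatAt Z ρ : ℝ) ≤ A * T ^ ε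

/-- the data of the construction -/
structure Dat (ω : ℝ → ℝ) (P : ℕ → Blk) (η u : ℕ → ℝ) : Prop where
  sparse : Sparse P
  par : ∀ n, ParW ω (P n)
  part : IsPart (fP P) η
  sel : IsSel (fP P) η u

theorem exists_dat {ω : ℝ → ℝ} (ht : Tendsto ω atTop atTop)
    (ho : Tendsto (fun t => ω t / Real.log t) atTop (𝓝 0)) :
    ∃ (P : ℕ → Blk) (η u : ℕ → ℝ), Dat ω P η u := by
  obtain ⟨P, hP, hc⟩ := exists_sparseW ht ho
  obtain ⟨η, hη⟩ := exists_part (fP_dens hP)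
  obtain ⟨u, hu⟩ := exists_sel (fP_dens hP) hη
  exact ⟨P, η, u, hP, hc, hη, hu⟩

theorem omega_le {ω : ℝ → ℝ} (hm : MonotoneOn ω (Ici 3))
    (ho : Tendsto (fun t => ω t / Real.log t) atTop (𝓝 0)) {ε : ℝ} (hε : 0 < ε) :
    ∃ C : ℝ, ∀ t : ℝ, 3 ≤ t → ω t ≤ ε * Real.log t + C := by
  have h1 : ∀ᶠ t in atTop, ω t / Real.log t < ε := ho.eventually_lt_const hε
  obtain ⟨X, hX⟩ := (h1.and (eventually_ge_atTop (3 : ℝ))).exists_forall_of_atTop
  have hX3 : 3 ≤ X := (hX X le_rfl).2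
  refine ⟨|ω X|, fun t ht => ?_⟩
  have hlt : 0 < Real.log t := Real.log_pos (by linarith)
  rcases le_total t X with h | h
  · have h2 : ω t ≤ ω X := hm ht hX3 h
    have h3 := le_abs_self (ω X)
    have h4 : 0 < ε * Real.log t := mul_pos hε hlt
    linarith
  · have h2 := (hX t h).1
    rw [div_lt_iff₀ hlt] at h2
    have := abs_nonneg (ω X)
    linarith

theorem exp_cpow (x : ℝ) (s : ℂ) : ((Real.exp x : ℝ) : ℂ) ^ (-s) = Complex.exp (-(s * x)) := by
  have h0 : ((Real.exp x : ℝ) : ℂ) ≠ 0 := by exact_mod_cast (Real.exp_pos _).ne'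
  rw [Complex.cpow_def_of_ne_zero h0, ← Complex.ofReal_log (Real.exp_pos _).le, Real.log_exp]
  congr 1
  ring

variable {P : ℕ → Blk} {η u : ℕ → ℝ} {ω : ℝ → ℝ}

theorem Dat.mono_u (h : Dat ω P η u) : Monotone u :=
  monotone_nat_of_le_succ fun j => (h.sel.le j).trans (h.sel.ge (j + 1))

theorem Dat.bdd (h : Dat ω P η u) : ∃ A : ℝ, ∀ s : ℂ, 2 ≤ s.re → ‖Zt P η u s‖ ≤ A := by
  obtain ⟨C, hC, hQ⟩ := Qs_bound (u_ge h.part h.sel) (u_sum h.part h.sel) (θ := 1) (by norm_num)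
  refine ⟨Real.exp (∑' j, Real.exp (-2 * u j) + C), fun s hs => ?_⟩
  rw [Zt_exp h.sparse h.part h.sel (by linarith), Complex.norm_exp]
  refine Real.exp_le_exp.2 ?_
  refine (Complex.re_le_norm _).trans ((norm_add_le _ _).trans (add_le_add ?_ (hQ s (by linarith))))
  have hsum := u_sum h.part h.sel 2 (by norm_num)
  have h2 : ∀ j, ‖Complex.exp (-(s * u j))‖ ≤ Real.exp (-2 * u j) := fun j => by
    rw [Complex.norm_exp]
    refine Real.exp_le_exp.2 ?_
    have h3 : 0 < u j := lt_of_lt_of_le (Real.log_pos one_lt_two) (u_ge h.part h.sel j)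
    have h4 : (-(s * u j)).re = -(s.re * u j) := by simp
    rw [h4]
    nlinarith
  exact tsum_of_norm_bounded hsum.hasSum h2

theorem Dat.system (h : Dat ω P η u) (hm : MonotoneOn ω (Ici 3))
    (ho : Tendsto (fun t => ω t / Real.log t) atTop (𝓝 0)) :
    ∃ κ : ℝ, IsSystem (fun j => Real.exp (u j)) κ (Zt P η u) := by
  obtain ⟨κ, hκ, hres⟩ := Zt_res h.sparse h.part h.sel
  have hul := u_ge h.part h.sel
  have hus := u_sum h.part h.sel
  have hu0 : ∀ j, 0 < u j := fun j => lt_of_lt_of_le (Real.log_pos one_lt_two) (hul j)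
  have hlin := fun θ ε (hθ : 1 / 2 < θ) (hε : 0 < ε) =>
    Zt_lindelofW hm ho h.sparse h.par h.part h.sel (θ := θ) (ε := ε) hθ hε
  have hcount : ∀ θ : ℝ, 1 / 2 < θ → θ < 1 → ∃ A : ℝ, ∀ x : ℝ, 1 ≤ x →
      |(gN (fun j => Real.exp (u j)) x : ℝ) - κ * x| ≤ A * x ^ θ := by
    intro θ h1 h2
    exact count_asymp (ι := ℕ →₀ ℕ) (a := fun m => m.prod fun j e => Real.exp (u j) ^ e)
      (fun m => gint_ge_one (fun j => (hu0 j).le) m) (fun c hc => gint_summable hul hus hc)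
      (fun s hs => gint_hasSum hul hus hs (Zt_prod h.sparse h.part h.sel hs))
      (Zt_diff h.sparse h.part h.sel) hres hlin h1 h2
  refine ⟨κ, ⟨?_, ?_, ?_, hκ, ?_, Zt_diff h.sparse h.part h.sel, hres, ?_, ?_, ?_⟩⟩
  · exact Real.one_lt_exp_iff.2 (hu0 0)
  · exact fun i j hij => Real.exp_le_exp.2 (h.mono_u hij)
  · exact Real.tendsto_exp_atTop.comp (tendsto_atTop_mono h.sel.ge h.part.tendsto)
  · intro s hs
    have h1 := Zt_prod h.sparse h.part h.sel hs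
    have h2 : (fun j => (1 - ((Real.exp (u j) : ℝ) : ℂ) ^ (-s))⁻¹) =
        fun j => (1 - Complex.exp (-(s * u j)))⁻¹ := by
      funext j
      rw [exp_cpow]
    rw [h2]
    exact h1
  · intro θ hθ
    rcases lt_or_ge θ 1 with h1 | h1
    · exact hcount θ hθ h1
    · obtain ⟨A, hA⟩ := hcount (3 / 4) (by norm_num) (by norm_num)
      refine ⟨A, fun x hx => (hA x hx).trans ?_⟩
      have hA0 : 0 ≤ A := by
        have := (abs_nonneg _).trans (hA 1 le_rfl)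
        simpa using this
      exact mul_le_mul_of_nonneg_left (Real.rpow_le_rpow_of_exponent_le hx (by linarith)) hA0
  · intro θ ε hθ hε
    obtain ⟨A, hA⟩ := hlin θ ε hθ hε
    obtain ⟨A', hA'⟩ := h.bdd
    refine ⟨max A A', fun σ t hσ ht => ?_⟩
    have hp : 1 ≤ |t| ^ ε := Real.one_le_rpow (by linarith) hε.le
    have e1 : ((σ : ℂ) + t * I).re = σ := by simp
    have e2 : ((σ : ℂ) + t * I).im = t := by simp
    rcases le_total σ 2 with h2 | h2
    · have := hA ((σ : ℂ) + t * I) (by rw [e1]; exact hσ) (by rw [e1]; exact h2) (by rw [e2]; exact ht)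
      rw [e2] at this
      exact this.trans (mul_le_mul_of_nonneg_right (le_max_left _ _) (by positivity))
    · have h3 := hA' ((σ : ℂ) + t * I) (by rw [e1]; exact h2)
      have h4 : A' ≤ max A A' := le_max_right _ _
      have h5 : 0 ≤ max A A' := (norm_nonneg _).trans (h3.trans h4)
      nlinarith
  · intro θ ε hθ hε
    obtain ⟨A, hA0, hA⟩ := Zt_count hm h.sparse h.par h.part h.sel hθ
    obtain ⟨C, hC⟩ := omega_le hm ho hε
    refine ⟨A * Real.exp C, fun T hT S hS => (hA T hT S hS).trans ?_⟩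
    have h1 : Real.exp (ω T) ≤ Real.exp C * T ^ ε := by
      rw [Real.rpow_def_of_pos (by linarith), ← Real.exp_add]
      refine Real.exp_le_exp.2 ?_
      have := hC T hT
      linarith
    rw [mul_assoc]
    exact mul_le_mul_of_nonneg_left h1 hA0

end VO
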