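import Pool.Agent.H15.VO.Fin

/-!
# FinA : the theorem for a general growth function, and at the Vinogradov-Korobov scale
-/

set_option autoImplicit false

open Complex MeasureTheory Set Filter Topology

namespace VO

variable {P : ℕ → Blk} {η u : ℕ → ℝ} {ω : ℝ → ℝ}

/-- growth of `Z` for the growth function `ω` -/
def Grows (ω : ℝ → ℝ) (Z : ℂ → ℂ) : Prop :=
  ∀ θ : ℝ, 1 / 2 < θ → ∃ A : ℝ, 0 ≤ A ∧ ∀ σ t : ℝ, θ ≤ σ → σ ≤ 1 → 3 ≤ |t| →
    ‖Z (σ + t * I)‖ ≤ Real.exp (ω |t| * (1 - σ) +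
      A * Real.log |t| ^ (1 - σ) * Real.log (2 + Real.log (Real.log |t|)))

/-- the number of zeros, counted with multiplicity, with real part at least `θ > 1 / 2` and ordinate at most `T` in absolute
value is `O(exp (ω T))` -/
def Sparsely (ω : ℝ → ℝ) (Z : ℂ → ℂ) : Prop :=
  ∀ θ : ℝ, 1 / 2 < θ → ∃ A : ℝ, ∀ T : ℝ, 3 ≤ T → ∀ S : Finset ℂ,
    (∀ ρ ∈ S, Z ρ = 0 ∧ ρ ≠ 1 ∧ θ ≤ ρ.re ∧ |ρ.im| ≤ T) →
    ∑ ρ ∈ S, (analyticOrderNatAt Z ρ : ℝ) ≤ A * Real.exp (ω T)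

theorem Dat.grows (h : Dat ω P η u) (hm : MonotoneOn ω (Ici 3)) : Grows ω (Zt P η u) := by
  intro θ hθ
  obtain ⟨A, hA0, hA⟩ := Zt_growth hm h.sparse h.par h.part h.sel hθ
  refine ⟨A, hA0, fun σ t h1 h2 h3 => ?_⟩
  have e1 : ((σ : ℂ) + t * I).re = σ := by simp
  have e2 : ((σ : ℂ) + t * I).im = t := by simp
  have := hA ((σ : ℂ) + t * I) (by rw [e1]; exact h1) (by rw [e1]; linarith) (by rw [e2]; exact h3)
  rw [e1, e2, max_eq_right (by linarith)] at this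
  exact this

theorem Dat.sparsely (h : Dat ω P η u) (hm : MonotoneOn ω (Ici 3)) : Sparsely ω (Zt P η u) := by
  intro θ hθ
  obtain ⟨A, hA0, hA⟩ := Zt_count hm h.sparse h.par h.part h.sel hθ
  exact ⟨A, hA⟩

theorem Dat.tendsto_g (h : Dat ω P η u) : Tendsto (fun n => (P n).g) atTop atTop := by
  have h1 : Tendsto (fun n : ℕ => 1024 * (2 : ℝ) ^ n) atTop atTop :=
    (tendsto_pow_atTop_atTop_of_one_lt (by norm_num)).const_mul_atTop (by norm_num)
  exact tendsto_atTop_mono (g_ge h.sparse) h1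

theorem Dat.tendsto_R (h : Dat ω P η u) : Tendsto (fun n => (P n).R) atTop atTop :=
  tendsto_atTop_mono (R_ge h.sparse) (tendsto_pow_atTop_atTop_of_one_lt (by norm_num))

/-- zeros and oscillation, for every large block -/
theorem Dat.zeros (h : Dat ω P η u) (X : ℝ) :
    ∃ γ : ℝ, X ≤ γ ∧ 32 < ω (γ / 2) ∧ Zt P η u ((1 - 16 / ω (γ / 2) : ℝ) + γ * I) = 0 ∧
      ∀ c : ℝ, (c = 1 ∨ c = -1) → ∃ x : ℝ, X ≤ x ∧ ω (γ / 2) * Real.log γ / 16 ≤ Real.log x ∧
        Real.log x ≤ ω (γ / 2) * Real.log γ / 16 + 1 ∧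
        x / (2 * γ ^ 2) ≤ c * (gpsi (fun j => Real.exp (u j)) x - x) := by
  obtain ⟨n0, hn0⟩ := Zt_osc h.sparse h.par h.part h.sel
  obtain ⟨n, hn⟩ := ((h.tendsto_g.eventually_ge_atTop X).and ((h.tendsto_g.eventually_ge_atTop 1).and
    ((h.tendsto_R.eventually_ge_atTop (max X 100)).and (eventually_ge_atTop n0)))).exists
  obtain ⟨h1, h2, h3, h4⟩ := hn
  have hp := h.par n
  have hR : (P n).R = ω ((P n).g / 2) / 2 := hp.R
  have hRX : X ≤ (P n).R := (le_max_left _ _).trans h3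
  have hR100 : 100 ≤ (P n).R := (le_max_right _ _).trans h3
  refine ⟨(P n).g, h1, by linarith, ?_, fun c hc => ?_⟩
  · have hz := Zt_zero (η := η) (u := u) h.sparse n (by linarith)
    have e : ((1 - 16 / ω ((P n).g / 2) : ℝ) : ℂ) + (P n).g * I = 1 - (P n).lam + I * (P n).g := by
      have e1 : (P n).lam = 16 / ω ((P n).g / 2) := by
        unfold Blk.lam
        rw [hR]
        have : ω ((P n).g / 2) ≠ 0 := by
          intro h0
          rw [h0] at hR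
          linarith
        field_simp
        norm_num
      rw [← e1]
      push_cast
      ring
    rw [e]
    exact hz
  · obtain ⟨y, hy1, hy2, hy3⟩ := hn0 n h4 c hc
    have hl : 100 ≤ Real.log (P n).g := hp.big
    have e2 : ω ((P n).g / 2) * Real.log (P n).g / 16 = Real.log (P n).g * (P n).R / 8 := by
      rw [hR]; ring
    refine ⟨Real.exp y, ?_, ?_, ?_, ?_⟩
    · have h5 := Real.add_one_le_exp y
      have h6 : (P n).R ≤ Real.log (P n).g * (P n).R / 8 := by nlinarith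
      linarith
    · rw [Real.log_exp, e2]; exact hy1
    · rw [Real.log_exp, e2]; exact hy2
    · refine le_trans (le_of_eq ?_) hy3
      have hg : 0 < (P n).g := by linarith
      have e3 : Real.exp (y - 2 * Real.log (P n).g) = Real.exp y / (P n).g ^ 2 := by
        rw [Real.exp_sub]
        congr 1
        rw [show (2 : ℝ) * Real.log (P n).g = Real.log ((P n).g ^ 2) by rw [Real.log_pow]; norm_num]
        exact Real.exp_log (by positivity)
      rw [e3]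
      field_simp

/-- the theorem for a general growth function -/
theorem partA {ω : ℝ → ℝ} (hm : MonotoneOn ω (Ici 3)) (ht : Tendsto ω atTop atTop)
    (ho : Tendsto (fun t => ω t / Real.log t) atTop (𝓝 0)) :
    ∃ (p : ℕ → ℝ) (κ : ℝ) (Z : ℂ → ℂ), IsSystem p κ Z ∧ Grows ω Z ∧ Sparsely ω Z ∧
      ∀ X : ℝ, ∃ β γ : ℝ, X ≤ γ ∧ 1 / 2 < β ∧ β < 1 ∧ 1 - β = 16 / ω (γ / 2) ∧ Z (β + γ * I) = 0 ∧
        ∀ c : ℝ, (c = 1 ∨ c = -1) → ∃ x : ℝ, X ≤ x ∧ Real.log γ / (1 - β) ≤ Real.log x ∧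
          Real.log x ≤ Real.log γ / (1 - β) + 1 ∧ x / (2 * γ ^ 2) ≤ c * (gpsi p x - x) := by
  obtain ⟨P, η, u, h⟩ := exists_dat ht ho
  obtain ⟨κ, hκ⟩ := h.system hm ho
  refine ⟨_, κ, Zt P η u, hκ, h.grows hm, h.sparsely hm, fun X => ?_⟩
  obtain ⟨γ, h1, h2, h3, h4⟩ := h.zeros X
  have h5 : 16 / ω (γ / 2) < 1 / 2 := by
    rw [div_lt_iff₀ (by linarith)]
    linarith
  have h6 : 0 < 16 / ω (γ / 2) := div_pos (by norm_num) (by linarith)
  have h7 : 1 - (1 - 16 / ω (γ / 2)) = 16 / ω (γ / 2) := by ring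
  refine ⟨1 - 16 / ω (γ / 2), γ, h1, by linarith, by linarith, h7, h3, fun c hc => ?_⟩
  obtain ⟨x, g1, g2, g3, g4⟩ := h4 c hc
  have h8 : Real.log γ / (1 - (1 - 16 / ω (γ / 2))) = ω (γ / 2) * Real.log γ / 16 := by
    rw [h7]
    field_simp
  rw [h8]
  exact ⟨x, g1, g2, g3, g4⟩

/-- the theorem at the Vinogradov-Korobov scale -/
theorem partB {B : ℝ} (hB : 0 < B) :
    ∃ (p : ℕ → ℝ) (κ : ℝ) (Z : ℂ → ℂ), IsSystem p κ Z ∧
      (∀ θ : ℝ, 1 / 2 < θ → ∃ A : ℝ, ∀ σ t : ℝ, θ ≤ σ → σ ≤ 1 → 3 ≤ |t| →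
        ‖Z (σ + t * I)‖ ≤ A * |t| ^ (B * (1 - σ) ^ (3 / 2 : ℝ)) * Real.log |t| ^ (2 / 3 : ℝ)) ∧
      (∀ X : ℝ, ∃ β γ : ℝ, X ≤ γ ∧ 1 / 2 < β ∧ β < 1 ∧ Z (β + γ * I) = 0 ∧
        1 - β ≤ 10 * B ^ (-(2 / 3) : ℝ) /
          (Real.log γ ^ (2 / 3 : ℝ) * Real.log (Real.log γ) ^ (1 / 3 : ℝ))) ∧
      (∀ X c : ℝ, (c = 1 ∨ c = -1) → ∃ x : ℝ, X ≤ x ∧
        x * Real.exp (-(10 * B ^ (-(2 / 5) : ℝ) *
          (Real.log x ^ (3 / 5 : ℝ) / Real.log (Real.log x) ^ (1 / 5 : ℝ)))) ≤ c * (gpsi p x - x)) := by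
  obtain ⟨P, η, u, h⟩ := exists_dat (wV_tendsto hB) (wV_small B)
  have hm := wV_mono hB
  obtain ⟨κ, hκ⟩ := h.system hm (wV_small B)
  refine ⟨_, κ, Zt P η u, hκ, ?_, ?_, ?_⟩
  · intro θ hθ
    obtain ⟨A, hA0, hA⟩ := h.grows hm θ hθ
    obtain ⟨A', hA'⟩ := wV_small_part hB hA0 (a0 := 1 - θ) (by linarith)
    refine ⟨Real.exp A', fun σ t h1 h2 h3 => (hA σ t h1 h2 h3).trans ?_⟩
    have hy := wV_young hB h3 (a := 1 - σ) (by linarith)
    have hs := hA' |t| h3 (1 - σ) (by linarith) (by linarith)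
    have ht0 : 0 < |t| := by linarith
    have hl3 : 1 < Real.log |t| := by
      rw [Real.lt_log_iff_exp_lt ht0]
      have := Real.exp_one_lt_d9
      linarith
    have hL : 0 < Real.log (Real.log |t|) := Real.log_pos hl3
    have e1 : |t| ^ (B * (1 - σ) ^ (3 / 2 : ℝ)) = Real.exp (Real.log |t| * (B * (1 - σ) ^ (3 / 2 : ℝ))) :=
      Real.rpow_def_of_pos ht0 _
    have e2 : Real.log |t| ^ (2 / 3 : ℝ) = Real.exp (Real.log (Real.log |t|) * (2 / 3)) :=
      Real.rpow_def_of_pos (by linarith) _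
    rw [e1, e2, ← Real.exp_add, ← Real.exp_add]
    refine Real.exp_le_exp.2 ?_
    linarith
  · intro X
    obtain ⟨X1, hX1⟩ := wV_zero hB
    obtain ⟨γ, h1, h2, h3, h4⟩ := h.zeros (max X X1)
    have h5 : 16 / wV B (γ / 2) < 1 / 2 := by
      rw [div_lt_iff₀ (by linarith)]
      linarith
    have h6 : 0 < 16 / wV B (γ / 2) := div_pos (by norm_num) (by linarith)
    refine ⟨1 - 16 / wV B (γ / 2), γ, (le_max_left _ _).trans h1, by linarith, by linarith, h3, ?_⟩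
    have := hX1 γ ((le_max_right _ _).trans h1)
    linarith
  · intro X c hc
    obtain ⟨X1, hX1⟩ := wV_psi hB
    obtain ⟨γ, h1, h2, h3, h4⟩ := h.zeros (max (max X X1) 100)
    obtain ⟨x, g1, g2, g3, g4⟩ := h4 c hc
    have hx1 : X ≤ x := (le_max_left _ _).trans ((le_max_left _ _).trans g1)
    have hx0 : 1 ≤ x := by
      have := (le_max_right (max X X1) (100 : ℝ)).trans g1
      linarith
    have hγX : X1 ≤ γ := (le_max_right _ _).trans ((le_max_left _ _).trans h1)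
    have hγ1 : 1 ≤ γ := by
      have := (le_max_right (max X X1) (100 : ℝ)).trans h1
      linarith
    refine ⟨x, hx1, le_trans ?_ g4⟩
    have e1 : Real.log γ * wV B (γ / 2) / 16 = wV B (γ / 2) * Real.log γ / 16 := by ring
    have h5 := hX1 γ hγX (Real.log x) (by rw [e1]; exact g2) (by rw [e1]; exact g3)
    have hxp : 0 < x := by linarith
    have hγp : 0 < γ := by linarith
    have hlx : 0 ≤ Real.log x := Real.log_nonneg hx0
    have hlog1 : 0 ≤ Real.log (Real.log x) := Real.log_nonneg (by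
      have hb : 1 ≤ Real.log γ := by
        have hg3 : (100 : ℝ) ≤ γ := (le_max_right _ _).trans h1
        rw [Real.le_log_iff_exp_le hγp]
        have := Real.exp_one_lt_d9
        linarith
      have h8 : 1 ≤ wV B (γ / 2) * Real.log γ / 16 := by nlinarith
      linarith)
    have e2 : Real.log (Real.log x) ^ (-(1 / 5) : ℝ) = (Real.log (Real.log x) ^ (1 / 5 : ℝ))⁻¹ :=
      Real.rpow_neg hlog1 _
    rw [e2] at h5
    have e3 : x / (2 * γ ^ 2) = x * Real.exp (-(Real.log 2 + 2 * Real.log γ)) := by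
      rw [Real.exp_neg, Real.exp_add, Real.exp_log (by norm_num : (0 : ℝ) < 2), div_eq_mul_inv]
      congr 3
      rw [show (2 : ℝ) * Real.log γ = Real.log (γ ^ 2) by rw [Real.log_pow]; norm_num]
      exact (Real.exp_log (by positivity)).symm
    rw [e3]
    refine mul_le_mul_of_nonneg_left (Real.exp_le_exp.2 ?_) hxp.le
    have h7 : Real.log 2 < 1 := by
      have := Real.log_two_lt_d9
      linarith
    have e4 : 10 * B ^ (-(2 / 5) : ℝ) * (Real.log x ^ (3 / 5 : ℝ) / Real.log (Real.log x) ^ (1 / 5 : ℝ)) =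
        10 * B ^ (-(2 / 5) : ℝ) * Real.log x ^ (3 / 5 : ℝ) * (Real.log (Real.log x) ^ (1 / 5 : ℝ))⁻¹ := by
      rw [div_eq_mul_inv]; ring
    rw [e4]
    linarith

end VO
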