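import Pool.Agent.H15.VO.Dsum
import Pool.Agent.H15.VO.BlkL

/-!
# FprodL : `s / (s - 1) * FF s` is the exponential of the Laplace transform of `dn`

`frullani` with `b = 1`, `z = s - 1`, and `Blk.H_log` for every block; the interchange of sum and integral:
`∫ |m n y| exp (- (σ - 1) y) dy ≤ (2 K n b n + 1 / (100 R n)) / (σ - 1)`, summable by `Sparse.eps0` and `R_ge`
(`hasSum_integral_of_summable_integral_norm`), then `HasSum.cexp`.
-/

set_option autoImplicit false

open Complex MeasureTheory Set Filter Topology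

namespace VO

variable {P : ℕ → Blk}

private theorem m_bd (Q : Blk) {y : ℝ} (hy : 0 < y) : |Q.m y| ≤ 2 * Q.K * Q.b + 1 / (100 * Q.R) := by
  have hR : 0 < Q.R := by linarith [Q.hR]
  have hb := Q.hb
  rcases lt_or_ge y Q.R with h | h
  · have h1 := Q.m_small hy h
    have h2 : 0 ≤ 1 / (100 * Q.R) := by positivity
    linarith
  · have h1 := Q.m_large h
    have h2 : Real.exp (-(y / Q.R)) ≤ 1 := by
      rw [Real.exp_le_one_iff]
      have : 0 ≤ y / Q.R := by positivity
      linarith
    have h3 : y * |Q.m y| ≤ 1 / 100 := by linarith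
    have h4 : Q.R * |Q.m y| ≤ 1 / 100 := (mul_le_mul_of_nonneg_right h (abs_nonneg _)).trans h3
    have h5 : |Q.m y| ≤ 1 / (100 * Q.R) := by
      rw [le_div_iff₀ (by positivity)]
      linarith
    have h6 : 0 ≤ 2 * (Q.K : ℝ) * Q.b := by positivity
    linarith

private theorem c_summable (hP : Sparse P) :
    Summable fun n => 2 * ((P n).K : ℝ) * (P n).b + 1 / (100 * (P n).R) := by
  apply Summable.add
  · refine Summable.of_nonneg_of_le (fun n => ?_) (fun n => hP.eps0 n) ?_
    · have := (P n).hb
      positivity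
    · have h : Summable fun n : ℕ => (1 / 2 : ℝ) ^ n * (1 / 2) ^ 3 :=
        (summable_geometric_of_lt_one (by norm_num) (by norm_num)).mul_right _
      refine h.congr fun n => ?_
      rw [pow_add]
  · have h : Summable fun n : ℕ => (1 / 24 : ℝ) ^ n :=
      summable_geometric_of_lt_one (by norm_num) (by norm_num)
    refine Summable.of_nonneg_of_le (fun n => ?_) (fun n => ?_) h
    · have := (P n).hR
      positivity
    · have h1 := R_ge hP n
      have h2 : (0 : ℝ) < 24 ^ n := by positivity
      rw [one_div_pow]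
      apply one_div_le_one_div_of_le h2
      linarith [(P n).hR]

theorem FF_log (hP : Sparse P) {s : ℂ} (hs : 1 < s.re) :
    IntegrableOn (fun y : ℝ => (dn P y : ℂ) * Complex.exp (-(s - 1) * y)) (Ioi 0) ∧
    s / (s - 1) * FF P s =
      Complex.exp (∫ y in Ioi (0 : ℝ), (dn P y : ℂ) * Complex.exp (-(s - 1) * y)) := by
  set t : ℝ := s.re - 1 with ht
  have ht0 : 0 < t := by rw [ht]; linarith
  have hnorm : ∀ y : ℝ, ‖Complex.exp (-(s - 1) * y)‖ = Real.exp (-t * y) := by
    intro y
    rw [Complex.norm_exp]
    congr 1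
    simp [ht]
  have hexpI : IntegrableOn (fun y : ℝ => Real.exp (-t * y)) (Ioi 0) := exp_neg_integrableOn_Ioi 0 ht0
  -- integrability of the total
  have hI : IntegrableOn (fun y : ℝ => (dn P y : ℂ) * Complex.exp (-(s - 1) * y)) (Ioi 0) := by
    have hm : AEStronglyMeasurable (fun y : ℝ => (dn P y : ℂ) * Complex.exp (-(s - 1) * y))
        (volume.restrict (Ioi 0)) := by
      have h1 : AEStronglyMeasurable (fun y : ℝ => (((if 0 < y then dn P y else 0 : ℝ)) : ℂ) *
          Complex.exp (-(s - 1) * y)) (volume.restrict (Ioi 0)) := by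
        apply AEStronglyMeasurable.mul
        · exact (Complex.measurable_ofReal.comp (dn_meas hP)).aestronglyMeasurable
        · apply Continuous.aestronglyMeasurable
          fun_prop
      refine h1.congr ?_
      filter_upwards [ae_restrict_mem measurableSet_Ioi] with y hy
      rw [if_pos (Set.mem_Ioi.1 hy)]
    refine Integrable.mono' (hexpI.const_mul 3) hm ?_
    filter_upwards [ae_restrict_mem measurableSet_Ioi] with y hy
    rw [norm_mul, hnorm, Complex.norm_real, Real.norm_eq_abs, abs_of_nonneg (dn_nonneg hP hy)]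
    exact mul_le_mul_of_nonneg_right (dn_le hP hy) (Real.exp_pos _).le
  refine ⟨hI, ?_⟩
  -- the Frullani part
  obtain ⟨hF1, hF2⟩ := frullani (z := s - 1) (by simp; linarith) (b := 1) zero_le_one
  -- the blocks
  set F : ℕ → ℝ → ℂ := fun n y => ((P n).m y : ℂ) * Complex.exp (-(s - 1) * y) with hFdef
  have hFi : ∀ n, Integrable (F n) (volume.restrict (Ioi 0)) := fun n => ((P n).H_log hs).1
  have hFs : Summable fun n => ∫ y in Ioi (0 : ℝ), ‖F n y‖ := by
    refine Summable.of_nonneg_of_le (fun n => integral_nonneg fun y => norm_nonneg _) (fun n => ?_)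
      ((c_summable hP).mul_right (∫ y in Ioi (0 : ℝ), Real.exp (-t * y)))
    rw [← integral_const_mul]
    refine setIntegral_mono_on (hFi n).norm (hexpI.const_mul _) measurableSet_Ioi fun y hy => ?_
    simp only [hFdef]
    rw [norm_mul, hnorm, Complex.norm_real, Real.norm_eq_abs]
    exact mul_le_mul_of_nonneg_right (m_bd (P n) hy) (Real.exp_pos _).le
  have hS := hasSum_integral_of_summable_integral_norm hFi hFs
  have hprod := hS.cexp
  have hFF : FF P s = Complex.exp (∫ y in Ioi (0 : ℝ), ∑' n, F n y) := by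
    unfold FF
    rw [← hprod.tprod_eq]
    apply tprod_congr
    intro n
    exact ((P n).H_log hs).2
  -- the sum
  have hsum : ∀ y ∈ Ioi (0 : ℝ), (dn P y : ℂ) * Complex.exp (-(s - 1) * y) =
      (((1 - Real.exp (-1 * y)) / y : ℝ) : ℂ) * Complex.exp (-(s - 1) * y) + ∑' n, F n y := by
    intro y hy
    simp only [hFdef]
    rw [tsum_mul_right, ← Complex.ofReal_tsum, ← add_mul]
    unfold dn
    push_cast
    ring_nf
  have hInt2 : IntegrableOn (fun y : ℝ => ∑' n, F n y) (Ioi 0) := by
    have h1 := hI.sub hF1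
    refine h1.congr ?_
    filter_upwards [ae_restrict_mem measurableSet_Ioi] with y hy
    simp only [Pi.sub_apply]
    rw [hsum y hy]
    ring
  rw [setIntegral_congr_fun measurableSet_Ioi hsum, integral_add hF1 hInt2, Complex.exp_add, ← hF2, ← hFF]
  congr 1
  push_cast
  ring

end VO
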