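import Mathlib

/-!
# Theta : the heat kernel of the circle at the point `π` is positive, and its partial sums

`1 + ∑ 2 (-1)^k exp (- a k²) cos (k θ) = ∑_{n ∈ ℤ} exp (- a n²) exp (i n (θ + π)) ≥ 0` by Poisson summation
(`Complex.tsum_exp_neg_quadratic` or `Real.tsum_exp_neg_mul_int_sq` and relatives); the tail is at most
`2 ∑_{k > K} exp (- a K k) ≤ 2 exp (- a K²) / (a K)`.
-/

set_option autoImplicit false

open Complex MeasureTheory Set Filter Topology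

namespace VO

private noncomputable def ff (a θ : ℝ) (n : ℤ) : ℂ :=
  cexp (-Real.pi * (a / Real.pi : ℝ) * n ^ 2 + 2 * Real.pi * (I * (θ / (2 * Real.pi) + 1 / 2 : ℝ)) * n)

private theorem ff_eq (a θ : ℝ) (n : ℤ) :
    ff a θ n = jacobiTheta₂_term n ((θ / (2 * Real.pi) + 1 / 2 : ℝ) : ℂ) (I * (a / Real.pi : ℝ)) := by
  unfold ff jacobiTheta₂_term
  congr 1
  have h : (Real.pi : ℂ) * I * (n : ℂ) ^ 2 * (I * ((a / Real.pi : ℝ) : ℂ)) =
      (I * I) * ((Real.pi : ℂ) * (n : ℂ) ^ 2 * ((a / Real.pi : ℝ) : ℂ)) := by ring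
  rw [h, I_mul_I]
  ring

private theorem ff_sum {a : ℝ} (ha : 0 < a) (θ : ℝ) : Summable (ff a θ) := by
  have h : ff a θ = fun n => jacobiTheta₂_term n ((θ / (2 * Real.pi) + 1 / 2 : ℝ) : ℂ) (I * (a / Real.pi : ℝ)) :=
    funext (ff_eq a θ)
  rw [h]
  refine (summable_jacobiTheta₂_term_iff _ _).2 ?_
  rw [Complex.mul_im, Complex.I_re, Complex.I_im, Complex.ofReal_re, Complex.ofReal_im]
  have := Real.pi_pos
  simp only [zero_mul, one_mul, zero_add]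
  positivity

private theorem ff_pos {a : ℝ} (ha : 0 < a) (θ : ℝ) : ∃ s : ℝ, 0 ≤ s ∧ ∑' n, ff a θ n = (s : ℂ) := by
  have hpi := Real.pi_pos
  have h0 : 0 < ((a / Real.pi : ℝ) : ℂ).re := by
    rw [Complex.ofReal_re]
    positivity
  have h := Complex.tsum_exp_neg_quadratic h0 (I * (θ / (2 * Real.pi) + 1 / 2 : ℝ))
  have h1 : ∀ n : ℤ, cexp (-Real.pi / ((a / Real.pi : ℝ) : ℂ) * ((n : ℂ) + I * (I * ((θ / (2 * Real.pi) + 1 / 2 : ℝ) : ℂ))) ^ 2) =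
      ((Real.exp (-Real.pi / (a / Real.pi) * ((n : ℝ) - (θ / (2 * Real.pi) + 1 / 2)) ^ 2) : ℝ) : ℂ) := by
    intro n
    rw [Complex.ofReal_exp]
    congr 1
    have h2 : (n : ℂ) + I * (I * ((θ / (2 * Real.pi) + 1 / 2 : ℝ) : ℂ)) =
        (((n : ℝ) - (θ / (2 * Real.pi) + 1 / 2) : ℝ) : ℂ) := by
      rw [← mul_assoc, I_mul_I]
      push_cast
      ring
    rw [h2]
    push_cast
    ring
  simp only [h1] at h
  rw [← Complex.ofReal_tsum] at h
  have h3 : ((a / Real.pi : ℝ) : ℂ) ^ (1 / 2 : ℂ) = (((a / Real.pi : ℝ) ^ (1 / 2 : ℝ) : ℝ) : ℂ) := by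
    rw [Complex.ofReal_cpow (by positivity)]
    push_cast
    rfl
  rw [h3] at h
  refine ⟨1 / (a / Real.pi) ^ (1 / 2 : ℝ) *
    ∑' n : ℤ, Real.exp (-Real.pi / (a / Real.pi) * ((n : ℝ) - (θ / (2 * Real.pi) + 1 / 2)) ^ 2), ?_, ?_⟩
  · refine mul_nonneg (by positivity) (tsum_nonneg fun n => (Real.exp_pos _).le)
  · have h4 : ∑' n, ff a θ n = _ := h
    rw [h4]
    push_cast
    rfl

private noncomputable def gg (a θ : ℝ) (k : ℕ) : ℝ := 2 * (-1 : ℝ) ^ k * Real.exp (-a * (k : ℝ) ^ 2) * Real.cos (k * θ)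

private theorem ff_add (a θ : ℝ) (k : ℕ) : ff a θ k + ff a θ (-k) = (gg a θ k : ℂ) := by
  have hpi : (Real.pi : ℂ) ≠ 0 := by exact_mod_cast Real.pi_ne_zero
  have h1 : ff a θ k = cexp (-a * (k : ℂ) ^ 2) * (-1) ^ k * cexp ((k * θ : ℂ) * I) := by
    unfold ff
    have e : -(Real.pi : ℂ) * ((a / Real.pi : ℝ) : ℂ) * (((k : ℤ) : ℂ)) ^ 2 +
        2 * Real.pi * (I * ((θ / (2 * Real.pi) + 1 / 2 : ℝ) : ℂ)) * ((k : ℤ) : ℂ) =
        -a * (k : ℂ) ^ 2 + (k : ℂ) * (Real.pi * I) + (k * θ : ℂ) * I := by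
      push_cast
      field_simp
      ring
    rw [e, Complex.exp_add, Complex.exp_add, Complex.exp_nat_mul, Complex.exp_pi_mul_I]
  have h2 : ff a θ (-k) = cexp (-a * (k : ℂ) ^ 2) * (-1) ^ k * cexp (-(k * θ : ℂ) * I) := by
    unfold ff
    have e : -(Real.pi : ℂ) * ((a / Real.pi : ℝ) : ℂ) * (((-k : ℤ) : ℂ)) ^ 2 +
        2 * Real.pi * (I * ((θ / (2 * Real.pi) + 1 / 2 : ℝ) : ℂ)) * ((-k : ℤ) : ℂ) =
        -a * (k : ℂ) ^ 2 + (k : ℂ) * (-(Real.pi * I)) + (-(k * θ : ℂ)) * I := by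
      push_cast
      field_simp
      ring
    have e2 : cexp (-(Real.pi * I)) = -1 := by
      rw [Complex.exp_neg, Complex.exp_pi_mul_I]
      norm_num
    rw [e, Complex.exp_add, Complex.exp_add, Complex.exp_nat_mul, e2]
  have h3 : (gg a θ k : ℂ) = cexp (-a * (k : ℂ) ^ 2) * (-1) ^ k * (2 * Complex.cos (k * θ)) := by
    unfold gg
    push_cast
    ring
  rw [h1, h2, h3, Complex.two_cos, mul_add]

private theorem gg_tail {a : ℝ} (ha : 0 < a) (θ : ℝ) {K : ℕ} (hK : 1 ≤ K) :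
    ∑' i, gg a θ (i + (K + 1)) ≤ 2 * Real.exp (-a * (K : ℝ) ^ 2) / (a * K) := by
  have hK0 : (0 : ℝ) < K := by exact_mod_cast hK
  have haK : 0 < a * K := mul_pos ha hK0
  set r : ℝ := Real.exp (-(a * K)) with hr
  have hr0 : 0 < r := Real.exp_pos _
  have hr1 : r < 1 := by
    rw [hr]
    exact Real.exp_lt_one_iff.2 (by linarith)
  have hgeo : HasSum (fun i : ℕ => 2 * Real.exp (-a * (K : ℝ) ^ 2) * r * r ^ i)
      (2 * Real.exp (-a * (K : ℝ) ^ 2) * r * (1 - r)⁻¹) :=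
    (hasSum_geometric_of_lt_one hr0.le hr1).mul_left _
  have hb : ∀ i : ℕ, |gg a θ (i + (K + 1))| ≤ 2 * Real.exp (-a * (K : ℝ) ^ 2) * r * r ^ i := by
    intro i
    unfold gg
    have e1 : |(-1 : ℝ) ^ (i + (K + 1))| = 1 := by rw [abs_pow, abs_neg, abs_one, one_pow]
    rw [abs_mul, abs_mul, abs_mul, e1, mul_one, abs_of_pos (Real.exp_pos _), abs_of_pos (two_pos : (0 : ℝ) < 2)]
    have h1 : Real.exp (-a * ((i + (K + 1) : ℕ) : ℝ) ^ 2) ≤ Real.exp (-a * (K : ℝ) ^ 2) * r * r ^ i := by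
      rw [hr, ← Real.exp_nat_mul, ← Real.exp_add, ← Real.exp_add]
      refine Real.exp_le_exp.2 ?_
      push_cast
      have h2 : (K : ℝ) ^ 2 + K * ((i : ℝ) + 1) ≤ ((i : ℝ) + (K + 1)) ^ 2 := by
        have : (0 : ℝ) ≤ i := Nat.cast_nonneg i
        nlinarith
      nlinarith
    calc 2 * Real.exp (-a * ((i + (K + 1) : ℕ) : ℝ) ^ 2) * |Real.cos (((i + (K + 1) : ℕ) : ℝ) * θ)|
        ≤ 2 * Real.exp (-a * ((i + (K + 1) : ℕ) : ℝ) ^ 2) * 1 :=
          mul_le_mul_of_nonneg_left (Real.abs_cos_le_one _) (by positivity)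
      _ ≤ 2 * (Real.exp (-a * (K : ℝ) ^ 2) * r * r ^ i) * 1 := by
          refine mul_le_mul_of_nonneg_right (mul_le_mul_of_nonneg_left h1 (by norm_num)) (by norm_num)
      _ = 2 * Real.exp (-a * (K : ℝ) ^ 2) * r * r ^ i := by ring
  have hs : Summable fun i => gg a θ (i + (K + 1)) :=
    Summable.of_norm_bounded hgeo.summable fun i => by
      rw [Real.norm_eq_abs]
      exact hb i
  have h1 : ∑' i, gg a θ (i + (K + 1)) ≤ 2 * Real.exp (-a * (K : ℝ) ^ 2) * r * (1 - r)⁻¹ := by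
    rw [← hgeo.tsum_eq]
    exact hs.tsum_le_tsum (fun i => (le_abs_self _).trans (hb i)) hgeo.summable
  refine h1.trans ?_
  have h2 : a * K * r ≤ 1 - r := by
    have h3 : a * K + 1 ≤ Real.exp (a * K) := Real.add_one_le_exp _
    have h4 : Real.exp (a * K) * r = 1 := by
      rw [hr, ← Real.exp_add, add_neg_cancel, Real.exp_zero]
    have h5 : (a * K + 1) * r ≤ Real.exp (a * K) * r := mul_le_mul_of_nonneg_right h3 hr0.le
    rw [h4] at h5
    linarith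
  have h6 : 0 < 1 - r := by linarith
  have h7 : r * (1 - r)⁻¹ ≤ 1 / (a * K) := by
    rw [← div_eq_mul_inv, div_le_div_iff₀ h6 haK]
    linarith
  calc 2 * Real.exp (-a * (K : ℝ) ^ 2) * r * (1 - r)⁻¹ = 2 * Real.exp (-a * (K : ℝ) ^ 2) * (r * (1 - r)⁻¹) := by ring
    _ ≤ 2 * Real.exp (-a * (K : ℝ) ^ 2) * (1 / (a * K)) := mul_le_mul_of_nonneg_left h7 (by positivity)
    _ = 2 * Real.exp (-a * (K : ℝ) ^ 2) / (a * K) := by ring

theorem theta_lower {a : ℝ} (ha : 0 < a) (θ : ℝ) {K : ℕ} (hK : 1 ≤ K) :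
    -(2 * Real.exp (-a * (K : ℝ) ^ 2) / (a * K)) ≤
      1 + ∑ k ∈ Finset.Icc 1 K, 2 * (-1 : ℝ) ^ k * Real.exp (-a * (k : ℝ) ^ 2) * Real.cos (k * θ) := by
  obtain ⟨s, hs0, hs⟩ := ff_pos ha θ
  have h0 : ff a θ 0 = 1 := by
    unfold ff
    simp
  have h1 := (ff_sum ha θ).hasSum.nat_add_neg
  rw [hs, h0] at h1
  have h2 : HasSum (fun k : ℕ => (gg a θ k : ℂ)) ((s + 1 : ℝ) : ℂ) := by
    have h3 : (fun k : ℕ => (gg a θ k : ℂ)) = fun n : ℕ => ff a θ n + ff a θ (-n) :=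
      funext fun k => (ff_add a θ k).symm
    rw [h3]
    push_cast
    exact h1
  have h3 : HasSum (gg a θ) (s + 1) := Complex.hasSum_ofReal.1 h2
  have h4 := h3.summable.sum_add_tsum_nat_add (K + 1)
  rw [h3.tsum_eq] at h4
  have h5 : ∑ k ∈ Finset.range (K + 1), gg a θ k = 2 + ∑ k ∈ Finset.Icc 1 K, gg a θ k := by
    have h6 : Finset.range (K + 1) = insert 0 (Finset.Icc 1 K) := by
      ext k
      simp only [Finset.mem_range, Finset.mem_insert, Finset.mem_Icc]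
      omega
    rw [h6, Finset.sum_insert (by simp)]
    congr 1
    unfold gg
    simp
  rw [h5] at h4
  have h6 := gg_tail ha θ hK
  have h7 : 1 + ∑ k ∈ Finset.Icc 1 K, 2 * (-1 : ℝ) ^ k * Real.exp (-a * (k : ℝ) ^ 2) * Real.cos (k * θ) =
      1 + ∑ k ∈ Finset.Icc 1 K, gg a θ k := rfl
  rw [h7]
  linarith

end VO
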