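import Pool.Agent.H15.VO.Ren
import Pool.Agent.H15.VO.Theta

/-!
# Mb : bounds for the density `m` of a block

For `0 < y < R` the terms with `r1` vanish, `y * ck k y = (-1)^k (1 - exp (- b y))`.
-/

set_option autoImplicit false

open Complex MeasureTheory Set Filter Topology

namespace VO

namespace Blk

variable (P : Blk)

private theorem ck_small (k : ℕ) {y : ℝ} (hyR : y < P.R) :
    P.ck k y = (-1) ^ k * ((1 - Real.exp (-P.b * y)) / y) := by
  have hR : 0 < P.R := by linarith [P.hR]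
  have h1 : r1 (y / P.R) = 0 := r1_eq_zero (by rw [div_lt_one hR]; exact hyR)
  unfold ck
  by_cases hk : Even k
  · rw [if_pos hk, h1, hk.neg_one_pow]; ring
  · rw [if_neg hk, h1, (Nat.not_even_iff_odd.mp hk).neg_one_pow]; ring

private theorem q_bd {y : ℝ} (hy : 0 < y) :
    0 ≤ (1 - Real.exp (-P.b * y)) / y ∧ (1 - Real.exp (-P.b * y)) / y ≤ P.b := by
  have h1 := Real.add_one_le_exp (-P.b * y)
  have h2 : Real.exp (-P.b * y) ≤ 1 := by
    rw [Real.exp_le_one_iff]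
    have := mul_pos P.hb hy
    linarith
  refine ⟨div_nonneg (by linarith) hy.le, ?_⟩
  rw [div_le_iff₀ hy]
  linarith

theorem m_small {y : ℝ} (hy : 0 < y) (hyR : y < P.R) : |P.m y| ≤ 2 * P.K * P.b := by
  obtain ⟨hq0, hq1⟩ := P.q_bd hy
  unfold m
  have hterm : ∀ k ∈ Finset.Icc 1 P.K,
      |2 * Real.cos (k * P.g * y) * Real.exp (-P.lam * (k : ℝ) ^ 2 * y) * P.ck k y| ≤ 2 * P.b := by
    intro k _
    rw [P.ck_small k hyR]
    have hR : 0 < P.R := by linarith [P.hR]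
    have hlam : 0 ≤ P.lam := by unfold lam; positivity
    have h1 : Real.exp (-P.lam * (k : ℝ) ^ 2 * y) ≤ 1 := by
      rw [Real.exp_le_one_iff]
      have : 0 ≤ P.lam * (k : ℝ) ^ 2 * y := by positivity
      linarith
    have h2 := Real.abs_cos_le_one (k * P.g * y)
    rw [abs_mul, abs_mul, abs_mul, abs_mul, abs_pow, abs_neg, abs_one, one_pow, one_mul,
      abs_of_nonneg hq0, abs_of_pos (Real.exp_pos _), abs_of_pos (by norm_num : (0 : ℝ) < 2)]
    calc 2 * |Real.cos (k * P.g * y)| * Real.exp (-P.lam * (k : ℝ) ^ 2 * y) *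
          ((1 - Real.exp (-P.b * y)) / y) ≤ 2 * 1 * 1 * P.b := by
          gcongr
      _ = 2 * P.b := by ring
  calc |∑ k ∈ Finset.Icc 1 P.K, 2 * Real.cos (k * P.g * y) * Real.exp (-P.lam * (k : ℝ) ^ 2 * y) *
        P.ck k y| ≤ ∑ k ∈ Finset.Icc 1 P.K,
        |2 * Real.cos (k * P.g * y) * Real.exp (-P.lam * (k : ℝ) ^ 2 * y) * P.ck k y| :=
        Finset.abs_sum_le_sum_abs _ _
    _ ≤ ∑ k ∈ Finset.Icc 1 P.K, 2 * P.b := Finset.sum_le_sum hterm
    _ = 2 * P.K * P.b := by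
        rw [Finset.sum_const, Nat.card_Icc, nsmul_eq_mul]
        simp
        ring

/-- `theta_lower` with `a = lam y`; `2 (1 - exp (-b y)) / (lam K y) ≤ 2 b / (lam K) ≤ 1 / 8` and `b ≤ lam K²` -/
theorem m_lower {y : ℝ} (hy : 0 < y) (hyR : y < P.R) :
    -(1 - Real.exp (-P.b * y)) - 1 / 8 * Real.exp (-P.b * y) ≤ y * P.m y := by
  obtain ⟨hq0, hq1⟩ := P.q_bd hy
  have hR : 0 < P.R := by linarith [P.hR]
  have hb := P.hb
  have hlam : 0 < P.lam := by unfold lam; positivity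
  have hKr : 2 * P.b * P.R ≤ (P.K : ℝ) := P.hK
  have hK0 : 2 ≤ (P.K : ℝ) := by nlinarith [P.hbR]
  have hK1 : 1 ≤ P.K := by
    have : (1 : ℝ) ≤ (P.K : ℝ) := by linarith
    exact_mod_cast this
  have hth := theta_lower (mul_pos hlam hy) (P.g * y) hK1
  have e1 : y * P.m y = (1 - Real.exp (-P.b * y)) * ∑ k ∈ Finset.Icc 1 P.K,
      2 * (-1 : ℝ) ^ k * Real.exp (-(P.lam * y) * (k : ℝ) ^ 2) * Real.cos (k * (P.g * y)) := by
    unfold m
    rw [Finset.mul_sum, Finset.mul_sum]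
    apply Finset.sum_congr rfl
    intro k _
    rw [P.ck_small k hyR]
    have a1 : -P.lam * (k : ℝ) ^ 2 * y = -(P.lam * y) * (k : ℝ) ^ 2 := by ring
    have a2 : (k : ℝ) * P.g * y = k * (P.g * y) := by ring
    rw [a1, a2]
    field_simp
  have hw0 : 0 ≤ 1 - Real.exp (-P.b * y) := by
    have := mul_nonneg hq0 hy.le
    rwa [div_mul_cancel₀ _ hy.ne'] at this
  have hw1 : 1 - Real.exp (-P.b * y) ≤ P.b * y := by
    have := Real.add_one_le_exp (-P.b * y)
    linarith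
  have hK2 : 0 < (P.K : ℝ) := by linarith
  have e2 : (1 - Real.exp (-P.b * y)) * (2 * Real.exp (-(P.lam * y) * (P.K : ℝ) ^ 2) /
      (P.lam * y * P.K)) ≤ 1 / 8 * Real.exp (-P.b * y) := by
    have hE : Real.exp (-(P.lam * y) * (P.K : ℝ) ^ 2) ≤ Real.exp (-P.b * y) := by
      rw [Real.exp_le_exp]
      have : P.b ≤ P.lam * (P.K : ℝ) ^ 2 := by
        unfold lam
        rw [div_mul_eq_mul_div, le_div_iff₀ hR]
        nlinarith [P.hbR, mul_pos hb hR, mul_pos hK2 hK2]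
      nlinarith
    have hc : (1 - Real.exp (-P.b * y)) * 2 / (P.lam * y * P.K) ≤ 1 / 8 := by
      rw [div_le_iff₀ (by positivity)]
      have : P.b * 2 ≤ 1 / 8 * (P.lam * P.K) := by
        have hl : P.lam * P.K = 8 * P.K / P.R := by unfold lam; ring
        rw [hl, mul_div_assoc', le_div_iff₀ hR]
        linarith
      nlinarith
    calc (1 - Real.exp (-P.b * y)) * (2 * Real.exp (-(P.lam * y) * (P.K : ℝ) ^ 2) /
        (P.lam * y * P.K)) = ((1 - Real.exp (-P.b * y)) * 2 / (P.lam * y * P.K)) *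
        Real.exp (-(P.lam * y) * (P.K : ℝ) ^ 2) := by ring
      _ ≤ 1 / 8 * Real.exp (-P.b * y) :=
        mul_le_mul hc hE (Real.exp_pos _).le (by norm_num)
  rw [e1]
  nlinarith [mul_le_mul_of_nonneg_left hth hw0]

private theorem geo_sum (K : ℕ) : ∑ k ∈ Finset.Icc 1 K, (1 / 2 : ℝ) ^ (k - 1) = 2 - 2 * (1 / 2) ^ K := by
  induction K with
  | zero => simp
  | succ n ih =>
    rw [Finset.sum_Icc_succ_top (by omega), ih, Nat.add_sub_cancel, pow_succ]
    ring

/-- with `v = y / R ≥ 1`: `y |m y| ≤ 2 (1 + v²) ∑ exp (- 8 k² v)` (`r1_le`) -/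
theorem m_large {y : ℝ} (hyR : P.R ≤ y) : y * |P.m y| ≤ 1 / 100 * Real.exp (-(y / P.R)) := by
  have hR : 0 < P.R := by linarith [P.hR]
  have hy : 0 < y := by linarith
  have hb := P.hb
  obtain ⟨hq0, hq1⟩ := P.q_bd hy
  have hv1 : 1 ≤ y / P.R := by rwa [one_le_div hR]
  have hyv : y = (y / P.R) * P.R := by field_simp
  have hlv : P.lam * y = 8 * (y / P.R) := by
    unfold lam
    ring
  generalize hv : y / P.R = v at hv1 hyv hlv
  have hE1 : Real.exp (-P.b * y) ≤ 1 := by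
    rw [Real.exp_le_one_iff]
    have := mul_pos hb hy
    linarith
  have hE0 := Real.exp_pos (-P.b * y)
  have hr0 : 0 ≤ r1 v := r1_nonneg v
  have hr1 : r1 v ≤ v := r1_le (by linarith)
  have hyr : y * (r1 v / P.R) = v * r1 v := by
    rw [hyv]
    field_simp
  have hyq : y * ((1 - Real.exp (-P.b * y)) / y) = 1 - Real.exp (-P.b * y) := by field_simp
  have hvr : v * r1 v ≤ v ^ 2 := by nlinarith
  have hvr0 : 0 ≤ v * r1 v := by positivity
  have hck : ∀ k : ℕ, |y * P.ck k y| ≤ 1 + v ^ 2 := by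
    intro k
    unfold ck
    rw [hv]
    by_cases hk : Even k
    · rw [if_pos hk, mul_sub, hyq, hyr, abs_le]
      constructor <;> linarith
    · rw [if_neg hk]
      have e : y * (-((1 - Real.exp (-P.b * y)) / y) - Real.exp (-P.b * y) * (r1 v / P.R)) =
          -(y * ((1 - Real.exp (-P.b * y)) / y)) - Real.exp (-P.b * y) * (y * (r1 v / P.R)) := by
        ring
      rw [e, hyq, hyr, abs_le]
      have h1 : Real.exp (-P.b * y) * (v * r1 v) ≤ 1 * (v * r1 v) :=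
        mul_le_mul_of_nonneg_right hE1 hvr0
      have h2 : 0 ≤ Real.exp (-P.b * y) * (v * r1 v) := by positivity
      constructor <;> linarith
  have hterm : ∀ k ∈ Finset.Icc 1 P.K,
      |y * (2 * Real.cos (k * P.g * y) * Real.exp (-P.lam * (k : ℝ) ^ 2 * y) * P.ck k y)| ≤
      2 * (1 + v ^ 2) * Real.exp (-8 * v) * (1 / 2) ^ (k - 1) := by
    intro k hk
    rw [Finset.mem_Icc] at hk
    have h1 : Real.exp (-P.lam * (k : ℝ) ^ 2 * y) ≤ Real.exp (-8 * v) * (1 / 2) ^ (k - 1) := by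
      have e1 : -P.lam * (k : ℝ) ^ 2 * y = -(P.lam * y) * (k : ℝ) ^ 2 := by ring
      rw [e1, hlv]
      have hk1 : (1 : ℝ) ≤ k := by exact_mod_cast hk.1
      have h3 : (1 / 2 : ℝ) ^ (k - 1) ≥ Real.exp (-((k : ℝ) - 1)) := by
        have h4 : Real.exp (-((k : ℝ) - 1)) = Real.exp (-1) ^ (k - 1) := by
          rw [← Real.exp_nat_mul, Nat.cast_sub hk.1]
          congr 1
          push_cast
          ring
        rw [h4]
        apply pow_le_pow_left₀ (Real.exp_pos _).le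
        have := Real.exp_neg_one_lt_d9
        linarith
      calc Real.exp (-(8 * v) * (k : ℝ) ^ 2) ≤ Real.exp (-8 * v + -((k : ℝ) - 1)) := by
            rw [Real.exp_le_exp]
            nlinarith [mul_nonneg (by linarith : (0 : ℝ) ≤ v - 1) (by nlinarith : (0 : ℝ) ≤ (k : ℝ) ^ 2 - 1)]
        _ = Real.exp (-8 * v) * Real.exp (-((k : ℝ) - 1)) := Real.exp_add _ _
        _ ≤ Real.exp (-8 * v) * (1 / 2) ^ (k - 1) := by
            gcongr
    have h2 := Real.abs_cos_le_one (k * P.g * y)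
    have e2 : y * (2 * Real.cos (k * P.g * y) * Real.exp (-P.lam * (k : ℝ) ^ 2 * y) * P.ck k y) =
        2 * Real.cos (k * P.g * y) * Real.exp (-P.lam * (k : ℝ) ^ 2 * y) * (y * P.ck k y) := by ring
    rw [e2, abs_mul, abs_mul, abs_mul, abs_of_pos (Real.exp_pos _),
      abs_of_pos (by norm_num : (0 : ℝ) < 2)]
    calc 2 * |Real.cos (k * P.g * y)| * Real.exp (-P.lam * (k : ℝ) ^ 2 * y) * |y * P.ck k y|
        ≤ 2 * 1 * (Real.exp (-8 * v) * (1 / 2) ^ (k - 1)) * (1 + v ^ 2) := by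
          gcongr
          exact hck k
      _ = 2 * (1 + v ^ 2) * Real.exp (-8 * v) * (1 / 2) ^ (k - 1) := by ring
  have hsum : y * |P.m y| ≤ 2 * (1 + v ^ 2) * Real.exp (-8 * v) * 2 := by
    have e3 : y * |P.m y| = |y * P.m y| := by rw [abs_mul, abs_of_pos hy]
    rw [e3]
    unfold m
    rw [Finset.mul_sum]
    calc |∑ k ∈ Finset.Icc 1 P.K, y * (2 * Real.cos (k * P.g * y) *
          Real.exp (-P.lam * (k : ℝ) ^ 2 * y) * P.ck k y)| ≤ ∑ k ∈ Finset.Icc 1 P.K,
          |y * (2 * Real.cos (k * P.g * y) * Real.exp (-P.lam * (k : ℝ) ^ 2 * y) * P.ck k y)| :=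
          Finset.abs_sum_le_sum_abs _ _
      _ ≤ ∑ k ∈ Finset.Icc 1 P.K, 2 * (1 + v ^ 2) * Real.exp (-8 * v) * (1 / 2) ^ (k - 1) :=
          Finset.sum_le_sum hterm
      _ = 2 * (1 + v ^ 2) * Real.exp (-8 * v) * (2 - 2 * (1 / 2) ^ P.K) := by
          rw [← Finset.mul_sum, geo_sum]
      _ ≤ 2 * (1 + v ^ 2) * Real.exp (-8 * v) * 2 := by
          have : (0 : ℝ) ≤ 2 * (1 / 2) ^ P.K := by positivity
          have h5 : 0 ≤ 2 * (1 + v ^ 2) * Real.exp (-8 * v) := by positivity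
          exact mul_le_mul_of_nonneg_left (by linarith) h5
  have hvexp : v ≤ Real.exp (v - 1) := by
    have := Real.add_one_le_exp (v - 1)
    linarith
  have hv2 : 1 + v ^ 2 ≤ 2 * (Real.exp (v - 1)) ^ 2 := by
    have h6 : v ^ 2 ≤ (Real.exp (v - 1)) ^ 2 := pow_le_pow_left₀ (by linarith) hvexp 2
    nlinarith
  have h7 : Real.exp (v - 1) ^ 2 * Real.exp (-8 * v) = Real.exp (-v) * Real.exp (-5 * (v - 1)) *
      Real.exp (-7) := by
    rw [← Real.exp_nat_mul, ← Real.exp_add, ← Real.exp_add, ← Real.exp_add]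
    congr 1
    push_cast
    ring
  have h8 : Real.exp (-5 * (v - 1)) ≤ 1 := by
    rw [Real.exp_le_one_iff]
    linarith
  have h9 : Real.exp (-7) ≤ 1 / 800 := by
    have h10 : Real.exp (-7) = Real.exp (-1) ^ 7 := by
      rw [← Real.exp_nat_mul]
      congr 1
      norm_num
    rw [h10]
    have h11 := Real.exp_neg_one_lt_d9
    have h12 : Real.exp (-1) ≤ 0.368 := by linarith
    calc Real.exp (-1) ^ 7 ≤ (0.368 : ℝ) ^ 7 := pow_le_pow_left₀ (Real.exp_pos _).le h12 7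
      _ ≤ 1 / 800 := by norm_num
  calc y * |P.m y| ≤ 2 * (1 + v ^ 2) * Real.exp (-8 * v) * 2 := hsum
    _ ≤ 2 * (2 * (Real.exp (v - 1)) ^ 2) * Real.exp (-8 * v) * 2 := by gcongr
    _ = 8 * (Real.exp (v - 1) ^ 2 * Real.exp (-8 * v)) := by ring
    _ = 8 * (Real.exp (-v) * Real.exp (-5 * (v - 1)) * Real.exp (-7)) := by rw [h7]
    _ ≤ 8 * (Real.exp (-v) * 1 * (1 / 800)) := by gcongr
    _ = 1 / 100 * Real.exp (-v) := by ring

end Blk

end VO
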