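import Pool.Agent.H15.VO.Defs

/-!
# NrmB : the Chebyshev function after a change of finitely many generalized primes

`p' 0 = q`, `p' (j + 1) = p (j + J)`. Every generalized prime contributes at most `log x` to `gpsi`
(`(e + 1) log p ≤ log x` for at most `log x / log p` values of `e`); the sums are finite because `p` tends to infinity.
-/

set_option autoImplicit false

open Filter Topology

namespace VO

/-- the contribution of a generalized prime `a` to `gpsi` -/
private noncomputable def cpsi (a x : ℝ) : ℝ :=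
  ∑' e : ℕ, if a ^ (e + 1) ≤ x then Real.log a else 0

private lemma pow_le_iff {a x : ℝ} (ha : 1 < a) (hx : 1 ≤ x) (e : ℕ) :
    a ^ (e + 1) ≤ x ↔ e + 1 ≤ ⌊Real.log x / Real.log a⌋₊ := by
  have hla : 0 < Real.log a := Real.log_pos ha
  have hlx : 0 ≤ Real.log x := Real.log_nonneg hx
  have ha0 : 0 < a := lt_trans zero_lt_one ha
  rw [Nat.le_floor_iff (div_nonneg hlx hla.le), le_div_iff₀ hla,
    ← Real.log_le_log_iff (pow_pos ha0 _) (lt_of_lt_of_le zero_lt_one hx), Real.log_pow]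

private lemma cpsi_eq {a x : ℝ} (ha : 1 < a) (hx : 1 ≤ x) :
    cpsi a x = (⌊Real.log x / Real.log a⌋₊ : ℝ) * Real.log a := by
  unfold cpsi
  rw [tsum_eq_sum (s := Finset.range ⌊Real.log x / Real.log a⌋₊)]
  · rw [Finset.sum_congr rfl (g := fun _ => Real.log a)]
    · rw [Finset.sum_const, Finset.card_range, nsmul_eq_mul]
    · intro e he
      rw [if_pos ((pow_le_iff ha hx e).mpr (Finset.mem_range.mp he))]
  · intro e he
    rw [if_neg]
    intro h
    exact he (Finset.mem_range.mpr ((pow_le_iff ha hx e).mp h))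

private lemma cpsi_nonneg {a x : ℝ} (ha : 1 < a) (hx : 1 ≤ x) : 0 ≤ cpsi a x := by
  rw [cpsi_eq ha hx]
  exact mul_nonneg (Nat.cast_nonneg _) (Real.log_pos ha).le

private lemma cpsi_le {a x : ℝ} (ha : 1 < a) (hx : 1 ≤ x) : cpsi a x ≤ Real.log x := by
  rw [cpsi_eq ha hx]
  have hla : 0 < Real.log a := Real.log_pos ha
  rw [← le_div_iff₀ hla]
  exact Nat.floor_le (div_nonneg (Real.log_nonneg hx) hla.le)

private lemma fin_supp {p : ℕ → ℝ} (hp : ∀ j, 1 < p j) (ht : Tendsto p atTop atTop) {x : ℝ}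
    (hx : 1 ≤ x) : Set.Finite {q : ℕ × ℕ | p q.1 ^ (q.2 + 1) ≤ x} := by
  obtain ⟨J₀, hJ₀⟩ := eventually_atTop.mp (ht.eventually_gt_atTop x)
  have hfin : Set.Finite (⋃ j ∈ Set.Iio J₀,
      (fun e : ℕ => (j, e)) '' {e : ℕ | p j ^ (e + 1) ≤ x}) := by
    refine (Set.finite_Iio J₀).biUnion fun j _ => Set.Finite.image _ ?_
    refine (Set.finite_Iio ⌊Real.log x / Real.log (p j)⌋₊).subset fun e he => ?_
    exact (pow_le_iff (hp j) hx e).mp he
  refine hfin.subset ?_
  rintro ⟨j, e⟩ hje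
  have hje' : p j ^ (e + 1) ≤ x := hje
  have hj : j < J₀ := by
    by_contra h1
    have h2 := hJ₀ j (not_lt.mp h1)
    have h3 : p j ≤ p j ^ (e + 1) := le_self_pow₀ (hp j).le (Nat.succ_ne_zero e)
    linarith
  exact Set.mem_biUnion hj ⟨e, hje', rfl⟩

private lemma summ {p : ℕ → ℝ} (hp : ∀ j, 1 < p j) (ht : Tendsto p atTop atTop) {x : ℝ}
    (hx : 1 ≤ x) : Summable (fun q : ℕ × ℕ =>
      if p q.1 ^ (q.2 + 1) ≤ x then Real.log (p q.1) else 0) := by
  apply summable_of_finite_support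
  refine (fin_supp hp ht hx).subset ?_
  intro q hq
  by_contra h
  exact hq (if_neg h)

private lemma gpsi_eq {p : ℕ → ℝ} (hp : ∀ j, 1 < p j) (ht : Tendsto p atTop atTop) {x : ℝ}
    (hx : 1 ≤ x) : gpsi p x = ∑' j, cpsi (p j) x ∧ Summable fun j => cpsi (p j) x :=
  ⟨(summ hp ht hx).tsum_prod, (summ hp ht hx).prod⟩

theorem psi_change {p : ℕ → ℝ} (hp : ∀ j, 1 < p j) (ht : Tendsto p atTop atTop) (J : ℕ) {q : ℝ} (hq : 1 < q)
    {p' : ℕ → ℝ} (h0 : p' 0 = q) (h1 : ∀ j, p' (j + 1) = p (j + J)) {x : ℝ} (hx : 1 ≤ x) :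
    |gpsi p' x - gpsi p x| ≤ (J + 1) * Real.log x := by
  have hp' : ∀ j, 1 < p' j := by
    intro j
    rcases j with _ | j
    · rw [h0]; exact hq
    · rw [h1]; exact hp _
  have ht' : Tendsto p' atTop atTop := by
    rw [← tendsto_add_atTop_iff_nat 1]
    have h2 : (fun n => p' (n + 1)) = fun n => p (n + J) := funext h1
    rw [h2]
    exact (tendsto_add_atTop_iff_nat J).mpr ht
  obtain ⟨e1, s1⟩ := gpsi_eq hp ht hx
  obtain ⟨e2, s2⟩ := gpsi_eq hp' ht' hx
  have e3 : ∑ j ∈ Finset.range J, cpsi (p j) x + ∑' j, cpsi (p (j + J)) x = gpsi p x := by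
    rw [e1]
    exact s1.sum_add_tsum_nat_add J
  have e4 : cpsi q x + ∑' j, cpsi (p (j + J)) x = gpsi p' x := by
    rw [e2, ← s2.sum_add_tsum_nat_add 1, Finset.sum_range_one, h0]
    simp only [h1]
  have b1 : 0 ≤ ∑ j ∈ Finset.range J, cpsi (p j) x :=
    Finset.sum_nonneg fun j _ => cpsi_nonneg (hp j) hx
  have b2 : ∑ j ∈ Finset.range J, cpsi (p j) x ≤ J * Real.log x := by
    calc ∑ j ∈ Finset.range J, cpsi (p j) x ≤ ∑ _j ∈ Finset.range J, Real.log x :=
          Finset.sum_le_sum fun j _ => cpsi_le (hp j) hx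
      _ = J * Real.log x := by rw [Finset.sum_const, Finset.card_range, nsmul_eq_mul]
  have b3 := cpsi_nonneg hq hx
  have b4 := cpsi_le hq hx
  have b5 : 0 ≤ Real.log x := Real.log_nonneg hx
  have b6 : 0 ≤ (J : ℝ) * Real.log x := mul_nonneg (Nat.cast_nonneg _) b5
  rw [abs_le]
  constructor <;> nlinarith

end VO
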