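import Mathlib

/-!
# NrmC : the density after a change of finitely many generalized primes

The sum of `1 / p j` diverges (otherwise the product `∏ (1 - p^(-σ))⁻¹` would stay bounded as `σ → 1+`, contradicting the pole), so
`κ ∏_{j < J} (1 - 1 / p j) < 1 / 2` for large `J`; put `q = 1 / (1 - κ ∏_{j < J} (1 - 1 / p j)) < 2`.
-/

set_option autoImplicit false

open Complex Filter Topology

namespace VO

private theorem nrm_le {p : ℕ → ℝ} (hp : ∀ j, 1 < p j) {σ : ℝ} (hσ : 1 < σ) (j : ℕ) :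
    ‖(1 - (p j : ℂ) ^ (-(σ : ℂ)))⁻¹‖ = (1 - p j ^ (-σ))⁻¹ ∧ 0 < p j ^ (-σ) ∧ p j ^ (-σ) < (p j)⁻¹ := by
  have h0 : 0 < p j := lt_trans one_pos (hp j)
  have h1 : 0 < p j ^ (-σ) := Real.rpow_pos_of_pos h0 _
  have h2 : p j ^ (-σ) < (p j)⁻¹ := by
    rw [← Real.rpow_neg_one]
    exact Real.rpow_lt_rpow_of_exponent_lt (hp j) (by linarith)
  have h3 : (p j)⁻¹ < 1 := inv_lt_one_of_one_lt₀ (hp j)
  refine ⟨?_, h1, h2⟩
  have h4 : (p j : ℂ) ^ (-(σ : ℂ)) = ((p j ^ (-σ) : ℝ) : ℂ) := by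
    rw [Complex.ofReal_cpow h0.le]
    push_cast
    rfl
  rw [h4, norm_inv, show (1 : ℂ) - ((p j ^ (-σ) : ℝ) : ℂ) = ((1 - p j ^ (-σ) : ℝ) : ℂ) by push_cast; rfl,
    Complex.norm_real, Real.norm_of_nonneg (by linarith)]

private theorem prod_small {p : ℕ → ℝ} (hp : ∀ j, 1 < p j) {κ : ℝ}
    (hκ : 0 < κ) {Z : ℂ → ℂ} (he : ∀ s : ℂ, 1 < s.re → HasProd (fun j => (1 - (p j : ℂ) ^ (-s))⁻¹) (Z s))
    (hr : Tendsto (fun s => (s - 1) * Z s) (𝓝[≠] 1) (𝓝 (κ : ℂ))) {a : ℝ} (ha : 0 < a) :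
    ∃ J, (∏ j ∈ Finset.range J, (1 - (p j)⁻¹)) < a := by
  by_contra hcon
  push Not at hcon
  have hpos : ∀ j, 0 < 1 - (p j)⁻¹ := fun j => by
    have := inv_lt_one_of_one_lt₀ (hp j)
    linarith
  have hZ : ∀ σ : ℝ, 1 < σ → ‖Z σ‖ ≤ a⁻¹ := by
    intro σ hσ
    have h1 := ((he (σ : ℂ) (by simpa using hσ)).tendsto_prod_nat).norm
    refine le_of_tendsto h1 (Eventually.of_forall fun J => ?_)
    rw [norm_prod]
    calc ∏ j ∈ Finset.range J, ‖(1 - (p j : ℂ) ^ (-(σ : ℂ)))⁻¹‖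
        ≤ ∏ j ∈ Finset.range J, (1 - (p j)⁻¹)⁻¹ := by
          refine Finset.prod_le_prod (fun j _ => norm_nonneg _) fun j _ => ?_
          obtain ⟨e1, e2, e3⟩ := nrm_le hp hσ j
          rw [e1]
          exact inv_anti₀ (hpos j) (by linarith)
      _ = (∏ j ∈ Finset.range J, (1 - (p j)⁻¹))⁻¹ := by rw [Finset.prod_inv_distrib]
      _ ≤ a⁻¹ := inv_anti₀ ha (hcon J)
  -- the limit along real points
  have hu : Tendsto (fun n : ℕ => ((1 + 1 / ((n : ℝ) + 1) : ℝ) : ℂ)) atTop (𝓝[≠] 1) := by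
    refine tendsto_nhdsWithin_of_tendsto_nhds_of_eventually_within _ ?_ (Eventually.of_forall fun n => ?_)
    · have h2 : Tendsto (fun n : ℕ => (1 + 1 / ((n : ℝ) + 1) : ℝ)) atTop (𝓝 (1 + 0)) :=
        tendsto_const_nhds.add tendsto_one_div_add_atTop_nhds_zero_nat
      rw [add_zero] at h2
      have h3 : Tendsto (fun n : ℕ => ((1 + 1 / ((n : ℝ) + 1) : ℝ) : ℂ)) atTop (𝓝 ((1 : ℝ) : ℂ)) :=
        (Complex.continuous_ofReal.tendsto (1 : ℝ)).comp h2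
      rw [Complex.ofReal_one] at h3
      exact h3
    · simp only [Set.mem_compl_iff, Set.mem_singleton_iff]
      intro h
      have h3 : (1 + 1 / ((n : ℝ) + 1) : ℝ) = 1 := by exact_mod_cast h
      have h4 : 0 < 1 / ((n : ℝ) + 1) := by positivity
      linarith
  have h5 := (hr.comp hu).norm
  have h6 : Tendsto (fun n : ℕ => 1 / ((n : ℝ) + 1) * a⁻¹) atTop (𝓝 (0 * a⁻¹)) :=
    tendsto_one_div_add_atTop_nhds_zero_nat.mul tendsto_const_nhds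
  rw [zero_mul] at h6
  have h7 : ‖(κ : ℂ)‖ ≤ 0 := by
    refine le_of_tendsto_of_tendsto h5 h6 (Eventually.of_forall fun n => ?_)
    have h8 : 0 < 1 / ((n : ℝ) + 1) := by positivity
    have h9 := hZ (1 + 1 / ((n : ℝ) + 1)) (by linarith)
    simp only [Function.comp_apply, norm_mul]
    have h10 : ‖((1 + 1 / ((n : ℝ) + 1) : ℝ) : ℂ) - 1‖ = 1 / ((n : ℝ) + 1) := by
      rw [show ((1 + 1 / ((n : ℝ) + 1) : ℝ) : ℂ) - 1 = ((1 / ((n : ℝ) + 1) : ℝ) : ℂ) by push_cast; ring,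
        Complex.norm_real, Real.norm_of_nonneg h8.le]
    rw [h10]
    exact mul_le_mul_of_nonneg_left h9 h8.le
  rw [Complex.norm_real, Real.norm_of_nonneg hκ.le] at h7
  linarith

theorem exists_q {p : ℕ → ℝ} (hp : ∀ j, 1 < p j) (hm : Monotone p) (ht : Tendsto p atTop atTop) {κ : ℝ}
    (hκ : 0 < κ) {Z : ℂ → ℂ} (he : ∀ s : ℂ, 1 < s.re → HasProd (fun j => (1 - (p j : ℂ) ^ (-s))⁻¹) (Z s))
    (hr : Tendsto (fun s => (s - 1) * Z s) (𝓝[≠] 1) (𝓝 (κ : ℂ))) :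
    ∃ (J : ℕ) (q : ℝ), 1 < q ∧ q ≤ p J ∧
      κ * (∏ j ∈ Finset.range J, (1 - (p j)⁻¹)) * (1 - q⁻¹)⁻¹ = 1 := by
  obtain ⟨J1, hJ1⟩ := prod_small hp hκ he hr (a := 1 / (2 * κ)) (by positivity)
  obtain ⟨J2, hJ2⟩ := (ht.eventually_ge_atTop 2).exists
  have hpos : ∀ j, 0 < 1 - (p j)⁻¹ := fun j => by
    have := inv_lt_one_of_one_lt₀ (hp j)
    linarith
  have hle : ∀ j, 1 - (p j)⁻¹ ≤ 1 := fun j => by
    have : 0 < (p j)⁻¹ := inv_pos.2 (lt_trans one_pos (hp j))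
    linarith
  obtain ⟨J, hJ⟩ : ∃ J, J = max J1 J2 := ⟨_, rfl⟩
  obtain ⟨A, hA⟩ : ∃ A, A = ∏ j ∈ Finset.range J, (1 - (p j)⁻¹) := ⟨_, rfl⟩
  have hA0 : 0 < A := by
    rw [hA]
    exact Finset.prod_pos fun j _ => hpos j
  have hA1 : A < 1 / (2 * κ) := by
    refine lt_of_le_of_lt ?_ hJ1
    rw [hA]
    have hanti : Antitone fun J => ∏ j ∈ Finset.range J, (1 - (p j)⁻¹) :=
      antitone_nat_of_succ_le fun n => by
        rw [Finset.prod_range_succ]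
        exact mul_le_of_le_one_right (Finset.prod_nonneg fun j _ => (hpos j).le) (hle n)
    exact hanti (hJ ▸ le_max_left _ _)
  have hk : κ * A < 1 / 2 := by
    have := mul_lt_mul_of_pos_left hA1 hκ
    have e : κ * (1 / (2 * κ)) = 1 / 2 := by field_simp
    linarith
  have hk0 : 0 < κ * A := mul_pos hκ hA0
  refine ⟨J, (1 - κ * A)⁻¹, ?_, ?_, ?_⟩
  · exact (one_lt_inv₀ (by linarith)).2 (by linarith)
  · have h1 : (1 - κ * A)⁻¹ ≤ 2 := by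
      rw [inv_le_comm₀ (by linarith) (by norm_num)]
      linarith
    refine h1.trans (hJ2.trans (hm ?_))
    rw [hJ]
    exact le_max_right _ _
  · rw [← hA, inv_inv, sub_sub_cancel]
    exact mul_inv_cancel₀ hk0.ne'

/-- the product converges for `re s > 1`, so `∑ p^(-σ)` converges -/
theorem summable_of_prod {p : ℕ → ℝ} (hp : ∀ j, 1 < p j) {Z : ℂ → ℂ}
    (he : ∀ s : ℂ, 1 < s.re → HasProd (fun j => (1 - (p j : ℂ) ^ (-s))⁻¹) (Z s)) {σ : ℝ} (hσ : 1 < σ) :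
    Summable fun j => p j ^ (-σ) := by
  have h1 := ((he (σ : ℂ) (by simpa using hσ)).tendsto_prod_nat).norm
  obtain ⟨C, hC⟩ := h1.bddAbove_range
  refine summable_of_sum_range_le (c := C) (fun j => (nrm_le hp hσ j).2.1.le) fun n => ?_
  have h2 := hC ⟨n, rfl⟩
  simp only [] at h2
  refine le_trans ?_ h2
  rw [norm_prod]
  have h3 : ∀ n : ℕ, (1 : ℝ) + ∑ i ∈ Finset.range n, p i ^ (-σ) ≤
      ∏ j ∈ Finset.range n, ‖(1 - (p j : ℂ) ^ (-(σ : ℂ)))⁻¹‖ := by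
    intro n
    induction n with
    | zero => simp
    | succ n ih =>
      rw [Finset.sum_range_succ, Finset.prod_range_succ]
      obtain ⟨e1, e2, e3⟩ := nrm_le hp hσ n
      have e4 : (p n)⁻¹ < 1 := inv_lt_one_of_one_lt₀ (hp n)
      rw [e1]
      have e5 : 1 + p n ^ (-σ) ≤ (1 - p n ^ (-σ))⁻¹ := by
        rw [le_inv_comm₀ (by linarith) (by linarith), inv_eq_one_div, le_div_iff₀ (by linarith)]
        nlinarith
      have e6 : 0 ≤ ∑ i ∈ Finset.range n, p i ^ (-σ) :=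
        Finset.sum_nonneg fun i _ => (nrm_le hp hσ i).2.1.le
      calc 1 + (∑ i ∈ Finset.range n, p i ^ (-σ) + p n ^ (-σ))
          ≤ (1 + ∑ i ∈ Finset.range n, p i ^ (-σ)) * (1 + p n ^ (-σ)) := by nlinarith
        _ ≤ _ := mul_le_mul ih e5 (by linarith) (by linarith)
  have := h3 n
  linarith

end VO
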