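import Pool.Agent.H15.VO.Fin
import Pool.Agent.H15.VO.NrmA
import Pool.Agent.H15.VO.NrmB
import Pool.Agent.H15.VO.NrmC

/-!
# NrmD : normalisation of the density to `1`

`p' 0 = q`, `p' (j + 1) = p (j + J)` with `J`, `q` of `exists_q`, `F s = (∏_{j < J} (1 - p j ^ (-s))) (1 - q ^ (-s))⁻¹`,
`Z' s = F s * Z s`. On `re s > 1 / 2`: `‖F s‖ ≤ 2^J / (1 - q^(-1/2))`. Counting: `count_asymp` with `NrmA`. The orders of zeros do not
change (`F` analytic and not zero).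
-/

set_option autoImplicit false

open Complex MeasureTheory Set Filter Topology

namespace VO

private theorem nd_norm {x : ℝ} (hx : 1 < x) (s : ℂ) : ‖(x : ℂ) ^ (-s)‖ = x ^ (-s.re) := by
  rw [Complex.norm_cpow_eq_rpow_re_of_pos (by linarith)]
  simp

private theorem nd_ne {x : ℝ} (hx : 1 < x) {s : ℂ} (hs : 0 < s.re) : 1 - (x : ℂ) ^ (-s) ≠ 0 := by
  intro h
  have h1 : (x : ℂ) ^ (-s) = 1 := by linear_combination -h
  have h3 : x ^ (-s.re) < 1 := Real.rpow_lt_one_of_one_lt_of_neg hx (by linarith)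
  rw [← nd_norm hx, h1, norm_one] at h3
  exact lt_irrefl _ h3

private theorem nd_diff {x : ℝ} (hx : 1 < x) (s : ℂ) : DifferentiableAt ℂ (fun s : ℂ => 1 - (x : ℂ) ^ (-s)) s := by
  have hx0 : (x : ℂ) ≠ 0 := by
    have : x ≠ 0 := by linarith
    exact_mod_cast this
  exact (differentiableAt_id.neg.const_cpow (Or.inl hx0)).const_sub 1

/-- removing finitely many factors -/
private theorem nd_shift {f : ℕ → ℂ} {a : ℂ} (hf : HasProd f a) (h0 : ∀ j, f j ≠ 0) (J : ℕ) :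
    HasProd (fun j => f (j + J)) (a / ∏ j ∈ Finset.range J, f j) := by
  have hP : ∏ j ∈ Finset.range J, f j ≠ 0 := Finset.prod_ne_zero_iff.2 fun j _ => h0 j
  have hinj : Function.Injective (fun j : ℕ => j + J) := fun i j h => by simpa using h
  set φ : Finset ℕ → Finset ℕ := fun s => Finset.range J ∪ s.map ⟨fun j => j + J, hinj⟩ with hφ
  have hdis : ∀ s : Finset ℕ, Disjoint (Finset.range J) (s.map ⟨fun j => j + J, hinj⟩) := by
    intro s
    rw [Finset.disjoint_left]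
    intro i hi hi2
    rw [Finset.mem_range] at hi
    rw [Finset.mem_map] at hi2
    obtain ⟨j, _, hj⟩ := hi2
    simp only [Function.Embedding.coeFn_mk] at hj
    omega
  have ht : Tendsto φ atTop atTop := by
    rw [tendsto_atTop_atTop]
    intro t
    refine ⟨t.image (fun i => i - J), fun s hs i hi => ?_⟩
    simp only [hφ, Finset.mem_union, Finset.mem_range, Finset.mem_map, Function.Embedding.coeFn_mk]
    by_cases h : i < J
    · left
      exact h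
    · right
      exact ⟨i - J, hs (Finset.mem_image.2 ⟨i, hi, rfl⟩), by omega⟩
  have h1 : Tendsto (fun s => ∏ i ∈ φ s, f i) atTop (𝓝 a) := Tendsto.comp (g := fun s : Finset ℕ => ∏ i ∈ s, f i) hf ht
  have h2 := h1.div_const (∏ j ∈ Finset.range J, f j)
  have h3 : (fun s : Finset ℕ => (∏ i ∈ φ s, f i) / ∏ j ∈ Finset.range J, f j) =
      fun s : Finset ℕ => ∏ j ∈ s, f (j + J) := by
    funext s
    simp only [hφ]
    rw [Finset.prod_union (hdis s), Finset.prod_map, mul_div_cancel_left₀ _ hP]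
    rfl
  rw [h3] at h2
  exact h2

theorem IsSystem.normalize {p : ℕ → ℝ} {κ : ℝ} {Z : ℂ → ℂ} (h : IsSystem p κ Z) :
    ∃ (p' : ℕ → ℝ) (F : ℂ → ℂ), IsSystem p' 1 (fun s => F s * Z s) ∧
      DifferentiableOn ℂ F {s : ℂ | 1 / 2 < s.re} ∧ (∀ s : ℂ, 1 / 2 < s.re → F s ≠ 0) ∧
      (∃ A : ℝ, ∀ s : ℂ, 1 / 2 < s.re → ‖F s‖ ≤ A) ∧
      (∀ ρ : ℂ, 1 / 2 < ρ.re → ρ ≠ 1 → analyticOrderNatAt (fun s => F s * Z s) ρ = analyticOrderNatAt Z ρ) ∧
      ∃ C : ℝ, ∀ x : ℝ, 1 ≤ x → |gpsi p' x - gpsi p x| ≤ C * Real.log x := by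
  have hp : ∀ j, 1 < p j := fun j => h.one_lt.trans_le (h.mono (Nat.zero_le j))
  obtain ⟨J, q, hq1, hqJ, hqκ⟩ := exists_q hp h.mono h.tendsto h.pos h.euler h.residue
  set p' : ℕ → ℝ := fun n => Nat.casesOn n q fun j => p (j + J) with hp'def
  have hp0 : p' 0 = q := rfl
  have hpS : ∀ j, p' (j + 1) = p (j + J) := fun j => rfl
  have hp1 : ∀ j, 1 < p' j := by
    intro j
    cases j with
    | zero => exact hq1
    | succ j => exact hp _
  set F : ℂ → ℂ := fun s => (∏ j ∈ Finset.range J, (1 - (p j : ℂ) ^ (-s))) * (1 - (q : ℂ) ^ (-s))⁻¹ with hF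
  -- analytic properties of `F`
  have hFd : ∀ s : ℂ, 0 < s.re → DifferentiableAt ℂ F s := by
    intro s hs
    have h1 : ∀ n : ℕ, DifferentiableAt ℂ (fun s : ℂ => ∏ j ∈ Finset.range n, (1 - (p j : ℂ) ^ (-s))) s := by
      intro n
      induction n with
      | zero => simp
      | succ n ih =>
        simp only [Finset.prod_range_succ]
        exact ih.mul (nd_diff (hp n) s)
    exact (h1 J).mul ((nd_diff hq1 s).inv (nd_ne hq1 hs))
  have hF0 : ∀ s : ℂ, 0 < s.re → F s ≠ 0 := by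
    intro s hs
    refine mul_ne_zero (Finset.prod_ne_zero_iff.2 fun j _ => nd_ne (hp j) hs) (inv_ne_zero (nd_ne hq1 hs))
  have hq2 : q ^ (-(1 / 2) : ℝ) < 1 := Real.rpow_lt_one_of_one_lt_of_neg hq1 (by norm_num)
  set AF : ℝ := 2 ^ J * (1 - q ^ (-(1 / 2) : ℝ))⁻¹ with hAF
  have hFb : ∀ s : ℂ, 1 / 2 < s.re → ‖F s‖ ≤ AF := by
    intro s hs
    show ‖(∏ j ∈ Finset.range J, (1 - (p j : ℂ) ^ (-s))) * (1 - (q : ℂ) ^ (-s))⁻¹‖ ≤ _
    rw [norm_mul, norm_inv, norm_prod]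
    have h1 : ∏ j ∈ Finset.range J, ‖1 - (p j : ℂ) ^ (-s)‖ ≤ 2 ^ J := by
      have h2 : ∏ j ∈ Finset.range J, ‖1 - (p j : ℂ) ^ (-s)‖ ≤ ∏ _j ∈ Finset.range J, (2 : ℝ) := by
        refine Finset.prod_le_prod (fun _ _ => norm_nonneg _) fun j _ => ?_
        refine (norm_sub_le _ _).trans ?_
        rw [norm_one, nd_norm (hp j)]
        have := (Real.rpow_lt_one_of_one_lt_of_neg (hp j) (show -s.re < 0 by linarith)).le
        linarith
      refine h2.trans (le_of_eq ?_)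
      rw [Finset.prod_const, Finset.card_range]
    have h2 : 1 - q ^ (-(1 / 2) : ℝ) ≤ ‖1 - (q : ℂ) ^ (-s)‖ := by
      have h3 : ‖(1 : ℂ)‖ - ‖(q : ℂ) ^ (-s)‖ ≤ ‖1 - (q : ℂ) ^ (-s)‖ := norm_sub_norm_le _ _
      rw [norm_one, nd_norm hq1] at h3
      have h4 : q ^ (-s.re) ≤ q ^ (-(1 / 2) : ℝ) := Real.rpow_le_rpow_of_exponent_le hq1.le (by linarith)
      linarith
    have h3 : ‖1 - (q : ℂ) ^ (-s)‖⁻¹ ≤ (1 - q ^ (-(1 / 2) : ℝ))⁻¹ := by
      refine inv_anti₀ (by linarith) h2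
    exact mul_le_mul h1 h3 (by positivity) (by positivity)
  -- Euler product
  have heul : ∀ s : ℂ, 1 < s.re → HasProd (fun j => (1 - (p' j : ℂ) ^ (-s))⁻¹) (F s * Z s) := by
    intro s hs
    have hs0 : 0 < s.re := by linarith
    have h1 := nd_shift (h.euler s hs) (fun j => inv_ne_zero (nd_ne (hp j) hs0)) J
    have h2 : HasProd (fun j => (1 - (p' (j + 1) : ℂ) ^ (-s))⁻¹)
        (Z s / ∏ j ∈ Finset.range J, (1 - (p j : ℂ) ^ (-s))⁻¹) := h1
    have h3 := HasProd.zero_mul (f := fun j => (1 - (p' j : ℂ) ^ (-s))⁻¹) h2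
    have h4 : (1 - (p' 0 : ℂ) ^ (-s))⁻¹ * (Z s / ∏ j ∈ Finset.range J, (1 - (p j : ℂ) ^ (-s))⁻¹) = F s * Z s := by
      show (1 - (q : ℂ) ^ (-s))⁻¹ * (Z s / ∏ j ∈ Finset.range J, (1 - (p j : ℂ) ^ (-s))⁻¹) =
        ((∏ j ∈ Finset.range J, (1 - (p j : ℂ) ^ (-s))) * (1 - (q : ℂ) ^ (-s))⁻¹) * Z s
      rw [Finset.prod_inv_distrib, div_inv_eq_mul]
      ring
    rw [h4] at h3
    exact h3
  have hdiff : DifferentiableOn ℂ (fun s => F s * Z s) {s : ℂ | 1 / 2 < s.re ∧ s ≠ 1} := by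
    intro s hs
    have hs1 : 0 < s.re := by
      have := hs.1
      linarith
    exact (hFd s hs1).differentiableWithinAt.mul (h.diff s hs)
  have hF1 : F 1 * (κ : ℂ) = 1 := by
    show ((∏ j ∈ Finset.range J, (1 - (p j : ℂ) ^ (-(1 : ℂ)))) * (1 - (q : ℂ) ^ (-(1 : ℂ)))⁻¹) * (κ : ℂ) = 1
    have h1 : ((κ * (∏ j ∈ Finset.range J, (1 - (p j)⁻¹)) * (1 - q⁻¹)⁻¹ : ℝ) : ℂ) = 1 := by
      rw [hqκ]
      simp
    push_cast at h1
    simp only [Complex.cpow_neg_one]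
    linear_combination h1
  have hres : Tendsto (fun s => (s - 1) * (F s * Z s)) (𝓝[≠] 1) (𝓝 ((1 : ℝ) : ℂ)) := by
    have h1 : Tendsto F (𝓝[≠] 1) (𝓝 (F 1)) := (hFd 1 (by simp)).continuousAt.tendsto.mono_left nhdsWithin_le_nhds
    have h2 := h1.mul h.residue
    rw [hF1] at h2
    have h3 : (fun s => F s * ((s - 1) * Z s)) = fun s => (s - 1) * (F s * Z s) := by
      funext s
      ring
    rw [h3] at h2
    simpa using h2
  have hAF0 : 0 ≤ AF := (norm_nonneg _).trans (hFb 1 (by norm_num))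
  have hlin : ∀ θ ε : ℝ, 1 / 2 < θ → 0 < ε → ∃ A : ℝ, ∀ σ t : ℝ, θ ≤ σ → 3 ≤ |t| →
      ‖F (σ + t * I) * Z (σ + t * I)‖ ≤ A * |t| ^ ε := by
    intro θ ε hθ hε
    obtain ⟨A, hA⟩ := h.lindelof θ ε hθ hε
    refine ⟨AF * A, fun σ t hσ ht => ?_⟩
    rw [norm_mul, mul_assoc]
    refine mul_le_mul (hFb _ ?_) (hA σ t hσ ht) (norm_nonneg _) hAF0
    simp
    linarith
  have hsum : ∀ σ : ℝ, 1 < σ → Summable fun j => p' j ^ (-σ) := fun σ hσ => summable_of_prod hp1 heul hσ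
  have hcount : ∀ θ : ℝ, 1 / 2 < θ → θ < 1 → ∃ A : ℝ, ∀ x : ℝ, 1 ≤ x → |(gN p' x : ℝ) - 1 * x| ≤ A * x ^ θ := by
    intro θ h1 h2
    refine count_asymp (ι := ℕ →₀ ℕ) (a := fun m => m.prod fun j e => p' j ^ e) (gp_ge_one hp1)
      (fun c hc => gp_summable hp1 hsum hc) (fun s hs => gp_hasSum hp1 hsum hs (heul s hs)) hdiff hres ?_ h1 h2
    intro θ ε hθ hε
    obtain ⟨A, hA⟩ := hlin θ ε hθ hε
    refine ⟨A, fun s hs1 _ hs3 => ?_⟩
    have h3 := hA s.re s.im hs1 hs3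
    rwa [Complex.re_add_im] at h3
  have hord : ∀ ρ : ℂ, 1 / 2 < ρ.re → ρ ≠ 1 → analyticOrderNatAt (fun s => F s * Z s) ρ = analyticOrderNatAt Z ρ := by
    intro ρ h1 h2
    have hopen : IsOpen {s : ℂ | 1 / 2 < s.re ∧ s ≠ 1} :=
      (isOpen_lt continuous_const Complex.continuous_re).inter isOpen_ne
    have hZa : AnalyticAt ℂ Z ρ := h.diff.analyticAt (hopen.mem_nhds ⟨h1, h2⟩)
    have hFa : AnalyticAt ℂ F ρ := by
      have hd : DifferentiableOn ℂ F {s : ℂ | 0 < s.re} := fun s hs => (hFd s hs).differentiableWithinAt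
      exact hd.analyticAt ((isOpen_lt continuous_const Complex.continuous_re).mem_nhds (show (0 : ℝ) < ρ.re by linarith))
    have h3 : analyticOrderAt F ρ = 0 := hFa.analyticOrderAt_eq_zero.2 (hF0 ρ (by linarith))
    have h4 : analyticOrderAt (fun s => F s * Z s) ρ = analyticOrderAt F ρ + analyticOrderAt Z ρ :=
      analyticOrderAt_mul hFa hZa
    unfold analyticOrderNatAt
    rw [h4, h3, zero_add]
  refine ⟨p', F, ?_, fun s hs => (hFd s (by
    have : (1 : ℝ) / 2 < s.re := hs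
    linarith)).differentiableWithinAt, fun s hs => hF0 s (by linarith), ⟨AF, hFb⟩, hord, (J + 1 : ℝ),
    fun x hx => psi_change hp h.tendsto J hq1 hp0 hpS hx⟩
  refine ⟨hp1 0, ?_, ?_, one_pos, heul, hdiff, hres, ?_, hlin, ?_⟩
  · refine monotone_nat_of_le_succ fun n => ?_
    cases n with
    | zero =>
      show q ≤ p (0 + J)
      rw [zero_add]
      exact hqJ
    | succ n =>
      show p (n + J) ≤ p (n + 1 + J)
      exact h.mono (by omega)
  · rw [← tendsto_add_atTop_iff_nat 1]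
    show Tendsto (fun j => p (j + J)) atTop atTop
    exact (tendsto_add_atTop_iff_nat J).2 h.tendsto
  · intro θ hθ
    rcases lt_or_ge θ 1 with h1 | h1
    · exact hcount θ hθ h1
    · obtain ⟨A, hA⟩ := hcount (3 / 4) (by norm_num) (by norm_num)
      refine ⟨A, fun x hx => (hA x hx).trans ?_⟩
      have hA0 : 0 ≤ A := by
        have := (abs_nonneg _).trans (hA 1 le_rfl)
        simpa using this
      exact mul_le_mul_of_nonneg_left (Real.rpow_le_rpow_of_exponent_le hx (by linarith)) hA0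
  · intro θ ε hθ hε
    obtain ⟨A, hA⟩ := h.density θ ε hθ hε
    refine ⟨A, fun T hT S hS => ?_⟩
    have h1 : ∀ ρ ∈ S, Z ρ = 0 ∧ ρ ≠ 1 ∧ θ ≤ ρ.re ∧ |ρ.im| ≤ T := by
      intro ρ hρ
      obtain ⟨h2, h3, h4, h5⟩ := hS ρ hρ
      exact ⟨(mul_eq_zero.1 h2).resolve_left (hF0 ρ (by linarith)), h3, h4, h5⟩
    refine le_trans (le_of_eq ?_) (hA T hT S h1)
    refine Finset.sum_congr rfl fun ρ hρ => ?_
    obtain ⟨_, h3, h4, _⟩ := h1 ρ hρ
    rw [hord ρ (by linarith) h3]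

end VO
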