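import Pool.Agent.H15.VO.Mb
import Pool.Agent.H15.VO.BlkL

/-!
# OmA : oscillation caused by one block

Write `ℓ = log g`. Choose `y ∈ [ℓ R / 8, ℓ R / 8 + 2 π / g]` with `sin (g y) = - c`, `cos (g y) = 0` (`c = ± 1`). `v ck k v` is at most `1 + (v / R)²` in
absolute value. Harmonics `k ≥ 2`: at most `K 2 (1 + (y / R)²) 2 exp (y - 4 lam y)` with `4 lam ≤ 1 / 2`, `4 lam y ≥ 4 ℓ`,
`1024 K exp (2 R) ≤ g`. Harmonic `1`: `v ck 1 v = -1 + exp (- b v) (1 - (v / R) r1 (v / R))`; the main term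
`- 2 ∫ cos (g v) exp ((1 - lam) v) dv` is explicit, at least `1.9 exp (y - 2 ℓ)`; the rest is at most
`3 (1 + (y / R)²) exp (y - ℓ - b y)` with `b y ≥ 4 ℓ`.
-/

set_option autoImplicit false

open MeasureTheory Set Filter Topology

namespace VO

namespace Blk

variable (P : Blk)

private theorem h_bd (v : ℝ) :
    0 ≤ v / P.R * r1 (v / P.R) ∧ v / P.R * r1 (v / P.R) ≤ (v / P.R) ^ 2 := by
  by_cases h : v / P.R < 1
  · rw [r1_eq_zero h, mul_zero]
    exact ⟨le_refl _, sq_nonneg _⟩
  · have h0 : 0 ≤ v / P.R := by linarith [not_lt.mp h]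
    have h1 := r1_nonneg (v / P.R)
    have h2 := r1_le h0
    exact ⟨mul_nonneg h0 h1, by nlinarith⟩

private theorem W_eq (k : ℕ) (v : ℝ) : v * P.ck k v =
    if Even k then (1 - Real.exp (-P.b * v)) - v / P.R * r1 (v / P.R)
    else -(1 - Real.exp (-P.b * v)) - Real.exp (-P.b * v) * (v / P.R * r1 (v / P.R)) := by
  unfold ck
  by_cases hv : v = 0
  · subst hv
    simp
  · split_ifs
    · rw [mul_sub, mul_div_cancel₀ _ hv]
      ring
    · rw [mul_sub, mul_neg, mul_div_cancel₀ _ hv]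
      ring

private theorem W_bd (k : ℕ) {v : ℝ} (hv : 0 ≤ v) : |v * P.ck k v| ≤ 1 + (v / P.R) ^ 2 := by
  obtain ⟨h1, h2⟩ := P.h_bd v
  have hE1 : Real.exp (-P.b * v) ≤ 1 := by
    rw [Real.exp_le_one_iff]
    have := mul_nonneg P.hb.le hv
    linarith
  have hE0 := Real.exp_pos (-P.b * v)
  have h3 : Real.exp (-P.b * v) * (v / P.R * r1 (v / P.R)) ≤ 1 * (v / P.R * r1 (v / P.R)) :=
    mul_le_mul_of_nonneg_right hE1 h1
  have h4 : 0 ≤ Real.exp (-P.b * v) * (v / P.R * r1 (v / P.R)) := mul_nonneg hE0.le h1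
  rw [P.W_eq k v, abs_le]
  split_ifs <;> constructor <;> linarith

private theorem W_one {v : ℝ} :
    |v * P.ck 1 v + 1| ≤ Real.exp (-P.b * v) * (1 + (v / P.R) ^ 2) := by
  obtain ⟨h1, h2⟩ := P.h_bd v
  have hE0 := Real.exp_pos (-P.b * v)
  rw [P.W_eq 1 v, if_neg (by decide)]
  have e : -(1 - Real.exp (-P.b * v)) - Real.exp (-P.b * v) * (v / P.R * r1 (v / P.R)) + 1 =
      Real.exp (-P.b * v) * (1 - v / P.R * r1 (v / P.R)) := by ring
  rw [e, abs_mul, abs_of_pos hE0]
  apply mul_le_mul_of_nonneg_left _ hE0.le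
  rw [abs_le]
  constructor <;> linarith [sq_nonneg (v / P.R)]

private theorem G_eq (v : ℝ) : v * Real.exp v * P.m v = ∑ k ∈ Finset.Icc 1 P.K,
    2 * Real.cos (k * P.g * v) * (Real.exp v * Real.exp (-P.lam * (k : ℝ) ^ 2 * v)) *
      (v * P.ck k v) := by
  unfold m
  rw [Finset.mul_sum]
  apply Finset.sum_congr rfl
  intro k _
  ring

theorem m_int (y : ℝ) : IntervalIntegrable (fun v => v * Real.exp v * P.m v) volume (Real.log 2) y := by
  have hc : Continuous (fun v : ℝ => ∑ k ∈ Finset.Icc 1 P.K,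
      2 * 1 * (Real.exp v * Real.exp (-P.lam * (k : ℝ) ^ 2 * v)) *
        ((1 + Real.exp (-P.b * v)) * (1 + (v / P.R) ^ 2))) := by
    fun_prop
  refine (hc.intervalIntegrable (Real.log 2) y).mono_fun ?_ ?_
  · have hm := P.m_meas
    have h2 : Measurable (fun v => v * Real.exp v * P.m v) := by fun_prop
    exact h2.aestronglyMeasurable
  · refine Filter.Eventually.of_forall fun v => ?_
    have hpos : 0 ≤ ∑ k ∈ Finset.Icc 1 P.K,
        2 * 1 * (Real.exp v * Real.exp (-P.lam * (k : ℝ) ^ 2 * v)) *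
        ((1 + Real.exp (-P.b * v)) * (1 + (v / P.R) ^ 2)) :=
      Finset.sum_nonneg fun k _ => by positivity
    have hle : ‖v * Real.exp v * P.m v‖ ≤ ∑ k ∈ Finset.Icc 1 P.K,
        2 * 1 * (Real.exp v * Real.exp (-P.lam * (k : ℝ) ^ 2 * v)) *
        ((1 + Real.exp (-P.b * v)) * (1 + (v / P.R) ^ 2)) := by
      rw [P.G_eq v]
      refine (norm_sum_le _ _).trans (Finset.sum_le_sum fun k _ => ?_)
      have h2 := Real.abs_cos_le_one (k * P.g * v)
      rw [Real.norm_eq_abs, abs_mul, abs_mul, abs_mul,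
        abs_of_pos (mul_pos (Real.exp_pos _) (Real.exp_pos _)),
        abs_of_pos (by norm_num : (0 : ℝ) < 2)]
      have hW : |v * P.ck k v| ≤ (1 + Real.exp (-P.b * v)) * (1 + (v / P.R) ^ 2) := by
        obtain ⟨h1, h2⟩ := P.h_bd v
        have hE0 := Real.exp_pos (-P.b * v)
        have h4 : 0 ≤ Real.exp (-P.b * v) * (v / P.R * r1 (v / P.R)) := mul_nonneg hE0.le h1
        have h5 : Real.exp (-P.b * v) * (v / P.R * r1 (v / P.R)) ≤
          Real.exp (-P.b * v) * (v / P.R) ^ 2 := mul_le_mul_of_nonneg_left h2 hE0.le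
        have h6 : 0 ≤ Real.exp (-P.b * v) * (v / P.R) ^ 2 := by positivity
        rw [P.W_eq k v, abs_le]
        split_ifs <;> constructor <;> nlinarith [sq_nonneg (v / P.R)]
      gcongr
    calc ‖v * Real.exp v * P.m v‖ ≤ _ := hle
      _ = _ := (Real.norm_of_nonneg hpos).symm

private theorem int_exp {c : ℝ} (hc : 0 < c) (a y : ℝ) :
    ∫ v in a..y, Real.exp (c * v) ≤ Real.exp (c * y) / c := by
  have h : ∫ v in a..y, Real.exp (c * v) = Real.exp (c * y) / c - Real.exp (c * a) / c := by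
    apply intervalIntegral.integral_eq_sub_of_hasDerivAt
    · intro x _
      have h1 : HasDerivAt (fun v : ℝ => c * v) c x := by
        simpa using (hasDerivAt_id x).const_mul c
      have h2 := (h1.exp).div_const c
      rwa [mul_div_cancel_right₀ _ hc.ne'] at h2
    · exact (by fun_prop : Continuous fun v : ℝ => Real.exp (c * v)).intervalIntegrable _ _
  rw [h]
  have : 0 ≤ Real.exp (c * a) / c := by positivity
  linarith

private theorem int_cos {g : ℝ} (hg : 0 < g) (a x y : ℝ) :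
    ∫ v in x..y, Real.exp (a * v) * Real.cos (g * v) =
      Real.exp (a * y) * (a * Real.cos (g * y) + g * Real.sin (g * y)) / (a ^ 2 + g ^ 2) -
      Real.exp (a * x) * (a * Real.cos (g * x) + g * Real.sin (g * x)) / (a ^ 2 + g ^ 2) := by
  have hpos : 0 < a ^ 2 + g ^ 2 := by positivity
  apply intervalIntegral.integral_eq_sub_of_hasDerivAt
    (f := fun v => Real.exp (a * v) * (a * Real.cos (g * v) + g * Real.sin (g * v)) / (a ^ 2 + g ^ 2))
  · intro v _
    have h1 : HasDerivAt (fun v : ℝ => a * v) a v := by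
      simpa using (hasDerivAt_id v).const_mul a
    have h2 : HasDerivAt (fun v : ℝ => g * v) g v := by
      simpa using (hasDerivAt_id v).const_mul g
    have h3 := ((h1.exp).mul (((h2.cos).const_mul a).add ((h2.sin).const_mul g))).div_const
      (a ^ 2 + g ^ 2)
    have h4 : HasDerivAt (fun v => Real.exp (a * v) *
        (a * Real.cos (g * v) + g * Real.sin (g * v)) / (a ^ 2 + g ^ 2))
        (((Real.exp (a * v) * a) * (a * Real.cos (g * v) + g * Real.sin (g * v)) +
          Real.exp (a * v) * (a * (-Real.sin (g * v) * g) + g * (Real.cos (g * v) * g))) /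
        (a ^ 2 + g ^ 2)) v := h3
    have e : ((Real.exp (a * v) * a) * (a * Real.cos (g * v) + g * Real.sin (g * v)) +
          Real.exp (a * v) * (a * (-Real.sin (g * v) * g) + g * (Real.cos (g * v) * g))) /
        (a ^ 2 + g ^ 2) = Real.exp (a * v) * Real.cos (g * v) := by
      rw [div_eq_iff hpos.ne']
      ring
    rw [e] at h4
    exact h4
  · exact (by fun_prop : Continuous fun v : ℝ => Real.exp (a * v) * Real.cos (g * v)).intervalIntegrable _ _

theorem block_osc (hR : 64 ≤ P.R) (hbR : 32 ≤ P.b * P.R) (hg : 100 ≤ Real.log P.g) {c : ℝ}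
    (hc : c = 1 ∨ c = -1) :
    ∃ y : ℝ, Real.log P.g * P.R / 8 ≤ y ∧ y ≤ Real.log P.g * P.R / 8 + 1 ∧
      3 / 2 * Real.exp (y - 2 * Real.log P.g) ≤ c * ∫ v in (Real.log 2)..y, v * Real.exp v * P.m v := by
  have hcc : c * c = 1 := by rcases hc with rfl | rfl <;> norm_num
  have hcabs : |c| = 1 := by rcases hc with rfl | rfl <;> simp
  have hphs : Real.sin (-(c * (Real.pi / 2))) = -c := by
    rcases hc with rfl | rfl
    · simp
    · simp
  have hphc : Real.cos (-(c * (Real.pi / 2))) = 0 := by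
    rcases hc with rfl | rfl
    · simp
    · simp
  have hb := P.hb
  have hb1 := P.hb1
  have hR0 : 0 < P.R := by linarith
  have hKr : 2 * P.b * P.R ≤ (P.K : ℝ) := P.hK
  have hK0 : (64 : ℝ) ≤ (P.K : ℝ) := by
    have : 2 * P.b * P.R = 2 * (P.b * P.R) := by ring
    linarith
  have hg1 := P.hg
  have hKe : (0 : ℝ) < 1024 * P.K * Real.exp (2 * P.R) := by positivity
  have hgpos : 0 < P.g := by linarith
  set ℓ := Real.log P.g with hℓ
  have hgl : P.g = Real.exp ℓ := by rw [hℓ, Real.exp_log hgpos]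
  have hexp2R : 1 ≤ Real.exp (2 * P.R) := Real.one_le_exp (by linarith)
  have hg2 : 1000 ≤ P.g := by
    have : (1024 : ℝ) * 64 * 1 ≤ 1024 * P.K * Real.exp (2 * P.R) := by gcongr
    linarith
  have hpi := Real.pi_pos
  have hpi4 := Real.pi_le_four
  have hpi3 := Real.pi_lt_d2
  obtain ⟨y, hy0, hy1, hsin, hcos⟩ : ∃ y : ℝ, ℓ * P.R / 8 ≤ y ∧
      y ≤ ℓ * P.R / 8 + 2 * Real.pi / P.g ∧ Real.sin (P.g * y) = -c ∧ Real.cos (P.g * y) = 0 := by
    let n : ℤ := ⌈(P.g * (ℓ * P.R / 8) - (-(c * (Real.pi / 2)))) / (2 * Real.pi)⌉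
    refine ⟨(-(c * (Real.pi / 2)) + n * (2 * Real.pi)) / P.g, ?_, ?_, ?_, ?_⟩
    · have h1 : (P.g * (ℓ * P.R / 8) - (-(c * (Real.pi / 2)))) / (2 * Real.pi) ≤ n := Int.le_ceil _
      rw [div_le_iff₀ (by positivity)] at h1
      rw [le_div_iff₀ hgpos]
      linarith
    · have h1 : (n : ℝ) < (P.g * (ℓ * P.R / 8) - (-(c * (Real.pi / 2)))) / (2 * Real.pi) + 1 :=
        Int.ceil_lt_add_one _
      have h2 : (n : ℝ) * (2 * Real.pi) < P.g * (ℓ * P.R / 8) - (-(c * (Real.pi / 2))) +
          2 * Real.pi := by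
        have h3 : 0 < 2 * Real.pi := by positivity
        calc (n : ℝ) * (2 * Real.pi) < ((P.g * (ℓ * P.R / 8) - (-(c * (Real.pi / 2)))) /
              (2 * Real.pi) + 1) * (2 * Real.pi) := mul_lt_mul_of_pos_right h1 h3
          _ = P.g * (ℓ * P.R / 8) - (-(c * (Real.pi / 2))) + 2 * Real.pi := by
              field_simp
      rw [div_le_iff₀ hgpos, add_mul, div_mul_cancel₀ _ hgpos.ne']
      linarith
    · rw [mul_div_cancel₀ _ hgpos.ne', Real.sin_add_int_mul_two_pi, hphs]
    · rw [mul_div_cancel₀ _ hgpos.ne', Real.cos_add_int_mul_two_pi, hphc]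
  have hpg : 2 * Real.pi / P.g ≤ 1 := by
    rw [div_le_one hgpos]
    linarith
  refine ⟨y, hy0, by linarith, ?_⟩
  have hl0 : 0 ≤ ℓ := by linarith
  have hlR64 : ℓ * 64 ≤ ℓ * P.R := mul_le_mul_of_nonneg_left hR hl0
  have hy8 : 8 * ℓ ≤ y := by linarith
  have hypos : 0 ≤ y := by linarith
  have hlog2 : 0 < Real.log 2 := Real.log_pos (by norm_num)
  have hlog2' : Real.log 2 < 1 := by
    have := Real.log_two_lt_d9
    linarith
  have hly : Real.log 2 ≤ y := by linarith
  have hlam0 : 0 < P.lam := by unfold lam; positivity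
  have hlam1 : P.lam ≤ 1 / 8 := by
    unfold lam
    rw [div_le_iff₀ hR0]
    linarith
  have hlR8 : P.lam * P.R = 8 := by
    unfold lam
    field_simp
  have hlamy : ℓ ≤ P.lam * y := by
    have h1 : P.lam * (ℓ * P.R / 8) ≤ P.lam * y := by gcongr
    have h2 : P.lam * (ℓ * P.R / 8) = ℓ * (P.lam * P.R) / 8 := by ring
    rw [hlR8] at h2
    linarith
  have hlamy2 : P.lam * y ≤ ℓ + 1 / P.g := by
    have h1 : P.lam * y ≤ P.lam * (ℓ * P.R / 8 + 2 * Real.pi / P.g) := by gcongr
    have h2 : P.lam * (ℓ * P.R / 8 + 2 * Real.pi / P.g) = ℓ + P.lam * (2 * Real.pi) / P.g := by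
      have : P.lam * (ℓ * P.R / 8) = ℓ * (P.lam * P.R) / 8 := by ring
      rw [mul_add, this, hlR8]
      ring
    have h3 : P.lam * (2 * Real.pi) / P.g ≤ 1 / P.g := by
      apply div_le_div_of_nonneg_right _ hgpos.le
      calc P.lam * (2 * Real.pi) ≤ 1 / 8 * (2 * 4) := by gcongr
        _ ≤ 1 := by norm_num
    linarith
  have hby : 4 * ℓ ≤ P.b * y := by
    have h1 : P.b * (ℓ * P.R / 8) ≤ P.b * y := by gcongr
    have h2 : ℓ * 32 ≤ ℓ * (P.b * P.R) := mul_le_mul_of_nonneg_left hbR hl0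
    have h3 : P.b * (ℓ * P.R / 8) = ℓ * (P.b * P.R) / 8 := by ring
    linarith
  -- the rate
  set a : ℝ := 1 - P.lam with ha
  have ha1 : 7 / 8 ≤ a := by rw [ha]; linarith
  have ha2 : a ≤ 1 := by rw [ha]; linarith
  -- the amplitude
  set Q : ℝ := 1 + (y / P.R) ^ 2 with hQ
  have hQ1 : Q ≤ 2 * P.g := by
    have h1 : y / P.R ≤ ℓ := by
      rw [div_le_iff₀ hR0]
      linarith
    have h0 : 0 ≤ y / P.R := by positivity
    have h2 : (y / P.R) ^ 2 ≤ ℓ ^ 2 := pow_le_pow_left₀ h0 h1 2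
    have h3 := Real.quadratic_le_exp_of_nonneg (show (0 : ℝ) ≤ ℓ by linarith)
    rw [hQ, hgl]
    linarith
  have hQ0 : 0 < Q := by rw [hQ]; positivity
  -- pointwise bound of the remainder
  have hpt : ∀ v ∈ Set.Ioc (Real.log 2) y,
      ‖v * Real.exp v * P.m v + 2 * (Real.exp (a * v) * Real.cos (P.g * v))‖ ≤
      2 * Q * Real.exp ((a - P.b) * v) + 2 * P.K * Q * Real.exp ((1 - 4 * P.lam) * v) := by
    intro v hv
    have hv0 : 0 ≤ v := by linarith [hv.1]
    have hvQ : 1 + (v / P.R) ^ 2 ≤ Q := by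
      rw [hQ]
      have : v / P.R ≤ y / P.R := div_le_div_of_nonneg_right hv.2 hR0.le
      have h0 : 0 ≤ v / P.R := by positivity
      have := pow_le_pow_left₀ h0 this 2
      linarith
    have h1mem : 1 ∈ Finset.Icc 1 P.K := by
      rw [Finset.mem_Icc]
      refine ⟨le_refl _, ?_⟩
      have : (1 : ℝ) ≤ P.K := by linarith
      exact_mod_cast this
    rw [P.G_eq v, ← Finset.add_sum_erase _ _ h1mem]
    have e1 : 2 * Real.cos (((1 : ℕ) : ℝ) * P.g * v) *
        (Real.exp v * Real.exp (-P.lam * ((1 : ℕ) : ℝ) ^ 2 * v)) * (v * P.ck 1 v) +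
        2 * (Real.exp (a * v) * Real.cos (P.g * v)) =
        2 * Real.cos (P.g * v) * Real.exp (a * v) * (v * P.ck 1 v + 1) := by
      have e2 : Real.exp v * Real.exp (-P.lam * ((1 : ℕ) : ℝ) ^ 2 * v) = Real.exp (a * v) := by
        rw [← Real.exp_add]
        congr 1
        rw [ha]
        push_cast
        ring
      rw [e2]
      push_cast
      ring_nf
    have e3 : ∀ z w u : ℝ, z + w + u = (z + u) + w := by intros; ring
    rw [e3, e1]
    refine (norm_add_le _ _).trans (add_le_add ?_ ?_)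
    · rw [Real.norm_eq_abs, abs_mul, abs_mul, abs_mul, abs_of_pos (Real.exp_pos _),
        abs_of_pos (by norm_num : (0 : ℝ) < 2)]
      have h2 := Real.abs_cos_le_one (P.g * v)
      have h3 := P.W_one (v := v)
      have e4 : Real.exp ((a - P.b) * v) = Real.exp (a * v) * Real.exp (-P.b * v) := by
        rw [← Real.exp_add]
        congr 1
        ring
      calc 2 * |Real.cos (P.g * v)| * Real.exp (a * v) * |v * P.ck 1 v + 1|
          ≤ 2 * 1 * Real.exp (a * v) * (Real.exp (-P.b * v) * (1 + (v / P.R) ^ 2)) := by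
            gcongr
        _ ≤ 2 * 1 * Real.exp (a * v) * (Real.exp (-P.b * v) * Q) := by gcongr
        _ = 2 * Q * Real.exp ((a - P.b) * v) := by rw [e4]; ring
    · refine (norm_sum_le _ _).trans ?_
      have hterm : ∀ k ∈ (Finset.Icc 1 P.K).erase 1,
          ‖2 * Real.cos (k * P.g * v) * (Real.exp v * Real.exp (-P.lam * (k : ℝ) ^ 2 * v)) *
            (v * P.ck k v)‖ ≤ 2 * Q * Real.exp ((1 - 4 * P.lam) * v) := by
        intro k hk
        rw [Finset.mem_erase, Finset.mem_Icc] at hk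
        have hk2 : 2 ≤ k := by omega
        have hk2' : (2 : ℝ) ≤ k := by exact_mod_cast hk2
        have h2 := Real.abs_cos_le_one (k * P.g * v)
        have h3 := P.W_bd k hv0
        have h4 : Real.exp v * Real.exp (-P.lam * (k : ℝ) ^ 2 * v) ≤
            Real.exp ((1 - 4 * P.lam) * v) := by
          rw [← Real.exp_add, Real.exp_le_exp]
          have h5 : 4 ≤ (k : ℝ) ^ 2 := by
            have h7 := pow_le_pow_left₀ (by norm_num) hk2' 2
            linarith
          have h6 : P.lam * v * 4 ≤ P.lam * v * (k : ℝ) ^ 2 := by gcongr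
          linarith
        rw [Real.norm_eq_abs, abs_mul, abs_mul, abs_mul,
          abs_of_pos (mul_pos (Real.exp_pos _) (Real.exp_pos _)),
          abs_of_pos (by norm_num : (0 : ℝ) < 2)]
        calc 2 * |Real.cos (k * P.g * v)| * (Real.exp v * Real.exp (-P.lam * (k : ℝ) ^ 2 * v)) *
              |v * P.ck k v| ≤ 2 * 1 * Real.exp ((1 - 4 * P.lam) * v) * Q := by
              gcongr
              exact h3.trans hvQ
          _ = 2 * Q * Real.exp ((1 - 4 * P.lam) * v) := by ring
      refine (Finset.sum_le_sum hterm).trans ?_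
      rw [Finset.sum_const, nsmul_eq_mul]
      have hcard : (((Finset.Icc 1 P.K).erase 1).card : ℝ) ≤ P.K := by
        have h7 : ((Finset.Icc 1 P.K).erase 1).card ≤ (Finset.Icc 1 P.K).card :=
          Finset.card_erase_le
        rw [Nat.card_Icc] at h7
        have h8 : ((Finset.Icc 1 P.K).erase 1).card ≤ P.K := by omega
        exact_mod_cast h8
      have h9 : 0 ≤ 2 * Q * Real.exp ((1 - 4 * P.lam) * v) := by positivity
      calc _ ≤ (P.K : ℝ) * (2 * Q * Real.exp ((1 - 4 * P.lam) * v)) :=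
            mul_le_mul_of_nonneg_right hcard h9
        _ = _ := by ring
  -- split the integral
  have hcont : Continuous fun v : ℝ => Real.exp (a * v) * Real.cos (P.g * v) := by fun_prop
  have hI2 : IntervalIntegrable (fun v : ℝ => 2 * (Real.exp (a * v) * Real.cos (P.g * v))) volume
      (Real.log 2) y := (hcont.const_mul 2 |>.intervalIntegrable _ _)
  have hsplit : ∫ v in (Real.log 2)..y, v * Real.exp v * P.m v =
      (∫ v in (Real.log 2)..y, (v * Real.exp v * P.m v +
        2 * (Real.exp (a * v) * Real.cos (P.g * v)))) -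
      2 * ∫ v in (Real.log 2)..y, Real.exp (a * v) * Real.cos (P.g * v) := by
    rw [intervalIntegral.integral_add (P.m_int y) hI2, intervalIntegral.integral_const_mul]
    ring
  have hrem : |∫ v in (Real.log 2)..y, (v * Real.exp v * P.m v +
        2 * (Real.exp (a * v) * Real.cos (P.g * v)))| ≤
      2 * Q * (Real.exp ((a - P.b) * y) / (a - P.b)) +
      2 * P.K * Q * (Real.exp ((1 - 4 * P.lam) * y) / (1 - 4 * P.lam)) := by
    have hc1 : Continuous fun v : ℝ => 2 * Q * Real.exp ((a - P.b) * v) := by fun_prop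
    have hc2 : Continuous fun v : ℝ => 2 * P.K * Q * Real.exp ((1 - 4 * P.lam) * v) := by fun_prop
    have h1 := intervalIntegral.norm_integral_le_of_norm_le (μ := volume) hly
      (Filter.Eventually.of_forall hpt) ((hc1.add hc2).intervalIntegrable _ _)
    rw [Real.norm_eq_abs] at h1
    refine h1.trans ?_
    rw [intervalIntegral.integral_add (hc1.intervalIntegrable _ _) (hc2.intervalIntegrable _ _),
      intervalIntegral.integral_const_mul, intervalIntegral.integral_const_mul]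
    have h2 := int_exp (show 0 < a - P.b by linarith) (Real.log 2) y
    have h3 := int_exp (show 0 < 1 - 4 * P.lam by linarith) (Real.log 2) y
    gcongr
  set E : ℝ := Real.exp (y - 2 * ℓ) with hE
  have hEy : Real.exp y = E * P.g ^ 2 := by
    rw [hE, hgl, ← Real.exp_nat_mul, ← Real.exp_add]
    congr 1
    push_cast
    ring
  have hE0 : 0 < E := Real.exp_pos _
  have hE1 : 1 ≤ E := Real.one_le_exp (by linarith)
  have hg0 : Real.exp (-ℓ) = 1 / P.g := by
    rw [Real.exp_neg, ← hgl, one_div]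
  -- first remainder
  have hr1 : 2 * Q * (Real.exp ((a - P.b) * y) / (a - P.b)) ≤ 1 / 50 * E := by
    have h1 : Real.exp ((a - P.b) * y) ≤ E * (1 / P.g) ^ 3 := by
      have h2 : E * (1 / P.g) ^ 3 = Real.exp (y - 5 * ℓ) := by
        rw [← hg0, hE, ← Real.exp_nat_mul, ← Real.exp_add]
        congr 1
        push_cast
        ring
      rw [h2, Real.exp_le_exp, ha]
      linarith
    have h3 : Real.exp ((a - P.b) * y) / (a - P.b) ≤ 2 * (E * (1 / P.g) ^ 3) := by
      rw [div_le_iff₀ (by linarith)]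
      have h4 : 0 ≤ E * (1 / P.g) ^ 3 := by positivity
      calc Real.exp ((a - P.b) * y) ≤ E * (1 / P.g) ^ 3 * 1 := by rw [mul_one]; exact h1
        _ ≤ E * (1 / P.g) ^ 3 * (2 * (a - P.b)) :=
          mul_le_mul_of_nonneg_left (by linarith) h4
        _ = 2 * (E * (1 / P.g) ^ 3) * (a - P.b) := by ring
    have h5 : 0 ≤ Real.exp ((a - P.b) * y) / (a - P.b) :=
      div_nonneg (Real.exp_pos _).le (by linarith)
    calc 2 * Q * (Real.exp ((a - P.b) * y) / (a - P.b)) ≤
          2 * (2 * P.g) * (2 * (E * (1 / P.g) ^ 3)) :=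
          mul_le_mul (by linarith) h3 h5 (by positivity)
      _ = 8 * E * (1 / P.g) ^ 2 := by
          field_simp
          ring
      _ ≤ 8 * E * (1 / 1000) ^ 2 := by gcongr
      _ ≤ 1 / 50 * E := by linarith
  have hr2 : 2 * P.K * Q * (Real.exp ((1 - 4 * P.lam) * y) / (1 - 4 * P.lam)) ≤ 1 / 50 * E := by
    have h1 : Real.exp ((1 - 4 * P.lam) * y) ≤ E * (1 / P.g) ^ 2 := by
      have h2 : E * (1 / P.g) ^ 2 = Real.exp (y - 4 * ℓ) := by
        rw [← hg0, hE, ← Real.exp_nat_mul, ← Real.exp_add]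
        congr 1
        push_cast
        ring
      rw [h2, Real.exp_le_exp]
      linarith
    have h3 : Real.exp ((1 - 4 * P.lam) * y) / (1 - 4 * P.lam) ≤ 2 * (E * (1 / P.g) ^ 2) := by
      rw [div_le_iff₀ (by linarith)]
      have h4 : 0 ≤ E * (1 / P.g) ^ 2 := by positivity
      calc Real.exp ((1 - 4 * P.lam) * y) ≤ E * (1 / P.g) ^ 2 * 1 := by rw [mul_one]; exact h1
        _ ≤ E * (1 / P.g) ^ 2 * (2 * (1 - 4 * P.lam)) :=
          mul_le_mul_of_nonneg_left (by linarith) h4
        _ = 2 * (E * (1 / P.g) ^ 2) * (1 - 4 * P.lam) := by ring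
    have hKg : (P.K : ℝ) ≤ P.g / 1024 := by
      rw [le_div_iff₀ (by norm_num)]
      have : (P.K : ℝ) * 1024 * 1 ≤ (P.K : ℝ) * 1024 * Real.exp (2 * P.R) := by gcongr
      linarith
    have h5 : 0 ≤ Real.exp ((1 - 4 * P.lam) * y) / (1 - 4 * P.lam) :=
      div_nonneg (Real.exp_pos _).le (by linarith)
    have h6 : 2 * (P.K : ℝ) * Q ≤ 2 * (P.g / 1024) * (2 * P.g) :=
      mul_le_mul (by linarith) hQ1 hQ0.le (by positivity)
    calc 2 * P.K * Q * (Real.exp ((1 - 4 * P.lam) * y) / (1 - 4 * P.lam)) ≤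
          2 * (P.g / 1024) * (2 * P.g) * (2 * (E * (1 / P.g) ^ 2)) :=
          mul_le_mul h6 h3 h5 (by positivity)
      _ = 8 / 1024 * E := by
          field_simp
          ring
      _ ≤ 1 / 50 * E := by linarith
  -- the main term
  have hmain : 19 / 10 * E - 1 / 10 ≤
      -(c * (2 * ∫ v in (Real.log 2)..y, Real.exp (a * v) * Real.cos (P.g * v))) := by
    rw [int_cos hgpos a (Real.log 2) y, hsin, hcos, mul_zero, zero_add]
    have hden : 0 < a ^ 2 + P.g ^ 2 := by positivity
    have hgg : 1000 * P.g ≤ P.g ^ 2 := by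
      rw [sq]
      exact mul_le_mul_of_nonneg_right hg2 hgpos.le
    have h1 : 19 / 20 * E ≤ Real.exp (a * y) * P.g / (a ^ 2 + P.g ^ 2) := by
      rw [le_div_iff₀ hden]
      have h2 : Real.exp (a * y) = E * P.g ^ 2 * Real.exp (-(P.lam * y)) := by
        rw [← hEy, ← Real.exp_add]
        congr 1
        rw [ha]
        ring
      have h3 : 1 / P.g * (1 - 1 / P.g) ≤ Real.exp (-(P.lam * y)) := by
        have h4 : Real.exp (-(ℓ + 1 / P.g)) ≤ Real.exp (-(P.lam * y)) := by
          rw [Real.exp_le_exp]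
          linarith
        have h5 : Real.exp (-(ℓ + 1 / P.g)) = 1 / P.g * Real.exp (-(1 / P.g)) := by
          rw [← hg0, ← Real.exp_add]
          congr 1
          ring
        have h6 := Real.add_one_le_exp (-(1 / P.g))
        have h7 : 0 < 1 / P.g := by positivity
        calc 1 / P.g * (1 - 1 / P.g) ≤ 1 / P.g * Real.exp (-(1 / P.g)) := by
              apply mul_le_mul_of_nonneg_left _ h7.le
              linarith
          _ = Real.exp (-(ℓ + 1 / P.g)) := h5.symm
          _ ≤ _ := h4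
      rw [h2]
      calc 19 / 20 * E * (a ^ 2 + P.g ^ 2) ≤ 19 / 20 * E * (1 + P.g ^ 2) := by
            have : a ^ 2 ≤ 1 := pow_le_one₀ (by linarith) ha2
            gcongr
        _ ≤ E * P.g ^ 2 * (1 / P.g * (1 - 1 / P.g)) * P.g := by
            have h8 : E * P.g ^ 2 * (1 / P.g * (1 - 1 / P.g)) * P.g = E * (P.g ^ 2 - P.g) := by
              field_simp
            rw [h8]
            have h9 : 19 / 20 * (1 + P.g ^ 2) ≤ P.g ^ 2 - P.g := by linarith
            calc 19 / 20 * E * (1 + P.g ^ 2) = E * (19 / 20 * (1 + P.g ^ 2)) := by ring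
              _ ≤ E * (P.g ^ 2 - P.g) := mul_le_mul_of_nonneg_left h9 hE0.le
        _ ≤ E * P.g ^ 2 * Real.exp (-(P.lam * y)) * P.g := by gcongr
    have h10 : |Real.exp (a * Real.log 2) * (a * Real.cos (P.g * Real.log 2) +
        P.g * Real.sin (P.g * Real.log 2)) / (a ^ 2 + P.g ^ 2)| ≤ 1 / 20 := by
      rw [abs_div, abs_mul, abs_of_pos (Real.exp_pos _), abs_of_pos hden, div_le_iff₀ hden]
      have h11 : Real.exp (a * Real.log 2) ≤ 2 := by
        calc Real.exp (a * Real.log 2) ≤ Real.exp (Real.log 2) := by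
              rw [Real.exp_le_exp]
              exact mul_le_of_le_one_left hlog2.le ha2
          _ = 2 := Real.exp_log (by norm_num)
      have h12 : |a * Real.cos (P.g * Real.log 2) + P.g * Real.sin (P.g * Real.log 2)| ≤
          1 + P.g := by
        have h13 := Real.abs_cos_le_one (P.g * Real.log 2)
        have h14 := Real.abs_sin_le_one (P.g * Real.log 2)
        calc |a * Real.cos (P.g * Real.log 2) + P.g * Real.sin (P.g * Real.log 2)| ≤
              |a * Real.cos (P.g * Real.log 2)| + |P.g * Real.sin (P.g * Real.log 2)| :=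
              abs_add_le _ _
          _ ≤ 1 + P.g := by
              rw [abs_mul, abs_mul, abs_of_pos (by linarith : 0 < a), abs_of_pos hgpos]
              exact add_le_add (mul_le_one₀ ha2 (abs_nonneg _) h13)
                (mul_le_of_le_one_right hgpos.le h14)
      calc Real.exp (a * Real.log 2) *
            |a * Real.cos (P.g * Real.log 2) + P.g * Real.sin (P.g * Real.log 2)|
          ≤ 2 * (1 + P.g) := by gcongr
        _ ≤ 1 / 20 * (a ^ 2 + P.g ^ 2) := by linarith [sq_nonneg a]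
    have h16 : ∀ X : ℝ, -(c * (2 * (Real.exp (a * y) * (P.g * -c) / (a ^ 2 + P.g ^ 2) - X))) =
        2 * (Real.exp (a * y) * P.g / (a ^ 2 + P.g ^ 2)) + 2 * (c * X) := by
      intro X
      have h17 : -(c * (2 * (Real.exp (a * y) * (P.g * -c) / (a ^ 2 + P.g ^ 2) - X))) =
        (c * c) * (2 * (Real.exp (a * y) * P.g / (a ^ 2 + P.g ^ 2))) + 2 * (c * X) := by ring
      rw [h17, hcc, one_mul]
    rw [h16]
    have h18 : |c * (Real.exp (a * Real.log 2) * (a * Real.cos (P.g * Real.log 2) +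
        P.g * Real.sin (P.g * Real.log 2)) / (a ^ 2 + P.g ^ 2))| ≤ 1 / 20 := by
      rw [abs_mul, hcabs, one_mul]
      exact h10
    have h15 := (abs_le.mp h18).1
    linarith
  rw [hsplit]
  have hr : |c * ∫ v in (Real.log 2)..y, (v * Real.exp v * P.m v +
        2 * (Real.exp (a * v) * Real.cos (P.g * v)))| ≤ 1 / 50 * E + 1 / 50 * E := by
    rw [abs_mul, hcabs, one_mul]
    exact hrem.trans (add_le_add hr1 hr2)
  have hr' := (abs_le.mp hr).1
  rw [mul_sub]
  linarith

end Blk

end VO
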