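import Pool.Agent.H15.VO.Defs

/-!
# Par : choice of the parameters, and the real inequalities for them

`ℓ = log g`, `L = log ℓ`, `R = c0 L^(1/3) ℓ^(2/3)`, `b = ℓ^(-1/2)`, `K = ⌈2 b R⌉`. All the conditions of `Blk` and of
`exists_blk` hold for every large `g`; `exists_sparse` is the recursion on `n` with `M` larger than `g ^ 4`, `24 R`, `8 K g` of the
previous block. For `Sparse.eps` it is enough to treat `j = n - 1`, because `g` increases.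
-/

set_option autoImplicit false

open Complex MeasureTheory Set Filter Topology

namespace VO

/-- the relation between the parameters of a block -/
structure Par (c0 X0 : ℝ) (P : Blk) : Prop where
  big : X0 ≤ Real.log P.g
  R : P.R = c0 * Real.log (Real.log P.g) ^ (1 / 3 : ℝ) * Real.log P.g ^ (2 / 3 : ℝ)
  b : P.b = Real.log P.g ^ (-(1 / 2) : ℝ)

/-- `(log t) ^ (1/3) t ^ (-1/3)` tends to zero -/
private theorem par_q : Tendsto (fun t : ℝ => Real.log t ^ (1 / 3 : ℝ) * t ^ (-(1 / 3) : ℝ)) atTop (𝓝 0) := by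
  have h := isLittleO_log_rpow_rpow_atTop (s := (1 / 3 : ℝ)) (r := (1 / 3 : ℝ)) (by norm_num)
  have h2 := h.tendsto_div_nhds_zero
  refine h2.congr' ?_
  filter_upwards [eventually_gt_atTop (0 : ℝ)] with t ht
  rw [Real.rpow_neg ht.le, div_eq_mul_inv]

private theorem par_R {c0 : ℝ} (hc : 0 < c0) :
    Tendsto (fun t : ℝ => c0 * Real.log t ^ (1 / 3 : ℝ) * t ^ (2 / 3 : ℝ)) atTop atTop := by
  have h1 : Tendsto (fun t : ℝ => c0 * t ^ (2 / 3 : ℝ)) atTop atTop :=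
    (tendsto_rpow_atTop (by norm_num)).const_mul_atTop hc
  refine tendsto_atTop_mono' _ ?_ h1
  filter_upwards [eventually_gt_atTop (0 : ℝ), Real.tendsto_log_atTop.eventually_ge_atTop 1] with t ht hl
  have h2 : (1 : ℝ) ≤ Real.log t ^ (1 / 3 : ℝ) := Real.one_le_rpow hl (by norm_num)
  have h3 : 0 ≤ t ^ (2 / 3 : ℝ) := Real.rpow_nonneg ht.le _
  have h4 : 0 ≤ c0 * t ^ (2 / 3 : ℝ) := mul_nonneg hc.le h3
  nlinarith

private theorem par_bR {c0 : ℝ} (hc : 0 < c0) :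
    Tendsto (fun t : ℝ => t ^ (-(1 / 2) : ℝ) * (c0 * Real.log t ^ (1 / 3 : ℝ) * t ^ (2 / 3 : ℝ)))
      atTop atTop := by
  have h1 : Tendsto (fun t : ℝ => c0 * t ^ (1 / 6 : ℝ)) atTop atTop :=
    (tendsto_rpow_atTop (by norm_num)).const_mul_atTop hc
  refine tendsto_atTop_mono' _ ?_ h1
  filter_upwards [eventually_gt_atTop (0 : ℝ), Real.tendsto_log_atTop.eventually_ge_atTop 1] with t ht hl
  have h2 : (1 : ℝ) ≤ Real.log t ^ (1 / 3 : ℝ) := Real.one_le_rpow hl (by norm_num)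
  have h3 : t ^ (-(1 / 2) : ℝ) * t ^ (2 / 3 : ℝ) = t ^ (1 / 6 : ℝ) := by
    rw [← Real.rpow_add ht]; norm_num
  have h5 : 0 ≤ t ^ (1 / 6 : ℝ) := Real.rpow_nonneg ht.le _
  have h4 : 0 ≤ c0 * t ^ (1 / 6 : ℝ) := mul_nonneg hc.le h5
  have h6 : t ^ (-(1 / 2) : ℝ) * (c0 * Real.log t ^ (1 / 3 : ℝ) * t ^ (2 / 3 : ℝ)) =
      (c0 * t ^ (1 / 6 : ℝ)) * Real.log t ^ (1 / 3 : ℝ) := by
    rw [← h3]; ring
  rw [h6]
  nlinarith

private theorem par_b : Tendsto (fun t : ℝ => t ^ (-(1 / 2) : ℝ)) atTop (𝓝 0) :=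
  tendsto_rpow_neg_atTop (by norm_num)

private theorem par_rel {c0 t : ℝ} (ht : 0 < t) :
    (c0 * Real.log t ^ (1 / 3 : ℝ) * t ^ (2 / 3 : ℝ)) * (t ^ (-(1 / 2) : ℝ)) ^ 2 =
      c0 * (Real.log t ^ (1 / 3 : ℝ) * t ^ (-(1 / 3) : ℝ)) ∧
    c0 * Real.log t ^ (1 / 3 : ℝ) * t ^ (2 / 3 : ℝ) =
      c0 * (Real.log t ^ (1 / 3 : ℝ) * t ^ (-(1 / 3) : ℝ)) * t := by
  constructor
  · have h1 : (t ^ (-(1 / 2) : ℝ)) ^ 2 = t ^ (-1 : ℝ) := by
      rw [← Real.rpow_natCast, ← Real.rpow_mul ht.le]; norm_num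
    have h2 : t ^ (2 / 3 : ℝ) * t ^ (-1 : ℝ) = t ^ (-(1 / 3) : ℝ) := by
      rw [← Real.rpow_add ht]; norm_num
    rw [h1, ← h2]; ring
  · have h2 : t ^ (-(1 / 3) : ℝ) * t = t ^ (2 / 3 : ℝ) := by
      nth_rewrite 2 [← Real.rpow_one t]
      rw [← Real.rpow_add ht]; norm_num
    rw [← h2]; ring

theorem exists_blk {c0 : ℝ} (hc : 0 < c0) (X0 : ℝ) (n : ℕ) (M : ℝ) :
    ∃ P : Blk, Par c0 X0 P ∧ 2 * (P.K : ℝ) * P.b ≤ (1 / 2) ^ (n + 3) ∧
      2 * (P.K : ℝ) * P.b * M ≤ (1 / 2) ^ (n + 3) ∧ M ≤ P.R ∧ P.b * M ≤ 1 ∧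
      M ≤ P.g ∧ 1024 * (P.K : ℝ) * Real.exp (2 * P.R) * 2 ^ n ≤ P.g := by
  -- a bound for `|M| + 1`
  obtain ⟨M', hM', hMM⟩ : ∃ M' : ℝ, 1 ≤ M' ∧ M ≤ M' := ⟨max 1 M, le_max_left _ _, le_max_right _ _⟩
  have hM0 : 0 < M' := by linarith
  -- the small quantity
  set δ : ℝ := (1 / 2) ^ (n + 3) / (40 * M') with hδ
  have hp : (0 : ℝ) < (1 / 2) ^ (n + 3) := by positivity
  have hp1 : ((1 : ℝ) / 2) ^ (n + 3) ≤ 1 := pow_le_one₀ (by norm_num) (by norm_num)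
  have hδ0 : 0 < δ := by positivity
  have e1 : ∀ᶠ t : ℝ in atTop, c0 * (Real.log t ^ (1 / 3 : ℝ) * t ^ (-(1 / 3) : ℝ)) < δ := by
    have h := par_q.const_mul c0
    rw [mul_zero] at h
    exact h.eventually_lt_const hδ0
  have e2 : ∀ᶠ t : ℝ in atTop, t ^ (-(1 / 2) : ℝ) < δ := par_b.eventually_lt_const hδ0
  have e3 := (par_R hc).eventually_ge_atTop (max 1 M')
  have e4 := (par_bR hc).eventually_ge_atTop 1
  have e5 : ∀ᶠ t : ℝ in atTop, (1024 : ℝ) * 2 ^ n ≤ Real.exp (t / 2) := by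
    have h : Tendsto (fun t : ℝ => Real.exp (t / 2)) atTop atTop :=
      Real.tendsto_exp_atTop.comp (tendsto_id.atTop_div_const (by norm_num))
    exact h.eventually_ge_atTop _
  have e6 : ∀ᶠ t : ℝ in atTop, M ≤ Real.exp t := Real.tendsto_exp_atTop.eventually_ge_atTop M
  obtain ⟨t, h1, h2, h3, h4, h5, h6, h7, h8⟩ := (e1.and (e2.and (e3.and (e4.and (e5.and
    (e6.and ((eventually_ge_atTop (max 1 X0)).and (eventually_gt_atTop (0 : ℝ))))))))).exists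
  obtain ⟨r1, r2⟩ := par_rel (c0 := c0) h8
  set R : ℝ := c0 * Real.log t ^ (1 / 3 : ℝ) * t ^ (2 / 3 : ℝ) with hR
  set b : ℝ := t ^ (-(1 / 2) : ℝ) with hb
  set q : ℝ := c0 * (Real.log t ^ (1 / 3 : ℝ) * t ^ (-(1 / 3) : ℝ)) with hq
  have hb0 : 0 < b := Real.rpow_pos_of_pos h8 _
  have hR1 : 1 ≤ R := le_trans (le_max_left _ _) h3
  have hRM : M' ≤ R := le_trans (le_max_right _ _) h3
  have hδ1 : δ ≤ 1 / 320 := by
    rw [hδ, div_le_div_iff₀ (by positivity) (by norm_num)]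
    have h9 : ((1 : ℝ) / 2) ^ (n + 3) ≤ (1 / 2) ^ 3 :=
      pow_le_pow_of_le_one (by norm_num) (by norm_num) (by omega)
    nlinarith
  have hδM : 40 * δ * M' = (1 / 2) ^ (n + 3) := by
    rw [hδ]; field_simp
  have hK1 : (⌈2 * b * R⌉₊ : ℝ) < 2 * b * R + 1 := Nat.ceil_lt_add_one (by positivity)
  have hK0 : 2 * b * R ≤ (⌈2 * b * R⌉₊ : ℝ) := Nat.le_ceil _
  have hKb : (⌈2 * b * R⌉₊ : ℝ) * b ≤ 3 * δ := by
    have h9 : (⌈2 * b * R⌉₊ : ℝ) * b ≤ (2 * b * R + 1) * b := by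
      apply mul_le_mul_of_nonneg_right hK1.le hb0.le
    have h10 : (2 * b * R + 1) * b = 2 * q + b := by rw [← r1]; ring
    linarith
  have hKn : (0 : ℝ) ≤ (⌈2 * b * R⌉₊ : ℝ) := Nat.cast_nonneg _
  have hKe : 1024 * (⌈2 * b * R⌉₊ : ℝ) * Real.exp (2 * R) * 2 ^ n ≤ Real.exp t := by
    have h9 : (⌈2 * b * R⌉₊ : ℝ) ≤ Real.exp (2 * R) := by
      have h10 : 2 * b * R + 1 ≤ 2 * R + 1 := by
        have : b ≤ 1 := by linarith
        nlinarith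
      linarith [Real.add_one_le_exp (2 * R)]
    have h11 : Real.exp (2 * R) * Real.exp (2 * R) ≤ Real.exp (t / 2) := by
      rw [← Real.exp_add]
      apply Real.exp_le_exp.mpr
      rw [r2]
      nlinarith
    have h12 : (⌈2 * b * R⌉₊ : ℝ) * Real.exp (2 * R) ≤ Real.exp (t / 2) :=
      le_trans (mul_le_mul_of_nonneg_right h9 (Real.exp_pos _).le) h11
    calc 1024 * (⌈2 * b * R⌉₊ : ℝ) * Real.exp (2 * R) * 2 ^ n
        = (1024 * 2 ^ n) * ((⌈2 * b * R⌉₊ : ℝ) * Real.exp (2 * R)) := by ring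
      _ ≤ Real.exp (t / 2) * Real.exp (t / 2) :=
          mul_le_mul h5 h12 (mul_nonneg hKn (Real.exp_pos _).le) (Real.exp_pos _).le
      _ = Real.exp t := by rw [← Real.exp_add]; congr 1; ring
  refine ⟨⟨Real.exp t, R, b, ⌈2 * b * R⌉₊, hR1, hb0, by linarith, h4, hK0, by linarith, ?_, ?_⟩,
    ⟨?_, ?_, ?_⟩, ?_, ?_, ?_, ?_, ?_, ?_⟩
  · rw [r1]; linarith
  · refine le_trans ?_ hKe
    have h9 : (1 : ℝ) ≤ 2 ^ n := one_le_pow₀ (by norm_num)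
    have h10 : 0 ≤ 1024 * (⌈2 * b * R⌉₊ : ℝ) * Real.exp (2 * R) := by positivity
    nlinarith
  · show X0 ≤ Real.log (Real.exp t)
    rw [Real.log_exp]
    exact le_trans (le_max_right _ _) h7
  · show R = c0 * Real.log (Real.log (Real.exp t)) ^ (1 / 3 : ℝ) * Real.log (Real.exp t) ^ (2 / 3 : ℝ)
    rw [Real.log_exp]
  · show b = Real.log (Real.exp t) ^ (-(1 / 2) : ℝ)
    rw [Real.log_exp]
  · show 2 * (⌈2 * b * R⌉₊ : ℝ) * b ≤ (1 / 2) ^ (n + 3)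
    rw [← hδM]
    nlinarith
  · show 2 * (⌈2 * b * R⌉₊ : ℝ) * b * M ≤ (1 / 2) ^ (n + 3)
    have h9 : 0 ≤ (⌈2 * b * R⌉₊ : ℝ) * b := mul_nonneg hKn hb0.le
    have h10 : (⌈2 * b * R⌉₊ : ℝ) * b * M ≤ 3 * δ * M' := by
      calc (⌈2 * b * R⌉₊ : ℝ) * b * M ≤ (⌈2 * b * R⌉₊ : ℝ) * b * M' :=
            mul_le_mul_of_nonneg_left hMM h9
        _ ≤ 3 * δ * M' := mul_le_mul_of_nonneg_right hKb hM0.le
    rw [← hδM]
    nlinarith [mul_pos hδ0 hM0]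
  · show M ≤ R
    linarith
  · show b * M ≤ 1
    have h9 : b * M ≤ δ * M' := by
      calc b * M ≤ b * M' := mul_le_mul_of_nonneg_left hMM hb0.le
        _ ≤ δ * M' := mul_le_mul_of_nonneg_right h2.le hM0.le
    nlinarith [mul_pos hδ0 hM0]
  · exact h6
  · exact hKe

theorem exists_sparse {c0 : ℝ} (hc : 0 < c0) (X0 : ℝ) :
    ∃ P : ℕ → Blk, Sparse P ∧ ∀ n, Par c0 X0 (P n) := by
  choose f hf using fun (n : ℕ) (M : ℝ) => exists_blk hc X0 n M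
  let mm : Blk → ℝ := fun B => B.g ^ 4 + 24 * B.R + 8 * (B.K : ℝ) * B.g
  let P : ℕ → Blk := fun n => Nat.rec (f 0 0) (fun k B => f (k + 1) (mm B)) n
  have hP0 : P 0 = f 0 0 := rfl
  have hPs : ∀ n, P (n + 1) = f (n + 1) (mm (P n)) := fun n => rfl
  have key : ∀ n, ∃ M, P n = f n M := by
    intro n
    cases n with
    | zero => exact ⟨0, hP0⟩
    | succ k => exact ⟨_, hPs k⟩
  have hK2 : ∀ B : Blk, (1 : ℝ) ≤ B.K := by
    intro B
    have h1 := B.hK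
    have h2 := B.hbR
    nlinarith
  have hg1 : ∀ B : Blk, (1 : ℝ) ≤ B.g := by
    intro B
    have h1 := B.hg
    have h2 := hK2 B
    have h3 : (1 : ℝ) ≤ Real.exp (2 * B.R) := Real.one_le_exp (by linarith [B.hR])
    have h4 : (1 : ℝ) ≤ (B.K : ℝ) * Real.exp (2 * B.R) := by nlinarith
    nlinarith
  have hmm1 : ∀ B : Blk, B.g ^ 4 ≤ mm B ∧ 24 * B.R ≤ mm B ∧ 8 * (B.K : ℝ) * B.g ≤ mm B ∧
      B.R ≤ mm B ∧ B.g ≤ mm B := by
    intro B
    have h1 := hK2 B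
    have h2 := hg1 B
    have h3 := B.hR
    have h4 : 0 ≤ B.g ^ 4 := by positivity
    have h5 : B.g ≤ 8 * (B.K : ℝ) * B.g := by nlinarith
    refine ⟨?_, ?_, ?_, ?_, ?_⟩ <;> show _ ≤ B.g ^ 4 + 24 * B.R + 8 * (B.K : ℝ) * B.g <;> linarith
  have hgs : ∀ n, (P n).g ≤ (P (n + 1)).g := by
    intro n
    rw [hPs n]
    exact le_trans (hmm1 (P n)).2.2.2.2 (hf (n + 1) (mm (P n))).2.2.2.2.2.1
  have hgm : Monotone fun n => (P n).g := monotone_nat_of_le_succ hgs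
  refine ⟨P, ⟨?_, ?_, ?_, ?_, ?_, ?_⟩, ?_⟩
  · intro n
    obtain ⟨M, hM⟩ := key n
    rw [hM]
    exact (hf n M).2.1
  · intro j n hjn
    obtain ⟨k, rfl⟩ : ∃ k, n = k + 1 := ⟨n - 1, by omega⟩
    have h1 : (P j).g ^ 4 ≤ mm (P k) := by
      refine le_trans ?_ (hmm1 (P k)).1
      exact pow_le_pow_left₀ (by linarith [hg1 (P j)]) (hgm (show j ≤ k by omega)) 4
    have h2 := (hf (k + 1) (mm (P k))).2.2.1
    rw [← hPs k] at h2
    refine le_trans (mul_le_mul_of_nonneg_left h1 ?_) h2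
    have := (P (k + 1)).hb
    positivity
  · intro n
    refine le_trans (hmm1 (P n)).2.1 ?_
    rw [hPs n]
    exact (hf (n + 1) (mm (P n))).2.2.2.1
  · intro n
    have h2 := (hf (n + 1) (mm (P n))).2.2.2.2.1
    rw [← hPs n] at h2
    refine le_trans (mul_le_mul_of_nonneg_left (hmm1 (P n)).2.2.2.1 ?_) h2
    exact (P (n + 1)).hb.le
  · intro n
    refine le_trans (hmm1 (P n)).2.2.1 ?_
    rw [hPs n]
    exact (hf (n + 1) (mm (P n))).2.2.2.2.2.1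
  · intro n
    obtain ⟨M, hM⟩ := key n
    rw [hM]
    exact (hf n M).2.2.2.2.2.2
  · intro n
    obtain ⟨M, hM⟩ := key n
    rw [hM]
    exact (hf n M).1

end VO
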