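import Mathlib
import Pool.Agent.H6.Perron

/-!
# PerA : the kernel `x^(s+1) / (s (s+1))`

`perron_kernel`: as `H6.tri_inversion` in `Pool/Agent/H6/Perron.lean` (Mellin inversion of `max (1 - v) 0`), with a real `a > 0` in
place of the natural number `n`.

`ker_diff`: `‖(x+h)^(s+1) - x^(s+1)‖ ≤ ‖s + 1‖ h (2 x)^σ` (integral of the derivative) and `≤ 2 (2 x)^(σ+1)`, `‖s‖ ≤ ‖s + 1‖`, and
`min α β ≤ α^(1-δ) β^δ` with `α = 2 h x^σ / ‖s‖`, `β = 8 x^(σ+1) / ‖s‖²`.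
-/

set_option autoImplicit false

open Complex MeasureTheory Set Filter Topology

namespace VO

private lemma den_ne {c : ℝ} (hc : 0 < c) (y : ℝ) :
    ((c : ℂ) + y * I) * ((c : ℂ) + y * I + 1) ≠ 0 := by
  have h2 : (c : ℂ) + y * I ≠ 0 := by
    intro h
    have := congrArg Complex.re h
    simp at this
    linarith
  have h3 : (c : ℂ) + y * I + 1 ≠ 0 := by
    intro h
    have := congrArg Complex.re h
    simp at this
    linarith
  exact mul_ne_zero h2 h3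

theorem perron_kernel {c : ℝ} (hc : 0 < c) {x a : ℝ} (hx : 0 < x) (ha : 0 < a) :
    Integrable (fun y : ℝ => (x : ℂ) ^ ((c : ℂ) + y * I + 1) /
      (((c : ℂ) + y * I) * ((c : ℂ) + y * I + 1)) * (a : ℂ) ^ (-((c : ℂ) + y * I))) ∧
    ((max (x - a) 0 : ℝ) : ℂ) = (1 / (2 * Real.pi) : ℂ) *
      ∫ y : ℝ, (x : ℂ) ^ ((c : ℂ) + y * I + 1) /
        (((c : ℂ) + y * I) * ((c : ℂ) + y * I + 1)) * (a : ℂ) ^ (-((c : ℂ) + y * I)) := by
  have hXc : (x : ℂ) ≠ 0 := by exact_mod_cast hx.ne'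
  have hnc : (a : ℂ) ≠ 0 := by exact_mod_cast ha.ne'
  constructor
  · have h1 := (Pool.Agent.H6.integrable_bound hc).const_mul (x ^ (c + 1) * a ^ (-c))
    refine h1.mono' ?_ (Eventually.of_forall fun y ↦ ?_)
    · refine Continuous.aestronglyMeasurable ?_
      refine Continuous.mul (Continuous.div ?_ (by fun_prop) (den_ne hc)) ?_
      · exact Continuous.const_cpow (by fun_prop) (Or.inl hXc)
      · exact Continuous.const_cpow (by fun_prop) (Or.inl hnc)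
    · rw [norm_mul, norm_div, norm_mul, norm_cpow_eq_rpow_re_of_pos hx,
        norm_cpow_eq_rpow_re_of_pos ha]
      have h4 : ((c : ℂ) + y * I + 1).re = c + 1 := by simp
      have h5 : (-((c : ℂ) + y * I)).re = -c := by simp
      rw [h4, h5]
      apply le_of_eq
      ring
  · have hxx : 0 < a / x := by positivity
    have hconv : MellinConvergent Pool.Agent.H6.tri (c : ℂ) :=
      (Pool.Agent.H6.tri_hasMellin (s := (c : ℂ)) (by simpa using hc)).1
    have hmel : ∀ y : ℝ, mellin Pool.Agent.H6.tri ((c : ℂ) + y * I)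
        = 1 / (((c : ℂ) + y * I) * ((c : ℂ) + y * I + 1)) := fun y ↦
      (Pool.Agent.H6.tri_hasMellin (by simpa using hc)).2
    have hvi : VerticalIntegrable (mellin Pool.Agent.H6.tri) c volume := by
      unfold VerticalIntegrable
      have h1 := Pool.Agent.H6.integrable_bound hc
      refine h1.mono' ?_ (Eventually.of_forall fun y ↦ ?_)
      · refine Continuous.aestronglyMeasurable ?_
        have : (fun y : ℝ ↦ mellin Pool.Agent.H6.tri ((c : ℂ) + y * I)) = fun y : ℝ ↦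
            1 / (((c : ℂ) + y * I) * ((c : ℂ) + y * I + 1)) := funext hmel
        rw [this]
        exact Continuous.div continuous_const (by fun_prop) (den_ne hc)
      · rw [hmel, norm_div, norm_one, norm_mul]
    have key := mellinInv_mellin_eq c Pool.Agent.H6.tri hxx hconv hvi
      (Pool.Agent.H6.tri_continuousAt hxx)
    rw [Pool.Agent.H6.tri_eq hxx] at key
    have h5 : (max (x - a) 0 : ℝ) = x * max (1 - a / x) 0 := by
      rw [mul_max_of_nonneg _ _ hx.le, mul_zero]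
      congr 1
      field_simp
    rw [h5, ofReal_mul, ← key, mellinInv]
    rw [real_smul, ← mul_assoc, mul_comm (x : ℂ), mul_assoc]
    push_cast
    congr 1
    rw [← integral_const_mul]
    refine integral_congr_ae (Eventually.of_forall fun y ↦ ?_)
    simp only [smul_eq_mul]
    rw [hmel]
    have h6 : ((a : ℂ) / x) ^ (-((c : ℂ) + y * I))
        = (a : ℂ) ^ (-((c : ℂ) + y * I)) * (x : ℂ) ^ ((c : ℂ) + y * I) := by
      have h7 : ((a : ℂ) / x) = (a : ℂ) * ((x⁻¹ : ℝ) : ℂ) := by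
        push_cast; rw [div_eq_mul_inv]
      rw [h7, mul_cpow_ofReal_nonneg ha.le (by positivity)]
      congr 1
      rw [ofReal_inv, inv_cpow _ _ (by rw [arg_ofReal_of_nonneg hx.le]; exact Real.pi_pos.ne),
        ← cpow_neg, neg_neg]
    have h8 : (x : ℂ) ^ ((c : ℂ) + y * I + 1) = (x : ℂ) ^ ((c : ℂ) + y * I) * x := by
      rw [cpow_add _ _ hXc, cpow_one]
    rw [h6, h8]
    ring

private lemma norm_le_norm_add_one {s : ℂ} (hs : 0 < s.re) : ‖s‖ ≤ ‖s + 1‖ := by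
  rw [← sq_le_sq₀ (norm_nonneg _) (norm_nonneg _), ← normSq_eq_norm_sq, ← normSq_eq_norm_sq,
    normSq_apply, normSq_apply]
  simp
  nlinarith

theorem ker_diff {δ : ℝ} (h0 : 0 < δ) (h1 : δ < 1) {x h : ℝ} (hx : 1 ≤ x) (hh : 0 < h) (hhx : h ≤ x)
    {s : ℂ} (hs : 0 < s.re) (hs1 : s.re ≤ 1) :
    ‖((x + h : ℝ) : ℂ) ^ (s + 1) - (x : ℂ) ^ (s + 1)‖ / ‖s * (s + 1)‖ ≤
      8 * h ^ (1 - δ) * x ^ (s.re + δ) / ‖s‖ ^ (1 + δ) := by
  have hx0 : 0 < x := by linarith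
  have hs0 : s ≠ 0 := by intro h'; rw [h'] at hs; simp at hs
  have hn : 0 < ‖s‖ := norm_pos_iff.2 hs0
  have hs10 : s + 1 ≠ 0 := by
    intro h'
    have := congrArg Complex.re h'
    simp at this
    linarith
  have hn1 : 0 < ‖s + 1‖ := norm_pos_iff.2 hs10
  have hle := norm_le_norm_add_one hs
  have hre1 : (s + 1).re = s.re + 1 := by simp
  -- first bound
  have hA1 : ‖((x + h : ℝ) : ℂ) ^ (s + 1) - (x : ℂ) ^ (s + 1)‖ ≤ ‖s + 1‖ * (2 * x ^ s.re * h) := by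
    have hder : ∀ t ∈ Icc x (x + h), HasDerivWithinAt (fun y : ℝ => (y : ℂ) ^ (s + 1) / (s + 1))
        ((t : ℂ) ^ s) (Icc x (x + h)) t := by
      intro t ht
      have ht0 : t ≠ 0 := by have := ht.1; linarith
      have hsne : s ≠ -1 := by
        intro h'
        rw [h'] at hs
        simp at hs
        linarith
      exact (hasDerivAt_ofReal_cpow_const' ht0 hsne).hasDerivWithinAt
    have hbd : ∀ t ∈ Ico x (x + h), ‖(t : ℂ) ^ s‖ ≤ 2 * x ^ s.re := by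
      intro t ht
      have ht0 : 0 < t := by have := ht.1; linarith
      rw [norm_cpow_eq_rpow_re_of_pos ht0]
      have h2 : t ≤ 2 * x := by have := ht.2; linarith
      calc t ^ s.re ≤ (2 * x) ^ s.re := Real.rpow_le_rpow ht0.le h2 hs.le
        _ = 2 ^ s.re * x ^ s.re := Real.mul_rpow (by norm_num) hx0.le
        _ ≤ 2 * x ^ s.re := by
          apply mul_le_mul_of_nonneg_right _ (Real.rpow_nonneg hx0.le _)
          calc (2 : ℝ) ^ s.re ≤ 2 ^ (1 : ℝ) := Real.rpow_le_rpow_of_exponent_le (by norm_num) hs1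
            _ = 2 := Real.rpow_one 2
    have hm := norm_image_sub_le_of_norm_deriv_le_segment' hder hbd (x + h) ⟨by linarith, le_rfl⟩
    have e : ((x + h : ℝ) : ℂ) ^ (s + 1) - (x : ℂ) ^ (s + 1) =
        (s + 1) * (((x + h : ℝ) : ℂ) ^ (s + 1) / (s + 1) - (x : ℂ) ^ (s + 1) / (s + 1)) := by
      field_simp
    rw [e, norm_mul]
    have e2 : x + h - x = h := by ring
    rw [e2] at hm
    exact mul_le_mul_of_nonneg_left hm hn1.le
  -- second bound
  have hA2 : ‖((x + h : ℝ) : ℂ) ^ (s + 1) - (x : ℂ) ^ (s + 1)‖ ≤ 8 * x ^ (s.re + 1) := by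
    have hb : ∀ t : ℝ, 0 < t → t ≤ 2 * x → ‖(t : ℂ) ^ (s + 1)‖ ≤ 4 * x ^ (s.re + 1) := by
      intro t ht0 h2
      rw [norm_cpow_eq_rpow_re_of_pos ht0, hre1]
      calc t ^ (s.re + 1) ≤ (2 * x) ^ (s.re + 1) := Real.rpow_le_rpow ht0.le h2 (by linarith)
        _ = 2 ^ (s.re + 1) * x ^ (s.re + 1) := Real.mul_rpow (by norm_num) hx0.le
        _ ≤ 4 * x ^ (s.re + 1) := by
          apply mul_le_mul_of_nonneg_right _ (Real.rpow_nonneg hx0.le _)
          calc (2 : ℝ) ^ (s.re + 1) ≤ 2 ^ (2 : ℝ) :=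
                Real.rpow_le_rpow_of_exponent_le (by norm_num) (by linarith)
            _ = 4 := by norm_num
    have := norm_sub_le (((x + h : ℝ) : ℂ) ^ (s + 1)) ((x : ℂ) ^ (s + 1))
    have b1 := hb (x + h) (by linarith) (by linarith)
    have b2 := hb x hx0 (by linarith)
    linarith
  set Q : ℝ := ‖((x + h : ℝ) : ℂ) ^ (s + 1) - (x : ℂ) ^ (s + 1)‖ / ‖s * (s + 1)‖ with hQ
  have hQ0 : 0 ≤ Q := by positivity
  have hq1 : Q / 8 ≤ h * x ^ s.re / ‖s‖ := by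
    rw [hQ, norm_mul, div_div, div_le_div_iff₀ (by positivity) hn]
    have hp : 0 ≤ h * x ^ s.re := by positivity
    calc ‖((x + h : ℝ) : ℂ) ^ (s + 1) - (x : ℂ) ^ (s + 1)‖ * ‖s‖
        ≤ (‖s + 1‖ * (2 * x ^ s.re * h)) * ‖s‖ := mul_le_mul_of_nonneg_right hA1 hn.le
      _ = 2 * ((h * x ^ s.re) * (‖s‖ * ‖s + 1‖)) := by ring
      _ ≤ 8 * ((h * x ^ s.re) * (‖s‖ * ‖s + 1‖)) := by
        have : 0 ≤ (h * x ^ s.re) * (‖s‖ * ‖s + 1‖) := by positivity
        linarith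
      _ = h * x ^ s.re * (‖s‖ * ‖s + 1‖ * 8) := by ring
  have hq2 : Q / 8 ≤ x ^ (s.re + 1) / ‖s‖ ^ 2 := by
    rw [hQ, norm_mul, div_div, div_le_div_iff₀ (by positivity) (by positivity)]
    have hp : 0 ≤ x ^ (s.re + 1) := by positivity
    calc ‖((x + h : ℝ) : ℂ) ^ (s + 1) - (x : ℂ) ^ (s + 1)‖ * ‖s‖ ^ 2
        ≤ (8 * x ^ (s.re + 1)) * ‖s‖ ^ 2 := mul_le_mul_of_nonneg_right hA2 (by positivity)
      _ ≤ (8 * x ^ (s.re + 1)) * (‖s‖ * ‖s + 1‖) := by
        apply mul_le_mul_of_nonneg_left _ (by positivity)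
        rw [sq]
        exact mul_le_mul_of_nonneg_left hle hn.le
      _ = x ^ (s.re + 1) * (‖s‖ * ‖s + 1‖ * 8) := by ring
  have hu0 : 0 ≤ Q / 8 := by positivity
  have hsplit : Q / 8 = (Q / 8) ^ (1 - δ) * (Q / 8) ^ δ := by
    rcases hu0.eq_or_lt with h' | h'
    · rw [← h', Real.zero_rpow h0.ne', mul_zero]
    · rw [← Real.rpow_add h']
      simp
  have hfin : (Q / 8) ^ (1 - δ) * (Q / 8) ^ δ ≤
      (h * x ^ s.re / ‖s‖) ^ (1 - δ) * (x ^ (s.re + 1) / ‖s‖ ^ 2) ^ δ := by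
    apply mul_le_mul (Real.rpow_le_rpow hu0 hq1 (by linarith)) (Real.rpow_le_rpow hu0 hq2 h0.le)
      (Real.rpow_nonneg hu0 _) (by positivity)
  have heq : (h * x ^ s.re / ‖s‖) ^ (1 - δ) * (x ^ (s.re + 1) / ‖s‖ ^ 2) ^ δ =
      h ^ (1 - δ) * x ^ (s.re + δ) / ‖s‖ ^ (1 + δ) := by
    rw [Real.div_rpow (by positivity) hn.le, Real.mul_rpow hh.le (by positivity),
      Real.div_rpow (by positivity) (by positivity), ← Real.rpow_mul hx0.le, ← Real.rpow_mul hx0.le,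
      ← Real.rpow_natCast ‖s‖ 2, ← Real.rpow_mul hn.le]
    have e1 : x ^ (s.re * (1 - δ)) * x ^ ((s.re + 1) * δ) = x ^ (s.re + δ) := by
      rw [← Real.rpow_add hx0]
      congr 1
      ring
    have e2 : ‖s‖ ^ (1 - δ) * ‖s‖ ^ (((2 : ℕ) : ℝ) * δ) = ‖s‖ ^ (1 + δ) := by
      rw [← Real.rpow_add hn]
      congr 1
      push_cast
      ring
    rw [div_mul_div_comm, e2, mul_assoc, e1]
  have : Q / 8 ≤ h ^ (1 - δ) * x ^ (s.re + δ) / ‖s‖ ^ (1 + δ) := by
    rw [hsplit]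
    exact hfin.trans heq.le
  calc Q = 8 * (Q / 8) := by ring
    _ ≤ 8 * (h ^ (1 - δ) * x ^ (s.re + δ) / ‖s‖ ^ (1 + δ)) := by linarith
    _ = 8 * h ^ (1 - δ) * x ^ (s.re + δ) / ‖s‖ ^ (1 + δ) := by ring

end VO
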