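import Pool.Agent.H15.VO.PerA

/-!
# PerB : Perron's formula for the Dirichlet series of generalized integers

Sum of `perron_kernel` over `i`; the interchange: `‖a^(-(c + i y))‖ = a^(-c)` and the kernel is integrable
(`hasSum_integral_of_summable_integral_norm`).
-/

set_option autoImplicit false

open Complex MeasureTheory Set Filter Topology

namespace VO

theorem perron_sum {ι : Type} [Countable ι] {a : ι → ℝ} (ha : ∀ i, 1 ≤ a i) {c : ℝ} (hc : 1 < c)
    (hs : Summable fun i => a i ^ (-c)) {Z : ℂ → ℂ}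
    (hZ : ∀ s : ℂ, 1 < s.re → HasSum (fun i => (a i : ℂ) ^ (-s)) (Z s)) {x : ℝ} (hx : 0 < x) :
    (Summable fun i => max (x - a i) 0) ∧
    ((∑' i, max (x - a i) 0 : ℝ) : ℂ) = (1 / (2 * Real.pi) : ℂ) *
      ∫ y : ℝ, Z ((c : ℂ) + y * I) * ((x : ℂ) ^ ((c : ℂ) + y * I + 1) /
        (((c : ℂ) + y * I) * ((c : ℂ) + y * I + 1))) := by
  have hc0 : 0 < c := by linarith
  have hap : ∀ i, 0 < a i := fun i => lt_of_lt_of_le one_pos (ha i)
  set k : ℝ → ℂ := fun y => (x : ℂ) ^ ((c : ℂ) + y * I + 1) /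
      (((c : ℂ) + y * I) * ((c : ℂ) + y * I + 1)) with hk
  set F : ι → ℝ → ℂ := fun i y => k y * (a i : ℂ) ^ (-((c : ℂ) + y * I)) with hF
  have hint : ∀ i, Integrable (F i) := fun i => (perron_kernel hc0 hx (hap i)).1
  have hnorm : ∀ i y, ‖F i y‖ = a i ^ (-c) * ‖k y‖ := by
    intro i y
    rw [hF]
    show ‖k y * (a i : ℂ) ^ (-((c : ℂ) + y * I))‖ = _
    rw [norm_mul, norm_cpow_eq_rpow_re_of_pos (hap i)]
    have h5 : (-((c : ℂ) + y * I)).re = -c := by simp
    rw [h5, mul_comm]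
  have hinorm : ∀ i, ∫ y, ‖F i y‖ = a i ^ (-c) * ∫ y, ‖k y‖ := by
    intro i
    simp_rw [hnorm i]
    exact integral_const_mul _ _
  have hsum : Summable fun i => ∫ y, ‖F i y‖ := by
    simp_rw [hinorm]
    exact hs.mul_right _
  have hS := hasSum_integral_of_summable_integral_norm hint hsum
  have htsum : ∀ y : ℝ, ∑' i, F i y = Z ((c : ℂ) + y * I) * k y := by
    intro y
    have h1 : HasSum (fun i => (a i : ℂ) ^ (-((c : ℂ) + y * I))) (Z ((c : ℂ) + y * I)) := by
      apply hZ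
      simpa using hc
    rw [(h1.mul_left (k y)).tsum_eq, mul_comm]
  have hS2 : HasSum (fun i => ((max (x - a i) 0 : ℝ) : ℂ)) ((1 / (2 * Real.pi) : ℂ) *
      ∫ y : ℝ, ∑' i, F i y) := by
    have h1 := hS.mul_left (1 / (2 * Real.pi) : ℂ)
    have h2 : (fun i => ((max (x - a i) 0 : ℝ) : ℂ)) =
        fun i => (1 / (2 * Real.pi) : ℂ) * ∫ y : ℝ, F i y := by
      funext i
      exact (perron_kernel hc0 hx (hap i)).2
    rw [h2]
    exact h1
  have h3 : Summable fun i => max (x - a i) 0 := by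
    have := hS2.summable
    exact_mod_cast this
  refine ⟨h3, ?_⟩
  rw [Complex.ofReal_tsum, hS2.tsum_eq]
  simp_rw [htsum]
  rfl

end VO
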