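import Pool.Agent.H15.VO.Zs

/-!
# ZsB : Richert's bound

For `θ ≤ σ ≤ 1`, `|t| ≥ 3`, `a = 1 - σ`, `T = log (|t| + 3)`: `‖s / (s - 1)‖ ≤ 2`, `‖Ss‖ ≤ 6`, `‖Qs‖ ≤ C` and `Es_bound` with `ε = 1 / 40`,
`growth_E` with `a0 = 1 - θ`: `exp ‖Es‖ ≤ exp A (|t| + 3)^((B/2) a^(3/2)) T^(1/12)`, where `|t| + 3 ≤ 2 |t|`, `T ≤ 2 log |t|`.
`FF_bound` with `growth_blk` (`t := |t|`): `‖FF‖ ≤ A |t|^((B/2) a^(3/2)) (log |t|)^(7/12)`.
-/

set_option autoImplicit false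

open Complex MeasureTheory Set Filter Topology

namespace VO

variable {P : ℕ → Blk} {η u : ℕ → ℝ}

private theorem frac_le {s : ℂ} (h : 3 ≤ |s.im|) : ‖s / (s - 1)‖ ≤ 2 := by
  have h1 : |s.im| ≤ ‖s - 1‖ := by
    have := Complex.abs_im_le_norm (s - 1)
    simpa using this
  have h2 : ‖s‖ ≤ ‖s - 1‖ + 1 := by
    have := norm_add_le (s - 1) 1
    simpa using this
  have h3 : 0 < ‖s - 1‖ := by linarith
  rw [norm_div, div_le_iff₀ h3]
  linarith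

private theorem log_ge_one {x : ℝ} (h : 3 ≤ x) : 1 ≤ Real.log x := by
  rw [Real.le_log_iff_exp_le (by linarith)]
  have := Real.exp_one_lt_d9
  linarith

private theorem T_le {x : ℝ} (h : 3 ≤ x) : Real.log (x + 3) ≤ 2 * Real.log x := by
  have h1 : Real.log (x + 3) ≤ Real.log (x * x) := by
    apply Real.log_le_log (by linarith)
    nlinarith
  rw [Real.log_mul (by linarith) (by linarith)] at h1
  linarith

theorem Zt_richert {B : ℝ} (hB : 0 < B) (hP : Sparse P) (hc : ∀ n, Par (cB B) 100 (P n))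
    (hη : IsPart (fP P) η) (hu : IsSel (fP P) η u) {θ : ℝ} (hθ : 1 / 2 < θ) :
    ∃ A : ℝ, ∀ s : ℂ, θ ≤ s.re → s.re ≤ 1 → 3 ≤ |s.im| →
      ‖Zt P η u s‖ ≤ A * |s.im| ^ (B * (1 - s.re) ^ (3 / 2 : ℝ)) * Real.log |s.im| ^ (2 / 3 : ℝ) := by
  have hf := fP_dens hP
  obtain ⟨C, hC, hE⟩ := Es_bound hf hη hu hθ (show (0 : ℝ) < 1 / 40 by norm_num)
  obtain ⟨A1, hA1⟩ := growth_E (B := B) (C := C) (a0 := 1 - θ) hB (by linarith)
  obtain ⟨CQ, hCQ, hQ⟩ := Qs_bound (u_ge hη hu) (u_sum hη hu) hθ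
  obtain ⟨A2, hA2, hblk⟩ := growth_blk hB
  refine ⟨2 * max 2 A2 * (Real.exp (A1 + 6 + CQ) * 2 ^ (B / 2) * 2), ?_⟩
  intro s hs1 hs2 hs3
  set x : ℝ := |s.im| with hx
  set a : ℝ := 1 - s.re with ha
  have hx0 : 0 < x := by linarith
  have hx1 : 1 ≤ x := by linarith
  have ha0 : 0 ≤ a := by rw [ha]; linarith
  have haθ : a ≤ 1 - θ := by rw [ha]; linarith
  have ha1 : a ≤ 1 := by linarith
  have hL := log_ge_one hs3
  set L : ℝ := Real.log x with hLd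
  have hL0 : 0 < L := by linarith
  have ha32 : 0 ≤ a ^ (3 / 2 : ℝ) := Real.rpow_nonneg ha0 _
  have ha32' : a ^ (3 / 2 : ℝ) ≤ 1 := Real.rpow_le_one ha0 ha1 (by norm_num)
  set e : ℝ := B / 2 * a ^ (3 / 2 : ℝ) with he
  have he0 : 0 ≤ e := by positivity
  have heB : e ≤ B / 2 := by
    rw [he]
    nlinarith
  have hxe : 1 ≤ x ^ e := Real.one_le_rpow hx1 he0
  have hxe0 : 0 < x ^ e := by linarith
  have hL712 : 1 ≤ L ^ (7 / 12 : ℝ) := Real.one_le_rpow hL (by norm_num)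
  have hL112 : 1 ≤ L ^ (1 / 12 : ℝ) := Real.one_le_rpow hL (by norm_num)
  -- the first factor
  have f1 : ‖s / (s - 1)‖ ≤ 2 := frac_le hs3
  -- the second factor
  have f2 : ‖FF P s‖ ≤ max 2 A2 * (x ^ e * L ^ (7 / 12 : ℝ)) := by
    have hm2 : (2 : ℝ) ≤ max 2 A2 := le_max_left _ _
    have hmA : A2 ≤ max 2 A2 := le_max_right _ _
    have hp : 1 ≤ x ^ e * L ^ (7 / 12 : ℝ) := by nlinarith
    rcases FF_bound hP (s := s) (by linarith) with h | ⟨n, hn, h⟩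
    · nlinarith
    · have h1 := h a ha0 (by rw [ha]; linarith)
      have h2 := hblk (P n) (hc n) x hn a ha0 ha1
      have h3 : A2 * (x ^ e * L ^ (7 / 12 : ℝ)) ≤ max 2 A2 * (x ^ e * L ^ (7 / 12 : ℝ)) :=
        mul_le_mul_of_nonneg_right hmA (by linarith)
      calc ‖FF P s‖ ≤ _ := h1
        _ ≤ _ := h2
        _ = A2 * (x ^ e * L ^ (7 / 12 : ℝ)) := by rw [mul_assoc]
        _ ≤ _ := h3
  -- the third factor
  have f3 : ‖Complex.exp (Es (fP P) η u s - Ss (fP P) s + Qs u s)‖ ≤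
      Real.exp (A1 + 6 + CQ) * 2 ^ (B / 2) * 2 * (x ^ e * L ^ (1 / 12 : ℝ)) := by
    have h1 : ‖Es (fP P) η u s - Ss (fP P) s + Qs u s‖ ≤ ‖Es (fP P) η u s‖ + 6 + CQ := by
      refine (norm_add_le _ _).trans ?_
      refine add_le_add ((norm_sub_le _ _).trans ?_) (hQ s hs1)
      exact add_le_add le_rfl (Ss_bound hf (by linarith))
    have hT3 : 3 ≤ x + 3 := by linarith
    have hT : 1 ≤ Real.log (x + 3) := log_ge_one hT3
    have h2 := hE s hs1 (by linarith)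
    rw [max_eq_right ha0] at h2
    have h3 := hA1 (Real.log (x + 3)) hT a ha0 haθ
    have h4 : ‖Es (fP P) η u s‖ ≤ e * Real.log (x + 3) + 1 / 12 * Real.log (Real.log (x + 3)) + A1 :=
      h2.trans h3
    have h5 : ‖Complex.exp (Es (fP P) η u s - Ss (fP P) s + Qs u s)‖ ≤
        Real.exp ((A1 + 6 + CQ) + (Real.log (x + 3) * e + Real.log (Real.log (x + 3)) * (1 / 12))) := by
      refine (Complex.norm_exp_le_exp_norm _).trans ?_
      apply Real.exp_le_exp.2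
      linarith
    refine h5.trans ?_
    rw [Real.exp_add (A1 + 6 + CQ), Real.exp_add (Real.log (x + 3) * e),
      ← Real.rpow_def_of_pos (by linarith : (0 : ℝ) < x + 3),
      ← Real.rpow_def_of_pos (by linarith : (0 : ℝ) < Real.log (x + 3))]
    have h6 : (x + 3) ^ e ≤ 2 ^ (B / 2) * x ^ e := by
      calc (x + 3) ^ e ≤ (2 * x) ^ e := Real.rpow_le_rpow (by linarith) (by linarith) he0
        _ = 2 ^ e * x ^ e := Real.mul_rpow (by norm_num) hx0.le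
        _ ≤ 2 ^ (B / 2) * x ^ e :=
          mul_le_mul_of_nonneg_right (Real.rpow_le_rpow_of_exponent_le (by norm_num) heB) hxe0.le
    have h7 : Real.log (x + 3) ^ (1 / 12 : ℝ) ≤ 2 * L ^ (1 / 12 : ℝ) := by
      calc Real.log (x + 3) ^ (1 / 12 : ℝ) ≤ (2 * L) ^ (1 / 12 : ℝ) :=
            Real.rpow_le_rpow (by linarith) (T_le hs3) (by norm_num)
        _ = 2 ^ (1 / 12 : ℝ) * L ^ (1 / 12 : ℝ) := Real.mul_rpow (by norm_num) hL0.le
        _ ≤ 2 * L ^ (1 / 12 : ℝ) := by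
          apply mul_le_mul_of_nonneg_right _ (by linarith)
          calc (2 : ℝ) ^ (1 / 12 : ℝ) ≤ 2 ^ (1 : ℝ) :=
                Real.rpow_le_rpow_of_exponent_le (by norm_num) (by norm_num)
            _ = 2 := Real.rpow_one 2
    have h8 : (x + 3) ^ e * Real.log (x + 3) ^ (1 / 12 : ℝ) ≤
        2 ^ (B / 2) * x ^ e * (2 * L ^ (1 / 12 : ℝ)) :=
      mul_le_mul h6 h7 (Real.rpow_nonneg (by linarith) _) (by positivity)
    calc Real.exp (A1 + 6 + CQ) * ((x + 3) ^ e * Real.log (x + 3) ^ (1 / 12 : ℝ))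
        ≤ Real.exp (A1 + 6 + CQ) * (2 ^ (B / 2) * x ^ e * (2 * L ^ (1 / 12 : ℝ))) :=
          mul_le_mul_of_nonneg_left h8 (Real.exp_pos _).le
      _ = Real.exp (A1 + 6 + CQ) * 2 ^ (B / 2) * 2 * (x ^ e * L ^ (1 / 12 : ℝ)) := by ring
  have hxx : x ^ (B * a ^ (3 / 2 : ℝ)) = x ^ e * x ^ e := by
    rw [← Real.rpow_add hx0]
    congr 1
    rw [he]
    ring
  have hLL : L ^ (2 / 3 : ℝ) = L ^ (7 / 12 : ℝ) * L ^ (1 / 12 : ℝ) := by
    rw [← Real.rpow_add hL0]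
    norm_num
  have hm0 : 0 < max 2 A2 := lt_of_lt_of_le (by norm_num) (le_max_left _ _)
  unfold Zt
  rw [norm_mul, norm_mul, hxx, hLL]
  calc ‖s / (s - 1)‖ * ‖FF P s‖ * ‖Complex.exp (Es (fP P) η u s - Ss (fP P) s + Qs u s)‖
      ≤ 2 * (max 2 A2 * (x ^ e * L ^ (7 / 12 : ℝ))) *
        (Real.exp (A1 + 6 + CQ) * 2 ^ (B / 2) * 2 * (x ^ e * L ^ (1 / 12 : ℝ))) := by
        apply mul_le_mul _ f3 (norm_nonneg _) (by positivity)
        exact mul_le_mul f1 f2 (norm_nonneg _) (by norm_num)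
    _ = _ := by ring

end VO
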