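import Pool.Agent.H15.VO.Zs

/-!
# ZsL : the Lindelöf bound

As `ZsB`, with `growth_E_eps` and `growth_blk_eps` (`FF_bound` with `a = 1` for all `θ ≤ σ ≤ 2`). For `σ > 1` use
`max 0 (1 - σ) = 0 = a` in `growth_E_eps`. It is enough to treat `θ < 1`.
-/

set_option autoImplicit false

open Complex MeasureTheory Set Filter Topology

namespace VO

variable {P : ℕ → Blk} {η u : ℕ → ℝ}

private theorem frac_le {s : ℂ} (hs : 3 ≤ |s.im|) : ‖s / (s - 1)‖ ≤ 2 := by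
  have h1 : |s.im| ≤ ‖s - 1‖ := by
    have h2 := Complex.abs_im_le_norm (s - 1)
    rwa [Complex.sub_im, Complex.one_im, sub_zero] at h2
  have h3 : ‖s‖ ≤ ‖s - 1‖ + 1 := by
    calc ‖s‖ = ‖(s - 1) + 1‖ := by rw [sub_add_cancel]
      _ ≤ ‖s - 1‖ + ‖(1 : ℂ)‖ := norm_add_le _ _
      _ = ‖s - 1‖ + 1 := by rw [norm_one]
  rw [norm_div, div_le_iff₀ (by linarith)]
  linarith

theorem Zt_lindelof {c0 : ℝ} (h0 : 0 < c0) (hP : Sparse P) (hc : ∀ n, Par c0 100 (P n))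
    (hη : IsPart (fP P) η) (hu : IsSel (fP P) η u) {θ ε : ℝ} (hθ : 1 / 2 < θ) (hε : 0 < ε) :
    ∃ A : ℝ, ∀ s : ℂ, θ ≤ s.re → s.re ≤ 2 → 3 ≤ |s.im| → ‖Zt P η u s‖ ≤ A * |s.im| ^ ε := by
  have hf := fP_dens hP
  set θ' : ℝ := min θ (3 / 4) with hθ'
  have hθ1 : 1 / 2 < θ' := lt_min hθ (by norm_num)
  have hθ2 : θ' ≤ θ := min_le_left _ _
  have hθ3 : θ' ≤ 3 / 4 := min_le_right _ _
  set e : ℝ := ε / 2 with he
  have he0 : 0 < e := by rw [he]; linarith
  obtain ⟨C, hC, hEs⟩ := Es_bound hf hη hu hθ1 (show (0 : ℝ) < 1 / 40 by norm_num)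
  obtain ⟨A1, hA1⟩ := growth_E_eps (C := C) (a0 := 1 - θ') he0 (by linarith)
  obtain ⟨A2, hA2, hblk⟩ := growth_blk_eps h0 he0
  obtain ⟨CQ, hCQ, hQ⟩ := Qs_bound (u_ge hη hu) (u_sum hη hu) hθ1
  refine ⟨2 * (2 + A2) * (Real.exp A1 * 2 ^ e * Real.exp (6 + CQ)), fun s hs1 hs2 hs3 => ?_⟩
  have ht0 : 0 < |s.im| := by linarith
  have hσ : θ' ≤ s.re := hθ2.trans hs1
  have hte : 1 ≤ |s.im| ^ e := Real.one_le_rpow (by linarith) he0.le
  -- the entire product
  have hF : ‖FF P s‖ ≤ (2 + A2) * |s.im| ^ e := by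
    have h1 : 0 ≤ A2 * |s.im| ^ e := by positivity
    rcases FF_bound hP (s := s) (by linarith) with h | ⟨n, hn, h⟩
    · calc ‖FF P s‖ ≤ 2 * 1 := by linarith
        _ ≤ 2 * |s.im| ^ e := mul_le_mul_of_nonneg_left hte (by norm_num)
        _ ≤ (2 + A2) * |s.im| ^ e := by rw [add_mul]; linarith
    · have h2 := h 1 zero_le_one (by linarith)
      rw [mul_one] at h2
      have h3 := hblk (P n) (hc n) |s.im| hn
      have h4 : 0 ≤ 2 * |s.im| ^ e := by positivity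
      rw [add_mul]
      linarith
  -- the exponential
  have hT1 : 1 ≤ Real.log (|s.im| + 3) := by
    rw [Real.le_log_iff_exp_le (by linarith)]
    have := Real.exp_one_lt_d9
    linarith
  have hE : ‖Es (fP P) η u s‖ ≤ e * Real.log (|s.im| + 3) + A1 := by
    refine (hEs s hσ hs2).trans ?_
    exact hA1 _ hT1 _ (le_max_left _ _) (max_le (by linarith) (by linarith))
  have hexp : ‖Complex.exp (Es (fP P) η u s - Ss (fP P) s + Qs u s)‖ ≤
      Real.exp A1 * 2 ^ e * Real.exp (6 + CQ) * |s.im| ^ e := by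
    rw [Complex.norm_exp]
    have h1 : (Es (fP P) η u s - Ss (fP P) s + Qs u s).re ≤ e * Real.log (|s.im| + 3) + A1 + (6 + CQ) := by
      refine (Complex.re_le_norm _).trans ?_
      refine (norm_add_le _ _).trans ?_
      have h2 := norm_sub_le (Es (fP P) η u s) (Ss (fP P) s)
      have h3 := Ss_bound hf (s := s) (by linarith)
      have h4 := hQ s hσ
      linarith
    refine (Real.exp_le_exp.2 h1).trans ?_
    have h2 : Real.exp (e * Real.log (|s.im| + 3) + A1 + (6 + CQ)) =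
        Real.exp A1 * Real.exp (6 + CQ) * (|s.im| + 3) ^ e := by
      rw [Real.rpow_def_of_pos (by linarith : 0 < |s.im| + 3), ← Real.exp_add, ← Real.exp_add]
      congr 1
      ring
    rw [h2]
    have h3 : (|s.im| + 3) ^ e ≤ 2 ^ e * |s.im| ^ e := by
      rw [← Real.mul_rpow (by norm_num) ht0.le]
      exact Real.rpow_le_rpow (by linarith) (by linarith) he0.le
    calc Real.exp A1 * Real.exp (6 + CQ) * (|s.im| + 3) ^ e
        ≤ Real.exp A1 * Real.exp (6 + CQ) * (2 ^ e * |s.im| ^ e) := mul_le_mul_of_nonneg_left h3 (by positivity)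
      _ = Real.exp A1 * 2 ^ e * Real.exp (6 + CQ) * |s.im| ^ e := by ring
  unfold Zt
  rw [norm_mul, norm_mul]
  have h1 := frac_le hs3
  have h2 : ‖s / (s - 1)‖ * ‖FF P s‖ ≤ 2 * ((2 + A2) * |s.im| ^ e) :=
    mul_le_mul h1 hF (norm_nonneg _) (by norm_num)
  have h3 : |s.im| ^ ε = |s.im| ^ e * |s.im| ^ e := by
    rw [← Real.rpow_add ht0]
    congr 1
    rw [he]
    ring
  calc ‖s / (s - 1)‖ * ‖FF P s‖ * ‖Complex.exp (Es (fP P) η u s - Ss (fP P) s + Qs u s)‖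
      ≤ 2 * ((2 + A2) * |s.im| ^ e) * (Real.exp A1 * 2 ^ e * Real.exp (6 + CQ) * |s.im| ^ e) :=
        mul_le_mul h2 hexp (norm_nonneg _) (by positivity)
    _ = 2 * (2 + A2) * (Real.exp A1 * 2 ^ e * Real.exp (6 + CQ)) * |s.im| ^ ε := by
        rw [h3]
        ring

end VO
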