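import Pool.Agent.H15.VO.Fprod
import Pool.Agent.H15.VO.BlkL
import Pool.Agent.H15.VO.Dsum
import Pool.Agent.H15.VO.ParW
import Pool.Agent.H6.Win.LocLog

/-!
# ZwN : number of zeros of `FF` near a point of a window

`FF_low`: at `re s = 2` every factor `H n` is the exponential of the Laplace transform of `m n` (`Blk.H_log`), and
`|m n| ≤ (1/8) 2^(-n)` on the positive half line (`m_small`, `m_large`, `Sparse.eps0`), so `‖H n‖ ≥ exp (- (1/8) 2^(-n))`.
`FF_local`: `Pool.Agent.H6.loc_log` with centre `2 + i t`, `δ = (θ - 1 / 2) / 2` or smaller,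
`R1 < R2 < 3 / 2`; on the ball `re s ≥ 1 / 2` and `|s.im| < 4 K g`, so every `n'` in `FF_bound` is at most `n` and
`‖FF s‖ ≤ 512 exp (R n)` (`a = 1 / 2`). Zeros with `re ρ > 2` do not exist, use `FF_re_lt`.
-/

set_option autoImplicit false

open Complex MeasureTheory Set Filter Topology

namespace VO

variable {P : ℕ → Blk} {ω : ℝ → ℝ}

private theorem n_one_le_K (B : Blk) : (1 : ℝ) ≤ B.K := by
  have h1 := B.hK
  have h2 := B.hbR
  nlinarith

private theorem n_g_pos (hP : Sparse P) (n : ℕ) : 0 < (P n).g :=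
  lt_of_lt_of_le (by positivity) (g_ge hP n)

private theorem n_err_le (hP : Sparse P) (n : ℕ) :
    64 * ((P n).K : ℝ) * Real.exp (2 * (P n).R) / (P n).g ≤ 1 / 16 * (1 / 2) ^ n := by
  rw [div_le_iff₀ (n_g_pos hP n)]
  have h1 := hP.g0 n
  have h2 : (1 / 2 : ℝ) ^ n * 2 ^ n = 1 := by
    rw [← mul_pow]; norm_num
  have h3 : (0 : ℝ) < (1 / 2) ^ n := by positivity
  have h4 := mul_le_mul_of_nonneg_left h1 h3.le
  have h5 : (1 / 2 : ℝ) ^ n * (1024 * ((P n).K : ℝ) * Real.exp (2 * (P n).R) * 2 ^ n) =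
      1024 * ((P n).K : ℝ) * Real.exp (2 * (P n).R) := by
    linear_combination (1024 * ((P n).K : ℝ) * Real.exp (2 * (P n).R)) * h2
  rw [h5] at h4
  linarith

private theorem n_summable (hP : Sparse P) {s : ℂ} (hs : 0 ≤ s.re) :
    Summable fun n => ‖(P n).H s - 1‖ := by
  have hu : Summable fun n : ℕ => (1 / 16 : ℝ) * (1 / 2) ^ n :=
    (summable_geometric_of_lt_one (by norm_num) (by norm_num)).mul_left _
  refine Summable.of_norm_bounded_eventually_nat hu ?_
  have h1 : Tendsto (fun n : ℕ => (2 : ℝ) ^ n) atTop atTop := tendsto_pow_atTop_atTop_of_one_lt one_lt_two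
  filter_upwards [h1.eventually_ge_atTop |s.im|] with n hn
  rw [norm_norm]
  refine ((P n).H_far hs (Or.inl (hn.trans ?_))).trans (n_err_le hP n)
  have h2 := g_ge hP n
  have h3 : (0 : ℝ) < 2 ^ n := by positivity
  linarith

private theorem n_FF_eq (s : ℂ) : FF P s = ∏' n, (1 + ((P n).H s - 1)) := by
  unfold FF
  exact tprod_congr fun n => by ring

private theorem n_hasProd (hP : Sparse P) {s : ℂ} (hs : 0 ≤ s.re) :
    Tendsto (fun S : Finset ℕ => ∏ n ∈ S, (1 + ((P n).H s - 1))) atTop (𝓝 (FF P s)) := by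
  rw [n_FF_eq]
  exact (multipliable_one_add_of_summable (n_summable hP hs)).hasProd

private theorem n_lam_pos (B : Blk) : 0 < B.lam := by
  unfold Blk.lam
  have : 0 < B.R := by linarith [B.hR]
  positivity

/-- every factor is nonzero for `re s ≥ 1` -/
theorem FF_re_lt (hP : Sparse P) {s : ℂ} (h : FF P s = 0) (hs : 0 < s.re) : s.re < 1 := by
  obtain ⟨n, hn⟩ : ∃ n, (P n).H s = 0 := by
    by_contra hcon
    push Not at hcon
    have h1 : ∏' n, (1 + ((P n).H s - 1)) ≠ 0 := by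
      refine tprod_one_add_ne_zero_of_summable (fun n => ?_) (n_summable hP hs.le)
      rw [add_sub_cancel]
      exact hcon n
    apply h1
    rw [← h, n_FF_eq]
  have hl := n_lam_pos (P n)
  unfold Blk.H at hn
  obtain ⟨k, hk, hk0⟩ := Finset.prod_eq_zero_iff.1 hn
  rw [Finset.mem_Icc] at hk
  have hk1 : (1 : ℝ) ≤ (k : ℝ) := by exact_mod_cast hk.1
  have hk2 : 0 < (P n).lam * (k : ℝ) ^ 2 := by positivity
  have key : ∀ z : ℂ, z.re = s.re - 1 + (P n).lam * (k : ℝ) ^ 2 → (P n).Ph k z = 0 → s.re < 1 := by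
    intro z hz hz0
    by_contra hcon
    have hzp : 0 < z.re := by
      rw [hz]
      linarith
    have h1 := ((P n).Ph_log k hzp).2
    rw [hz0] at h1
    exact Complex.exp_ne_zero _ h1.symm
  have hre2 : ((P n).lam * (k : ℂ) ^ 2 : ℂ).re = (P n).lam * (k : ℝ) ^ 2 := by
    have : ((P n).lam * (k : ℂ) ^ 2 : ℂ) = (((P n).lam * (k : ℝ) ^ 2 : ℝ) : ℂ) := by push_cast; rfl
    rw [this, Complex.ofReal_re]
  have hre3 : (Complex.I * (k * (P n).g) : ℂ).re = 0 := by
    have : (Complex.I * (k * (P n).g) : ℂ) = Complex.I * (((k : ℝ) * (P n).g : ℝ) : ℂ) := by push_cast; rfl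
    rw [this]
    simp
  rcases mul_eq_zero.1 hk0 with h1 | h1
  · exact key _ (by rw [Complex.add_re, Complex.sub_re, Complex.sub_re, hre2, hre3, Complex.one_re, sub_zero]) h1
  · exact key _ (by rw [Complex.add_re, Complex.add_re, Complex.sub_re, hre2, hre3, Complex.one_re, add_zero]) h1

/-- every block is small for every `y` -/
private theorem n_abs_m (hP : Sparse P) {y : ℝ} (hy : 0 < y) (n : ℕ) :
    |(P n).m y| ≤ 1 / 8 * (1 / 2) ^ n := by
  have hR : 0 < (P n).R := by linarith [(P n).hR]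
  rcases lt_or_ge y (P n).R with h | h
  · refine ((P n).m_small hy h).trans ((hP.eps0 n).trans (le_of_eq ?_))
    rw [pow_add]
    norm_num
    ring
  · have h1 := (P n).m_large h
    have h2 : Real.exp (-(y / (P n).R)) ≤ 1 := by
      rw [Real.exp_le_one_iff]
      have := div_pos hy hR
      linarith
    have h3 : (24 : ℝ) ^ n ≤ y := (R_ge hP n).trans h
    have h4 : (2 : ℝ) ^ n ≤ y := (pow_le_pow_left₀ (by norm_num) (by norm_num) n).trans h3
    have h5 : (0 : ℝ) < 2 ^ n := by positivity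
    have h6 : |(P n).m y| * 2 ^ n ≤ 1 / 100 := by
      have := mul_le_mul_of_nonneg_left h4 (abs_nonneg ((P n).m y))
      linarith
    rw [one_div_pow, mul_one_div, le_div_iff₀ h5]
    linarith

private theorem n_H_low (hP : Sparse P) (n : ℕ) (t : ℝ) :
    Real.exp (-(1 / 8 * (1 / 2) ^ n)) ≤ ‖(P n).H (2 + t * I)‖ := by
  have hs : (1 : ℝ) < ((2 : ℂ) + t * I).re := by simp
  obtain ⟨hint, hexp⟩ := (P n).H_log hs
  rw [hexp, Complex.norm_exp]
  apply Real.exp_le_exp.2
  set c : ℝ := 1 / 8 * (1 / 2) ^ n with hc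
  have hb : ‖∫ y in Ioi (0 : ℝ), ((P n).m y : ℂ) * Complex.exp (-((2 : ℂ) + t * I - 1) * y)‖ ≤
      ∫ y in Ioi (0 : ℝ), c * Real.exp (-y) := by
    apply norm_integral_le_of_norm_le
    · exact (integrableOn_exp_neg_Ioi 0).const_mul c
    · filter_upwards [ae_restrict_mem measurableSet_Ioi] with y hy
      rw [norm_mul, Complex.norm_real, Real.norm_eq_abs, Complex.norm_exp]
      have h1 : (-((2 : ℂ) + t * I - 1) * y).re = -y := by
        simp
        ring
      rw [h1]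
      exact mul_le_mul_of_nonneg_right (n_abs_m hP hy n) (Real.exp_pos _).le
  rw [integral_const_mul, integral_exp_neg_Ioi_zero, mul_one] at hb
  have h2 := (abs_le.1 (Complex.abs_re_le_norm
    (∫ y in Ioi (0 : ℝ), ((P n).m y : ℂ) * Complex.exp (-((2 : ℂ) + t * I - 1) * y)))).1
  linarith

theorem FF_low (hP : Sparse P) (hc : ∀ n, ParW ω (P n)) (t : ℝ) : 1 / 4 ≤ ‖FF P (2 + t * I)‖ := by
  have hs : (0 : ℝ) ≤ ((2 : ℂ) + t * I).re := by simp
  refine ge_of_tendsto (n_hasProd hP hs).norm (Filter.Eventually.of_forall fun S => ?_)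
  rw [norm_prod]
  have h1 : Real.exp (-(1 / 4)) ≤ ∏ n ∈ S, Real.exp (-(1 / 8 * (1 / 2) ^ n)) := by
    rw [← Real.exp_sum]
    apply Real.exp_le_exp.2
    rw [Finset.sum_neg_distrib]
    apply neg_le_neg
    rw [← Finset.mul_sum]
    have h2 : ∑ n ∈ S, (1 / 2 : ℝ) ^ n ≤ 2 :=
      (summable_geometric_two.sum_le_tsum S (fun i _ => by positivity)).trans (le_of_eq tsum_geometric_two)
    linarith
  have h2 : ∏ n ∈ S, Real.exp (-(1 / 8 * (1 / 2) ^ n)) ≤ ∏ n ∈ S, ‖1 + ((P n).H (2 + t * I) - 1)‖ := by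
    refine Finset.prod_le_prod (fun n _ => (Real.exp_pos _).le) fun n _ => ?_
    rw [add_sub_cancel]
    exact n_H_low hP n t
  have h3 : (1 / 4 : ℝ) ≤ Real.exp (-(1 / 4)) := by
    have := Real.add_one_le_exp (-(1 / 4) : ℝ)
    linarith
  exact h3.trans (h1.trans h2)

private theorem n_g_mono (hP : Sparse P) : Monotone fun n => (P n).g := by
  refine monotone_nat_of_le_succ fun k => ?_
  have h1 := hP.g k
  have h2 := n_one_le_K (P k)
  have h3 := n_g_pos hP k
  nlinarith [mul_le_mul_of_nonneg_right h2 h3.le]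

private theorem n_R_mono (hP : Sparse P) : Monotone fun n => (P n).R := by
  refine monotone_nat_of_le_succ fun k => ?_
  have h1 := hP.R k
  have h2 := (P k).hR
  linarith

/-- the bound on the ball -/
private theorem n_ball (hP : Sparse P) (hc : ∀ n, ParW ω (P n)) {n k : ℕ} {t : ℝ} (hk : k ≤ (P n).K)
    (ht : |(|t| - k * (P n).g)| ≤ 4 * Real.exp (P n).R + 1) {z : ℂ} (hre : 1 / 2 ≤ z.re)
    (him : |z.im - t| ≤ 3 / 2) : ‖FF P z‖ ≤ 512 * Real.exp (P n).R := by
  have hexp1 : (1 : ℝ) ≤ Real.exp (P n).R := Real.one_le_exp (by linarith [(P n).hR])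
  rcases FF_bound hP (s := z) (by linarith) with h | ⟨m, hm1, hm2⟩
  · linarith
  · have hm3 := hm2 (1 / 2) (by norm_num) (by linarith)
    rw [(hc m).bR] at hm3
    have e1 : 2 * (P m).R * (1 / 2) = (P m).R := by ring
    rw [e1] at hm3
    have hmn : m ≤ n := by
      by_contra hcon
      have hlt : n + 1 ≤ m := by omega
      have h1 : (P (n + 1)).g ≤ (P m).g := n_g_mono hP hlt
      have h2 := hP.g n
      have hK : ((P n).K : ℝ) = 64 := by rw [(hc n).K]; norm_num
      rw [hK] at h2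
      have hg := (P n).hg
      rw [hK] at hg
      have he2 : Real.exp (P n).R ≤ Real.exp (2 * (P n).R) :=
        Real.exp_le_exp.2 (by linarith [(P n).hR])
      have hk' : (k : ℝ) ≤ 64 := by
        have : (k : ℝ) ≤ (P n).K := by exact_mod_cast hk
        linarith
      have hgp := n_g_pos hP n
      have h3 : (k : ℝ) * (P n).g ≤ 64 * (P n).g := mul_le_mul_of_nonneg_right hk' hgp.le
      have h4 := (abs_le.1 ht).2
      have h5 : |z.im| ≤ |t| + 3 / 2 := by
        have := abs_add_le (z.im - t) t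
        rw [sub_add_cancel] at this
        linarith
      linarith
    have h6 : (P m).R ≤ (P n).R := n_R_mono hP hmn
    have h7 := Real.exp_le_exp.2 h6
    linarith

theorem FF_local (hP : Sparse P) (hc : ∀ n, ParW ω (P n)) {θ : ℝ} (hθ : 1 / 2 < θ) :
    ∃ A δ : ℝ, 0 ≤ A ∧ 0 < δ ∧ ∀ (n k : ℕ) (t : ℝ), 1 ≤ k → k ≤ (P n).K →
      |(|t| - k * (P n).g)| ≤ 4 * Real.exp (P n).R + 1 → ∀ S : Finset ℂ,
      (∀ ρ ∈ S, FF P ρ = 0 ∧ θ ≤ ρ.re ∧ |ρ.im - t| ≤ δ) →
      ∑ ρ ∈ S, (analyticOrderNatAt (FF P) ρ : ℝ) ≤ A * (P n).R := by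
  obtain ⟨e, he0, he1, heθ⟩ : ∃ e : ℝ, 0 < e ∧ e ≤ 1 / 4 ∧ 1 / 2 + e ≤ θ :=
    ⟨min (θ - 1 / 2) (1 / 4), lt_min (by linarith) (by norm_num), min_le_right _ _, by
      have := min_le_left (θ - 1 / 2) (1 / 4)
      linarith⟩
  obtain ⟨C, hC, hloc⟩ := Pool.Agent.H6.loc_log (R0 := 1 / 2) (R1 := 3 / 2 - e / 2) (R2 := 3 / 2 - e / 4)
    (by norm_num) (by linarith) (by linarith)
  refine ⟨2 * C, e / 2, by linarith, by linarith, ?_⟩
  intro n k t _ hkK ht S hS
  have hR64 := (hc n).R64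
  have hopen : IsOpen {s : ℂ | 0 < s.re} := isOpen_lt continuous_const Complex.continuous_re
  have hana : AnalyticOnNhd ℂ (FF P) {s : ℂ | 0 < s.re} := (FF_diff hP).analyticOnNhd hopen
  have hballre : ∀ z ∈ Metric.closedBall ((2 : ℂ) + t * I) (3 / 2 - e / 4),
      1 / 2 ≤ z.re ∧ |z.im - t| ≤ 3 / 2 := by
    intro z hz
    rw [Metric.mem_closedBall, dist_eq_norm] at hz
    have h1 := (abs_le.1 ((Complex.abs_re_le_norm (z - (2 + t * I))).trans hz)).1
    have h2 := (Complex.abs_im_le_norm (z - (2 + t * I))).trans hz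
    have h3 : (z - (2 + t * I)).re = z.re - 2 := by simp
    have h4 : (z - (2 + t * I)).im = z.im - t := by simp
    rw [h3] at h1
    rw [h4] at h2
    exact ⟨by linarith, by linarith⟩
  have hlow := FF_low hP hc t
  have hne : FF P (2 + t * I) ≠ 0 := by
    intro h0
    rw [h0, norm_zero] at hlow
    norm_num at hlow
  have hbound : ∀ z ∈ Metric.closedBall ((2 : ℂ) + t * I) (3 / 2 - e / 4),
      ‖FF P z‖ ≤ Real.exp (2 * (P n).R) * ‖FF P (2 + t * I)‖ := by
    intro z hz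
    obtain ⟨h1, h2⟩ := hballre z hz
    have h3 := n_ball hP hc hkK ht h1 h2
    have h4 : (2048 : ℝ) ≤ Real.exp (P n).R := by
      have := Real.quadratic_le_exp_of_nonneg (x := (P n).R) (by linarith)
      nlinarith
    have h5 : Real.exp (2 * (P n).R) = Real.exp (P n).R * Real.exp (P n).R := by
      rw [← Real.exp_add]
      ring_nf
    rw [h5]
    have h6 := Real.exp_pos (P n).R
    have h7 : 2048 * Real.exp (P n).R ≤ Real.exp (P n).R * Real.exp (P n).R :=
      mul_le_mul_of_nonneg_right h4 h6.le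
    have h8 : (0 : ℝ) ≤ Real.exp (P n).R * Real.exp (P n).R := by positivity
    nlinarith [mul_le_mul_of_nonneg_left hlow h8]
  obtain ⟨S0, hS0, -, hsum, -⟩ := hloc (FF P) (2 + t * I) (2 * (P n).R) (by linarith)
    (hana.mono fun z hz => by
      have := (hballre z hz).1
      change 0 < z.re
      linarith) hne hbound
  have hsub : S ⊆ S0 := by
    intro ρ hρ
    obtain ⟨h1, h2, h3⟩ := hS ρ hρ
    rw [hS0]
    refine ⟨?_, h1⟩
    have h4 : ρ.re < 1 := FF_re_lt hP h1 (by linarith)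
    rw [Metric.mem_closedBall, dist_eq_norm]
    have h5 : ‖ρ - (2 + t * I)‖ ^ 2 = (ρ.re - 2) ^ 2 + (ρ.im - t) ^ 2 := by
      rw [Complex.sq_norm, Complex.normSq_apply]
      simp
      ring
    have h6 : (ρ.im - t) ^ 2 ≤ (e / 2) ^ 2 := by
      rw [← sq_abs]
      exact pow_le_pow_left₀ (abs_nonneg _) h3 2
    have h7 : (ρ.re - 2) ^ 2 ≤ (3 / 2 - e) ^ 2 := by
      nlinarith
    have h8 : ‖ρ - (2 + t * I)‖ ^ 2 ≤ (3 / 2 - e / 2) ^ 2 := by
      rw [h5]
      nlinarith
    exact (pow_le_pow_iff_left₀ (norm_nonneg _) (by linarith) two_ne_zero).1 h8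
  calc ∑ ρ ∈ S, (analyticOrderNatAt (FF P) ρ : ℝ)
      ≤ ∑ ρ ∈ S0, (analyticOrderNatAt (FF P) ρ : ℝ) :=
        Finset.sum_le_sum_of_subset_of_nonneg hsub fun _ _ _ => Nat.cast_nonneg _
    _ ≤ C * (2 * (P n).R) := hsum
    _ = 2 * C * (P n).R := by ring

end VO
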